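import Pool.Agent.Lib.MP_b07157_ag.PS.Tw

/-!
# The normalized coefficients of a power series
-/

noncomputable section

namespace MPb07157

open Finset

variable {n : ℕ}

theorem cfun_zero (z : GG n) : cfun (0 : PowerSeries (RX n)) z = 0 := by
  unfold cfun
  split_ifs
  · rw [map_zero, AddMonoidAlgebra.coeff_zero, Finsupp.zero_apply, mul_zero]
  · rfl

theorem cfun_add (Y Y' : PowerSeries (RX n)) (z : GG n) :
    cfun (Y + Y') z = cfun Y z + cfun Y' z := by
  unfold cfun
  split_ifs
  · rw [map_add, AddMonoidAlgebra.coeff_add, Finsupp.add_apply, mul_add]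
  · rw [add_zero]

theorem cfun_LF (Y : PowerSeries (RX n)) : LF (cfun Y) := by
  refine ⟨⟨0, fun z hz => ?_⟩, fun m => ?_⟩
  · unfold cfun
    rw [if_neg (not_le.2 hz)]
  · refine (((PowerSeries.coeff m.toNat Y).coeff.support.finite_toSet).image
      (fun α : Fin n → ℤ => ((α, m) : GG n))).subset ?_
    rintro ⟨α, k⟩ ⟨hk, hz⟩
    have hk' : k = m := hk
    subst hk'
    refine ⟨α, ?_, rfl⟩
    rw [Finset.mem_coe, Finsupp.mem_support_iff]
    intro h0
    apply hz
    unfold cfun
    split_ifs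
    · show qpw LU (∑ i, α i) * (PowerSeries.coeff k.toNat Y).coeff α = 0
      rw [h0, mul_zero]
    · rfl

/-- Multiplication by a factor. -/
theorem cfun_fac (γ : Fin n → ℤ) (e : ℤ) (b : ℕ) (Y : PowerSeries (RX n)) (z : GG n) :
    cfun (((fac (uX γ e, b) : Polynomial (RX n)) : PowerSeries (RX n)) * Y) z =
      cfun Y z - qpw LU (∑ i, γ i - e) * cfun Y (z - (γ, (b : ℤ))) := by
  have hP : ((fac (uX γ e, b) : Polynomial (RX n)) : PowerSeries (RX n)) * Y =
      Y - PowerSeries.C ((uX γ e : (RX n)ˣ) : RX n) * (PowerSeries.X ^ b * Y) := by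
    have h1 : ((fac (uX γ e, b) : Polynomial (RX n)) : PowerSeries (RX n)) =
        1 - PowerSeries.C ((uX γ e : (RX n)ˣ) : RX n) * PowerSeries.X ^ b := by
      unfold fac
      rw [Polynomial.coe_sub, Polynomial.coe_one, Polynomial.coe_mul, Polynomial.coe_C,
        Polynomial.coe_pow, Polynomial.coe_X]
    rw [h1, sub_mul, one_mul, mul_assoc]
  rw [hP]
  obtain ⟨α, m⟩ := z
  have e0 : ((α, m) : GG n) - (γ, (b : ℤ)) = (α - γ, m - b) := rfl
  rw [e0]
  unfold cfun
  show (if 0 ≤ m then qpw LU (∑ i, α i) * (PowerSeries.coeff m.toNat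
      (Y - PowerSeries.C ((uX γ e : (RX n)ˣ) : RX n) * (PowerSeries.X ^ b * Y))).coeff α else 0) =
    (if 0 ≤ m then qpw LU (∑ i, α i) * (PowerSeries.coeff m.toNat Y).coeff α else 0) -
      qpw LU (∑ i, γ i - e) * (if 0 ≤ m - b then qpw LU (∑ i, (α - γ) i) *
        (PowerSeries.coeff (m - b).toNat Y).coeff (α - γ) else 0)
  by_cases hm : 0 ≤ m
  · rw [if_pos hm, if_pos hm, map_sub, PowerSeries.coeff_C_mul, PowerSeries.coeff_X_pow_mul']
    by_cases hb : b ≤ m.toNat
    · have hb' : 0 ≤ m - b := by omega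
      have e1 : (m - b).toNat = m.toNat - b := by omega
      rw [if_pos hb, if_pos hb', e1, uX_val, AddMonoidAlgebra.coeff_sub, Finsupp.sub_apply,
        AddMonoidAlgebra.coeff_single_mul_apply, mul_sub]
      congr 1
      have e2 : -γ + α = α - γ := by abel
      have e3 : ((LU ^ (-e) : Motˣ) : Mot) = qpw LU (-e) := rfl
      rw [e2, e3, ← mul_assoc, ← mul_assoc, ← qpw_add, ← qpw_add]
      congr 2
      have e4 : ∑ i, (α - γ) i = ∑ i, α i - ∑ i, γ i := by
        rw [← Finset.sum_sub_distrib]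
        rfl
      rw [e4]
      ring
    · have hb' : ¬ 0 ≤ m - b := by omega
      rw [if_neg hb, if_neg hb', mul_zero, sub_zero, mul_zero, sub_zero]
  · have hb' : ¬ 0 ≤ m - b := by omega
    rw [if_neg hm, if_neg hm, if_neg hb', mul_zero, sub_zero]

theorem cfun_C_mul (c : Mot) (Y : PowerSeries (RX n)) (z : GG n) :
    cfun (PowerSeries.C (AddMonoidAlgebra.single 0 c : RX n) * Y) z = c * cfun Y z := by
  unfold cfun
  split_ifs
  · rw [PowerSeries.coeff_C_mul, AddMonoidAlgebra.coeff_single_zero_mul]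
    ring
  · rw [mul_zero]

theorem cfun_monomial (u : RX n) (k : ℕ) :
    ∃ A : GG n →₀ Mot, ∀ z, cfun (PowerSeries.C u * PowerSeries.X ^ k) z = A z := by
  have h : (Function.support fun z : GG n => cfun (PowerSeries.C u * PowerSeries.X ^ k) z).Finite := by
    refine ((u.coeff.support.finite_toSet).image
      (fun α : Fin n → ℤ => ((α, (k : ℤ)) : GG n))).subset ?_
    rintro ⟨α, m⟩ hz
    rw [Function.mem_support] at hz
    have h1 : cfun (PowerSeries.C u * PowerSeries.X ^ k) ((α, m) : GG n) =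
        if 0 ≤ m then qpw LU (∑ i, α i) *
          (PowerSeries.coeff m.toNat (PowerSeries.C u * PowerSeries.X ^ k)).coeff α else 0 := rfl
    rw [h1, PowerSeries.coeff_C_mul_X_pow] at hz
    by_cases hm : 0 ≤ m
    · rw [if_pos hm] at hz
      by_cases hk : m.toNat = k
      · rw [if_pos hk] at hz
        refine ⟨α, ?_, ?_⟩
        · rw [Finset.mem_coe, Finsupp.mem_support_iff]
          intro h0
          exact hz (by rw [h0, mul_zero])
        · show ((α, (k : ℤ)) : GG n) = (α, m)
          rw [← hk, Int.toNat_of_nonneg hm]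
      · rw [if_neg hk, AddMonoidAlgebra.coeff_zero, Finsupp.zero_apply, mul_zero] at hz
        exact absurd rfl hz
    · rw [if_neg hm] at hz
      exact absurd rfl hz
  exact ⟨Finsupp.ofSupportFinite _ h, fun z => rfl⟩

end MPb07157
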