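import Pool.Agent.Lib.MP_b07157_ag.PS.Defs

/-!
# Cones of the normal fan, and flags of chosen vectors
-/

noncomputable section

namespace MPb07157

open MvPolynomial Finset

variable {n : ℕ} {f : MvPolynomial (Fin n) ℂ} {D : Finset (Fin n)} {s₀ : ℚ}

theorem car_add {k x y : GG n} (hx : x ∈ car f k) (hy : y ∈ car f k) : x + y ∈ car f k := by
  obtain ⟨a1, a2, a3, a4⟩ := hx
  obtain ⟨b1, b2, b3, b4⟩ := hy
  refine ⟨fun i => ?_, fun i hi => ?_, fun u hu => ?_, fun u hu hk => ?_⟩
  · exact add_nonneg (a1 i) (b1 i)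
  · change x.1 i + y.1 i = 0
    rw [a2 i hi, b2 i hi, add_zero]
  · rw [map_add]
    exact add_le_add (a3 u hu) (b3 u hu)
  · rw [map_add, a4 u hu hk, b4 u hu hk]
    rfl

theorem car_zero (k : GG n) : (0 : GG n) ∈ car f k := by
  refine ⟨fun i => le_refl _, fun i _ => rfl, fun u _ => ?_, fun u _ _ => ?_⟩
  · rw [map_zero]
    exact le_refl _
  · rw [map_zero]
    rfl

theorem car_nsmul {k x : GG n} (hx : x ∈ car f k) (m : ℕ) : m • x ∈ car f k := by
  induction m with
  | zero =>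
    rw [zero_nsmul]
    exact car_zero k
  | succ m ih =>
    rw [succ_nsmul]
    exact car_add ih hx

theorem car_subset {k k' : GG n} (h : k' ∈ car f k) : car f k' ⊆ car f k := by
  obtain ⟨_, a2, _, a4⟩ := h
  rintro z ⟨b1, b2, b3, b4⟩
  exact ⟨b1, fun i hi => b2 i (a2 i hi), b3, fun u hu hk => b4 u hu (a4 u hu hk)⟩

/-- The cones of the fan are faces of the ambient cone. -/
theorem car_face {k x y : GG n} (hx0 : ∀ i, 0 ≤ x.1 i) (hx1 : ∀ u ∈ f.support, x.2 ≤ dotH u x)
    (hy0 : ∀ i, 0 ≤ y.1 i) (hy1 : ∀ u ∈ f.support, y.2 ≤ dotH u y) (h : x + y ∈ car f k) :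
    x ∈ car f k := by
  obtain ⟨_, a2, _, a4⟩ := h
  refine ⟨hx0, fun i hi => ?_, hx1, fun u hu hk => ?_⟩
  · have h1 : x.1 i + y.1 i = 0 := a2 i hi
    have h2 := hx0 i
    have h3 := hy0 i
    omega
  · have h1 : dotH u (x + y) = x.2 + y.2 := a4 u hu hk
    rw [map_add] at h1
    have h2 := hx1 u hu
    have h3 := hy1 u hu
    omega

theorem IsB.eq_of_car_eq {k k' : GG n} (hk : IsB f D s₀ k) (hk' : IsB f D s₀ k')
    (h : car f k = car f k') : k = k' := by
  rw [← hk.bv, ← hk'.bv, h]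

theorem Fl.subset {F F' : Finset (GG n)} (hF : F ∈ Fl f D s₀) (h : F' ⊆ F) : F' ∈ Fl f D s₀ :=
  ⟨fun k hk => hF.1 k (h hk), fun k hk k' hk' => hF.2 k (h hk) k' (h hk')⟩

/-- The chosen vectors of a nonempty flag have a largest one. -/
theorem Fl.exists_top {F : Finset (GG n)} (hF : F ∈ Fl f D s₀) (hne : F.Nonempty) :
    ∃ t ∈ F, ∀ k ∈ F, k ∈ car f t := by
  classical
  obtain ⟨t, ht⟩ := F.exists_maximalFor (car f) hne
  refine ⟨t, ht.1, fun k hk => ?_⟩
  rcases hF.2 k hk t ht.1 with h | h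
  · exact h (hF.1 k hk).mem
  · exact ht.2 hk h (hF.1 k hk).mem

/-- The face of the sum of a flag. -/
theorem mem_Gk_sum {F : Finset (GG n)} (hF : F ∈ Fl f D s₀) {u : Fin n →₀ ℕ} :
    u ∈ Gk f (∑ k ∈ F, k) ↔ u ∈ f.support ∧ ∀ k ∈ F, dotH u k = k.2 := by
  unfold Gk
  rw [Finset.mem_filter]
  refine and_congr_right fun hu => ?_
  have h2 : (∑ k ∈ F, k).2 = ∑ k ∈ F, k.2 := Prod.snd_sum
  rw [map_sum, h2, eq_comm,
    Finset.sum_eq_sum_iff_of_le (fun k hk => (hF.1 k hk).mem.2.2.1 u hu)]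
  exact ⟨fun h k hk => (h k hk).symm, fun h k hk => (h k hk).symm⟩

private theorem flag_split (F : Finset (GG n)) (c : GG n → ℕ) {t : GG n} (ht : t ∈ F)
    (hc : 0 < c t) : ∑ k ∈ F, c k • k = t + ∑ k ∈ F, (Function.update c t (c t - 1)) k • k := by
  classical
  have h1 : ∀ k ∈ F, c k • k =
      (if k = t then t else 0) + (Function.update c t (c t - 1)) k • k := by
    intro k _
    by_cases hk : k = t
    · subst hk
      rw [if_pos rfl, Function.update_self]
      obtain ⟨m, hm⟩ : ∃ m, c k = m + 1 := ⟨c k - 1, by omega⟩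
      rw [hm, succ_nsmul, Nat.add_sub_cancel]
      abel
    · rw [if_neg hk, Function.update_of_ne hk, zero_add]
  rw [Finset.sum_congr rfl h1, Finset.sum_add_distrib, Finset.sum_ite_eq' F t, if_pos ht]

private theorem flag_split' (F : Finset (GG n)) (c : GG n → ℕ) {t : GG n} (ht : t ∈ F)
    (hc : 0 < c t) : ∑ k ∈ F, c k = 1 + ∑ k ∈ F, (Function.update c t (c t - 1)) k := by
  classical
  have h1 : ∀ k ∈ F, c k = (if k = t then 1 else 0) + (Function.update c t (c t - 1)) k := by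
    intro k _
    by_cases hk : k = t
    · subst hk
      rw [if_pos rfl, Function.update_self]
      omega
    · rw [if_neg hk, Function.update_of_ne hk, zero_add]
  rw [Finset.sum_congr rfl h1, Finset.sum_add_distrib, Finset.sum_ite_eq' F t, if_pos ht]

private theorem flag_amb {F : Finset (GG n)} (hF : F ∈ Fl f D s₀) (c : GG n → ℕ) :
    (∀ i, 0 ≤ (∑ k ∈ F, c k • k).1 i) ∧
      ∀ u ∈ f.support, (∑ k ∈ F, c k • k).2 ≤ dotH u (∑ k ∈ F, c k • k) := by
  constructor
  · intro i
    rw [Prod.fst_sum, Finset.sum_apply]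
    exact Finset.sum_nonneg fun k hk => nsmul_nonneg ((hF.1 k hk).mem.1 i) _
  · intro u hu
    rw [map_sum, Prod.snd_sum]
    refine Finset.sum_le_sum fun k hk => ?_
    rw [map_nsmul]
    exact nsmul_le_nsmul_right ((hF.1 k hk).mem.2.2.1 u hu) _

private theorem flag_zero {F : Finset (GG n)} (hF : F ∈ Fl f D s₀) (c : GG n → ℕ)
    (h : ∑ k ∈ F, c k • k = 0) : ∀ k ∈ F, c k = 0 := by
  have h1 : ∑ k ∈ F, (c k : ℤ) * k.2 = 0 := by
    have h2 := congrArg Prod.snd h
    rw [Prod.snd_sum] at h2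
    simpa using h2
  have h2 : ∀ k ∈ F, 0 ≤ (c k : ℤ) * k.2 := fun k hk =>
    mul_nonneg (Int.natCast_nonneg _) (hF.1 k hk).pos.le
  intro k hk
  have h3 := (Finset.sum_eq_zero_iff_of_nonneg h2).1 h1 k hk
  rcases mul_eq_zero.1 h3 with h4 | h4
  · exact_mod_cast h4
  · exact absurd h4 (hF.1 k hk).pos.ne'

/-- The top of the support of a combination. -/
private theorem flag_top {F : Finset (GG n)} (hF : F ∈ Fl f D s₀) (c : GG n → ℕ)
    (h : ∃ k ∈ F, c k ≠ 0) :
    ∃ t ∈ F, 0 < c t ∧ ∑ k ∈ F, c k • k ∈ car f t := by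
  classical
  obtain ⟨k0, hk0, hk0'⟩ := h
  have hsub : F.filter (fun k => c k ≠ 0) ⊆ F := Finset.filter_subset _ _
  obtain ⟨t, ht, htop⟩ := Fl.exists_top (Fl.subset hF hsub)
    ⟨k0, Finset.mem_filter.2 ⟨hk0, hk0'⟩⟩
  obtain ⟨ht1, ht2⟩ := Finset.mem_filter.1 ht
  refine ⟨t, ht1, Nat.pos_of_ne_zero ht2, ?_⟩
  refine Finset.sum_induction _ (fun x => x ∈ car f t) (fun a b => car_add) (car_zero t) ?_
  intro k hk
  by_cases hck : c k = 0
  · rw [hck, zero_nsmul]
    exact car_zero t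
  · exact car_nsmul (htop k (Finset.mem_filter.2 ⟨hk, hck⟩)) _

private theorem flag_aux {F F' : Finset (GG n)} (hF : F ∈ Fl f D s₀) (hF' : F' ∈ Fl f D s₀)
    (N : ℕ) : ∀ (c r : GG n → ℕ), (∀ k ∉ F, c k = 0) → (∀ k ∉ F', r k = 0) →
    ∑ k ∈ F, c k • k = ∑ k ∈ F', r k • k → ∑ k ∈ F, c k = N → c = r := by
  classical
  induction N with
  | zero =>
    intro c r hc hr h hN
    have h0 : ∀ k, c k = 0 := by
      intro k
      by_cases hk : k ∈ F
      · exact Finset.sum_eq_zero_iff.1 hN k hk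
      · exact hc k hk
    have h1 : ∑ k ∈ F', r k • k = 0 := by
      rw [← h]
      exact Finset.sum_eq_zero fun k _ => by rw [h0 k, zero_nsmul]
    have h2 := flag_zero hF' r h1
    funext k
    rw [h0 k]
    by_cases hk : k ∈ F'
    · exact (h2 k hk).symm
    · exact (hr k hk).symm
  | succ N ih =>
    intro c r hc hr h hN
    have hcne : ∃ k ∈ F, c k ≠ 0 := by
      by_contra hcon
      push Not at hcon
      rw [Finset.sum_eq_zero hcon] at hN
      omega
    have hrne : ∃ k ∈ F', r k ≠ 0 := by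
      by_contra hcon
      push Not at hcon
      have h1 : ∑ k ∈ F, c k • k = 0 := by
        rw [h]
        exact Finset.sum_eq_zero fun k hk => by rw [hcon k hk, zero_nsmul]
      obtain ⟨k, hk, hk'⟩ := hcne
      exact hk' (flag_zero hF c h1 k hk)
    obtain ⟨t, ht, hct, hxt⟩ := flag_top hF c hcne
    obtain ⟨t', ht', hrt, hxt'⟩ := flag_top hF' r hrne
    have e1 := flag_split F c ht hct
    have e2 := flag_split F' r ht' hrt
    have hm : t' ∈ car f t := by
      have h1 := flag_amb hF' (Function.update r t' (r t' - 1))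
      refine car_face (hF'.1 t' ht').mem.1 (hF'.1 t' ht').mem.2.2.1 h1.1 h1.2 ?_
      rw [← e2, ← h]
      exact hxt
    have hm' : t ∈ car f t' := by
      have h1 := flag_amb hF (Function.update c t (c t - 1))
      refine car_face (hF.1 t ht).mem.1 (hF.1 t ht).mem.2.2.1 h1.1 h1.2 ?_
      rw [← e1, h]
      exact hxt'
    have htt : t = t' := IsB.eq_of_car_eq (hF.1 t ht) (hF'.1 t' ht')
      (Set.Subset.antisymm (car_subset hm') (car_subset hm))
    subst htt
    have e3 := flag_split' F c ht hct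
    have key := ih (Function.update c t (c t - 1)) (Function.update r t (r t - 1)) ?_ ?_ ?_ ?_
    · funext k
      by_cases hk : k = t
      · subst hk
        have h1 := congrFun key k
        rw [Function.update_self, Function.update_self] at h1
        omega
      · have h1 := congrFun key k
        rwa [Function.update_of_ne hk, Function.update_of_ne hk] at h1
    · intro k hk
      rw [Function.update_of_ne (by rintro rfl; exact hk ht)]
      exact hc k hk
    · intro k hk
      rw [Function.update_of_ne (by rintro rfl; exact hk ht')]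
      exact hr k hk
    · rw [e1, e2] at h
      exact add_left_cancel h
    · omega

/-- The flags form a simplicial fan: nonnegative combinations are unique. -/
theorem flag_unique {F F' : Finset (GG n)} (hF : F ∈ Fl f D s₀) (hF' : F' ∈ Fl f D s₀)
    (c r : GG n → ℕ) (hc : ∀ k ∉ F, c k = 0) (hr : ∀ k ∉ F', r k = 0)
    (h : ∑ k ∈ F, c k • k = ∑ k ∈ F', r k • k) : c = r :=
  flag_aux hF hF' _ c r hc hr h rfl

end MPb07157
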