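import Pool.Agent.Lib.MP_b07157_ag.PS.Defs

/-!
# Generating functions of monoids: basic properties
-/

noncomputable section

namespace MPb07157

open Finset

variable {n : ℕ} {R : Type} [CommRing R]

theorem GF_empty (A : GG n →₀ R) (z : GG n) : GF ∅ A z = A z := by
  unfold GF
  have h : ∀ y : GG n, z - y ∈ AddSubmonoid.closure (((∅ : Finset (GG n))) : Set (GG n)) ↔ z = y := by
    intro y
    rw [Finset.coe_empty, AddSubmonoid.closure_empty, AddSubmonoid.mem_bot, sub_eq_zero]
  simp only [h]
  rw [Finsupp.sum, Finset.sum_ite_eq]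
  split_ifs with h1
  · rfl
  · exact (Finsupp.notMem_support_iff.1 h1).symm

theorem GF_zero (F : Finset (GG n)) (z : GG n) : GF F (0 : GG n →₀ R) z = 0 := by
  unfold GF
  exact Finsupp.sum_zero_index

theorem GF_add (F : Finset (GG n)) (A B : GG n →₀ R) (z : GG n) :
    GF F (A + B) z = GF F A z + GF F B z := by
  unfold GF
  classical
  exact Finsupp.sum_add_index' (fun y => by simp) (fun y a b => by split_ifs <;> simp)

theorem GF_smul (F : Finset (GG n)) (c : R) (A : GG n →₀ R) (z : GG n) :
    GF F (c • A) z = c * GF F A z := by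
  unfold GF
  rw [Finsupp.sum_smul_index (fun y => by simp), Finsupp.mul_sum]
  refine Finsupp.sum_congr fun y _ => ?_
  split_ifs <;> simp

theorem GF_shG (F : Finset (GG n)) (k : GG n) (A : GG n →₀ R) (z : GG n) :
    GF F (shG k A) z = GF F A (z - k) := by
  unfold GF shG
  classical
  rw [Finsupp.sum_mapDomain_index (fun y => by simp) (fun y a b => by split_ifs <;> simp)]
  refine Finsupp.sum_congr fun y _ => ?_
  rw [show z - (y + k) = z - k - y by abel]

private theorem gfb_nonneg {F : Finset (GG n)} (hF : ∀ k ∈ F, 0 < k.2) :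
    ∀ x ∈ AddSubmonoid.closure (F : Set (GG n)), 0 ≤ x.2 := by
  intro x hx
  induction hx using AddSubmonoid.closure_induction with
  | mem x hx => exact (hF x hx).le
  | zero => exact le_rfl
  | add x y _ _ hx hy => exact add_nonneg hx hy

private theorem gfb_cases {F : Finset (GG n)} {x : GG n}
    (hx : x ∈ AddSubmonoid.closure (F : Set (GG n))) :
    x = 0 ∨ ∃ k ∈ F, ∃ y ∈ AddSubmonoid.closure (F : Set (GG n)), x = k + y := by
  induction hx using AddSubmonoid.closure_induction_left with
  | zero => exact Or.inl rfl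
  | add_left x hx y hy _ => exact Or.inr ⟨x, hx, y, hy, rfl⟩

private theorem gfb_fin {F : Finset (GG n)} (hF : ∀ k ∈ F, 0 < k.2) (N : ℕ) :
    {x : GG n | x ∈ AddSubmonoid.closure (F : Set (GG n)) ∧ x.2 < (N : ℤ)}.Finite := by
  induction N with
  | zero =>
    refine Set.Finite.subset Set.finite_empty ?_
    rintro x ⟨hx, hx'⟩
    have h1 := gfb_nonneg hF x hx
    exfalso
    push_cast at hx'
    linarith
  | succ N ih =>
    have h1 : {x : GG n | x ∈ AddSubmonoid.closure (F : Set (GG n)) ∧ x.2 < ((N + 1 : ℕ) : ℤ)} ⊆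
        {0} ∪ ⋃ k ∈ (F : Set (GG n)), (fun y => k + y) ''
          {x : GG n | x ∈ AddSubmonoid.closure (F : Set (GG n)) ∧ x.2 < (N : ℤ)} := by
      rintro x ⟨hx, hx'⟩
      rcases gfb_cases hx with h | ⟨k, hk, y, hy, h⟩
      · exact Or.inl h
      · refine Or.inr (Set.mem_iUnion₂.2 ⟨k, hk, y, ⟨hy, ?_⟩, h.symm⟩)
        have h2 := hF k hk
        have h3 : x.2 = k.2 + y.2 := by rw [h]; rfl
        push_cast at hx'
        linarith
    refine Set.Finite.subset ?_ h1
    exact (Set.finite_singleton _).union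
      (Set.Finite.biUnion F.finite_toSet fun k _ => ih.image _)

private theorem gfb_b {F : Finset (GG n)} (hF : Ind F ∅) {k : GG n} (hk : k ∈ F) {x : GG n}
    (hx : x ∈ AddSubmonoid.closure ((F.erase k : Finset (GG n)) : Set (GG n))) :
    ¬ x - k ∈ AddSubmonoid.closure (F : Set (GG n)) := by
  classical
  intro h
  obtain ⟨c, -, hc⟩ := AddSubmonoid.mem_closure_finset.1 hx
  obtain ⟨c', -, hc'⟩ := AddSubmonoid.mem_closure_finset.1 h
  have e1 : ∑ a ∈ F, (fun a : GG n => (c' a : ℤ) - (if a = k then 0 else (c a : ℤ)) +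
      (if a = k then 1 else 0)) a • a = (((0 : Fin n → ℤ), 0) : GG n) := by
    have e2 : ∑ a ∈ F, (c' a : ℤ) • a = x - k := by
      rw [← hc']
      exact Finset.sum_congr rfl fun a _ => by rw [natCast_zsmul]
    have e3 : ∑ a ∈ F, (if a = k then (0 : ℤ) else (c a : ℤ)) • a = x := by
      rw [← Finset.add_sum_erase F _ hk, if_pos rfl, zero_smul, zero_add, ← hc]
      refine Finset.sum_congr rfl fun a ha => ?_
      rw [if_neg (Finset.ne_of_mem_erase ha), natCast_zsmul]
    have e4 : ∑ a ∈ F, (if a = k then (1 : ℤ) else 0) • a = k := by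
      rw [← Finset.add_sum_erase F _ hk, if_pos rfl, one_smul]
      rw [Finset.sum_eq_zero (fun a ha => by rw [if_neg (Finset.ne_of_mem_erase ha), zero_smul]),
        add_zero]
    simp only [add_smul, sub_smul, Finset.sum_add_distrib, Finset.sum_sub_distrib]
    rw [e2, e3, e4]
    show x - k - x + k = 0
    abel
  have e5 := (hF _ 0 (fun i _ => rfl) e1).2 k hk
  simp only [if_true, sub_zero] at e5
  have := Int.natCast_nonneg (c' k)
  omega

private theorem gfb_c {F : Finset (GG n)} {k : GG n} (hk : k ∈ F) {x : GG n}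
    (hx : x ∈ AddSubmonoid.closure (F : Set (GG n)))
    (hx' : ¬ x - k ∈ AddSubmonoid.closure (F : Set (GG n))) :
    x ∈ AddSubmonoid.closure ((F.erase k : Finset (GG n)) : Set (GG n)) := by
  classical
  obtain ⟨c, -, hc⟩ := AddSubmonoid.mem_closure_finset.1 hx
  rw [← Finset.add_sum_erase F _ hk] at hc
  by_cases h0 : c k = 0
  · rw [h0, zero_smul, zero_add] at hc
    rw [← hc]
    exact sum_mem fun a ha => nsmul_mem (AddSubmonoid.subset_closure ha) _
  · exfalso
    apply hx'
    have h1 : x - k = (c k - 1) • k + ∑ a ∈ F.erase k, c a • a := by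
      rw [← hc]
      have h2 : c k • k = (c k - 1) • k + k := by
        rw [← succ_nsmul, Nat.sub_add_cancel (Nat.one_le_iff_ne_zero.2 h0)]
      rw [h2]
      abel
    rw [h1]
    refine add_mem (nsmul_mem (AddSubmonoid.subset_closure hk) _)
      (sum_mem fun a ha => nsmul_mem (AddSubmonoid.subset_closure ?_) _)
    exact Finset.mem_of_mem_erase ha

theorem GF_LF {F : Finset (GG n)} (hF : ∀ k ∈ F, 0 < k.2) (A : GG n →₀ R) : LF (GF F A) := by
  have h0 := gfb_nonneg hF
  constructor
  · refine ⟨-∑ y ∈ A.support, |y.2|, fun z hz => ?_⟩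
    unfold GF
    refine Finset.sum_eq_zero fun y hy => ?_
    refine if_neg fun h1 => ?_
    have h2 := h0 _ h1
    have h3 : (z - y).2 = z.2 - y.2 := rfl
    have h4 : |y.2| ≤ ∑ y ∈ A.support, |y.2| :=
      Finset.single_le_sum (f := fun y : GG n => |y.2|) (fun y _ => abs_nonneg _) hy
    have h5 := neg_abs_le y.2
    linarith
  · intro m
    have h1 : {z : GG n | z.2 = m ∧ GF F A z ≠ 0} ⊆
        ⋃ y ∈ (A.support : Set (GG n)), (fun x => y + x) ''
          {x : GG n | x ∈ AddSubmonoid.closure (F : Set (GG n)) ∧ x.2 < ((m - y.2).toNat + 1 : ℕ)} := by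
      rintro z ⟨hz, hz'⟩
      unfold GF at hz'
      obtain ⟨y, hy, hy'⟩ := Finset.exists_ne_zero_of_sum_ne_zero hz'
      have h2 : z - y ∈ AddSubmonoid.closure (F : Set (GG n)) := by
        by_contra h
        exact hy' (if_neg h)
      refine Set.mem_iUnion₂.2 ⟨y, hy, z - y, ⟨h2, ?_⟩, add_sub_cancel y z⟩
      have h3 : (z - y).2 = m - y.2 := by rw [← hz]; rfl
      rw [h3]
      push_cast
      have := Int.self_le_toNat (m - y.2)
      linarith
    refine Set.Finite.subset ?_ h1
    refine Set.Finite.biUnion A.support.finite_toSet fun y _ => ?_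
    exact (gfb_fin hF _).image _

/-- Removal of a vector. -/
theorem GF_erase {F : Finset (GG n)} (hF : Ind F ∅) {k : GG n} (hk : k ∈ F)
    (A : GG n →₀ R) (z : GG n) : GF F A z - GF F A (z - k) = GF (F.erase k) A z := by
  unfold GF
  rw [← Finsupp.sum_sub]
  refine Finsupp.sum_congr fun y _ => ?_
  rw [show z - k - y = (z - y) - k by abel]
  obtain ⟨x, hx⟩ : ∃ x, x = z - y := ⟨_, rfl⟩
  rw [← hx]
  by_cases h2 : x ∈ AddSubmonoid.closure ((F.erase k : Finset (GG n)) : Set (GG n))
  · have h3 : x ∈ AddSubmonoid.closure (F : Set (GG n)) :=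
      AddSubmonoid.closure_mono (by exact_mod_cast Finset.erase_subset k F) h2
    have h4 : ¬ x - k ∈ AddSubmonoid.closure (F : Set (GG n)) := gfb_b hF hk h2
    rw [if_pos h2, if_pos h3, if_neg h4, sub_zero]
  · rw [if_neg h2]
    by_cases h3 : x - k ∈ AddSubmonoid.closure (F : Set (GG n))
    · have h4 : x ∈ AddSubmonoid.closure (F : Set (GG n)) := by
        have h5 := add_mem h3 (AddSubmonoid.subset_closure (s := (F : Set (GG n))) hk)
        rwa [sub_add_cancel] at h5
      rw [if_pos h3, if_pos h4, sub_self]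
    · have h4 : ¬ x ∈ AddSubmonoid.closure (F : Set (GG n)) := fun h => h2 (gfb_c hk h h3)
      rw [if_neg h3, if_neg h4, sub_zero]

end MPb07157
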