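import Pool.Agent.Lib.MP_b07157_ag.PS.Defs

/-!
# Twisted sums: basic properties
-/

noncomputable section

namespace MPb07157

open Finset

variable {n : ℕ} {R : Type} [CommRing R]

theorem qpw_zero (q : Rˣ) : qpw q 0 = 1 := by
  simp [qpw]

theorem qpw_add (q : Rˣ) (a b : ℤ) : qpw q (a + b) = qpw q a * qpw q b := by
  simp [qpw, zpow_add]

theorem LF.finite {φ : GG n → R} (hφ : LF φ) (z : GG n) :
    {e : Fin n → ℤ | φ (z + (e, 0)) ≠ 0}.Finite := by
  have hinj : Function.Injective fun e : Fin n → ℤ => z + ((e, 0) : GG n) := by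
    intro a b h
    have h2 := add_left_cancel h
    exact congrArg Prod.fst h2
  refine ((hφ.2 z.2).preimage hinj.injOn).subset ?_
  intro e he
  refine ⟨?_, he⟩
  simp

theorem LF.zero : LF (fun _ : GG n => (0 : R)) := by
  refine ⟨⟨0, fun _ _ => rfl⟩, fun m => ?_⟩
  simp

theorem LF.add {φ ψ : GG n → R} (hφ : LF φ) (hψ : LF ψ) : LF (fun z => φ z + ψ z) := by
  obtain ⟨⟨M, hM⟩, h1⟩ := hφ
  obtain ⟨⟨M', hM'⟩, h2⟩ := hψ
  refine ⟨⟨min M M', fun z hz => ?_⟩, fun m => ?_⟩
  · change φ z + ψ z = 0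
    rw [hM z (lt_of_lt_of_le hz (min_le_left _ _)), hM' z (lt_of_lt_of_le hz (min_le_right _ _)),
      add_zero]
  · refine ((h1 m).union (h2 m)).subset ?_
    rintro z ⟨hz, hz2⟩
    by_cases h : φ z = 0
    · right
      refine ⟨hz, fun h' => hz2 ?_⟩
      change φ z + ψ z = 0
      rw [h, h', add_zero]
    · left
      exact ⟨hz, h⟩

theorem LF.const_mul {φ : GG n → R} (c : R) (hφ : LF φ) : LF (fun z => c * φ z) := by
  obtain ⟨⟨M, hM⟩, h1⟩ := hφ
  refine ⟨⟨M, fun z hz => ?_⟩, fun m => ?_⟩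
  · change c * φ z = 0
    rw [hM z hz, mul_zero]
  · refine (h1 m).subset ?_
    rintro z ⟨hz, hz2⟩
    exact ⟨hz, fun h => hz2 (by change c * φ z = 0; rw [h, mul_zero])⟩

theorem LF.shift {φ : GG n → R} (hφ : LF φ) (k : GG n) : LF (fun z => φ (z - k)) := by
  obtain ⟨⟨M, hM⟩, h1⟩ := hφ
  refine ⟨⟨M + k.2, fun z hz => ?_⟩, fun m => ?_⟩
  · apply hM
    rw [Prod.snd_sub]
    linarith
  · have hinj : Function.Injective fun z : GG n => z - k := sub_left_injective
    refine ((h1 (m - k.2)).preimage hinj.injOn).subset ?_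
    rintro z ⟨hz, hz2⟩
    refine ⟨?_, hz2⟩
    rw [Prod.snd_sub, hz]

theorem LF.sum {α : Type} (s : Finset α) (φ : α → GG n → R) (h : ∀ i ∈ s, LF (φ i)) :
    LF (fun z => ∑ i ∈ s, φ i z) := by
  classical
  induction s using Finset.induction_on with
  | empty => simpa using (LF.zero : LF (fun _ : GG n => (0 : R)))
  | insert a s ha ih =>
    have h1 := (h a (Finset.mem_insert_self a s)).add
      (ih fun i hi => h i (Finset.mem_insert_of_mem hi))
    simpa only [Finset.sum_insert ha] using h1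

theorem LF.finsupp (A : GG n →₀ R) : LF (fun z => A z) := by
  classical
  refine ⟨?_, fun m => ?_⟩
  · obtain ⟨M, hM⟩ := ((A.support.image Prod.snd : Finset ℤ) : Set ℤ).toFinite.bddBelow
    refine ⟨M, fun z hz => ?_⟩
    by_contra h
    have h2 : z.2 ∈ ((A.support.image Prod.snd : Finset ℤ) : Set ℤ) := by
      rw [Finset.mem_coe]
      exact Finset.mem_image_of_mem _ (Finsupp.mem_support_iff.2 h)
    have h3 := hM h2
    omega
  · refine (A.support.finite_toSet).subset ?_
    rintro z ⟨_, hz2⟩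
    exact Finsupp.mem_support_iff.2 hz2

private lemma mul_fm {α : Type*} {s : Set α} (f : α → R) (r : R)
    (hs : (s ∩ Function.support f).Finite) : (r * ∑ᶠ a ∈ s, f a) = ∑ᶠ a ∈ s, r * f a :=
  (AddMonoidHom.mulLeft r).map_finsum_mem' hs

private lemma tw_fin (q : Rˣ) (J : Finset (Fin n)) {φ : GG n → R} (hφ : LF φ) (z : GG n) :
    (ejS J ∩ Function.support fun e : Fin n → ℤ => qpw q (-∑ i, e i) * φ (z + (e, 0))).Finite := by
  refine (hφ.finite z).subset ?_
  rintro e ⟨_, he⟩ h
  apply he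
  change qpw q (-∑ i, e i) * φ (z + (e, 0)) = 0
  rw [h, mul_zero]

theorem tw_add (q : Rˣ) (J : Finset (Fin n)) {φ ψ : GG n → R} (hφ : LF φ) (hψ : LF ψ)
    (z : GG n) : tw q J (fun z => φ z + ψ z) z = tw q J φ z + tw q J ψ z := by
  unfold tw
  rw [← finsum_mem_add_distrib' (tw_fin q J hφ z) (tw_fin q J hψ z)]
  simp only [mul_add]

theorem tw_const_mul (q : Rˣ) (J : Finset (Fin n)) (c : R) {φ : GG n → R} (hφ : LF φ)
    (z : GG n) : tw q J (fun z => c * φ z) z = c * tw q J φ z := by
  unfold tw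
  rw [mul_fm _ c (tw_fin q J hφ z)]
  simp only [mul_left_comm]

theorem tw_shift (q : Rˣ) (J : Finset (Fin n)) (φ : GG n → R) (k z : GG n) :
    tw q J (fun z => φ (z - k)) z = tw q J φ (z - k) := by
  unfold tw
  have h : ∀ e : Fin n → ℤ, z + ((e, 0) : GG n) - k = z - k + (e, 0) := fun e => by abel
  simp only [h]

theorem tw_sum (q : Rˣ) (J : Finset (Fin n)) {α : Type} (s : Finset α) (φ : α → GG n → R)
    (h : ∀ i ∈ s, LF (φ i)) (z : GG n) :
    tw q J (fun z => ∑ i ∈ s, φ i z) z = ∑ i ∈ s, tw q J (φ i) z := by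
  classical
  induction s using Finset.induction_on with
  | empty => simp [tw]
  | insert a s ha ih =>
    have h1 := h a (Finset.mem_insert_self a s)
    have h2 : ∀ i ∈ s, LF (φ i) := fun i hi => h i (Finset.mem_insert_of_mem hi)
    simp only [Finset.sum_insert ha]
    rw [tw_add q J h1 (LF.sum s φ h2), ih h2]

/-- If the twisted sums over `J` vanish then the twisted sums over a larger set vanish. -/
theorem tw_mono (q : Rˣ) {J J' : Finset (Fin n)} {φ : GG n → R} (hφ : LF φ) (hJ : J ⊆ J')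
    (h : ∀ z, tw q J φ z = 0) (z : GG n) : tw q J' φ z = 0 := by
  classical
  set F : (Fin n → ℤ) → R := fun e => qpw q (-∑ i, e i) * φ (z + (e, 0)) with hF
  set π : (Fin n → ℤ) → (Fin n → ℤ) := fun e i => if i ∈ J then 0 else e i with hπ
  set T : Finset (Fin n → ℤ) := (hφ.finite z).toFinset.filter fun e => e ∈ ejS J' with hT
  have hFz : ∀ e, F e ≠ 0 → φ (z + (e, 0)) ≠ 0 := by
    intro e he h0
    apply he
    rw [hF]
    change qpw q (-∑ i, e i) * φ (z + (e, 0)) = 0
    rw [h0, mul_zero]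
  have h1 : tw q J' φ z = ∑ e ∈ T, F e := by
    unfold tw
    apply finsum_mem_eq_sum_of_inter_support_eq
    ext e
    constructor
    · rintro ⟨he, hs⟩
      refine ⟨?_, hs⟩
      rw [hT, Finset.mem_coe, Finset.mem_filter, Set.Finite.mem_toFinset]
      exact ⟨hFz e hs, he⟩
    · rintro ⟨he, hs⟩
      rw [hT, Finset.mem_coe, Finset.mem_filter] at he
      exact ⟨he.2, hs⟩
  rw [h1, ← Finset.sum_fiberwise_of_maps_to (t := T.image π) (g := π)
    (fun e he => Finset.mem_image_of_mem π he)]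
  refine Finset.sum_eq_zero fun b hb => ?_
  obtain ⟨e0, he0, rfl⟩ := Finset.mem_image.1 hb
  have he0' : e0 ∈ ejS J' := (Finset.mem_filter.1 he0).2
  have hb' : ∀ i ∉ J', π e0 i = 0 := by
    intro i hi
    rw [hπ]
    change (if i ∈ J then 0 else e0 i) = 0
    rw [if_neg fun h => hi (hJ h)]
    exact he0' i hi
  have hbJ : ∀ i ∈ J, π e0 i = 0 := by
    intro i hi
    change (if i ∈ J then 0 else e0 i) = 0
    rw [if_pos hi]
  have h2 : ∑ e ∈ T.filter (fun e => π e = π e0), F e = ∑ᶠ e ∈ {e | π e = π e0}, F e := by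
    symm
    apply finsum_mem_eq_sum_of_inter_support_eq
    ext e
    constructor
    · rintro ⟨he, hs⟩
      refine ⟨?_, hs⟩
      rw [Finset.mem_coe, Finset.mem_filter, hT, Finset.mem_filter, Set.Finite.mem_toFinset]
      refine ⟨⟨hFz e hs, ?_⟩, he⟩
      intro i hi
      have h3 : π e i = π e0 i := congrFun he i
      rw [hb' i hi] at h3
      change (if i ∈ J then 0 else e i) = 0 at h3
      rwa [if_neg fun h => hi (hJ h)] at h3
    · rintro ⟨he, hs⟩
      rw [Finset.mem_coe, Finset.mem_filter] at he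
      exact ⟨he.2, hs⟩
  rw [h2]
  have h3 : ∑ᶠ e ∈ {e | π e = π e0}, F e =
      ∑ᶠ e ∈ ejS J, qpw q (-∑ i, π e0 i) * (qpw q (-∑ i, e i) * φ (z + (π e0, 0) + (e, 0))) := by
    apply finsum_mem_eq_of_bijOn (fun e => e - π e0)
    · refine ⟨?_, ?_, ?_⟩
      · intro e he i hi
        have h4 : π e i = π e0 i := congrFun he i
        change (if i ∈ J then 0 else e i) = π e0 i at h4
        rw [if_neg hi] at h4
        change e i - π e0 i = 0
        rw [h4, sub_self]
      · intro a _ b _ hab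
        exact sub_left_injective hab
      · intro e he
        refine ⟨e + π e0, ?_, by simp⟩
        change π (e + π e0) = π e0
        funext i
        change (if i ∈ J then 0 else (e + π e0) i) = π e0 i
        split_ifs with hi
        · exact (hbJ i hi).symm
        · rw [Pi.add_apply, he i hi, zero_add]
    · intro e _
      rw [hF]
      change qpw q (-∑ i, e i) * φ (z + (e, 0)) = _
      rw [← mul_assoc, ← qpw_add]
      congr 2
      · rw [← neg_add, ← Finset.sum_add_distrib]
        congr 1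
        refine Finset.sum_congr rfl fun i _ => ?_
        simp
      · rw [add_assoc]
        congr 1
        simp
  rw [h3, ← mul_fm _ _ (tw_fin q J hφ (z + (π e0, 0)))]
  have h5 := h (z + (π e0, 0))
  unfold tw at h5
  rw [h5, mul_zero]

end MPb07157
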