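import Pool.Agent.Lib.MP_b07157_ag.PS.Defs
import Pool.Agent.Lib.MP_b07157_ag.PS.Flag
import Pool.Agent.Lib.MP_b07157_ag.PS.Tw
import Pool.Agent.Lib.MP_b07157_ag.PS.GFb
import Pool.Agent.Lib.MP_b07157_ag.PS.Cf
import Pool.Agent.Lib.MP_b07157_ag.N3.Reg1

section

/-!
# Coset sums: the kernel
-/

noncomputable section

namespace MPb07157

open Finset

variable {n : ℕ} {R : Type} [CommRing R]

theorem csum_sub (F : Finset (GG n)) (A B : GG n →₀ R) (z : GG n) :
    csum F (A - B) z = csum F A z - csum F B z := by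
  classical
  unfold csum
  refine Finsupp.sum_sub_index ?_
  intro y a b
  split_ifs <;> simp

private theorem ker_shG_add (k : GG n) (A B : GG n →₀ R) :
    shG k (A + B) = shG k A + shG k B := Finsupp.mapDomain_add

private theorem ker_shG_zero (k : GG n) : shG k (0 : GG n →₀ R) = 0 := Finsupp.mapDomain_zero

private theorem ker_shG_neg (k : GG n) (A : GG n →₀ R) : shG k (-A) = -shG k A := by
  have h := ker_shG_add k A (-A)
  rw [add_neg_cancel, ker_shG_zero] at h
  exact (neg_eq_of_add_eq_zero_right h.symm).symm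

/-- The sums of differences of shifts. -/
private def kerS (F : Finset (GG n)) : AddSubgroup (GG n →₀ R) where
  carrier := {A | ∃ B : GG n → (GG n →₀ R), A = ∑ k ∈ F, (B k - shG k (B k))}
  zero_mem' := ⟨fun _ => 0, by simp [ker_shG_zero]⟩
  add_mem' := by
    rintro A A' ⟨B, rfl⟩ ⟨B', rfl⟩
    refine ⟨fun k => B k + B' k, ?_⟩
    rw [← Finset.sum_add_distrib]
    refine Finset.sum_congr rfl fun k _ => ?_
    rw [ker_shG_add]
    exact (add_sub_add_comm _ _ _ _).symm
  neg_mem' := by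
    rintro A ⟨B, rfl⟩
    refine ⟨fun k => -B k, ?_⟩
    rw [← Finset.sum_neg_distrib]
    refine Finset.sum_congr rfl fun k _ => ?_
    rw [ker_shG_neg, neg_sub, sub_neg_eq_add, neg_add_eq_sub]

private theorem ker_single (F : Finset (GG n)) {h : GG n}
    (hh : h ∈ AddSubgroup.closure (F : Set (GG n))) :
    ∀ (y : GG n) (a : R), Finsupp.single y a - Finsupp.single (y + h) a ∈ kerS (R := R) F := by
  classical
  induction hh using AddSubgroup.closure_induction with
  | mem k hk =>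
    intro y a
    refine ⟨fun k' => if k' = k then Finsupp.single y a else 0, ?_⟩
    rw [Finset.sum_eq_single_of_mem k (by simpa using hk)]
    · beta_reduce
      rw [if_pos rfl]
      unfold shG
      rw [Finsupp.mapDomain_single]
    · intro k' _ hk'
      beta_reduce
      rw [if_neg hk', ker_shG_zero, sub_zero]
  | zero =>
    intro y a
    rw [add_zero, sub_self]
    exact zero_mem _
  | add h h' _ _ ih ih' =>
    intro y a
    have e : Finsupp.single y a - Finsupp.single (y + (h + h')) a =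
        (Finsupp.single y a - Finsupp.single (y + h) a) +
          (Finsupp.single (y + h) a - Finsupp.single (y + h + h') a) := by
      rw [sub_add_sub_cancel, add_assoc]
    rw [e]
    exact add_mem (ih y a) (ih' (y + h) a)
  | neg h _ ih =>
    intro y a
    have e : Finsupp.single y a - Finsupp.single (y + -h) a =
        -(Finsupp.single (y + -h) a - Finsupp.single (y + -h + h) a) := by
      rw [neg_sub, neg_add_cancel_right]
    rw [e]
    exact neg_mem (ih (y + -h) a)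

/-- If all coset sums vanish then `A` is a sum of differences of shifts. -/
theorem csum_ker (F : Finset (GG n)) (A : GG n →₀ R) (h : ∀ z, csum F A z = 0) :
    ∃ B : GG n → (GG n →₀ R), A = ∑ k ∈ F, (B k - shG k (B k)) := by
  classical
  set H : AddSubgroup (GG n) := AddSubgroup.closure (F : Set (GG n)) with hH
  let r : GG n → GG n := fun y => (QuotientAddGroup.mk y : GG n ⧸ H).out
  have hr1 : ∀ y, r y - y ∈ H := by
    intro y
    have h1 : (QuotientAddGroup.mk (r y) : GG n ⧸ H) = QuotientAddGroup.mk y :=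
      Quotient.out_eq' _
    have h2 := QuotientAddGroup.eq.1 h1.symm
    rwa [neg_add_eq_sub] at h2
  have hr2 : ∀ y z, y - z ∈ H → r y = r z := by
    intro y z hyz
    have h1 : (QuotientAddGroup.mk z : GG n ⧸ H) = QuotientAddGroup.mk y := by
      rw [QuotientAddGroup.eq, neg_add_eq_sub]
      exact hyz
    simp only [r, h1]
  have hA : A = (A.sum fun y a => (Finsupp.single y a - Finsupp.single (r y) a)) +
      A.sum fun y a => Finsupp.single (r y) a := by
    rw [← Finsupp.sum_add]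
    simp only [sub_add_cancel]
    exact (Finsupp.sum_single A).symm
  have h1 : (A.sum fun y a => (Finsupp.single y a - Finsupp.single (r y) a)) ∈
      kerS (R := R) F := by
    unfold Finsupp.sum
    refine sum_mem fun y _ => ?_
    have h2 := ker_single (R := R) F (hr1 y) y (A y)
    rwa [add_sub_cancel] at h2
  have h2 : (A.sum fun y a => Finsupp.single (r y) a) = 0 := by
    ext z
    rw [Finsupp.sum_apply, Finsupp.coe_zero, Pi.zero_apply]
    by_cases hz : r z = z
    · rw [← h z]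
      unfold csum
      refine Finset.sum_congr rfl fun y _ => ?_
      beta_reduce
      rw [Finsupp.single_apply]
      by_cases hy : y - z ∈ H
      · rw [if_pos hy, if_pos ((hr2 y z hy).trans hz)]
      · rw [if_neg hy, if_neg]
        intro h3
        apply hy
        have h4 := hr1 y
        rw [h3] at h4
        rw [← neg_sub]
        exact neg_mem h4
    · refine Finset.sum_eq_zero fun y _ => ?_
      beta_reduce
      rw [Finsupp.single_apply, if_neg]
      intro h3
      apply hz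
      rw [← hr2 (r y) z (by rw [h3, sub_self]; exact zero_mem _)]
      rw [hr2 (r y) y (hr1 y)]
      exact h3
  rw [h2, add_zero] at hA
  obtain ⟨B, hB⟩ := h1
  exact ⟨B, hA.trans hB⟩

end MPb07157
end
end

section

/-!
# Coset sums: equivariant lifting
-/

noncomputable section

namespace MPb07157

open Finset

variable {n : ℕ} {R : Type} [CommRing R]

theorem lift76_cl {F : Finset (GG n)} {w : GG n} (hw : w ∈ AddSubgroup.closure (F : Set (GG n))) :
    ∃ c : GG n → ℤ, ∑ k ∈ F, c k • k = w := by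
  classical
  induction hw using AddSubgroup.closure_induction with
  | mem x hx =>
    refine ⟨fun k => if k = x then 1 else 0, ?_⟩
    have hx' : x ∈ F := by simpa using hx
    simp [ite_smul, hx']
  | zero => exact ⟨fun _ => 0, by simp⟩
  | add x y _ _ hx hy =>
    obtain ⟨c, hc⟩ := hx
    obtain ⟨d, hd⟩ := hy
    exact ⟨fun k => c k + d k, by simp only [add_smul, Finset.sum_add_distrib, hc, hd]⟩
  | neg x _ hx =>
    obtain ⟨c, hc⟩ := hx
    exact ⟨fun k => -c k, by simp only [neg_smul, Finset.sum_neg_distrib, hc]⟩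

theorem lift76_ind {J : Finset (Fin n)} {F : Finset (GG n)} (hF : Ind F J) {e : Fin n → ℤ}
    (he : e ∈ ejS J) (h : ((e, 0) : GG n) ∈ AddSubgroup.closure (F : Set (GG n))) : e = 0 := by
  obtain ⟨c, hc⟩ := lift76_cl h
  exact (hF c e he hc).1

theorem lift76_sub {J : Finset (Fin n)} {e e' : Fin n → ℤ} (he : e ∈ ejS J) (he' : e' ∈ ejS J) :
    e - e' ∈ ejS J := by
  intro i hi
  rw [Pi.sub_apply, he i hi, he' i hi, sub_zero]


theorem lift76_csum (F : Finset (GG n)) (A : GG n →₀ R) {y z : GG n}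
    (h : y - z ∈ AddSubgroup.closure (F : Set (GG n))) : csum F A y = csum F A z := by
  classical
  unfold csum
  refine Finsupp.sum_congr fun x _ => ?_
  have h1 : (x - y ∈ AddSubgroup.closure (F : Set (GG n))) ↔
      (x - z ∈ AddSubgroup.closure (F : Set (GG n))) := by
    have h2 : x - z = (x - y) + (y - z) := by abel
    rw [h2]
    exact (AddSubgroup.add_mem_cancel_right _ h).symm
  simp only [h1]

theorem lift76_ne (F : Finset (GG n)) (A : GG n →₀ R) {z : GG n} (h : csum F A z ≠ 0) :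
    ∃ y ∈ A.support, y - z ∈ AddSubgroup.closure (F : Set (GG n)) := by
  classical
  by_contra hcon
  push Not at hcon
  apply h
  unfold csum Finsupp.sum
  refine Finset.sum_eq_zero fun y hy => ?_
  exact if_neg (hcon y hy)

/-- The vectors supported on `U`, as a subgroup. -/
def lift76_E (U : Finset (Fin n)) : AddSubgroup (GG n) where
  carrier := {z | z.1 ∈ ejS U ∧ z.2 = 0}
  zero_mem' := ⟨fun _ _ => rfl, rfl⟩
  add_mem' := by
    rintro a b ⟨ha, ha'⟩ ⟨hb, hb'⟩
    refine ⟨fun i hi => ?_, ?_⟩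
    · rw [Prod.fst_add, Pi.add_apply, ha i hi, hb i hi, add_zero]
    · rw [Prod.snd_add, ha', hb', add_zero]
  neg_mem' := by
    rintro a ⟨ha, ha'⟩
    refine ⟨fun i hi => ?_, ?_⟩
    · rw [Prod.fst_neg, Pi.neg_apply, ha i hi, neg_zero]
    · rw [Prod.snd_neg, ha', neg_zero]

theorem lift76_mem {U : Finset (Fin n)} {e : Fin n → ℤ} (he : e ∈ ejS U) :
    ((e, 0) : GG n) ∈ lift76_E U := ⟨he, rfl⟩

theorem lift76_inter {U : Finset (Fin n)} {F : Finset (GG n)} (hF : Ind F U) {w : GG n}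
    (hw : w ∈ AddSubgroup.closure (F : Set (GG n))) (hw' : w ∈ lift76_E U) : w = 0 := by
  obtain ⟨w1, w2⟩ := w
  obtain ⟨h1, h2⟩ := hw'
  simp only at h1 h2
  subst h2
  rw [lift76_ind hF h1 hw]
  rfl

/-- The coset sums of `A` are the coset sums of an `A'` such that, for all `J ⊆ U`, the twisted sums
of `A'` over `J` vanish if those of the coset sums vanish. -/
theorem exists_lift (q : Rˣ) {U : Finset (Fin n)} {F : Finset (GG n)} (hF : Ind F U)
    (A : GG n →₀ R) :
    ∃ A' : GG n →₀ R, (∀ z, csum F A' z = csum F A z) ∧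
      ∀ J ⊆ U, (∀ z, tw q J (csum F A) z = 0) → ∀ z, tw q J (fun y => A' y) z = 0 := by
  classical
  obtain ⟨H, hH⟩ : ∃ H : AddSubgroup (GG n), H = AddSubgroup.closure (F : Set (GG n)) := ⟨_, rfl⟩
  obtain ⟨E, hE⟩ : ∃ E : AddSubgroup (GG n), E = lift76_E U := ⟨_, rfl⟩
  have hHE : ∀ w, w ∈ H → w ∈ E → w = 0 := fun w h1 h2 => by
    rw [hH] at h1
    rw [hE] at h2
    exact lift76_inter hF h1 h2
  have heE : ∀ e : Fin n → ℤ, e ∈ ejS U → ((e, 0) : GG n) ∈ E := fun e he => by
    rw [hE]; exact lift76_mem he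
  have hcs : ∀ y z, y - z ∈ H → csum F A y = csum F A z := fun y z h => by
    rw [hH] at h
    exact lift76_csum F A h
  obtain ⟨r, hr1, hr2⟩ : ∃ r : GG n → GG n, (∀ z, r z - z ∈ H ⊔ E) ∧
      ∀ z z', z - z' ∈ H ⊔ E → r z = r z' := by
    refine ⟨fun z => (QuotientAddGroup.mk z : GG n ⧸ (H ⊔ E)).out, fun z => ?_, fun z z' h => ?_⟩
    · have h1 : (QuotientAddGroup.mk ((QuotientAddGroup.mk z : GG n ⧸ (H ⊔ E)).out) :
          GG n ⧸ (H ⊔ E)) = QuotientAddGroup.mk z := Quotient.out_eq' _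
      rw [QuotientAddGroup.eq] at h1
      have h2 := neg_mem h1
      rwa [neg_add, neg_neg, ← sub_eq_add_neg] at h2
    · have h1 : (QuotientAddGroup.mk z : GG n ⧸ (H ⊔ E)) = QuotientAddGroup.mk z' := by
        rw [QuotientAddGroup.eq]
        have h2 := neg_mem h
        rwa [neg_sub, sub_eq_add_neg, add_comm] at h2
      simp only [h1]
  have hHs : H ≤ H ⊔ E := le_sup_left
  have hEs : E ≤ H ⊔ E := le_sup_right
  have hfin : (Function.support fun y : GG n => if y - r y ∈ E then csum F A y else 0).Finite := by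
    refine Set.Finite.subset (Set.Finite.biUnion (s := (A.support : Set (GG n)))
      A.support.finite_toSet (t := fun x => {y | y - r y ∈ E ∧ x - y ∈ H})
      (fun x _ => Set.Subsingleton.finite ?_)) ?_
    · rintro y ⟨h1, h2⟩ y' ⟨h1', h2'⟩
      have h3 : y - y' ∈ H := by
        have h4 := H.sub_mem h2' h2
        have h5 : x - y' - (x - y) = y - y' := by abel
        rwa [h5] at h4
      have h6 : y - y' ∈ E := by
        have h7 := hr2 y y' (hHs h3)
        have h8 := E.sub_mem h1 h1'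
        have h9 : y - r y - (y' - r y') = y - y' := by rw [h7]; abel
        rwa [h9] at h8
      exact sub_eq_zero.1 (hHE _ h3 h6)
    · intro y hy
      rw [Function.mem_support] at hy
      by_cases h : y - r y ∈ E
      · rw [if_pos h] at hy
        obtain ⟨x, hx, hxy⟩ := lift76_ne F A hy
        rw [← hH] at hxy
        exact Set.mem_biUnion (by exact_mod_cast hx) ⟨h, hxy⟩
      · rw [if_neg h] at hy
        exact absurd rfl hy
  obtain ⟨A', hA'⟩ : ∃ A' : GG n →₀ R, ∀ y, A' y = if y - r y ∈ E then csum F A y else 0 :=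
    ⟨Finsupp.ofSupportFinite _ hfin, fun _ => rfl⟩
  refine ⟨A', fun z => ?_, fun J hJ htw z => ?_⟩
  · obtain ⟨h, hh, e, he, hhe⟩ := AddSubgroup.mem_sup.1 (hr1 z)
    have hy1 : (z + h) - z ∈ H := by rwa [add_sub_cancel_left]
    have hy2 : r (z + h) = r z := hr2 _ _ (hHs hy1)
    have hy3 : (z + h) - r (z + h) ∈ E := by
      rw [hy2]
      have h1 : z + h - r z = -e := by
        have h2 : r z = h + e + z := by rw [hhe]; abel
        rw [h2]
        abel
      rw [h1]
      exact neg_mem he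
    have h1 : csum F A' z = A' (z + h) := by
      unfold csum Finsupp.sum
      rw [Finset.sum_eq_single (z + h)]
      · beta_reduce
        rw [← hH, if_pos hy1]
      · intro y hy hne
        beta_reduce
        rw [← hH]
        by_cases h2 : y - z ∈ H
        · exfalso
          rw [Finsupp.mem_support_iff, hA'] at hy
          have h3 : y - r y ∈ E := by
            by_contra h4
            rw [if_neg h4] at hy
            exact hy rfl
          apply hne
          have h5 : y - (z + h) ∈ H := by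
            have h6 := H.sub_mem h2 hy1
            have h7 : y - z - (z + h - z) = y - (z + h) := by abel
            rwa [h7] at h6
          have h8 : y - (z + h) ∈ E := by
            have h9 := E.sub_mem h3 hy3
            have h10 : y - r y - (z + h - r (z + h)) = y - (z + h) := by
              rw [hr2 _ _ (hHs h5)]; abel
            rwa [h10] at h9
          exact sub_eq_zero.1 (hHE _ h5 h8)
        · rw [if_neg h2]
      · intro h2
        rw [Finsupp.notMem_support_iff] at h2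
        rw [h2]
        exact ite_self _
    rw [h1, hA', if_pos hy3]
    exact hcs _ _ hy1
  · have hJe : ∀ e ∈ ejS J, ((e, 0) : GG n) ∈ E := fun e he => heE e fun i hi =>
      he i fun h => hi (hJ h)
    have hre : ∀ e ∈ ejS J, (z + (e, 0) - r (z + (e, 0)) ∈ E ↔ z - r z ∈ E) := fun e he => by
      have h1 : r (z + (e, 0)) = r z := hr2 _ _ (by
        rw [add_sub_cancel_left]; exact hEs (hJe e he))
      have h2 : z + (e, 0) - r z = (z - r z) + (e, 0) := by abel
      rw [h1, h2]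
      exact E.add_mem_cancel_right (hJe e he)
    by_cases hz : z - r z ∈ E
    · rw [← htw z]
      unfold tw
      refine finsum_mem_congr rfl fun e he => ?_
      beta_reduce
      rw [hA', if_pos ((hre e he).2 hz)]
    · have h1 : tw q J (fun y => A' y) z = ∑ᶠ e ∈ ejS J, (0 : R) := by
        unfold tw
        refine finsum_mem_congr rfl fun e he => ?_
        beta_reduce
        rw [hA', if_neg (fun h => hz ((hre e he).1 h)), mul_zero]
      rw [h1, finsum_mem_zero]

end MPb07157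
end
end

section

/-!
# Directions of flags
-/

noncomputable section

namespace MPb07157

open MvPolynomial Finset

variable {n : ℕ} {f : MvPolynomial (Fin n) ℂ} {D : Finset (Fin n)} {s₀ : ℚ}

private theorem h3_dotH {J : Finset (Fin n)} {e : Fin n → ℤ} (he : e ∈ ejS J) {j : Fin n}
    {u : Fin n →₀ ℕ} (h1 : u j = 1) (h0 : ∀ i ∈ J, i ≠ j → u i = 0) : dotH u ((e, 0) : GG n) = e j := by
  rw [dotH_apply]
  rw [Finset.sum_eq_single j]
  · show e j * ((u j : ℕ) : ℤ) = e j
    rw [h1]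
    simp
  · intro i _ hij
    show e i * ((u i : ℕ) : ℤ) = 0
    by_cases hi : i ∈ J
    · rw [h0 i hi hij]
      simp
    · rw [he i hi, zero_mul]
  · intro h
    exact absurd (Finset.mem_univ j) h


private theorem h3_rec {P : ℕ → ℕ → Prop} (h : ∀ l₀, ∃ l, l₀ ≤ l ∧ P l₀ l) :
    ∃ a L : ℕ → ℕ, (∀ i, P (a i) (L i)) ∧ StrictMono L := by
  choose L hL hP using h
  obtain ⟨a, ha⟩ : ∃ a : ℕ → ℕ, a = fun i => Nat.rec 0 (fun _ x => L x + 1) i := ⟨_, rfl⟩
  have ha1 : ∀ i, a (i + 1) = L (a i) + 1 := fun i => by rw [ha]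
  refine ⟨a, fun i => L (a i), fun i => hP _, strictMono_nat_of_lt_succ fun i => ?_⟩
  have := hL (a (i + 1))
  rw [ha1 i] at this ⊢
  omega

private theorem h3_snd {F : Finset (GG n)} (hF : F ∈ Fl f D s₀) (c : GG n → ℕ) :
    ((∑ i, (∑ k ∈ F, c k • k).1 i : ℤ) : ℚ) = -s₀ * (∑ k ∈ F, c k • k).2 := by
  have h1 : ∀ i, (∑ k ∈ F, c k • k).1 i = ∑ k ∈ F, (c k : ℤ) * k.1 i := by
    intro i
    rw [Prod.fst_sum, Finset.sum_apply]
    refine Finset.sum_congr rfl fun k _ => ?_
    simp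
  have h2 : (∑ k ∈ F, c k • k).2 = ∑ k ∈ F, (c k : ℤ) * k.2 := by
    rw [Prod.snd_sum]
    refine Finset.sum_congr rfl fun k _ => ?_
    simp
  rw [h2]
  simp only [h1]
  rw [Finset.sum_comm]
  push_cast
  rw [Finset.mul_sum]
  refine Finset.sum_congr rfl fun k hk => ?_
  rw [← Finset.mul_sum]
  have h3 := (hF.1 k hk).s0 k (hF.1 k hk).mem
  push_cast at h3
  rw [h3]
  ring

/-- Far away in the direction of the sum of a flag `F`, modulo the vectors supported on `J`, we
leave the monoid of every flag that does not contain `F`. -/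
theorem Fl.h3 {F F' : Finset (GG n)} (hF : F ∈ Fl f D s₀) (hF' : F' ∈ Fl f D s₀)
    (hFF' : ¬ F ⊆ F') {J : Finset (Fin n)}
    (hJ : ∀ j ∈ J, ∃ u ∈ f.support, (∀ k ∈ F, dotH u k = k.2) ∧ u j = 1 ∧
      ∀ i ∈ J, i ≠ j → u i = 0) (z : GG n) :
    ∃ l₀ : ℕ, ∀ l ≥ l₀, ∀ e ∈ ejS J,
      z + l • ∑ k ∈ F, k + ((e, 0) : GG n) ∉ AddSubmonoid.closure (F' : Set (GG n)) := by
  classical
  by_contra hcon
  have hcon' : ∀ l₀ : ℕ, ∃ l, l₀ ≤ l ∧ ∃ e ∈ ejS J,
      z + l • ∑ k ∈ F, k + ((e, 0) : GG n) ∈ AddSubmonoid.closure (F' : Set (GG n)) := by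
    intro l₀
    by_contra h
    apply hcon
    refine ⟨l₀, fun l hl e he hm => h ⟨l, hl, e, he, hm⟩⟩
  obtain ⟨a, L, hL, hmono⟩ := h3_rec hcon'
  choose e he hm using hL
  have hr : ∀ i, ∃ r : GG n → ℕ, (∀ k ∉ F', r k = 0) ∧ ∑ k ∈ F', r k • k =
      z + L i • ∑ k ∈ F, k + ((e i, 0) : GG n) := by
    intro i
    obtain ⟨r, h1, h2⟩ := AddSubmonoid.mem_closure_finset.1 (hm i)
    refine ⟨r, fun k hk => ?_, h2⟩
    by_contra h
    exact hk (h1 (Function.mem_support.2 h))
  choose r hr0 hrs using hr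
  obtain ⟨i, i', hii, hle⟩ := (wellQuasiOrdered_le (α := F' → ℕ)) (fun i k => r i k)
  have hle' : ∀ k ∈ F', r i k ≤ r i' k := fun k hk => hle ⟨k, hk⟩
  obtain ⟨lam, hlam⟩ : ∃ lam : ℕ, lam = L i' - L i := ⟨_, rfl⟩
  have hlt := hmono hii
  have hlam0 : 0 < lam := by omega
  obtain ⟨rr, hrr⟩ : ∃ rr : GG n → ℕ, rr = fun k => r i' k - r i k := ⟨_, rfl⟩
  obtain ⟨ee, hee⟩ : ∃ ee : Fin n → ℤ, ee = e i' - e i := ⟨_, rfl⟩
  have heJ : ee ∈ ejS J := fun j hj => by
    rw [hee, Pi.sub_apply, he i' j hj, he i j hj, sub_zero]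
  have hrr0 : ∀ k ∉ F', rr k = 0 := fun k hk => by
    rw [hrr]
    show r i' k - r i k = 0
    rw [hr0 i' k hk, hr0 i k hk]
  have hmain : ∑ k ∈ F', rr k • k = lam • ∑ k ∈ F, k + ((ee, 0) : GG n) := by
    have h1 : ∑ k ∈ F', rr k • k + ∑ k ∈ F', r i k • k = ∑ k ∈ F', r i' k • k := by
      rw [← Finset.sum_add_distrib]
      refine Finset.sum_congr rfl fun k hk => ?_
      rw [← add_smul, hrr]
      show (r i' k - r i k + r i k) • k = _
      rw [Nat.sub_add_cancel (hle' k hk)]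
    rw [hrs, hrs] at h1
    have h2 : L i' • ∑ k ∈ F, k = lam • ∑ k ∈ F, k + L i • ∑ k ∈ F, k := by
      rw [← add_smul, hlam, Nat.sub_add_cancel hlt.le]
    have h3 : ((e i', 0) : GG n) = ((ee, 0) : GG n) + ((e i, 0) : GG n) := by
      rw [hee]
      ext <;> simp
    rw [h2, h3] at h1
    have h4 := eq_sub_of_add_eq h1
    rw [h4]
    abel
  -- the second coordinate and the sum of the coordinates
  have hsnd : (∑ k ∈ F', rr k • k).2 = (lam • ∑ k ∈ F, k).2 := by
    rw [hmain]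
    show (lam • ∑ k ∈ F, k).2 + 0 = _
    rw [add_zero]
  have hsum : ∑ j, ee j = 0 := by
    have h1 := h3_snd hF' rr
    have h2 := h3_snd hF (fun _ => lam)
    have h3 : ∑ k ∈ F, lam • k = lam • ∑ k ∈ F, k := by rw [Finset.smul_sum]
    rw [h3] at h2
    rw [hsnd, ← h2, hmain] at h1
    have h4 : ∀ i, (lam • ∑ k ∈ F, k + ((ee, 0) : GG n)).1 i = (lam • ∑ k ∈ F, k).1 i + ee i := fun i => rfl
    simp only [h4, Finset.sum_add_distrib] at h1
    have h5 : (((∑ i, (lam • ∑ k ∈ F, k).1 i : ℤ) + ∑ i, ee i : ℤ) : ℚ) = ((∑ i, (lam • ∑ k ∈ F, k).1 i : ℤ) : ℚ) := h1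
    have h6 : (∑ i, (lam • ∑ k ∈ F, k).1 i : ℤ) + ∑ i, ee i = ∑ i, (lam • ∑ k ∈ F, k).1 i := by exact_mod_cast h5
    omega
  have hpos : ∀ j, 0 ≤ ee j := by
    intro j
    by_cases hj : j ∈ J
    · obtain ⟨u, hu, huF, h1, h0⟩ := hJ j hj
      have h2 := congrArg (dotH u) hmain
      rw [map_add, h3_dotH heJ h1 h0, map_sum, map_nsmul, map_sum] at h2
      have h3 : ∑ k ∈ F, dotH u k = (∑ k ∈ F, k).2 := by
        rw [Prod.snd_sum]
        exact Finset.sum_congr rfl fun k hk => huF k hk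
      have h4 : (∑ k ∈ F', rr k • k).2 ≤ ∑ k ∈ F', dotH u (rr k • k) := by
        rw [Prod.snd_sum]
        refine Finset.sum_le_sum fun k hk => ?_
        rw [map_nsmul]
        show rr k • k.2 ≤ rr k • dotH u k
        exact nsmul_le_nsmul_right ((hF'.1 k hk).mem.2.2.1 u hu) _
      rw [hsnd, h2, h3] at h4
      have h5 : (lam • ∑ k ∈ F, k).2 = lam • (∑ k ∈ F, k).2 := rfl
      rw [h5] at h4
      linarith
    · rw [heJ j hj]
  have hee0 : ee = 0 := by
    funext j
    exact (Finset.sum_eq_zero_iff_of_nonneg fun j _ => hpos j).1 hsum j (Finset.mem_univ j)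
  have key := flag_unique hF hF' (fun k => if k ∈ F then lam else 0) rr (fun k hk => if_neg hk) hrr0 (by
    rw [hmain, hee0, Finset.smul_sum]
    have h1 : ((0, 0) : GG n) = 0 := rfl
    rw [h1, add_zero]
    exact Finset.sum_congr rfl fun k hk => by rw [if_pos hk])
  apply hFF'
  intro k hk
  by_contra hk'
  have h1 := congrFun key k
  simp only [if_pos hk] at h1
  rw [hrr0 k hk'] at h1
  omega

end MPb07157
end
end

section

/-!
# Twisted sums of generating functions far away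
-/

noncomputable section

namespace MPb07157

open Finset

variable {n : ℕ} {R : Type} [CommRing R]

theorem lim76_cl {F : Finset (GG n)} {w : GG n} (hw : w ∈ AddSubgroup.closure (F : Set (GG n))) :
    ∃ c : GG n → ℤ, ∑ k ∈ F, c k • k = w := by
  classical
  induction hw using AddSubgroup.closure_induction with
  | mem x hx =>
    refine ⟨fun k => if k = x then 1 else 0, ?_⟩
    have hx' : x ∈ F := by simpa using hx
    simp [ite_smul, hx']
  | zero => exact ⟨fun _ => 0, by simp⟩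
  | add x y _ _ hx hy =>
    obtain ⟨c, hc⟩ := hx
    obtain ⟨d, hd⟩ := hy
    exact ⟨fun k => c k + d k, by simp only [add_smul, Finset.sum_add_distrib, hc, hd]⟩
  | neg x _ hx =>
    obtain ⟨c, hc⟩ := hx
    exact ⟨fun k => -c k, by simp only [neg_smul, Finset.sum_neg_distrib, hc]⟩

theorem lim76_ind {J : Finset (Fin n)} {F : Finset (GG n)} (hF : Ind F J) {e : Fin n → ℤ}
    (he : e ∈ ejS J) (h : ((e, 0) : GG n) ∈ AddSubgroup.closure (F : Set (GG n))) : e = 0 := by
  obtain ⟨c, hc⟩ := lim76_cl h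
  exact (hF c e he hc).1

theorem lim76_sub {J : Finset (Fin n)} {e e' : Fin n → ℤ} (he : e ∈ ejS J) (he' : e' ∈ ejS J) :
    e - e' ∈ ejS J := by
  intro i hi
  rw [Pi.sub_apply, he i hi, he' i hi, sub_zero]


theorem lim76_key (F : Finset (GG n)) {w : GG n}
    (hw : w ∈ AddSubgroup.closure (F : Set (GG n))) :
    ∃ l₀ : ℕ, ∀ l ≥ l₀, w + l • ∑ k ∈ F, k ∈ AddSubmonoid.closure (F : Set (GG n)) ∧
      -w + l • ∑ k ∈ F, k ∈ AddSubmonoid.closure (F : Set (GG n)) := by
  classical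
  have hq : ∑ k ∈ F, k ∈ AddSubmonoid.closure (F : Set (GG n)) :=
    AddSubmonoid.sum_mem _ fun k hk => AddSubmonoid.subset_closure (by exact_mod_cast hk)
  induction hw using AddSubgroup.closure_induction with
  | mem x hx =>
    refine ⟨1, fun l hl => ⟨?_, ?_⟩⟩
    · exact add_mem (AddSubmonoid.subset_closure hx) (AddSubmonoid.nsmul_mem _ hq l)
    · obtain ⟨m, rfl⟩ : ∃ m, l = m + 1 := ⟨l - 1, by omega⟩
      have hx' : x ∈ F := by simpa using hx
      have h1 : -x + (m + 1) • ∑ k ∈ F, k = ∑ k ∈ F.erase x, k + m • ∑ k ∈ F, k := by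
        rw [succ_nsmul, ← Finset.add_sum_erase F (fun k => k) hx']
        abel
      rw [h1]
      exact add_mem (AddSubmonoid.sum_mem _ fun k hk => AddSubmonoid.subset_closure
        (by exact_mod_cast Finset.mem_of_mem_erase hk)) (AddSubmonoid.nsmul_mem _ hq m)
  | zero =>
    refine ⟨0, fun l _ => ⟨?_, ?_⟩⟩
    · rw [zero_add]; exact AddSubmonoid.nsmul_mem _ hq l
    · rw [neg_zero, zero_add]; exact AddSubmonoid.nsmul_mem _ hq l
  | add x y _ _ hx hy =>
    obtain ⟨a, ha⟩ := hx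
    obtain ⟨b, hb⟩ := hy
    refine ⟨a + b, fun l hl => ?_⟩
    obtain ⟨m, rfl⟩ : ∃ m, l = a + m := ⟨l - a, by omega⟩
    have h1 := ha a le_rfl
    have h2 := hb m (by omega)
    refine ⟨?_, ?_⟩
    · have h3 : x + y + (a + m) • ∑ k ∈ F, k = (x + a • ∑ k ∈ F, k) + (y + m • ∑ k ∈ F, k) := by
        rw [add_nsmul]; abel
      rw [h3]
      exact add_mem h1.1 h2.1
    · have h3 : -(x + y) + (a + m) • ∑ k ∈ F, k =
          (-x + a • ∑ k ∈ F, k) + (-y + m • ∑ k ∈ F, k) := by
        rw [add_nsmul]; abel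
      rw [h3]
      exact add_mem h1.2 h2.2
  | neg x _ hx =>
    obtain ⟨a, ha⟩ := hx
    refine ⟨a, fun l hl => ⟨(ha l hl).2, ?_⟩⟩
    rw [neg_neg]
    exact (ha l hl).1

theorem lim76_iff (F : Finset (GG n)) (w : GG n) :
    ∃ l₀ : ℕ, ∀ l ≥ l₀, (w + l • ∑ k ∈ F, k ∈ AddSubmonoid.closure (F : Set (GG n)) ↔
      w ∈ AddSubgroup.closure (F : Set (GG n))) := by
  by_cases hw : w ∈ AddSubgroup.closure (F : Set (GG n))
  · obtain ⟨l₀, h⟩ := lim76_key F hw
    exact ⟨l₀, fun l hl => ⟨fun _ => hw, fun _ => (h l hl).1⟩⟩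
  · refine ⟨0, fun l _ => ⟨fun h => ?_, fun h => absurd h hw⟩⟩
    have h1 : w + l • ∑ k ∈ F, k ∈ AddSubgroup.closure (F : Set (GG n)) :=
      AddSubgroup.le_closure_toAddSubmonoid _ h
    have h2 : l • ∑ k ∈ F, k ∈ AddSubgroup.closure (F : Set (GG n)) :=
      AddSubgroup.nsmul_mem _ (AddSubgroup.sum_mem _ fun k hk =>
        AddSubgroup.subset_closure (by exact_mod_cast hk)) l
    exact (AddSubgroup.add_mem_cancel_right _ h2).1 h1

/-- Far away in the direction of the sum of `F` the twisted sums of the generating function are the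
twisted sums of the coset sums. -/
theorem tw_GF_lim (q : Rˣ) {J : Finset (Fin n)} {F : Finset (GG n)} (hF : Ind F J)
    (A : GG n →₀ R) (z : GG n) :
    ∃ l₀ : ℕ, ∀ l ≥ l₀, tw q J (GF F A) (z + l • ∑ k ∈ F, k) = tw q J (csum F A) z := by
  classical
  have hfin : {e : Fin n → ℤ | e ∈ ejS J ∧ ∃ y ∈ A.support,
      z + (e, 0) - y ∈ AddSubgroup.closure (F : Set (GG n))}.Finite := by
    refine Set.Finite.subset (Set.Finite.biUnion (s := (A.support : Set (GG n)))
      A.support.finite_toSet (t := fun y => {e | e ∈ ejS J ∧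
        z + (e, 0) - y ∈ AddSubgroup.closure (F : Set (GG n))})
      (fun y _ => Set.Subsingleton.finite ?_)) ?_
    · rintro e ⟨he, h1⟩ e' ⟨he', h2⟩
      have h3 := AddSubgroup.sub_mem _ h1 h2
      have h4 : z + ((e, 0) : GG n) - y - (z + (e', 0) - y) = ((e - e', 0) : GG n) := by
        have h5 : ((e - e', 0) : GG n) = (e, 0) - (e', 0) := by
          rw [Prod.mk_sub_mk, sub_zero]
        rw [h5]
        abel
      rw [h4] at h3
      exact sub_eq_zero.1 (lim76_ind hF (lim76_sub he he') h3)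
    · rintro e ⟨he, y, hy, h⟩
      exact Set.mem_biUnion (by exact_mod_cast hy) ⟨he, h⟩
  choose L hL using lim76_iff F
  refine ⟨hfin.toFinset.sup fun e => A.support.sup fun y => L (z + (e, 0) - y), fun l hl => ?_⟩
  unfold tw
  refine finsum_mem_congr rfl fun e he => ?_
  congr 1
  unfold GF csum
  refine Finsupp.sum_congr fun y hy => ?_
  have h1 : z + l • ∑ k ∈ F, k + (e, 0) - y = (z + (e, 0) - y) + l • ∑ k ∈ F, k := by abel
  have h2 : (y - (z + (e, 0)) ∈ AddSubgroup.closure (F : Set (GG n))) ↔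
      z + (e, 0) - y ∈ AddSubgroup.closure (F : Set (GG n)) := by
    rw [← neg_sub, neg_mem_iff]
  rw [h1]
  by_cases h : z + (e, 0) - y ∈ AddSubgroup.closure (F : Set (GG n))
  · have h3 : e ∈ hfin.toFinset := by
      rw [Set.Finite.mem_toFinset]
      exact ⟨he, y, hy, h⟩
    have h4 : L (z + (e, 0) - y) ≤ l :=
      ((Finset.le_sup (f := fun y => L (z + (e, 0) - y)) hy).trans
        (Finset.le_sup (f := fun e => A.support.sup fun y => L (z + (e, 0) - y)) h3)).trans hl
    rw [if_pos ((hL _ l h4).2 h), if_pos (h2.2 h)]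
  · rw [if_neg, if_neg]
    · rw [h2]; exact h
    · intro h3
      apply h
      have h4 : (z + (e, 0) - y) + l • ∑ k ∈ F, k ∈ AddSubgroup.closure (F : Set (GG n)) :=
        AddSubgroup.le_closure_toAddSubmonoid _ h3
      exact (AddSubgroup.add_mem_cancel_right _ (AddSubgroup.nsmul_mem _ (AddSubgroup.sum_mem _
        fun k hk => AddSubgroup.subset_closure (by exact_mod_cast hk)) l)).1 h4

end MPb07157
end
end

section

/-!
# Twisted sums of generating functions
-/

noncomputable section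

namespace MPb07157

open Finset

variable {n : ℕ} {R : Type} [CommRing R]

private theorem twgf_nonneg {F : Finset (GG n)} (hF : ∀ k ∈ F, 0 < k.2) :
    ∀ x ∈ AddSubmonoid.closure (F : Set (GG n)), 0 ≤ x.2 := by
  intro x hx
  induction hx using AddSubmonoid.closure_induction with
  | mem x hx => exact (hF x hx).le
  | zero => exact le_rfl
  | add x y _ _ hx hy => exact add_nonneg hx hy

private theorem twgf_cases {F : Finset (GG n)} {x : GG n}
    (hx : x ∈ AddSubmonoid.closure (F : Set (GG n))) :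
    x = 0 ∨ ∃ k ∈ F, ∃ y ∈ AddSubmonoid.closure (F : Set (GG n)), x = k + y := by
  induction hx using AddSubmonoid.closure_induction_left with
  | zero => exact Or.inl rfl
  | add_left x hx y hy _ => exact Or.inr ⟨x, hx, y, hy, rfl⟩

private theorem twgf_fin {F : Finset (GG n)} (hF : ∀ k ∈ F, 0 < k.2) (N : ℕ) :
    {x : GG n | x ∈ AddSubmonoid.closure (F : Set (GG n)) ∧ x.2 < (N : ℤ)}.Finite := by
  induction N with
  | zero =>
    refine Set.Finite.subset Set.finite_empty ?_
    rintro x ⟨hx, hx'⟩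
    have h1 := twgf_nonneg hF x hx
    exfalso
    push_cast at hx'
    linarith
  | succ N ih =>
    have h1 : {x : GG n | x ∈ AddSubmonoid.closure (F : Set (GG n)) ∧ x.2 < ((N + 1 : ℕ) : ℤ)} ⊆
        {0} ∪ ⋃ k ∈ (F : Set (GG n)), (fun y => k + y) ''
          {x : GG n | x ∈ AddSubmonoid.closure (F : Set (GG n)) ∧ x.2 < (N : ℤ)} := by
      rintro x ⟨hx, hx'⟩
      rcases twgf_cases hx with h | ⟨k, hk, y, hy, h⟩
      · exact Or.inl h
      · refine Or.inr (Set.mem_iUnion₂.2 ⟨k, hk, y, ⟨hy, ?_⟩, h.symm⟩)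
        have h2 := hF k hk
        have h3 : x.2 = k.2 + y.2 := by rw [h]; rfl
        push_cast at hx'
        linarith
    refine Set.Finite.subset ?_ h1
    exact (Set.finite_singleton _).union
      (Set.Finite.biUnion F.finite_toSet fun k _ => ih.image _)

/-- on one level the generating function is a finite sum of shifts -/
private theorem twgf_sum {F : Finset (GG n)} (hF : ∀ k ∈ F, 0 < k.2) (A : GG n →₀ R) (m : ℤ) :
    ∃ U : Finset (GG n), ∀ w : GG n, w.2 = m → GF F A w = ∑ u ∈ U, A (w - u) := by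
  classical
  set N : ℕ := (∑ y ∈ A.support, (m - y.2).toNat) + 1 with hN
  refine ⟨(twgf_fin hF N).toFinset, fun w hw => ?_⟩
  unfold GF
  rw [Finsupp.sum]
  refine Finset.sum_bij_ne_zero (fun y _ _ => w - y) (fun y hy hy' => ?_)
    (fun y _ _ y' _ _ h => sub_right_injective h) (fun u hu hu' => ?_) (fun y hy hy' => ?_)
  · have h1 : w - y ∈ AddSubmonoid.closure (F : Set (GG n)) := by
      by_contra h
      exact hy' (if_neg h)
    rw [Set.Finite.mem_toFinset]
    refine ⟨h1, ?_⟩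
    have h2 : (w - y).2 = m - y.2 := by rw [← hw]; rfl
    have h3 : (m - y.2).toNat ≤ ∑ y ∈ A.support, (m - y.2).toNat :=
      Finset.single_le_sum (f := fun y : GG n => (m - y.2).toNat) (fun _ _ => Nat.zero_le _) hy
    have h4 := Int.self_le_toNat (m - y.2)
    rw [h2, hN]
    push_cast
    have h5 : ((m - y.2).toNat : ℤ) ≤ ((∑ y ∈ A.support, (m - y.2).toNat : ℕ) : ℤ) := by
      exact_mod_cast h3
    push_cast at h5
    linarith
  · have h1 : u ∈ AddSubmonoid.closure (F : Set (GG n)) := ((Set.Finite.mem_toFinset _).1 hu).1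
    refine ⟨w - u, Finsupp.mem_support_iff.2 hu', ?_, sub_sub_cancel w u⟩
    rw [sub_sub_cancel, if_pos h1]
    exact hu'
  · have h1 : w - y ∈ AddSubmonoid.closure (F : Set (GG n)) := by
      by_contra h
      exact hy' (if_neg h)
    rw [if_pos h1, sub_sub_cancel]

/-- If the twisted sums of `A` over `J` vanish then so do those of the generating function. -/
theorem tw_GF_zero (q : Rˣ) {J : Finset (Fin n)} {F : Finset (GG n)} (hF : ∀ k ∈ F, 0 < k.2)
    (A : GG n →₀ R) (h : ∀ z, tw q J (fun y => A y) z = 0) (z : GG n) :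
    tw q J (GF F A) z = 0 := by
  classical
  obtain ⟨U, hU⟩ := twgf_sum hF A z.2
  have h1 : tw q J (GF F A) z = tw q J (fun w => ∑ u ∈ U, A (w - u)) z := by
    unfold tw
    refine finsum_mem_congr rfl fun e _ => ?_
    rw [hU (z + (e, 0)) (by simp)]
  rw [h1, tw_sum q J U (fun u w => A (w - u)) (fun u _ => (LF.finsupp A).shift u)]
  refine Finset.sum_eq_zero fun u _ => ?_
  have h2 := tw_shift q J (fun y => A y) u z
  rw [h (z - u)] at h2
  exact h2

end MPb07157
end
end

section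

/-!
# The patching theorem
-/

noncomputable section

namespace MPb07157

open Finset

variable {n : ℕ} {R : Type} [CommRing R]

private theorem Ind.mono' {F : Finset (GG n)} {J J' : Finset (Fin n)} (h : Ind F J')
    (hJ : J ⊆ J') : Ind F J := fun c e he hs =>
  h c e (fun i hi => he i fun h' => hi (hJ h')) hs

private theorem pt_GF_sub (F : Finset (GG n)) (A B : GG n →₀ R) (z : GG n) :
    GF F (A - B) z = GF F A z - GF F B z := by
  have h := GF_add F (A - B) B z
  rw [sub_add_cancel] at h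
  rw [h, add_sub_cancel_right]

private theorem pt_GF_sum {α : Type} (F : Finset (GG n)) (s : Finset α) (A : α → (GG n →₀ R))
    (z : GG n) : GF F (∑ i ∈ s, A i) z = ∑ i ∈ s, GF F (A i) z := by
  classical
  induction s using Finset.induction_on with
  | empty => rw [Finset.sum_empty, Finset.sum_empty, GF_zero]
  | insert a s ha ih => rw [Finset.sum_insert ha, Finset.sum_insert ha, GF_add, ih]

/-- One step: the flag `F₀`. -/
private theorem patch_step (q : Rˣ) (K : Finset (Finset (GG n)))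
    (hK : ∀ F ∈ K, ∀ F' ⊆ F, F' ∈ K)
    (hpos : ∀ F ∈ K, ∀ k ∈ F, 0 < k.2) (𝓢 : Finset (GG n) → Set (Finset (Fin n)))
    (U : Finset (GG n) → Finset (Fin n))
    (hU : ∀ F ∈ K, F.Nonempty → ∀ J ∈ 𝓢 F, J ⊆ U F)
    (hI : ∀ F ∈ K, F.Nonempty → Ind F (U F))
    (hS : ∀ F ∈ K, ∀ F' ⊆ F, F'.Nonempty → ∀ J' ∈ 𝓢 F', ∃ J ∈ 𝓢 F, J ⊆ J')
    (h3 : ∀ F ∈ K, F.Nonempty → ∀ J ∈ 𝓢 F, ∀ F' ∈ K, ¬ F ⊆ F' → ∀ z : GG n,
      ∃ l₀ : ℕ, ∀ l ≥ l₀, ∀ e ∈ ejS J,
        z + l • ∑ k ∈ F, k + ((e, 0) : GG n) ∉ AddSubmonoid.closure (F' : Set (GG n)))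
    (φ : GG n → R) (A : Finset (GG n) → (GG n →₀ R)) (hφ : ∀ z, φ z = ∑ F ∈ K, GF F (A F) z)
    (h4 : ∀ F ∈ K, F.Nonempty → ∀ J ∈ 𝓢 F, ∀ z, ∃ l₀ : ℕ, ∀ l ≥ l₀,
      tw q J φ (z + l • ∑ k ∈ F, k) = 0)
    (F₀ : Finset (GG n)) (hF₀ : F₀ ∈ K) (hne : F₀.Nonempty)
    (hA : ∀ F' ∈ K, F₀ ⊂ F' → ∀ J ∈ 𝓢 F', ∀ z, tw q J (fun y => A F' y) z = 0) :
    ∃ A₁ : Finset (GG n) → (GG n →₀ R), (∀ z, φ z = ∑ F ∈ K, GF F (A₁ F) z) ∧
      (∀ F, ¬ F ⊆ F₀ → A₁ F = A F) ∧
      ∀ J ∈ 𝓢 F₀, ∀ z, tw q J (fun y => A₁ F₀ y) z = 0 := by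
  classical
  -- the twisted coset sums vanish
  have hcs : ∀ J ∈ 𝓢 F₀, ∀ z, tw q J (csum F₀ (A F₀)) z = 0 := by
    intro J hJ z
    obtain ⟨l₁, hl₁⟩ := tw_GF_lim q ((hI F₀ hF₀ hne).mono' (hU F₀ hF₀ hne J hJ)) (A F₀) z
    have hother : ∀ F' ∈ K, F' ≠ F₀ → ∃ l₂ : ℕ, ∀ l ≥ l₂,
        tw q J (GF F' (A F')) (z + l • ∑ k ∈ F₀, k) = 0 := by
      intro F' hF' hne'
      by_cases hsub : F₀ ⊆ F'
      · obtain ⟨J'', hJ'', hJJ⟩ := hS F' hF' F₀ hsub hne J hJ
        have hss : F₀ ⊂ F' := Finset.ssubset_iff_subset_ne.2 ⟨hsub, hne'.symm⟩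
        have h1 := tw_GF_zero q (hpos F' hF') (A F') (hA F' hF' hss J'' hJ'')
        exact ⟨0, fun l _ => tw_mono q (GF_LF (hpos F' hF') _) hJJ h1 _⟩
      · choose l₂ hl₂ using fun y : GG n => h3 F₀ hF₀ hne J hJ F' hF' hsub (z - y)
        refine ⟨(A F').support.sup l₂, fun l hl => ?_⟩
        unfold tw
        refine finsum_mem_eq_zero_of_forall_eq_zero fun e he => ?_
        have h1 : GF F' (A F') (z + l • ∑ k ∈ F₀, k + ((e, 0) : GG n)) = 0 := by
          unfold GF
          refine Finset.sum_eq_zero fun y hy => if_neg ?_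
          have h2 := hl₂ y l (le_trans (Finset.le_sup (f := l₂) hy) hl) e he
          have h3 : z + l • ∑ k ∈ F₀, k + ((e, 0) : GG n) - y =
              z - y + l • ∑ k ∈ F₀, k + ((e, 0) : GG n) := by abel
          rw [h3]
          exact h2
        rw [h1, mul_zero]
    choose! l₂ hl₂ using hother
    obtain ⟨l₃, hl₃⟩ := h4 F₀ hF₀ hne J hJ z
    set l := l₁ + (K.sup l₂ + l₃) with hl
    have hφf : φ = fun z => ∑ F ∈ K, GF F (A F) z := funext hφ
    have h5 := hl₃ l (by omega)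
    rw [hφf, tw_sum q J K (fun F => GF F (A F)) (fun F hF => GF_LF (hpos F hF) _),
      Finset.sum_eq_single_of_mem F₀ hF₀ (fun F' hF' hne' => hl₂ F' hF' hne' l (by
        have := Finset.le_sup (f := l₂) hF'
        omega)), hl₁ l (by omega)] at h5
    exact h5
  obtain ⟨A', hA'c, hA'J⟩ := exists_lift q (hI F₀ hF₀ hne) (A F₀)
  obtain ⟨B, hB⟩ := csum_ker F₀ (A F₀ - A') (fun z => by rw [csum_sub, hA'c, sub_self])
  refine ⟨fun F => if F = F₀ then A' else A F + ∑ k ∈ F₀.filter (fun k => F₀.erase k = F), B k,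
    fun z => ?_, fun F hF => ?_, fun J hJ z => ?_⟩
  · have hind : Ind F₀ ∅ := (hI F₀ hF₀ hne).mono' (Finset.empty_subset _)
    have h1 : GF F₀ (A F₀) z = GF F₀ A' z + ∑ k ∈ F₀, GF (F₀.erase k) (B k) z := by
      have h2 : A F₀ = A' + ∑ k ∈ F₀, (B k - shG k (B k)) := by rw [← hB]; abel
      rw [h2, GF_add, pt_GF_sum]
      congr 1
      refine Finset.sum_congr rfl fun k hk => ?_
      rw [pt_GF_sub, GF_shG, GF_erase hind hk]
    rw [hφ z, ← Finset.add_sum_erase K _ hF₀, ← Finset.add_sum_erase K _ hF₀]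
    beta_reduce
    rw [if_pos rfl, h1, add_assoc]
    congr 1
    have h2 : ∑ F ∈ K.erase F₀, GF F (if F = F₀ then A' else A F +
        ∑ k ∈ F₀.filter (fun k => F₀.erase k = F), B k) z =
        ∑ F ∈ K.erase F₀, GF F (A F) z + ∑ F ∈ K.erase F₀,
          ∑ k ∈ F₀.filter (fun k => F₀.erase k = F), GF (F₀.erase k) (B k) z := by
      rw [← Finset.sum_add_distrib]
      refine Finset.sum_congr rfl fun F hF => ?_
      rw [if_neg (Finset.ne_of_mem_erase hF), GF_add, pt_GF_sum]
      congr 1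
      refine Finset.sum_congr rfl fun k hk => ?_
      rw [(Finset.mem_filter.1 hk).2]
    rw [h2, Finset.sum_fiberwise_of_maps_to, add_comm]
    intro k hk
    refine Finset.mem_erase.2 ⟨fun h => ?_, hK F₀ hF₀ _ (Finset.erase_subset _ _)⟩
    have := Finset.notMem_erase k F₀
    rw [h] at this
    exact this hk
  · have h1 : F ≠ F₀ := fun h => hF (h ▸ subset_rfl)
    simp only [if_neg h1]
    rw [Finset.filter_eq_empty_iff.2, Finset.sum_empty, add_zero]
    intro k _ hk
    exact hF (hk ▸ Finset.erase_subset _ _)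
  · simp only [if_true]
    exact hA'J J (hU F₀ hF₀ hne J hJ) (hcs J hJ) z

/-- **The patching theorem.** -/
theorem patch (q : Rˣ) (K : Finset (Finset (GG n))) (hK : ∀ F ∈ K, ∀ F' ⊆ F, F' ∈ K)
    (hpos : ∀ F ∈ K, ∀ k ∈ F, 0 < k.2) (𝓢 : Finset (GG n) → Set (Finset (Fin n)))
    (U : Finset (GG n) → Finset (Fin n))
    (hU : ∀ F ∈ K, F.Nonempty → ∀ J ∈ 𝓢 F, J ⊆ U F)
    (hI : ∀ F ∈ K, F.Nonempty → Ind F (U F))
    (hS0 : ∀ F ∈ K, F.Nonempty → (𝓢 F).Nonempty)
    (hS : ∀ F ∈ K, ∀ F' ⊆ F, F'.Nonempty → ∀ J' ∈ 𝓢 F', ∃ J ∈ 𝓢 F, J ⊆ J')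
    (h3 : ∀ F ∈ K, F.Nonempty → ∀ J ∈ 𝓢 F, ∀ F' ∈ K, ¬ F ⊆ F' → ∀ z : GG n,
      ∃ l₀ : ℕ, ∀ l ≥ l₀, ∀ e ∈ ejS J,
        z + l • ∑ k ∈ F, k + ((e, 0) : GG n) ∉ AddSubmonoid.closure (F' : Set (GG n)))
    (φ : GG n → R) (A : Finset (GG n) → (GG n →₀ R)) (hφ : ∀ z, φ z = ∑ F ∈ K, GF F (A F) z)
    (h4 : ∀ F ∈ K, F.Nonempty → ∀ J ∈ 𝓢 F, ∀ z, ∃ l₀ : ℕ, ∀ l ≥ l₀,
      tw q J φ (z + l • ∑ k ∈ F, k) = 0) :
    ∃ M : ℤ, ∀ z : GG n, M ≤ z.2 → tw q Finset.univ φ z = 0 := by
  classical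
  -- processing the flags in `T`, an upper set
  have key : ∀ T : Finset (Finset (GG n)), T ⊆ K → (∀ F ∈ T, F.Nonempty) →
      (∀ F ∈ T, ∀ F' ∈ K, F ⊆ F' → F' ∈ T) →
      ∃ A₁ : Finset (GG n) → (GG n →₀ R), (∀ z, φ z = ∑ F ∈ K, GF F (A₁ F) z) ∧
        ∀ F ∈ T, ∀ J ∈ 𝓢 F, ∀ z, tw q J (fun y => A₁ F y) z = 0 := by
    intro T
    induction T using Finset.strongInduction with
    | _ T ih =>
    intro hTK hTne hTup
    rcases T.eq_empty_or_nonempty with rfl | hT
    · exact ⟨A, hφ, fun F hF => absurd hF (Finset.notMem_empty F)⟩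
    obtain ⟨F₀, hF₀, hmin⟩ := Finset.exists_min_image T Finset.card hT
    have hmin' : ∀ F ∈ T, F ⊆ F₀ → F = F₀ := fun F hF hs =>
      Finset.eq_of_subset_of_card_le hs (hmin F hF)
    obtain ⟨A₁, hA₁, hA₁T⟩ := ih (T.erase F₀) (Finset.erase_ssubset hF₀)
      ((Finset.erase_subset _ _).trans hTK) (fun F hF => hTne F (Finset.mem_of_mem_erase hF))
      (fun F hF F' hF' hs => by
        refine Finset.mem_erase.2 ⟨?_, hTup F (Finset.mem_of_mem_erase hF) F' hF' hs⟩
        rintro rfl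
        exact Finset.ne_of_mem_erase hF (hmin' F (Finset.mem_of_mem_erase hF) hs))
    obtain ⟨A₂, hA₂, hA₂e, hA₂J⟩ := patch_step q K hK hpos 𝓢 U hU hI hS h3 φ A₁ hA₁ h4 F₀
      (hTK hF₀) (hTne F₀ hF₀) (fun F' hF' hs J hJ => hA₁T F' (Finset.mem_erase.2
        ⟨hs.ne', hTup F₀ hF₀ F' hF' hs.subset⟩) J hJ)
    refine ⟨A₂, hA₂, fun F hF J hJ => ?_⟩
    by_cases hFF : F = F₀
    · subst hFF
      exact hA₂J J hJ
    · rw [hA₂e F fun hs => hFF (hmin' F hF hs)]
      exact hA₁T F (Finset.mem_erase.2 ⟨hFF, hF⟩) J hJ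
  obtain ⟨A₁, hA₁, hA₁T⟩ := key (K.filter Finset.Nonempty) (Finset.filter_subset _ _)
    (fun F hF => (Finset.mem_filter.1 hF).2) (fun F hF F' hF' hs =>
      Finset.mem_filter.2 ⟨hF', (Finset.mem_filter.1 hF).2.mono hs⟩)
  obtain ⟨M, hM⟩ : ∃ M : ℤ, ∀ y ∈ (A₁ ∅).support, y.2 < M := by
    refine ⟨∑ y ∈ (A₁ ∅).support, |y.2| + 1, fun y hy => ?_⟩
    have h1 : |y.2| ≤ ∑ y ∈ (A₁ ∅).support, |y.2| :=
      Finset.single_le_sum (f := fun y : GG n => |y.2|) (fun _ _ => abs_nonneg _) hy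
    have h2 := le_abs_self y.2
    omega
  refine ⟨M, fun z hz => ?_⟩
  have hφf : φ = fun z => ∑ F ∈ K, GF F (A₁ F) z := funext hA₁
  rw [hφf, tw_sum q _ K (fun F => GF F (A₁ F)) (fun F hF => GF_LF (hpos F hF) _)]
  refine Finset.sum_eq_zero fun F hF => ?_
  rcases F.eq_empty_or_nonempty with rfl | hne
  · unfold tw
    refine finsum_mem_eq_zero_of_forall_eq_zero fun e _ => ?_
    rw [GF_empty]
    have h1 : A₁ ∅ (z + ((e, 0) : GG n)) = 0 := by
      by_contra hne
      have h2 := hM _ (Finsupp.mem_support_iff.2 hne)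
      have h3 : (z + ((e, 0) : GG n)).2 = z.2 := by
        rw [Prod.snd_add, add_zero]
      omega
    rw [h1, mul_zero]
  · obtain ⟨J, hJ⟩ := hS0 F hF hne
    exact tw_mono q (GF_LF (hpos F hF) _) (Finset.subset_univ J)
      (tw_GF_zero q (hpos F hF) (A₁ F) (hA₁T F (Finset.mem_filter.2 ⟨hF, hne⟩) J hJ)) z

end MPb07157
end
end

section

/-!
# Twisted sums over all coordinates and the augmentation
-/

noncomputable section

namespace MPb07157

open Finset

variable {n : ℕ}

private theorem aug_sum (r : RX n) : augX n r = r.coeff.sum fun _ a => a := by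
  classical
  induction r using AddMonoidAlgebra.induction_linear with
  | zero => rw [map_zero, AddMonoidAlgebra.coeff_zero, Finsupp.sum_zero_index]
  | add f g hf hg =>
    rw [map_add, hf, hg, AddMonoidAlgebra.coeff_add]
    exact (Finsupp.sum_add_index' (fun _ => rfl) (fun _ _ _ => rfl)).symm
  | single γ a =>
    rw [augX_single, AddMonoidAlgebra.coeff_single, Finsupp.sum_single_index rfl]

theorem tw_univ_cfun (Y : PowerSeries (RX n)) (m : ℕ) :
    tw LU Finset.univ (cfun Y) ((0, (m : ℤ)) : GG n) = augX n (PowerSeries.coeff m Y) := by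
  have h1 : (ejS (Finset.univ : Finset (Fin n))) = Set.univ := by
    refine Set.eq_univ_of_forall fun e i hi => ?_
    exact absurd (Finset.mem_univ i) hi
  have h2 : ∀ e : Fin n → ℤ, qpw LU (-∑ i, e i) * cfun Y (((0, (m : ℤ)) : GG n) + (e, 0)) =
      (PowerSeries.coeff m Y).coeff e := by
    intro e
    have e1 : ((0, (m : ℤ)) : GG n) + (e, 0) = (e, (m : ℤ)) := by
      rw [Prod.mk_add_mk, zero_add, add_zero]
    have e2 : cfun Y ((e, (m : ℤ)) : GG n) =
        qpw LU (∑ i, e i) * (PowerSeries.coeff m Y).coeff e := by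
      unfold cfun
      rw [if_pos (show (0 : ℤ) ≤ ((e, (m : ℤ)) : GG n).2 from Int.natCast_nonneg m)]
      rfl
    rw [e1, e2, ← mul_assoc, ← qpw_add, neg_add_cancel, qpw_zero, one_mul]
  unfold tw
  rw [h1, finsum_mem_univ]
  simp only [h2]
  rw [aug_sum, Finsupp.sum]
  exact finsum_eq_sum_of_support_subset _ (fun e he => by
    rw [Finset.mem_coe, Finsupp.mem_support_iff]
    exact he)

private theorem aug_map_coe {R R' : Type} [CommRing R] [CommRing R'] (φ : R →+* R')
    (p : Polynomial R) :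
    PowerSeries.map φ (p : PowerSeries R) = ((p.map φ : Polynomial R') : PowerSeries R') := by
  ext n
  rw [PowerSeries.coeff_map, Polynomial.coeff_coe, Polynomial.coeff_coe, Polynomial.coeff_map]

/-- If the twisted sums over all coordinates vanish on high levels then the augmentation of the
series is regular at `s₀`. -/
theorem regular_of_tw {s₀ : ℚ} (s : Multiset ((RX n)ˣ × ℕ)) (hs : ∀ w ∈ s, w ∈ OH n s₀ ∧ 0 < w.2)
    (Z : PowerSeries (RX n)) (M : ℤ)
    (h : ∀ z : GG n, M ≤ z.2 → tw LU Finset.univ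
      (cfun ((((s.map fac).prod : Polynomial (RX n)) : PowerSeries (RX n)) * Z)) z = 0) :
    PowerSeries.map (augX n) Z ∈ regularAt s₀ := by
  have h1 : ∀ m : ℕ, M ≤ (m : ℤ) → PowerSeries.coeff m (PowerSeries.map (augX n)
      ((((s.map fac).prod : Polynomial (RX n)) : PowerSeries (RX n)) * Z)) = 0 := by
    intro m hm
    rw [PowerSeries.coeff_map, ← tw_univ_cfun]
    exact h ((0, (m : ℤ)) : GG n) hm
  obtain ⟨p, hp⟩ : ∃ p : Polynomial Mot, PowerSeries.map (augX n)
      ((((s.map fac).prod : Polynomial (RX n)) : PowerSeries (RX n)) * Z) =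
      (p : PowerSeries Mot) := by
    refine ⟨PowerSeries.trunc M.toNat (PowerSeries.map (augX n)
      ((((s.map fac).prod : Polynomial (RX n)) : PowerSeries (RX n)) * Z)), ?_⟩
    refine PowerSeries.ext fun m => ?_
    rw [Polynomial.coeff_coe, PowerSeries.coeff_trunc]
    split_ifs with hm
    · rfl
    · exact h1 m (by omega)
  have h2 : RegP {q : Motˣ × ℕ | ∃ e : ℤ, q.1 = LU ^ (-e) ∧ (e : ℚ) ≠ -s₀ * q.2}
      (PowerSeries.map (augX n) Z) := by
    refine ⟨s.map (fun w => (Units.map (augX n : RX n →* Mot) w.1, w.2)), p, ?_, ?_⟩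
    · intro z hz
      obtain ⟨w, hw, rfl⟩ := Multiset.mem_map.1 hz
      obtain ⟨⟨γ, e, b, rfl, he⟩, hb⟩ := hs w hw
      exact ⟨⟨e, map_augX_uX γ e, he⟩, hb⟩
    · rw [← hp, map_mul, aug_map_coe]
      congr 2
      rw [Polynomial.map_multiset_prod, Multiset.map_map, Multiset.map_map]
      congr 1
      apply Multiset.map_congr rfl
      intro w _
      show fac (Units.map (augX n : RX n →* Mot) w.1, w.2) = (fac w).map (augX n)
      unfold fac
      rw [Polynomial.map_sub, Polynomial.map_one, Polynomial.map_mul, Polynomial.map_C,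
        Polynomial.map_pow, Polynomial.map_X]
      rfl
  exact RegP.mem_regularAt (fun w hw _ => hw) h2

end MPb07157
end
end
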