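import Pool.Agent.Lib.MP_b07157_ag.N3.GenR2

/-!
# Generating functions of polyhedral sets: a second induction principle
-/

noncomputable section

namespace MPb07157

open Finset

variable {G ι R : Type} [AddCommGroup G] [Fintype ι] [DecidableEq ι] [CommRing R]
  (lam : ι → G →+ ℤ)

/-- The induction principle with a family of subgroups indexed by the sets of tight constraints. -/
theorem genR_induct2 (hinj : ∀ z, (∀ k, lam k z = 0) → z = 0) (om : Multiplicative G →* Rˣ)
    (mu : G →+ ℤ) (𝒜 : Finset ι → AddSubgroup (PowerSeries R))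
    (h0 : ∀ (E : Finset ι) (u : R) (k : ℕ), PowerSeries.C u * PowerSeries.X ^ k ∈ 𝒜 E)
    (E : Finset ι)
    (h : ∀ E', E ⊆ E' → (∃ w ∈ PSet lam 0 E', w ≠ 0) →
      ∃ w ∈ PSet lam 0 E', w ≠ 0 ∧ (0 < mu w → ∀ F,
        ((fac (rayP om mu w) : Polynomial R) : PowerSeries R) * F ∈
          (⨆ k : {k // lam k w ≠ 0}, 𝒜 (insert k.1 E')) → F ∈ 𝒜 E'))
    (c : ι → ℤ) (hpos : ∀ z ∈ PSet lam c E, 0 ≤ mu z)
    (hfin : ∀ m : ℤ, {z ∈ PSet lam c E | mu z = m}.Finite) :
    genR om mu (PSet lam c E) ∈ 𝒜 E := by
  classical
  induction hN : (Eᶜ).card using Nat.strong_induction_on generalizing E c with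
  | _ N IH =>
  subst hN
  -- the statement for `insert k E`
  have IH' : ∀ (c : ι → ℤ) (k : ι), k ∉ E → (∀ z ∈ PSet lam c E, 0 ≤ mu z) →
      (∀ m : ℤ, {z ∈ PSet lam c E | mu z = m}.Finite) →
      genR om mu (PSet lam c (insert k E)) ∈ 𝒜 (insert k E) := by
    intro c k hk hpos hfin
    have hsub := PSet_mono_E lam (c := c) (Finset.subset_insert k E)
    refine IH _ ?_ (insert k E)
      (fun E' hE' => h E' ((Finset.subset_insert k E).trans hE')) c (fun z hz => hpos z (hsub hz))
      (fun m => (hfin m).subset fun z hz => ⟨hsub hz.1, hz.2⟩) rfl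
    apply Finset.card_lt_card
    rw [Finset.ssubset_iff_of_subset (by
      intro j hj
      simp only [Finset.mem_compl, Finset.mem_insert, not_or] at hj ⊢
      exact hj.2)]
    exact ⟨k, by simpa using hk, by simp⟩
  -- main argument
  rcases Set.eq_empty_or_nonempty (PSet lam c E) with hemp | ⟨q, hq⟩
  · rw [hemp, genR_empty]
    exact zero_mem _
  by_cases hcone : ∀ z ∈ PSet lam 0 E, z = 0
  · exact genR_finite om mu (𝒜 E) (h0 E) _ (PSet_finite lam c E hcone) hpos
  push Not at hcone
  obtain ⟨w, hwc, hw0, hdiv⟩ := h E subset_rfl hcone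
  -- comparison of `F(c, E)` and `F(c', E)`
  have hcomp : ∀ (N : ℕ) (c c' : ι → ℤ), (∀ k, c k ≤ c' k) → (∀ k, c' k ≠ c k → lam k w ≠ 0) →
      (∑ k, (c' k - c k)).toNat = N →
      (∀ z ∈ PSet lam c E, 0 ≤ mu z) → (∀ m : ℤ, {z ∈ PSet lam c E | mu z = m}.Finite) →
      genR om mu (PSet lam c E) - genR om mu (PSet lam c' E) ∈
        (⨆ k : {k // lam k w ≠ 0}, 𝒜 (insert k.1 E)) := by
    intro N
    induction N with
    | zero =>
      intro c c' hcc hE hN hpos hfin
      have h0 : ∑ k, (c' k - c k) ≤ 0 := by omega
      have h1 : ∀ k, c' k = c k := by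
        intro k
        have h2 : c' k - c k ≤ ∑ k, (c' k - c k) :=
          Finset.single_le_sum (f := fun k => c' k - c k) (fun j _ => sub_nonneg.2 (hcc j))
            (Finset.mem_univ k)
        have := hcc k
        omega
      have h2 : c' = c := funext h1
      rw [h2, sub_self]
      exact zero_mem _
    | succ N ihN =>
      intro c c' hcc hE hN hpos hfin
      have h0 : ∃ k, c k < c' k := by
        by_contra hcon
        push Not at hcon
        have h1 : ∑ k, (c' k - c k) ≤ 0 :=
          Finset.sum_nonpos fun k _ => by have := hcon k; omega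
        omega
      obtain ⟨k, hk⟩ := h0
      have hkw : lam k w ≠ 0 := hE k (by omega)
      have hkE : k ∉ E := fun h => hkw (by
        have := hwc.2 k h
        simpa using this)
      have hsplit := PSet_split lam c E k hkE
      have hsub1 : PSet lam (Function.update c k (c k + 1)) E ⊆ PSet lam c E := by
        rw [hsplit]; exact Set.subset_union_left
      have hsub2 : PSet lam c (insert k E) ⊆ PSet lam c E := by
        conv_rhs => rw [hsplit]
        exact Set.subset_union_right
      have h3 := genR_union om mu (PSet_split_disjoint lam c E k)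
        (fun m => (hfin m).subset fun z hz => ⟨hsub1 hz.1, hz.2⟩)
        (fun m => (hfin m).subset fun z hz => ⟨hsub2 hz.1, hz.2⟩)
      rw [← hsplit] at h3
      have h4 := ihN (Function.update c k (c k + 1)) c' (fun j => by
          by_cases hjk : j = k
          · subst hjk
            rw [Function.update_self]
            omega
          · rw [Function.update_of_ne hjk]
            exact hcc j) (fun j hj => by
          by_cases hjk : j = k
          · rw [hjk]; exact hkw
          · rw [Function.update_of_ne hjk] at hj
            exact hE j hj) (by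
          have h5 : ∑ j, (c' j - Function.update c k (c k + 1) j) = ∑ j, (c' j - c j) - 1 := by
            rw [← Finset.add_sum_erase _ _ (Finset.mem_univ k),
              ← Finset.add_sum_erase (Finset.univ) (fun j => c' j - c j) (Finset.mem_univ k),
              Function.update_self, Finset.sum_congr rfl (g := fun j => c' j - c j)]
            · ring
            · intro j hj
              rw [Function.update_of_ne (Finset.ne_of_mem_erase hj)]
          omega) (fun z hz => hpos z (hsub1 hz))
        (fun m => (hfin m).subset fun z hz => ⟨hsub1 hz.1, hz.2⟩)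
      have h5 : genR om mu (PSet lam c (insert k E)) ∈
          (⨆ k : {k // lam k w ≠ 0}, 𝒜 (insert k.1 E)) :=
        (le_iSup (fun k : {k // lam k w ≠ 0} => 𝒜 (insert k.1 E)) ⟨k, hkw⟩)
          (IH' c k hkE hpos hfin)
      have h6 : genR om mu (PSet lam c E) - genR om mu (PSet lam c' E) =
          (genR om mu (PSet lam (Function.update c k (c k + 1)) E) -
            genR om mu (PSet lam c' E)) + genR om mu (PSet lam c (insert k E)) := by
        rw [h3]; ring
      rw [h6]
      exact add_mem h4 h5
  -- `q + m • w` lies in the set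
  have hqm : ∀ m : ℕ, q + m • w ∈ PSet lam c E := by
    intro m
    refine ⟨fun k => ?_, fun k hk => ?_⟩
    · rw [map_add, map_nsmul]
      have h1 := hq.1 k
      have h2 := hwc.1 k
      simp only [Pi.zero_apply] at h2
      have h3 : 0 ≤ m • lam k w := nsmul_nonneg h2 m
      omega
    · rw [map_add, map_nsmul, hq.2 k hk, hwc.2 k hk]
      simp
  have hminj : Function.Injective fun m : ℕ => q + m • w := by
    intro a b hab
    have h1 : a • w = b • w := add_left_cancel hab
    have h2 : ∃ k, lam k w ≠ 0 := by
      by_contra hcon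
      push Not at hcon
      exact hw0 (hinj w hcon)
    obtain ⟨k, hk⟩ := h2
    have h3 : lam k (a • w) = lam k (b • w) := by rw [h1]
    rw [map_nsmul, map_nsmul, nsmul_eq_mul, nsmul_eq_mul] at h3
    exact_mod_cast mul_right_cancel₀ hk h3
  have hmu : 0 < mu w := by
    rcases lt_trichotomy (mu w) 0 with h | h | h
    · exfalso
      have h1 := hpos _ (hqm (mu q + 1).toNat)
      have h2 := hpos _ hq
      rw [map_add, map_nsmul, nsmul_eq_mul] at h1
      have h3 : ((mu q + 1).toNat : ℤ) = mu q + 1 := Int.toNat_of_nonneg (by omega)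
      rw [h3] at h1
      nlinarith
    · exfalso
      refine Set.infinite_of_injective_forall_mem hminj (fun m => ?_) (hfin (mu q))
      refine ⟨hqm m, ?_⟩
      rw [map_add, map_nsmul, h]
      simp
    · exact h
  -- the shift by `w`
  have hc' := hcomp _ c (fun k => c k + lam k w) (fun k => by
      have := hwc.1 k
      simp only [Pi.zero_apply] at this
      omega) (fun k hk h0 => hk (by rw [h0, add_zero])) rfl hpos hfin
  have hset : PSet lam (fun k => c k + lam k w) E = {z | z - w ∈ PSet lam c E} := by
    ext z
    simp only [PSet, Set.mem_ofPred_eq, map_sub]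
    constructor
    · rintro ⟨h1, h2⟩
      exact ⟨fun k => by have := h1 k; omega, fun k hk => by have := h2 k hk; omega⟩
    · rintro ⟨h1, h2⟩
      exact ⟨fun k => by have := h1 k; omega, fun k hk => by have := h2 k hk; omega⟩
  rw [hset, genR_translate om mu _ w hmu.le hpos hfin] at hc'
  refine hdiv hmu _ ?_
  have h7 : ((fac (rayP om mu w) : Polynomial R) : PowerSeries R) * genR om mu (PSet lam c E) =
      genR om mu (PSet lam c E) - PowerSeries.C ((om (Multiplicative.ofAdd w) : Rˣ) : R) *
        PowerSeries.X ^ (mu w).toNat * genR om mu (PSet lam c E) := by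
    simp only [fac, rayP, Polynomial.coe_sub, Polynomial.coe_one, Polynomial.coe_mul,
      Polynomial.coe_C, Polynomial.coe_pow, Polynomial.coe_X]
    ring
  rw [h7]
  exact hc'


end MPb07157
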