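import Pool.Agent.Lib.MP_b07157_ag.PS.Defs
import Pool.Agent.Lib.MP_b07157_ag.PS.Flag
import Pool.Agent.Lib.MP_b07157_ag.PS.Cf
import Pool.Agent.Lib.MP_b07157_ag.PS.GFb
import Pool.Agent.Lib.MP_b07157_ag.N3.PX2
import Pool.Agent.Lib.MP_b07157_ag.PS.Ind2

section

/-!
# Cones all of whose elements contribute the candidate pole
-/

noncomputable section

namespace MPb07157

open MvPolynomial Finset

variable {n : ℕ}

private theorem co2_zero {ι : Type} [Fintype ι] (lam : ι → GG n →+ ℤ) (E : Finset ι) :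
    (0 : GG n) ∈ PSet lam 0 E := by
  refine ⟨fun k => ?_, fun k _ => ?_⟩
  · rw [map_zero]; exact le_refl _
  · rw [map_zero]; rfl

private theorem co2_add {ι : Type} [Fintype ι] (lam : ι → GG n →+ ℤ) (E : Finset ι) {x y : GG n}
    (hx : x ∈ PSet lam 0 E) (hy : y ∈ PSet lam 0 E) : x + y ∈ PSet lam 0 E := by
  refine ⟨fun k => ?_, fun k hk => ?_⟩
  · have h1 := hx.1 k
    have h2 := hy.1 k
    rw [map_add]
    simp only [Pi.zero_apply] at h1 h2 ⊢
    omega
  · have h1 := hx.2 k hk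
    have h2 := hy.2 k hk
    rw [map_add]
    simp only [Pi.zero_apply] at h1 h2 ⊢
    omega

private theorem co2_sum {ι κ : Type} [Fintype ι] (lam : ι → GG n →+ ℤ) (E : Finset ι)
    (s : Finset κ) (g : κ → GG n) (hg : ∀ k ∈ s, g k ∈ PSet lam 0 E) : ∑ k ∈ s, g k ∈ PSet lam 0 E := by
  classical
  induction s using Finset.induction_on with
  | empty => rw [Finset.sum_empty]; exact co2_zero lam E
  | insert a s ha ih =>
    rw [Finset.sum_insert ha]
    exact co2_add lam E (hg a (Finset.mem_insert_self a s))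
      (ih fun k hk => hg k (Finset.mem_insert_of_mem hk))

private theorem co2_exists {ι : Type} [Fintype ι] (lam : ι → GG n →+ ℤ) (E : Finset ι) :
    ∃ b ∈ PSet lam 0 E, ∀ z ∈ PSet lam 0 E, ∃ M : ℕ, M • b - z ∈ PSet lam 0 E := by
  classical
  have hch : ∀ k : ι, ∃ y ∈ PSet lam 0 E, (∃ z ∈ PSet lam 0 E, 0 < lam k z) → 0 < lam k y := by
    intro k
    by_cases h : ∃ z ∈ PSet lam 0 E, 0 < lam k z
    · obtain ⟨z, hz, hz0⟩ := h
      exact ⟨z, hz, fun _ => hz0⟩
    · exact ⟨0, co2_zero lam E, fun h' => absurd h' h⟩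
  choose y hy hy0 using hch
  refine ⟨∑ k, y k, co2_sum lam E _ y fun k _ => hy k, fun z hz => ?_⟩
  have hle : ∀ k : ι, lam k (y k) ≤ lam k (∑ j, y j) := by
    intro k
    rw [map_sum]
    exact Finset.single_le_sum (f := fun j => lam k (y j)) (fun j _ => (hy j).1 k) (Finset.mem_univ k)
  refine ⟨∑ k, (lam k z).toNat, fun k => ?_, fun k hk => ?_⟩
  · rw [map_sub, map_nsmul, nsmul_eq_mul]
    simp only [Pi.zero_apply]
    have hzk : 0 ≤ lam k z := hz.1 k
    by_cases hk : 0 < lam k z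
    · have h1 := hle k
      have h2 := hy0 k ⟨z, hz, hk⟩
      have h3 : (1 : ℤ) ≤ lam k (∑ j, y j) := by omega
      have h4 : (lam k z).toNat ≤ ∑ k, (lam k z).toNat :=
        Finset.single_le_sum (f := fun j => (lam j z).toNat) (fun j _ => Nat.zero_le _)
          (Finset.mem_univ k)
      have h5 : lam k z ≤ ((∑ k, (lam k z).toNat : ℕ) : ℤ) := by
        have h6 : ((lam k z).toNat : ℤ) = lam k z := Int.toNat_of_nonneg hzk
        rw [← h6]
        exact_mod_cast h4
      have h7 : ((∑ k, (lam k z).toNat : ℕ) : ℤ) * 1 ≤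
          ((∑ k, (lam k z).toNat : ℕ) : ℤ) * lam k (∑ j, y j) :=
        mul_le_mul_of_nonneg_left h3 (by positivity)
      linarith
    · have h1 : lam k z = 0 := by omega
      have h2 : 0 ≤ lam k (∑ j, y j) := (co2_sum lam E _ y fun k _ => hy k).1 k
      have h3 : (0 : ℤ) ≤ ((∑ k, (lam k z).toNat : ℕ) : ℤ) * lam k (∑ j, y j) :=
        mul_nonneg (by positivity) h2
      linarith
  · rw [map_sub, map_nsmul, (co2_sum lam E _ y fun k _ => hy k).2 k hk, hz.2 k hk]
    simp

/-- The chosen vector of a polyhedral cone lies in its relative interior. -/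
theorem bvec_spec {ι : Type} [Fintype ι] (lam : ι → GG n →+ ℤ) (E : Finset ι) :
    bvec (PSet lam 0 E) ∈ PSet lam 0 E ∧
      ∀ z ∈ PSet lam 0 E, ∃ M : ℕ, M • bvec (PSet lam 0 E) - z ∈ PSet lam 0 E := by
  have h := co2_exists lam E
  unfold bvec
  rw [dif_pos h]
  exact h.choose_spec

private theorem co2_mem {f : MvPolynomial (Fin n) ℂ} {K : ℕ} {v₀ : Fin n →₀ ℕ}
    {E : Finset (II f ⊕ Empty)} {z : GG n} :
    z ∈ PSet (lamX f K v₀ (kapE n) ∅) 0 E ↔
      ((∀ j, 0 ≤ z.1 j) ∧ ∀ j, (Sum.inl (Sum.inl (Sum.inl j)) : II f ⊕ Empty) ∈ E → z.1 j = 0) ∧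
      ((∀ v ∈ f.support, dotH v₀ z ≤ dotH v z) ∧ ∀ v (hv : v ∈ f.support),
        (Sum.inl (Sum.inl (Sum.inr ⟨v, hv⟩)) : II f ⊕ Empty) ∈ E → dotH v z = dotH v₀ z) ∧
      ((∀ j, z.1 j ≤ K * z.2) ∧ ∀ j,
        (Sum.inl (Sum.inr (Sum.inl j)) : II f ⊕ Empty) ∈ E → z.1 j = K * z.2) ∧
      (dotH v₀ z ≤ z.2 ∧ ((Sum.inl (Sum.inr (Sum.inr ())) : II f ⊕ Empty) ∈ E → z.2 = dotH v₀ z)) := by
  classical
  unfold PSet
  rw [Set.mem_ofPred_eq]
  constructor
  · rintro ⟨h1, h2⟩
    refine ⟨⟨fun j => ?_, fun j hj => ?_⟩, ⟨fun v hv => ?_, fun v hv hvE => ?_⟩,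
      ⟨fun j => ?_, fun j hj => ?_⟩, ?_, fun hE => ?_⟩
    · have := h1 (.inl (.inl (.inl j)))
      simpa [lamX, lamF, coordH_apply] using this
    · have := h2 _ hj
      simpa [lamX, lamF, coordH_apply] using this
    · have := h1 (.inl (.inl (.inr ⟨v, hv⟩)))
      simp only [lamX, lamF, AddMonoidHom.sub_apply, Pi.zero_apply] at this
      omega
    · have := h2 _ hvE
      simp only [lamX, lamF, AddMonoidHom.sub_apply, Pi.zero_apply] at this
      omega
    · have := h1 (.inl (.inr (.inl j)))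
      simp only [lamX, lamF, AddMonoidHom.sub_apply, AddMonoidHom.smul_apply, muH_apply,
        coordH_apply, smul_eq_mul, Pi.zero_apply] at this
      omega
    · have := h2 _ hj
      simp only [lamX, lamF, AddMonoidHom.sub_apply, AddMonoidHom.smul_apply, muH_apply,
        coordH_apply, smul_eq_mul, Pi.zero_apply] at this
      omega
    · have := h1 (.inl (.inr (.inr ())))
      simp only [lamX, lamF, AddMonoidHom.sub_apply, muH_apply, Pi.zero_apply] at this
      omega
    · have := h2 _ hE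
      simp only [lamX, lamF, AddMonoidHom.sub_apply, muH_apply, Pi.zero_apply] at this
      omega
  · rintro ⟨⟨h1, h1'⟩, ⟨h3, h3'⟩, ⟨h4, h4'⟩, h5, h6⟩
    constructor
    · rintro (((j | v) | (j | _)) | k)
      · exact h1 j
      · have := h3 v.1 v.2
        simp only [lamX, lamF, AddMonoidHom.sub_apply, Pi.zero_apply]
        omega
      · have := h4 j
        simp only [lamX, lamF, AddMonoidHom.sub_apply, AddMonoidHom.smul_apply, muH_apply,
          coordH_apply, smul_eq_mul, Pi.zero_apply]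
        omega
      · simp only [lamX, lamF, AddMonoidHom.sub_apply, muH_apply, Pi.zero_apply]
        omega
      · exact k.elim
    · rintro (((j | v) | (j | _)) | k) hk
      · exact h1' j hk
      · have := h3' v.1 v.2 hk
        simp only [lamX, lamF, AddMonoidHom.sub_apply, Pi.zero_apply]
        omega
      · have := h4' j hk
        simp only [lamX, lamF, AddMonoidHom.sub_apply, AddMonoidHom.smul_apply, muH_apply,
          coordH_apply, smul_eq_mul, Pi.zero_apply]
        omega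
      · have := h6 hk
        simp only [lamX, lamF, AddMonoidHom.sub_apply, muH_apply, Pi.zero_apply]
        omega
      · exact k.elim

private theorem co2_dot_nonneg (v : Fin n →₀ ℕ) {z : GG n} (hz : ∀ j, 0 ≤ z.1 j) : 0 ≤ dotH v z := by
  rw [dotH_apply]
  exact Finset.sum_nonneg fun j _ => mul_nonneg (hz j) (by positivity)

private theorem co2_le_sum {z : GG n} (hz : ∀ j, 0 ≤ z.1 j) (j : Fin n) : z.1 j ≤ ∑ i, z.1 i :=
  Finset.single_le_sum (f := fun i => z.1 i) (fun i _ => hz i) (Finset.mem_univ j)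

/-- If all elements of the recession cone of a piece contribute the candidate pole, then the cone is
a cone of the normal fan, with a chosen vector. -/
theorem allS0_cone {f : MvPolynomial (Fin n) ℂ} {K : ℕ} {D : Finset (Fin n)}
    {I : Finset (Fin n →₀ ℕ)} (hI : I.Nonempty) (hIf : I ⊆ f.support) {S : Finset (Fin n)}
    {ty : ℕ} {s₀ : ℚ} (h1 : s₀ ≠ -1) (hK : -s₀ < K) (E : Finset (II f ⊕ Empty))
    (hE : EX f Empty D I S ty ⊆ E)
    (hall : ∀ z ∈ PSet (lamX f K (v0 I) (kapE n) ∅) 0 E,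
      ((nuH (v0 I) z : ℤ) : ℚ) = -s₀ * (z.2 : ℤ))
    (hne : ∃ z ∈ PSet (lamX f K (v0 I) (kapE n) ∅) 0 E, z ≠ 0) :
    ∃ b : GG n, b ≠ 0 ∧ b ∈ PSet (lamX f K (v0 I) (kapE n) ∅) 0 E ∧ IsB f D s₀ b ∧
      car f b = PSet (lamX f K (v0 I) (kapE n) ∅) 0 E ∧ nuH (v0 I) b = ∑ i, b.1 i := by
  classical
  set C := PSet (lamX f K (v0 I) (kapE n) ∅) 0 E with hC
  have hv0 : v0 I ∈ f.support := hIf (v0_mem hI)
  obtain ⟨hbC, hbM⟩ := bvec_spec (lamX f K (v0 I) (kapE n) ∅) E
  rw [← hC] at hbC hbM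
  -- (i)
  have hpos : ∀ z ∈ C, z ≠ 0 → 0 < z.2 := by
    intro z hz hz0
    obtain ⟨⟨a1, _⟩, ⟨a2, _⟩, ⟨a3, _⟩, a4, _⟩ := co2_mem.mp hz
    have hnn := co2_dot_nonneg (v0 I) a1
    rcases lt_or_ge 0 z.2 with h | h
    · exact h
    · exfalso
      apply hz0
      have hz2 : z.2 = 0 := by omega
      refine Prod.ext ?_ hz2
      funext j
      have h5 := a3 j
      have h6 := a1 j
      rw [hz2, mul_zero] at h5
      show z.1 j = 0
      omega
  have hnn2 : ∀ z ∈ C, 0 ≤ z.2 := by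
    intro z hz
    by_cases h : z = 0
    · rw [h]; exact le_refl _
    · exact (hpos z hz h).le
  -- (ii)
  have hb0 : bvec C ≠ 0 := by
    intro hb
    obtain ⟨z, hz, hz0⟩ := hne
    obtain ⟨M, hM⟩ := hbM z hz
    rw [hb, smul_zero, zero_sub] at hM
    have h2 := hpos z hz hz0
    have h3 := hnn2 _ hM
    have h4 : (-z).2 = -z.2 := rfl
    omega
  have hb2 : 0 < (bvec C).2 := hpos _ hbC hb0
  obtain ⟨⟨b1, b1'⟩, ⟨b2, b2'⟩, ⟨b3, b3'⟩, b4, b4'⟩ := co2_mem.mp hbC
  have hbK : ∀ j, (bvec C).1 j < K * (bvec C).2 := by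
    intro j
    have h2 := hall _ hbC
    have h3 : (bvec C).1 j ≤ nuH (v0 I) (bvec C) := by
      rw [nuH_apply]
      have := co2_le_sum b1 j
      omega
    have h4 : (((bvec C).1 j : ℤ) : ℚ) ≤ ((nuH (v0 I) (bvec C) : ℤ) : ℚ) := by exact_mod_cast h3
    rw [h2] at h4
    have h5 : (0 : ℚ) < ((bvec C).2 : ℤ) := by exact_mod_cast hb2
    have h6 : -s₀ * ((bvec C).2 : ℤ) < K * ((bvec C).2 : ℤ) := mul_lt_mul_of_pos_right hK h5
    have h7 : (((bvec C).1 j : ℤ) : ℚ) < ((K * (bvec C).2 : ℤ) : ℚ) := by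
      push_cast
      linarith
    exact_mod_cast h7
  have hnE : ∀ j, (Sum.inl (Sum.inr (Sum.inl j)) : II f ⊕ Empty) ∉ E := by
    intro j hj
    have h2 := b3' j hj
    have h3 := hbK j
    omega
  -- (iii)
  have h4E : (Sum.inl (Sum.inr (Sum.inr ())) : II f ⊕ Empty) ∈ E := by
    by_contra hcon
    have h01 : ((0, 1) : GG n) ∈ C := by
      refine co2_mem.mpr ⟨⟨fun j => le_refl _, fun j _ => rfl⟩, ⟨fun v _ => ?_, fun v _ _ => ?_⟩,
        ⟨fun j => ?_, fun j hj => absurd hj (hnE j)⟩, ?_, fun h => absurd h hcon⟩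
      · simp [dotH_apply]
      · simp [dotH_apply]
      · simp
      · simp [dotH_apply]
    have h2 := hall _ h01
    rw [nuH_apply] at h2
    simp only [dotH_apply, Pi.zero_apply, zero_mul, Finset.sum_const_zero, sub_zero, zero_add,
      Int.cast_one, mul_one] at h2
    exact h1 (by linarith)
  have hdot : ∀ z ∈ C, z.2 = dotH (v0 I) z := fun z hz => (co2_mem.mp hz).2.2.2.2 h4E
  have hsum : ∀ z ∈ C, ((∑ i, z.1 i : ℤ) : ℚ) = -s₀ * (z.2 : ℤ) := by
    intro z hz
    have h2 := hall z hz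
    rw [nuH_apply, ← hdot z hz, sub_self, add_zero] at h2
    exact h2
  have hbd := hdot _ hbC
  -- (iv), (v)
  have hcar : car f (bvec C) = C := by
    ext z
    constructor
    · rintro ⟨c1, c2, c3, c4⟩
      have hz2 : dotH (v0 I) z = z.2 := c4 _ hv0 hbd.symm
      have hz0 : 0 ≤ z.2 := by rw [← hz2]; exact co2_dot_nonneg _ c1
      -- a large multiple of `b`
      obtain ⟨M, hM⟩ : ∃ M : ℕ, ∀ j, z.1 j - K * z.2 ≤ M := by
        refine ⟨∑ j, (z.1 j).toNat, fun j => ?_⟩
        have h2 : (z.1 j).toNat ≤ ∑ j, (z.1 j).toNat :=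
          Finset.single_le_sum (f := fun j => (z.1 j).toNat) (fun j _ => Nat.zero_le _)
            (Finset.mem_univ j)
        have h3 : ((z.1 j).toNat : ℤ) = z.1 j := Int.toNat_of_nonneg (c1 j)
        have h4 : ((z.1 j).toNat : ℤ) ≤ ((∑ j, (z.1 j).toNat : ℕ) : ℤ) := by exact_mod_cast h2
        have h5 : 0 ≤ (K : ℤ) * z.2 := mul_nonneg (by positivity) hz0
        linarith
      have hMb : M • bvec C + z ∈ C := by
        have e1 : ∀ j, (M • bvec C + z).1 j = M * (bvec C).1 j + z.1 j := by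
          intro j
          simp
        have e2 : (M • bvec C + z).2 = M * (bvec C).2 + z.2 := by
          simp
        have e3 : ∀ v, dotH v (M • bvec C + z) = M * dotH v (bvec C) + dotH v z := by
          intro v
          rw [map_add, map_nsmul, nsmul_eq_mul]
        have hM0 : (0 : ℤ) ≤ M := by positivity
        refine co2_mem.mpr ⟨⟨fun j => ?_, fun j hj => ?_⟩, ⟨fun v hv => ?_, fun v hv hvE => ?_⟩,
          ⟨fun j => ?_, fun j hj => absurd hj (hnE j)⟩, ?_, fun _ => ?_⟩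
        · rw [e1]
          have := mul_nonneg hM0 (b1 j)
          have := c1 j
          linarith
        · rw [e1, b1' j hj, c2 j (b1' j hj)]
          simp
        · rw [e3, e3, ← hbd, hz2]
          have h2 := mul_le_mul_of_nonneg_left (b2 v hv) hM0
          rw [← hbd] at h2
          have h3 := c3 v hv
          linarith
        · have h2 : dotH v (bvec C) = (bvec C).2 := by rw [b2' v hv hvE, ← hbd]
          rw [e3, e3, h2, ← hbd, hz2, c4 v hv h2]
        · rw [e1, e2]
          have h2 := hM j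
          have h3 : (M : ℤ) * 1 ≤ M * (K * (bvec C).2 - (bvec C).1 j) :=
            mul_le_mul_of_nonneg_left (by have := hbK j; omega) hM0
          nlinarith
        · rw [e3, e2, ← hbd, hz2]
        · rw [e3, e2, ← hbd, hz2]
      have hnz : ((∑ i, z.1 i : ℤ) : ℚ) = -s₀ * (z.2 : ℤ) := by
        have h2 := hall _ hMb
        have h3 := hall _ hbC
        have e2 : (M • bvec C + z).2 = M * (bvec C).2 + z.2 := by
          simp
        rw [map_add, map_nsmul, nsmul_eq_mul, e2] at h2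
        have h4 : nuH (v0 I) z = ∑ i, z.1 i := by
          rw [nuH_apply, hz2, sub_self, add_zero]
        rw [h4] at h2
        push_cast at h2 ⊢
        rw [h3] at h2
        linarith
      refine co2_mem.mpr ⟨⟨c1, fun j hj => c2 j (b1' j hj)⟩, ⟨fun v hv => ?_, fun v hv hvE => ?_⟩,
        ⟨fun j => ?_, fun j hj => absurd hj (hnE j)⟩, ?_, fun _ => ?_⟩
      · rw [hz2]; exact c3 v hv
      · rw [hz2]
        exact c4 v hv (by rw [b2' v hv hvE, ← hbd])
      · have h2 : ((z.1 j : ℤ) : ℚ) ≤ ((∑ i, z.1 i : ℤ) : ℚ) := by exact_mod_cast co2_le_sum c1 j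
        rw [hnz] at h2
        have h3 : (0 : ℚ) ≤ (z.2 : ℤ) := by exact_mod_cast hz0
        have h4 : -s₀ * (z.2 : ℤ) ≤ K * (z.2 : ℤ) := mul_le_mul_of_nonneg_right hK.le h3
        have h5 : ((z.1 j : ℤ) : ℚ) ≤ ((K * z.2 : ℤ) : ℚ) := by
          push_cast
          linarith
        exact_mod_cast h5
      · exact hz2.le
      · exact hz2.symm
    · intro hz
      obtain ⟨⟨a1, a1'⟩, ⟨a2, a2'⟩, ⟨a3, a3'⟩, a4, a4'⟩ := co2_mem.mp hz
      have hzd := hdot z hz
      obtain ⟨M, hM⟩ := hbM z hz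
      obtain ⟨⟨m1, _⟩, ⟨m2, _⟩, _⟩ := co2_mem.mp hM
      have hMd := hdot _ hM
      refine ⟨a1, fun i hi => ?_, fun u hu => ?_, fun u hu hub => ?_⟩
      · have h2 := m1 i
        have e1 : (M • bvec C - z).1 i = M * (bvec C).1 i - z.1 i := by
          simp
        rw [e1, hi, mul_zero] at h2
        have := a1 i
        omega
      · rw [hzd]; exact a2 u hu
      · have h2 := m2 u hu
        have e3 : dotH u (M • bvec C - z) = M * (bvec C).2 - dotH u z := by
          rw [map_sub, map_nsmul, hub, nsmul_eq_mul]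
        rw [← hMd, e3] at h2
        have e2 : (M • bvec C - z).2 = M * (bvec C).2 - z.2 := by
          simp
        rw [e2] at h2
        have h3 := a2 u hu
        omega
  refine ⟨bvec C, hb0, hbC, ⟨hb2, ?_, ?_, ?_, ?_⟩, hcar, ?_⟩
  · rw [hcar]; exact hbC
  · rw [hcar]
  · intro z hz
    rw [hcar] at hz
    exact hsum z hz
  · intro i hi
    exact b1' i (hE (mem_EX1.mpr hi))
  · rw [nuH_apply, ← hbd, sub_self, add_zero]

end MPb07157
end
end

section

/-!
# Flags are independent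
-/

noncomputable section

namespace MPb07157

open MvPolynomial Finset

variable {n : ℕ} {f : MvPolynomial (Fin n) ℂ} {D : Finset (Fin n)} {s₀ : ℚ}

private theorem fi_dotH {J : Finset (Fin n)} {e : Fin n → ℤ} (he : e ∈ ejS J) {j : Fin n}
    {u : Fin n →₀ ℕ} (h1 : u j = 1) (h0 : ∀ i ∈ J, i ≠ j → u i = 0) : dotH u ((e, 0) : GG n) = e j := by
  rw [dotH_apply]
  rw [Finset.sum_eq_single j]
  · show e j * ((u j : ℕ) : ℤ) = e j
    rw [h1]
    simp
  · intro i _ hij
    show e i * ((u i : ℕ) : ℤ) = 0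
    by_cases hi : i ∈ J
    · rw [h0 i hi hij]
      simp
    · rw [he i hi, zero_mul]
  · intro h
    exact absurd (Finset.mem_univ j) h

theorem Fl.ind {F : Finset (GG n)} (hF : F ∈ Fl f D s₀) {J : Finset (Fin n)}
    (hJ : ∀ j ∈ J, ∃ u ∈ f.support, (∀ k ∈ F, dotH u k = k.2) ∧ u j = 1 ∧
      ∀ i ∈ J, i ≠ j → u i = 0) : Ind F J := by
  intro c e he hs
  have he0 : e = 0 := by
    funext i
    by_cases hi : i ∈ J
    · obtain ⟨u, -, hu, h1, h0⟩ := hJ i hi
      have h2 := congrArg (dotH u) hs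
      rw [map_sum, fi_dotH he h1 h0] at h2
      have h3 := congrArg Prod.snd hs
      rw [Prod.snd_sum] at h3
      have h4 : ∑ k ∈ F, dotH u (c k • k) = ∑ k ∈ F, (c k • k).2 := by
        refine Finset.sum_congr rfl fun k hk => ?_
        rw [map_zsmul, hu k hk]
        rfl
      rw [← h2, h4, h3]
      rfl
    · exact he i hi
  refine ⟨he0, ?_⟩
  have hs0 : ∑ k ∈ F, c k • k = 0 := by
    rw [hs, he0]
    rfl
  classical
  have key := flag_unique hF hF (fun k => if k ∈ F then (c k).toNat else 0)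
    (fun k => if k ∈ F then (-c k).toNat else 0) (fun k hk => if_neg hk) (fun k hk => if_neg hk) (by
      have h1 : ∑ k ∈ F, (if k ∈ F then (c k).toNat else 0) • k = ∑ k ∈ F, ((c k).toNat : ℤ) • k :=
        Finset.sum_congr rfl fun k hk => by rw [if_pos hk, natCast_zsmul]
      have h2 : ∑ k ∈ F, (if k ∈ F then (-c k).toNat else 0) • k = ∑ k ∈ F, ((-c k).toNat : ℤ) • k :=
        Finset.sum_congr rfl fun k hk => by rw [if_pos hk, natCast_zsmul]
      rw [h1, h2, ← sub_eq_zero, ← Finset.sum_sub_distrib, ← hs0]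
      refine Finset.sum_congr rfl fun k _ => ?_
      rw [← sub_smul]
      congr 1
      omega)
  intro k hk
  have h3 := congrFun key k
  simp only [if_pos hk] at h3
  omega

end MPb07157
end
end

section

/-!
# Decomposable series: basic properties
-/

noncomputable section

namespace MPb07157

open Finset

variable {n : ℕ} {s₀ : ℚ} {𝓕 𝓕' : Set (Finset (GG n))} {Y Y' : PowerSeries (RX n)}

theorem FDec.mono (h : FDec s₀ 𝓕 Y) (hF : 𝓕 ⊆ 𝓕') : FDec s₀ 𝓕' Y := by
  obtain ⟨s, K, A, h1, h2, h3⟩ := h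
  exact ⟨s, K, A, h1, fun F hF' => hF (h2 F hF'), h3⟩

theorem FDec.zero : FDec s₀ 𝓕 0 := by
  refine ⟨0, ∅, fun _ => 0, fun w hw => absurd hw (Multiset.notMem_zero w),
    fun F hF => absurd hF (Finset.notMem_empty F), fun z => ?_⟩
  rw [mul_zero, cfun_zero, Finset.sum_empty]

/-- Multiplication by a product of factors. -/
private theorem fd1_fac {K : Finset (Finset (GG n))} (t : Multiset ((RX n)ˣ × ℕ)) :
    (∀ w ∈ t, w ∈ OH n s₀ ∧ 0 < w.2) → ∀ (A : Finset (GG n) → (GG n →₀ Mot)) (Y : PowerSeries (RX n)),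
    (∀ z, cfun Y z = ∑ F ∈ K, GF F (A F) z) →
    ∃ A' : Finset (GG n) → (GG n →₀ Mot), ∀ z,
      cfun ((((t.map fac).prod : Polynomial (RX n)) : PowerSeries (RX n)) * Y) z =
        ∑ F ∈ K, GF F (A' F) z := by
  induction t using Multiset.induction_on with
  | empty =>
    intro _ A Y h
    refine ⟨A, fun z => ?_⟩
    rw [Multiset.map_zero, Multiset.prod_zero, Polynomial.coe_one, one_mul]
    exact h z
  | cons w t ih =>
    intro hw A Y h
    obtain ⟨A', hA'⟩ := ih (fun w' hw' => hw w' (Multiset.mem_cons_of_mem hw')) A Y h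
    obtain ⟨⟨γ, e, b, rfl, -⟩, -⟩ := hw w (Multiset.mem_cons_self w t)
    refine ⟨fun F => A' F + (-qpw LU (∑ i, γ i - e)) • shG ((γ, (b : ℤ)) : GG n) (A' F), fun z => ?_⟩
    rw [Multiset.map_cons, Multiset.prod_cons, Polynomial.coe_mul, mul_assoc, cfun_fac, hA', hA',
      Finset.mul_sum, ← Finset.sum_sub_distrib]
    refine Finset.sum_congr rfl fun F _ => ?_
    rw [GF_add, GF_smul, GF_shG]
    ring

theorem FDec.add (h : FDec s₀ 𝓕 Y) (h' : FDec s₀ 𝓕 Y') : FDec s₀ 𝓕 (Y + Y') := by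
  classical
  obtain ⟨s, K, A, h1, h2, h3⟩ := h
  obtain ⟨s', K', A', h1', h2', h3'⟩ := h'
  obtain ⟨B, hB⟩ := fd1_fac s' h1' A _ h3
  obtain ⟨B', hB'⟩ := fd1_fac s h1 A' _ h3'
  refine ⟨s + s', K ∪ K', fun F => (if F ∈ K then B F else 0) + (if F ∈ K' then B' F else 0), ?_, ?_, ?_⟩
  · intro w hw
    rcases Multiset.mem_add.1 hw with hw | hw
    · exact h1 w hw
    · exact h1' w hw
  · intro F hF
    rcases Finset.mem_union.1 hF with hF | hF
    · exact h2 F hF
    · exact h2' F hF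
  · intro z
    have e1 : ((((s + s').map fac).prod : Polynomial (RX n)) : PowerSeries (RX n)) * (Y + Y') =
        (((s'.map fac).prod : Polynomial (RX n)) : PowerSeries (RX n)) *
          ((((s.map fac).prod : Polynomial (RX n)) : PowerSeries (RX n)) * Y) +
        (((s.map fac).prod : Polynomial (RX n)) : PowerSeries (RX n)) *
          ((((s'.map fac).prod : Polynomial (RX n)) : PowerSeries (RX n)) * Y') := by
      rw [Multiset.map_add, Multiset.prod_add, Polynomial.coe_mul]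
      ring
    rw [e1, cfun_add, hB, hB']
    have e2 : ∀ F ∈ K ∪ K', GF F ((if F ∈ K then B F else 0) + (if F ∈ K' then B' F else 0)) z =
        (if F ∈ K then GF F (B F) z else 0) + (if F ∈ K' then GF F (B' F) z else 0) := by
      intro F _
      rw [GF_add]
      congr 1
      · split_ifs
        · rfl
        · exact GF_zero F z
      · split_ifs
        · rfl
        · exact GF_zero F z
    rw [Finset.sum_congr rfl e2, Finset.sum_add_distrib]
    congr 1
    · rw [← Finset.sum_filter]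
      refine Finset.sum_congr ?_ fun _ _ => rfl
      ext F
      simp only [Finset.mem_filter, Finset.mem_union]
      tauto
    · rw [← Finset.sum_filter]
      refine Finset.sum_congr ?_ fun _ _ => rfl
      ext F
      simp only [Finset.mem_filter, Finset.mem_union]
      tauto

theorem FDec.C_mul (h : FDec s₀ 𝓕 Y) (c : Mot) :
    FDec s₀ 𝓕 (PowerSeries.C (AddMonoidAlgebra.single 0 c : RX n) * Y) := by
  obtain ⟨s, K, A, h1, h2, h3⟩ := h
  refine ⟨s, K, fun F => c • A F, h1, h2, fun z => ?_⟩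
  rw [mul_left_comm, cfun_C_mul, h3, Finset.mul_sum]
  refine Finset.sum_congr rfl fun F _ => ?_
  rw [GF_smul]

theorem FDec.neg (h : FDec s₀ 𝓕 Y) : FDec s₀ 𝓕 (-Y) := by
  have h1 := h.C_mul (-1)
  have h2 : (AddMonoidAlgebra.single 0 (-1) : RX n) = -1 := by
    rw [AddMonoidAlgebra.one_def]
    ext a
    rw [AddMonoidAlgebra.coeff_neg, AddMonoidAlgebra.coeff_single, AddMonoidAlgebra.coeff_single,
      Finsupp.single_neg]
  rw [h2, map_neg, map_one, neg_one_mul] at h1
  exact h1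

theorem FDec.monomial (h : ∅ ∈ 𝓕) (u : RX n) (k : ℕ) :
    FDec s₀ 𝓕 (PowerSeries.C u * PowerSeries.X ^ k) := by
  obtain ⟨A, hA⟩ := cfun_monomial u k
  refine ⟨0, {∅}, fun _ => A, fun w hw => absurd hw (Multiset.notMem_zero w), fun F hF => ?_,
    fun z => ?_⟩
  · rw [Finset.mem_singleton] at hF
    rw [hF]
    exact h
  · rw [Multiset.map_zero, Multiset.prod_zero, Polynomial.coe_one, one_mul, hA,
      Finset.sum_singleton, GF_empty]

/-- Division by a factor that does not contribute the candidate pole. -/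
theorem FDec.div_OH {w : (RX n)ˣ × ℕ} (hw : w ∈ OH n s₀) (hb : 0 < w.2)
    (h : FDec s₀ 𝓕 (((fac w : Polynomial (RX n)) : PowerSeries (RX n)) * Y)) : FDec s₀ 𝓕 Y := by
  obtain ⟨s, K, A, h1, h2, h3⟩ := h
  refine ⟨w ::ₘ s, K, A, fun w' hw' => ?_, h2, fun z => ?_⟩
  · rcases Multiset.mem_cons.1 hw' with rfl | hw'
    · exact ⟨hw, hb⟩
    · exact h1 w' hw'
  · rw [← h3 z, Multiset.map_cons, Multiset.prod_cons, Polynomial.coe_mul]
    congr 1
    ring

/-- The subgroup of the decomposable series. -/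
def fdGroup (s₀ : ℚ) (𝓕 : Set (Finset (GG n))) : AddSubgroup (PowerSeries (RX n)) where
  carrier := {Y | FDec s₀ 𝓕 Y}
  zero_mem' := FDec.zero
  add_mem' := FDec.add
  neg_mem' := FDec.neg

end MPb07157
end
end

section

/-!
# Decomposable series: division by the factor of a chosen vector
-/

noncomputable section

namespace MPb07157

open Finset

variable {n : ℕ} {s₀ : ℚ} {𝓕 𝓕' : Set (Finset (GG n))} {Y : PowerSeries (RX n)}

/-- A locally finite function that is invariant under a shift with positive second component is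
zero. -/
private theorem fd2_inv {φ : GG n → Mot} (hφ : LF φ) {b : GG n} (hb : 0 < b.2)
    (h : ∀ z, φ z = φ (z - b)) (z : GG n) : φ z = 0 := by
  obtain ⟨⟨M, hM⟩, -⟩ := hφ
  have h1 : ∀ m : ℕ, φ z = φ (z - m • b) := by
    intro m
    induction m with
    | zero => rw [zero_smul, sub_zero]
    | succ m ih => rw [ih, h (z - m • b), succ_nsmul, sub_sub]
  rw [h1 (z.2 - M).toNat.succ]
  apply hM
  rw [Prod.snd_sub, Prod.smul_snd, nsmul_eq_mul]
  have h2 : (z.2 - M) < (((z.2 - M).toNat.succ : ℕ) : ℤ) := by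
    have := Int.self_le_toNat (z.2 - M)
    push_cast
    omega
  nlinarith

open Classical in
/-- Division by the factor of a chosen vector. -/
theorem FDec.div_flag {b : GG n} (hb : 0 < b.2)
    (hF : ∀ F ∈ 𝓕', b ∉ F ∧ insert b F ∈ 𝓕 ∧ Ind (insert b F) ∅ ∧ ∀ k ∈ F, 0 < k.2)
    (h : FDec s₀ 𝓕' (((fac (uX b.1 (∑ i, b.1 i), b.2.toNat) : Polynomial (RX n)) :
      PowerSeries (RX n)) * Y)) : FDec s₀ 𝓕 Y := by
  obtain ⟨s, K, A, h1, h2, h3⟩ := h
  obtain ⟨X, hX⟩ : ∃ X, X = (((s.map fac).prod : Polynomial (RX n)) : PowerSeries (RX n)) * Y :=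
    ⟨_, rfl⟩
  have hb' : ((b.1, ((b.2.toNat : ℕ) : ℤ)) : GG n) = b := by
    rw [Int.toNat_of_nonneg hb.le]
  have h4 : ∀ z, cfun X z - cfun X (z - b) = ∑ F ∈ K, GF F (A F) z := by
    intro z
    rw [← h3 z, mul_left_comm, ← hX, cfun_fac, sub_self, qpw_zero, one_mul, hb']
  have h5 : ∀ F ∈ K, ∀ z, GF (insert b F) (A F) z - GF (insert b F) (A F) (z - b) =
      GF F (A F) z := by
    intro F hFK z
    obtain ⟨g1, -, g3, -⟩ := hF F (h2 F hFK)
    have g5 := GF_erase g3 (Finset.mem_insert_self b F) (A F) z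
    rw [Finset.erase_insert g1] at g5
    exact g5
  have hLF : LF (fun z => cfun X z + -1 * ∑ F ∈ K, GF (insert b F) (A F) z) := by
    refine (cfun_LF X).add (LF.const_mul (-1) (LF.sum K _ fun F hFK => GF_LF ?_ (A F)))
    obtain ⟨-, -, -, g4⟩ := hF F (h2 F hFK)
    intro k hk
    rcases Finset.mem_insert.1 hk with rfl | hk
    · exact hb
    · exact g4 k hk
  have hinv := fd2_inv hLF hb (by
    intro z
    have g1 := h4 z
    rw [← Finset.sum_congr rfl (fun F hFK => h5 F hFK z), Finset.sum_sub_distrib] at g1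
    have g2 : cfun X z = cfun X (z - b) + (∑ F ∈ K, GF (insert b F) (A F) z -
      ∑ F ∈ K, GF (insert b F) (A F) (z - b)) := by
      rw [← g1]
      abel
    show cfun X z + -1 * ∑ F ∈ K, GF (insert b F) (A F) z =
      cfun X (z - b) + -1 * ∑ F ∈ K, GF (insert b F) (A F) (z - b)
    rw [g2]
    ring)
  have hinj : ∀ F ∈ K, ∀ F' ∈ K, insert b F = insert b F' → F = F' := by
    intro F hFK F' hFK' he
    have g1 := (hF F (h2 F hFK)).1
    have g2 := (hF F' (h2 F' hFK')).1
    rw [← Finset.erase_insert g1, he, Finset.erase_insert g2]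
  refine ⟨s, K.image (insert b), fun F' => A (F'.erase b), h1, ?_, fun z => ?_⟩
  · intro F' hF'
    obtain ⟨F, hFK, rfl⟩ := Finset.mem_image.1 hF'
    exact (hF F (h2 F hFK)).2.1
  · rw [Finset.sum_image hinj, ← hX]
    have g1 := hinv z
    have g2 : cfun X z = ∑ F ∈ K, GF (insert b F) (A F) z := by
      have g3 : cfun X z + -1 * ∑ F ∈ K, GF (insert b F) (A F) z = 0 := g1
      rw [neg_one_mul, ← sub_eq_add_neg, sub_eq_zero] at g3
      exact g3
    rw [g2]
    refine Finset.sum_congr rfl fun F hFK => ?_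
    show GF (insert b F) (A F) z = GF (insert b F) (A ((insert b F).erase b)) z
    rw [Finset.erase_insert (hF F (h2 F hFK)).1]

end MPb07157
end
end

section

/-!
# The decomposition of the parts of the zeta function by flags
-/

noncomputable section

namespace MPb07157

open MvPolynomial Finset

variable {n : ℕ}

/-- the linear form -/
private def dcH (s₀ : ℚ) (v₀ : Fin n →₀ ℕ) : GG n →+ ℤ :=
  (s₀.den : ℤ) • nuH v₀ + s₀.num • muH n

private theorem dcH_eq_zero {s₀ : ℚ} {v₀ : Fin n →₀ ℕ} {z : GG n} :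
    dcH s₀ v₀ z = 0 ↔ ((nuH v₀ z : ℤ) : ℚ) = -s₀ * (z.2 : ℤ) := by
  have hden : (0 : ℚ) < s₀.den := by exact_mod_cast s₀.pos
  have h1 : ((dcH s₀ v₀ z : ℤ) : ℚ) = s₀.den * (((nuH v₀ z : ℤ) : ℚ) + s₀ * (z.2 : ℤ)) := by
    unfold dcH
    simp only [AddMonoidHom.add_apply, AddMonoidHom.smul_apply, muH_apply, smul_eq_mul]
    push_cast
    have h2 : (s₀.num : ℚ) = s₀ * s₀.den := (Rat.mul_den_eq_num s₀).symm
    rw [h2]
    ring
  rw [← Int.cast_eq_zero (α := ℚ), h1, mul_eq_zero]
  constructor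
  · rintro (h | h)
    · exact absurd h hden.ne'
    · linarith
  · intro h
    right
    rw [h]
    ring

private theorem piece_fdec {f : MvPolynomial (Fin n) ℂ} {D : Finset (Fin n)} {s₀ : ℚ}
    (h1 : s₀ ≠ -1) {K : ℕ} (hK : -s₀ < K) {I : Finset (Fin n →₀ ℕ)} (hI : I.Nonempty)
    (hIf : I ⊆ f.support) (S : Finset (Fin n)) (ty : ℕ) :
    FDec s₀ (Fl f D s₀)
      (genR (omJ (AddMonoidHom.id _) I) (muH n) (PX f K D I S ty (kapE n) ∅)) := by
  classical
  set lam := lamX f K (v0 I) (kapE n) ∅ with hlam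
  set 𝓕 : Finset (II f ⊕ Empty) → Set (Finset (GG n)) := fun E =>
    {F | F ∈ Fl f D s₀ ∧ ∀ k ∈ F, k ∈ PSet lam 0 E} with h𝓕
  have hinj := lamX_inj f K (v0 I) (kapE n) ∅
  have key : genR (omJ (AddMonoidHom.id _) I) (muH n)
      (PSet lam (cX f K D I S ty ∅) (EX f Empty D I S ty)) ∈
      fdGroup s₀ (𝓕 (EX f Empty D I S ty)) := by
    refine genR_induct2 lam hinj (omJ (AddMonoidHom.id _) I) (muH n)
      (fun E => fdGroup s₀ (𝓕 E)) (fun E u k => ?_) (EX f Empty D I S ty) ?_
      (cX f K D I S ty ∅) (fun z hz => PX_pos hz) (fun m => PX_finite m)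
    · have hmem : (∅ : Finset (GG n)) ∈ 𝓕 E := ⟨⟨fun k hk => absurd hk (Finset.notMem_empty k),
        fun k hk => absurd hk (Finset.notMem_empty k)⟩,
        fun k hk => absurd hk (Finset.notMem_empty k)⟩
      exact FDec.monomial hmem u k
    intro E' hE hex
    by_cases hall : ∀ z ∈ PSet lam 0 E', ((nuH (v0 I) z : ℤ) : ℚ) = -s₀ * (z.2 : ℤ)
    · -- all elements of the cone contribute the candidate pole
      obtain ⟨b, hb0, hbC, hbB, hcar, hnu⟩ := allS0_cone hI hIf h1 hK E' hE hall hex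
      refine ⟨b, hbC, hb0, fun hmu Y hY => ?_⟩
      have hle : (⨆ k : {k // lam k b ≠ 0}, fdGroup s₀ (𝓕 (insert k.1 E'))) ≤
          fdGroup s₀ {F | F ∈ 𝓕 E' ∧ b ∉ F} := by
        refine iSup_le fun k Z hZ => ?_
        refine FDec.mono (𝓕 := 𝓕 (insert k.1 E')) hZ fun F hF => ?_
        refine ⟨⟨hF.1, fun k' hk' => PSet_mono_E lam (Finset.subset_insert _ _) (hF.2 k' hk')⟩,
          fun hbF => k.2 ?_⟩
        exact (hF.2 b hbF).2 k.1 (Finset.mem_insert_self _ _)
      have h2 : FDec s₀ {F | F ∈ 𝓕 E' ∧ b ∉ F}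
          (((fac (rayP (omJ (AddMonoidHom.id _) I) (muH n) b) : Polynomial (RX n)) :
            PowerSeries (RX n)) * Y) := hle hY
      have h3 : rayP (omJ (AddMonoidHom.id _) I) (muH n) b =
          ((uX b.1 (∑ i, b.1 i), b.2.toNat) : (RX n)ˣ × ℕ) := by
        show ((uX b.1 (nuH (v0 I) b), b.2.toNat) : (RX n)ˣ × ℕ) = _
        rw [hnu]
      rw [h3] at h2
      refine FDec.div_flag hbB.pos (fun F hF => ?_) h2
      have hflag : insert b F ∈ Fl f D s₀ := by
        refine ⟨fun k hk => ?_, fun k hk k' hk' => ?_⟩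
        · rcases Finset.mem_insert.1 hk with rfl | hk
          · exact hbB
          · exact hF.1.1.1 k hk
        · have hsub : ∀ k ∈ F, car f k ⊆ car f b := fun k hk =>
            car_subset (hcar ▸ hF.1.2 k hk)
          rcases Finset.mem_insert.1 hk with h4 | h4
          · rcases Finset.mem_insert.1 hk' with h5 | h5
            · rw [h4, h5]
              exact Or.inl subset_rfl
            · rw [h4]
              exact Or.inr (hsub k' h5)
          · rcases Finset.mem_insert.1 hk' with h5 | h5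
            · rw [h5]
              exact Or.inl (hsub k h4)
            · exact hF.1.1.2 k h4 k' h5
      refine ⟨hF.2, ⟨hflag, fun k hk => ?_⟩, ?_, fun k hk => (hF.1.1.1 k hk).pos⟩
      · rcases Finset.mem_insert.1 hk with rfl | hk
        · exact hbC
        · exact hF.1.2 k hk
      · exact Fl.ind hflag fun j hj => absurd hj (Finset.notMem_empty j)
    · -- there is a ray that does not contribute the candidate pole
      obtain ⟨w, hw, hwne⟩ : ∃ w, MaxTight lam E' w ∧
          ((nuH (v0 I) w : ℤ) : ℚ) ≠ -s₀ * (w.2 : ℤ) := by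
        by_contra hcon
        push Not at hcon
        refine hall fun z hz => dcH_eq_zero.1 ?_
        exact cone_zero lam hinj E' (dcH s₀ (v0 I)) (fun y hy => dcH_eq_zero.2 (hcon y hy)) z hz
      refine ⟨w, hw.2.1, hw.1, fun hmu Y hY => ?_⟩
      have hle : (⨆ k : {k // lam k w ≠ 0}, fdGroup s₀ (𝓕 (insert k.1 E'))) ≤
          fdGroup s₀ (𝓕 E') := by
        refine iSup_le fun k Z hZ => ?_
        refine FDec.mono (𝓕 := 𝓕 (insert k.1 E')) hZ fun F hF => ?_
        exact ⟨hF.1, fun k' hk' => PSet_mono_E lam (Finset.subset_insert _ _) (hF.2 k' hk')⟩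
      have h2 : FDec s₀ (𝓕 E')
          (((fac (rayP (omJ (AddMonoidHom.id _) I) (muH n) w) : Polynomial (RX n)) :
            PowerSeries (RX n)) * Y) := hle hY
      have hw2 : 0 < w.2 := hmu
      refine FDec.div_OH ⟨w.1, nuH (v0 I) w, w.2.toNat, rfl, ?_⟩ ?_ h2
      · have h4 : ((w.2.toNat : ℕ) : ℚ) = ((w.2 : ℤ) : ℚ) := by
          exact_mod_cast Int.toNat_of_nonneg hw2.le
        rw [h4]
        exact hwne
      · show 0 < w.2.toNat
        omega
  exact FDec.mono (𝓕 := 𝓕 (EX f Empty D I S ty)) key fun F hF => hF.1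

theorem ZJx_dec {f : MvPolynomial (Fin n) ℂ} (hf : f ≠ 0) {D : Finset (Fin n)} {s₀ : ℚ}
    (h1 : s₀ ≠ -1) {K : ℕ} (hK : -s₀ < K) :
    FDec s₀ (Fl f D s₀) (ZJx f K D (AddMonoidHom.id _)) := by
  have key : ZJx f K D (AddMonoidHom.id _) ∈ fdGroup s₀ (Fl f D s₀) := by
    rw [ZJx_eq_sum f K D (AddMonoidHom.id _) (kapE n), Fintype.sum_subsingleton _ ∅, ZPx_eq hf]
    refine sum_mem fun p hp => ?_
    rw [Finset.mem_product, Finset.mem_filter, Finset.mem_powerset] at hp
    exact FDec.add ((piece_fdec h1 hK hp.1.2 hp.1.1 p.2 0).C_mul _)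
      ((piece_fdec h1 hK hp.1.2 hp.1.1 p.2 1).C_mul _)
  exact key

end MPb07157
end
end
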