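import Pool.Agent.Lib.MP_b07157_ag.PS.Defs

/-!
# Sums of the measures of the order strata
-/

noncomputable section

namespace MPb07157

open MvPolynomial Finset

variable {n : ℕ} {f : MvPolynomial (Fin n) ℂ}

theorem isConstr_QS (N : ℕ) (J : Finset (Fin n)) (b : Fin n → ℕ) : IsConstr (QS N J b) := by
  classical
  refine isConstr_setOf_and (isConstr_Vn N b) ?_
  have h := isConstr_forall_mem (σ := Fin n × Fin N) (Finset.univ.filter fun i => i ∉ J)
    (fun j γ => lead0 b γ j ≠ 0) (fun j _ => by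
      by_cases hj : b j < N
      · have := isConstr_ne_zero (X (j, ⟨b j, hj⟩) : MvPolynomial (Fin n × Fin N) ℂ)
        simpa [lead0, hj] using this
      · simp only [lead0, dif_neg hj, ne_eq, not_true_eq_false]
        exact isConstr_const False)
  simpa using h

private theorem mem_fib {N : ℕ} {J : Finset (Fin n)} {a b c : Fin n → ℕ} :
    c ∈ fib N J a b ↔ (∀ i ∉ J, c i = a i) ∧ ∀ j ∈ J, b j ≤ c j ∧ c j ≤ N := by
  unfold fib
  rw [Fintype.mem_piFinset]
  constructor
  · intro h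
    refine ⟨fun i hi => ?_, fun j hj => ?_⟩
    · have := h i
      rw [if_neg hi] at this
      exact Finset.mem_singleton.1 this
    · have := h j
      rw [if_pos hj] at this
      exact Finset.mem_Icc.1 this
  · rintro ⟨h1, h2⟩ j
    split_ifs with hj
    · exact Finset.mem_Icc.2 (h2 j hj)
    · exact Finset.mem_singleton.2 (h1 j hj)

private theorem lead0_congr {N : ℕ} {a b : Fin n → ℕ} (γ : Fin n × Fin N → ℂ) {i : Fin n}
    (h : a i = b i) : lead0 a γ i = lead0 b γ i := by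
  unfold lead0
  by_cases hi : a i < N
  · have hi' : b i < N := h ▸ hi
    rw [dif_pos hi, dif_pos hi']
    congr 2
    exact Fin.ext h
  · have hi' : ¬ b i < N := h ▸ hi
    rw [dif_neg hi, dif_neg hi']

private theorem arcs_QS_eq (f : MvPolynomial (Fin n) ℂ) {N : ℕ} (m : ℕ) {J : Finset (Fin n)}
    {b : Fin n → ℕ} (hb : ∀ i ∉ J, b i < N) (hbJ : ∀ j ∈ J, b j ≤ N) :
    arcs f N m ∩ QS N J b = ⋃ a ∈ fib N J b b, (arcs f N m ∩ Strat N a) := by
  classical
  ext γ
  simp only [Set.mem_inter_iff, Set.mem_iUnion, exists_prop, mem_fib]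
  constructor
  · rintro ⟨h1, h2, h3⟩
    have hex : ∀ j : Fin n, ∃ k : ℕ, k = N ∨ ∃ h : k < N, γ (j, ⟨k, h⟩) ≠ 0 :=
      fun j => ⟨N, Or.inl rfl⟩
    have hle : ∀ j, b j ≤ N := by
      intro j
      by_cases hj : j ∈ J
      · exact hbJ j hj
      · exact (hb j hj).le
    have hge : ∀ j, b j ≤ Nat.find (hex j) := by
      intro j
      rw [Nat.le_find_iff]
      rintro k hk (h4 | ⟨h4, h5⟩)
      · have := hle j
        omega
      · exact h5 (h2 j ⟨k, h4⟩ hk)
    refine ⟨fun j => Nat.find (hex j), ⟨fun i hi => ?_, fun j hj => ?_⟩, h1, ?_, ?_⟩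
    · refine le_antisymm (Nat.find_min' (hex i) (Or.inr ⟨hb i hi, ?_⟩)) (hge i)
      have h4 := h3 i hi
      unfold lead0 at h4
      rwa [dif_pos (hb i hi)] at h4
    · exact ⟨hge j, Nat.find_min' (hex j) (Or.inl rfl)⟩
    · intro j k hk
      by_contra hne
      exact Nat.find_min (hex j) hk (Or.inr ⟨k.2, hne⟩)
    · intro j hj
      have h4 := Nat.find_spec (hex j)
      rcases h4 with h4 | ⟨h4, h5⟩
      · beta_reduce at hj
        rw [h4] at hj
        exact absurd hj (lt_irrefl _)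
      · unfold lead0
        rw [dif_pos hj]
        exact h5
  · rintro ⟨a, ⟨h1, h2⟩, h3, h4, h5⟩
    refine ⟨h3, fun j k hk => h4 j k ?_, fun i hi => ?_⟩
    · by_cases hj : j ∈ J
      · exact lt_of_lt_of_le hk (h2 j hj).1
      · rw [h1 j hj]
        exact hk
    · rw [← lead0_congr γ (h1 i hi)]
      exact h5 i (by rw [h1 i hi]; exact hb i hi)

/-- The measure of the arcs with `ord f = m` and with orders prescribed outside `J`. -/
theorem sum_fib_Wc (hf : f ≠ 0) (hnd : ∀ a : Fin n → ℕ, NondegAt f (face f a (nuf f a)))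
    {N m : ℕ} (hm : m < N) {J : Finset (Fin n)} {b : Fin n → ℕ} (hb : ∀ i ∉ J, b i < N)
    (hbJ : ∀ j ∈ J, b j ≤ N) :
    ∑ a ∈ fib N J b b, Wc f N m a =
      ↑((LU ^ (n * N))⁻¹) * clsM (arcs f N m ∩ QS N J b) := by
  classical
  have hle : ∀ a ∈ fib N J b b, ∀ j, a j ≤ N := by
    intro a ha j
    rw [mem_fib] at ha
    by_cases hj : j ∈ J
    · exact (ha.2 j hj).2
    · rw [ha.1 j hj]
      exact (hb j hj).le
  have h1 : clsM (arcs f N m ∩ QS N J b) = ∑ a ∈ fib N J b b, clsM (arcs f N m ∩ Strat N a) := by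
    unfold clsM
    rw [arcs_QS_eq f m hb hbJ, cls_biUnion, map_sum]
    · intro a _
      exact (isConstr_arcs f N m).inter (isConstr_Strat N a)
    · intro a ha c hc hac
      exact (disjoint_Strat (hle a ha) (hle c hc) hac).mono Set.inter_subset_right
        Set.inter_subset_right
  rw [h1, Finset.mul_sum]
  refine Finset.sum_congr rfl fun a ha => ?_
  rw [clsM_stratum hf hm (hle a ha) (hnd a)]
  unfold Wc c0 c1
  rfl

/-- Independence of the truncation level. -/
theorem sum_fib_succ (hf : f ≠ 0) (hnd : ∀ a : Fin n → ℕ, NondegAt f (face f a (nuf f a)))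
    {N m : ℕ} (hm : m < N) {J : Finset (Fin n)} {b : Fin n → ℕ} (hb : ∀ i ∉ J, b i < N)
    (hbJ : ∀ j ∈ J, b j ≤ N) :
    ∑ a ∈ fib (N + 1) J b b, Wc f (N + 1) m a = ∑ a ∈ fib N J b b, Wc f N m a := by
  rw [sum_fib_Wc (N := N + 1) hf hnd (by omega) (fun i hi => by have := hb i hi; omega)
    (fun j hj => by have := hbJ j hj; omega), sum_fib_Wc hf hnd hm hb hbJ]
  have hle : ∀ j, b j ≤ N := by
    intro j
    by_cases hj : j ∈ J
    · exact hbJ j hj
    · exact (hb j hj).le
  have h : arcs f (N + 1) m ∩ QS (N + 1) J b = {γ : Fin n × Fin (N + 1) → ℂ |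
      leftPart γ ∈ arcs f N m ∩ QS N J b ∧
      rightPart γ ∈ (Set.univ : Set (Fin n × Fin 1 → ℂ))} := by
    rw [arcs_succ f hm]
    ext γ
    simp only [Set.mem_inter_iff, Set.mem_ofPred_eq, Set.mem_univ, and_true]
    refine and_congr_right fun _ => ⟨?_, ?_⟩
    · rintro ⟨h1, h2⟩
      refine ⟨fun j k hk => h1 j (Fin.castAdd 1 k) hk, fun i hi => ?_⟩
      have h3 := h2 i hi
      unfold lead0 at h3 ⊢
      rw [dif_pos (Nat.lt_succ_of_lt (hb i hi))] at h3
      rw [dif_pos (hb i hi)]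
      exact h3
    · rintro ⟨h1, h2⟩
      refine ⟨fun j k hk => ?_, fun i hi => ?_⟩
      · have := h1 j ⟨k, by have := hle j; omega⟩ hk
        exact this
      · have h3 := h2 i hi
        unfold lead0 at h3 ⊢
        rw [dif_pos (hb i hi)] at h3
        rw [dif_pos (Nat.lt_succ_of_lt (hb i hi))]
        exact h3
  rw [h, clsM_mul_eq (cls_split ((isConstr_arcs f N m).inter (isConstr_QS N J b))
    IsConstr.univ), clsM_univ]
  simp only [Fintype.card_prod, Fintype.card_fin, mul_one, mul_add, pow_add, mul_inv,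
    Units.val_mul]
  rw [mul_comm (clsM _), mul_assoc, ← mul_assoc (((LU ^ n)⁻¹ : Motˣ) : Mot), Units.inv_mul,
    one_mul]

private theorem sum_fib_add (hf : f ≠ 0) (hnd : ∀ a : Fin n → ℕ, NondegAt f (face f a (nuf f a)))
    {N m : ℕ} (hm : m < N) {J : Finset (Fin n)} {b : Fin n → ℕ} (hb : ∀ i ∉ J, b i < N)
    (hbJ : ∀ j ∈ J, b j ≤ N) (k : ℕ) :
    ∑ a ∈ fib (N + k) J b b, Wc f (N + k) m a = ∑ a ∈ fib N J b b, Wc f N m a := by
  induction k with
  | zero => rfl
  | succ k ih =>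
    rw [← ih]
    exact sum_fib_succ hf hnd (N := N + k) (by omega) (fun i hi => by have := hb i hi; omega)
      (fun j hj => by have := hbJ j hj; omega)

theorem sum_fib_eq (hf : f ≠ 0) (hnd : ∀ a : Fin n → ℕ, NondegAt f (face f a (nuf f a)))
    {N N' m : ℕ} (hm : m < N) (hm' : m < N') {J : Finset (Fin n)} {b : Fin n → ℕ}
    (hb : ∀ i ∉ J, b i < N) (hb' : ∀ i ∉ J, b i < N') (hbJ : ∀ j ∈ J, b j ≤ N)
    (hbJ' : ∀ j ∈ J, b j ≤ N') :
    ∑ a ∈ fib N J b b, Wc f N m a = ∑ a ∈ fib N' J b b, Wc f N' m a := by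
  rcases le_total N N' with h | h
  · obtain ⟨k, rfl⟩ := Nat.exists_eq_add_of_le h
    exact (sum_fib_add hf hnd hm hb hbJ k).symm
  · obtain ⟨k, rfl⟩ := Nat.exists_eq_add_of_le h
    exact sum_fib_add hf hnd hm' hb' hbJ' k

end MPb07157
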