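import Pool.Agent.Lib.MP_b07157_ag.PS.Defs
import Pool.Agent.Lib.MP_b07157_ag.PS.WcSum

section

/-!
# Changes of one coefficient of an arc
-/

noncomputable section

namespace MPb07157

open MvPolynomial Finset

variable {n : ℕ} {f : MvPolynomial (Fin n) ℂ}

private theorem upd_Fv_mono {N : ℕ} {b : Fin n → ℕ} {γ : Fin n × Fin N → ℂ} (hγ : Vn b γ)
    (u : Fin n →₀ ℕ) (a : ℂ) :
    Fv (monomial u a) γ =
      PowerSeries.X ^ (wt b u) * (PowerSeries.C a * ∏ i, tailS b γ i ^ u i) := by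
  unfold Fv
  rw [aeval_monomial, Finsupp.prod_fintype _ _ (fun _ => pow_zero _)]
  have h1 : ∀ i, arc γ i ^ u i = PowerSeries.X ^ (b i * u i) * tailS b γ i ^ u i := by
    intro i
    rw [arc_eq_tail hγ i, mul_pow, ← pow_mul]
  simp only [h1, Finset.prod_mul_distrib, Finset.prod_pow_eq_pow_sum]
  change PowerSeries.C a * (PowerSeries.X ^ wt b u * _) = _
  ring

private theorem upd_Fv_sum {N : ℕ} (f : MvPolynomial (Fin n) ℂ) (γ : Fin n × Fin N → ℂ) :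
    Fv f γ = ∑ u ∈ f.support, Fv (monomial u (coeff u f)) γ := by
  unfold Fv
  conv_lhs => rw [← MvPolynomial.support_sum_monomial_coeff f]
  rw [map_sum]

private theorem upd_pow {R : Type} [CommRing R] (T h : R) (k : ℕ) :
    ∃ Q : R, (T + h) ^ k = T ^ k + h * Q ∧ (k = 0 → Q = 0) ∧ (k = 1 → Q = 1) := by
  rcases Nat.lt_or_ge k 2 with hk | hk
  · interval_cases k
    · exact ⟨0, by simp, fun _ => rfl, fun h => by omega⟩
    · exact ⟨1, by ring, fun h => by omega, fun _ => rfl⟩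
  · obtain ⟨Q, hQ⟩ := sub_dvd_pow_sub_pow (T + h) T k
    refine ⟨Q, ?_, fun h => by omega, fun h => by omega⟩
    have h1 : (T + h) ^ k = T ^ k + ((T + h) ^ k - T ^ k) := by ring
    rw [h1, hQ]
    ring

private theorem upd_mono {N : ℕ} {b : Fin n → ℕ} {γ : Fin n × Fin N → ℂ} (hγ : Vn b γ)
    (j₀ : Fin n) (r : ℕ) (hr : b j₀ + r < N) (c : ℂ) (u : Fin n →₀ ℕ) (a : ℂ) :
    ∃ S : PowerSeries ℂ,
      Fv (monomial u a) (Function.update γ (j₀, ⟨b j₀ + r, hr⟩) (γ (j₀, ⟨b j₀ + r, hr⟩) + c)) =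
        Fv (monomial u a) γ + PowerSeries.X ^ (wt b u + r) * S ∧ (u j₀ = 0 → S = 0) ∧
      (u j₀ = 1 → PowerSeries.constantCoeff S =
        a * c * ∏ i ∈ univ.erase j₀, lead0 b γ i ^ u i) := by
  obtain ⟨Q, hQ, hQ0, hQ1⟩ := upd_pow (tailS b γ j₀) (PowerSeries.C c * PowerSeries.X ^ r) (u j₀)
  refine ⟨PowerSeries.C a * PowerSeries.C c * Q * ∏ i ∈ univ.erase j₀, tailS b γ i ^ u i,
    ?_, fun h => by rw [hQ0 h]; ring, fun h => ?_⟩
  · rw [upd_Fv_mono (Vn_update hγ j₀ r hr _), upd_Fv_mono hγ, tailS_update,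
      ← Finset.mul_prod_erase univ _ (mem_univ j₀), ← Finset.mul_prod_erase univ _ (mem_univ j₀),
      Function.update_self, hQ]
    have h1 : ∏ x ∈ univ.erase j₀, Function.update (tailS b γ) j₀
        (tailS b γ j₀ + PowerSeries.C c * PowerSeries.X ^ r) x ^ u x =
        ∏ x ∈ univ.erase j₀, tailS b γ x ^ u x := by
      refine Finset.prod_congr rfl fun x hx => ?_
      rw [Function.update_of_ne (Finset.ne_of_mem_erase hx)]
    rw [h1]
    ring
  · rw [hQ1 h, map_mul, map_mul, map_mul, PowerSeries.constantCoeff_C,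
      PowerSeries.constantCoeff_C, map_one, mul_one, map_prod]
    congr 1
    refine Finset.prod_congr rfl fun x _ => ?_
    rw [map_pow, constantCoeff_tailS]

private theorem upd_eval {m : ℕ} {J : Finset (Fin n)} {b : Fin n → ℕ} {j : Fin n}
    (x : Fin n → ℂ) : eval x (pderiv j (inForm f (Pjm f J b m j))) =
      ∑ u ∈ Pjm f J b m j, coeff u f * ∏ i ∈ univ.erase j, x i ^ u i := by
  unfold inForm
  rw [map_sum, map_sum]
  refine Finset.sum_congr rfl fun u hu => ?_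
  have hu1 : u j = 1 := by
    rw [Pjm, mem_filter] at hu
    exact hu.2.2.1
  rw [pderiv_monomial, eval_monomial, hu1, Nat.cast_one, mul_one,
    Finsupp.prod_fintype _ _ (fun _ => pow_zero _), ← Finset.mul_prod_erase univ _ (mem_univ j)]
  congr 1
  have h1 : (u - Finsupp.single j 1 : Fin n →₀ ℕ) j = 0 := by
    rw [Finsupp.tsub_apply, Finsupp.single_eq_same, hu1]
  rw [h1, pow_zero, one_mul]
  refine Finset.prod_congr rfl fun i hi => ?_
  rw [Finsupp.tsub_apply, Finsupp.single_eq_of_ne (Finset.ne_of_mem_erase hi), Nat.sub_zero]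

/-- Effect of a change of the coefficient `b_{j₀} + r` of the coordinate `j₀ ∈ J`, `r ≤ 1`. -/
theorem upd_coeff {N m : ℕ} {J : Finset (Fin n)} {b : Fin n → ℕ}
    (hH : ∀ u ∈ f.support, (∃ j ∈ J, u j ≠ 0) → m < wt b u ∨ ∃ j ∈ J, u ∈ Pjm f J b m j)
    {γ : Fin n × Fin N → ℂ} (hγ : Vn b γ) {j₀ : Fin n} (hj₀ : j₀ ∈ J) (r : ℕ) (hr1 : r ≤ 1)
    (hr : b j₀ + r < N) (c : ℂ) :
    (∀ k < m + r, PowerSeries.coeff k
      (Fv f (Function.update γ (j₀, ⟨b j₀ + r, hr⟩) (γ (j₀, ⟨b j₀ + r, hr⟩) + c))) =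
        PowerSeries.coeff k (Fv f γ)) ∧
    PowerSeries.coeff (m + r)
      (Fv f (Function.update γ (j₀, ⟨b j₀ + r, hr⟩) (γ (j₀, ⟨b j₀ + r, hr⟩) + c))) =
        PowerSeries.coeff (m + r) (Fv f γ) +
          c * eval (lead0 b γ) (pderiv j₀ (inForm f (Pjm f J b m j₀))) := by
  choose S hS1 hS2 hS3 using upd_mono hγ j₀ r hr c
  have hle : ∀ u ∈ f.support, u j₀ ≠ 0 → m < wt b u ∨ u ∈ Pjm f J b m j₀ := by
    intro u hu h0
    rcases hH u hu ⟨j₀, hj₀, h0⟩ with h | ⟨j, hj, h⟩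
    · exact Or.inl h
    · right
      by_cases hjj : j = j₀
      · rwa [hjj] at h
      · exfalso
        rw [Pjm, mem_filter] at h
        exact h0 (h.2.2.2 j₀ hj₀ (Ne.symm hjj))
  have hPw : ∀ u ∈ Pjm f J b m j₀, wt b u = m ∧ u j₀ = 1 := by
    intro u hu
    rw [Pjm, mem_filter] at hu
    exact ⟨hu.2.1, hu.2.2.1⟩
  rw [upd_Fv_sum f, upd_Fv_sum f γ]
  constructor
  · intro k hk
    rw [map_sum, map_sum]
    refine Finset.sum_congr rfl fun u hu => ?_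
    rw [hS1, map_add, PowerSeries.coeff_X_pow_mul']
    by_cases h0 : u j₀ = 0
    · rw [hS2 u _ h0]
      simp
    · have h1 : m ≤ wt b u := by
        rcases hle u hu h0 with h | h
        · exact h.le
        · exact (hPw u h).1.ge
      rw [if_neg (by omega), add_zero]
  · rw [map_sum, map_sum, upd_eval, Finset.mul_sum]
    have h1 : ∑ u ∈ Pjm f J b m j₀, c * (coeff u f * ∏ i ∈ univ.erase j₀, lead0 b γ i ^ u i) =
        ∑ u ∈ f.support, if wt b u = m ∧ u j₀ = 1 ∧ ∀ i ∈ J, i ≠ j₀ → u i = 0 then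
          c * (coeff u f * ∏ i ∈ univ.erase j₀, lead0 b γ i ^ u i) else 0 := by
      rw [← Finset.sum_filter]
      rfl
    rw [h1, ← Finset.sum_add_distrib]
    refine Finset.sum_congr rfl fun u hu => ?_
    rw [hS1, map_add, PowerSeries.coeff_X_pow_mul']
    congr 1
    by_cases hP : wt b u = m ∧ u j₀ = 1 ∧ ∀ i ∈ J, i ≠ j₀ → u i = 0
    · rw [if_pos hP, hP.1, if_pos le_rfl, Nat.sub_self,
        PowerSeries.coeff_zero_eq_constantCoeff_apply, hS3 u _ hP.2.1]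
      ring
    · rw [if_neg hP]
      by_cases h0 : u j₀ = 0
      · rw [hS2 u _ h0]
        simp
      · rcases hle u hu h0 with h | h
        · rw [if_neg (by omega)]
        · exfalso
          rw [Pjm, mem_filter] at h
          exact hP h.2

/-- The derivatives do not involve the coordinates in `J`. -/
theorem eval_pderiv_Pjm {m : ℕ} {J : Finset (Fin n)} {b : Fin n → ℕ} {j : Fin n} (hj : j ∈ J)
    {x y : Fin n → ℂ} (hxy : ∀ i ∉ J, x i = y i) :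
    eval x (pderiv j (inForm f (Pjm f J b m j))) = eval y (pderiv j (inForm f (Pjm f J b m j))) := by
  rw [upd_eval, upd_eval]
  refine Finset.sum_congr rfl fun u hu => ?_
  congr 1
  refine Finset.prod_congr rfl fun i hi => ?_
  by_cases hiJ : i ∈ J
  · rw [Pjm, mem_filter] at hu
    rw [hu.2.2.2 i hiJ (Finset.ne_of_mem_erase hi), pow_zero, pow_zero]
  · rw [hxy i hiJ]

theorem QS_update {N : ℕ} {J : Finset (Fin n)} {b : Fin n → ℕ} {γ : Fin n × Fin N → ℂ}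
    (hγ : γ ∈ QS N J b) {j₀ : Fin n} (hj₀ : j₀ ∈ J) (r : ℕ) (hr : b j₀ + r < N) (c : ℂ) :
    Function.update γ (j₀, ⟨b j₀ + r, hr⟩) c ∈ QS N J b ∧
      ∀ i ∉ J, lead0 b (Function.update γ (j₀, ⟨b j₀ + r, hr⟩) c) i = lead0 b γ i := by
  have h1 : ∀ i ∉ J, lead0 b (Function.update γ (j₀, ⟨b j₀ + r, hr⟩) c) i = lead0 b γ i := by
    intro i hi
    unfold lead0
    split_ifs with h
    · rw [Function.update_of_ne]
      intro h2
      apply hi
      have h3 : i = j₀ := congrArg Prod.fst h2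
      rw [h3]
      exact hj₀
    · rfl
  refine ⟨⟨Vn_update hγ.1 j₀ r hr c, fun i hi => ?_⟩, h1⟩
  rw [h1 i hi]
  exact hγ.2 i hi

end MPb07157
end
end

section

/-!
# The classes of the arcs of order `m` and `m + 1`
-/

noncomputable section

namespace MPb07157

open MvPolynomial Finset

variable {n : ℕ} {f : MvPolynomial (Fin n) ℂ}

private lemma constr_lead (N : ℕ) (b : Fin n → ℕ) (p : MvPolynomial (Fin n) ℂ) :
    IsConstr {γ : Fin n × Fin N → ℂ | eval (lead0 b γ) p = 0} := by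
  let φ : Fin n → MvPolynomial (Fin n × Fin N) ℂ :=
    fun i => if h : b i < N then X (i, ⟨b i, h⟩) else 0
  have h : ∀ γ : Fin n × Fin N → ℂ, polyMap φ γ = lead0 b γ := by
    intro γ
    funext i
    simp only [polyMap, φ, lead0]
    split_ifs <;> simp
  have h2 := (isConstr_eq_zero p).preimage φ
  have h3 : polyMap φ ⁻¹' {x | eval x p = 0} =
      {γ : Fin n × Fin N → ℂ | eval (lead0 b γ) p = 0} := by
    ext γ
    simp only [Set.mem_preimage, Set.mem_ofPred_eq, h]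
  rwa [h3] at h2

/-- The derivative in the direction `j`. -/
private def gJ (f : MvPolynomial (Fin n) ℂ) (N m : ℕ) (J : Finset (Fin n)) (b : Fin n → ℕ)
    (j : Fin n) (γ : Fin n × Fin N → ℂ) : ℂ :=
  eval (lead0 b γ) (pderiv j (inForm f (Pjm f J b m j)))

/-- The arcs along which `f` vanishes to order at least `m` and where `j₀` is the first direction
with a nonvanishing derivative. -/
private def BJ (f : MvPolynomial (Fin n) ℂ) (N m : ℕ) (J : Finset (Fin n)) (b : Fin n → ℕ)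
    (j₀ : Fin n) : Set (Fin n × Fin N → ℂ) :=
  {γ | (γ ∈ QS N J b ∧ ∀ k ∈ Finset.range m, PowerSeries.coeff k (Fv f γ) = 0) ∧
    ((∀ j ∈ J.filter (· < j₀), gJ f N m J b j γ = 0) ∧ ¬ gJ f N m J b j₀ γ = 0)}

private lemma constr_BJ (f : MvPolynomial (Fin n) ℂ) (N m : ℕ) (J : Finset (Fin n))
    (b : Fin n → ℕ) (j₀ : Fin n) : IsConstr (BJ f N m J b j₀) :=
  isConstr_setOf_and (isConstr_setOf_and (isConstr_QS N J b)
    (isConstr_forall_mem _ _ fun _ _ => isConstr_coeff f N _))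
    (isConstr_setOf_and (isConstr_forall_mem _ _ fun _ _ => constr_lead N b _)
      (isConstr_setOf_not (constr_lead N b _)))

section

variable {N m : ℕ} {J : Finset (Fin n)} {b : Fin n → ℕ}

private lemma BJ_shift
    (hH : ∀ u ∈ f.support, (∃ j ∈ J, u j ≠ 0) → m < wt b u ∨ ∃ j ∈ J, u ∈ Pjm f J b m j)
    {j₀ : Fin n} (hj₀ : j₀ ∈ J) (r : ℕ) (hr1 : r ≤ 1) (hr : b j₀ + r < N)
    {γ : Fin n × Fin N → ℂ} (hγ : γ ∈ BJ f N m J b j₀) (c : ℂ) :
    Function.update γ (j₀, ⟨b j₀ + r, hr⟩) (γ (j₀, ⟨b j₀ + r, hr⟩) + c) ∈ BJ f N m J b j₀ := by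
  obtain ⟨⟨h1, h2⟩, h3, h4⟩ := hγ
  have h5 := upd_coeff hH h1.1 hj₀ r hr1 hr c
  have h6 := QS_update h1 hj₀ r hr (γ (j₀, ⟨b j₀ + r, hr⟩) + c)
  refine ⟨⟨h6.1, fun k hk => ?_⟩, fun j hj => ?_, ?_⟩
  · rw [h5.1 k (by have := Finset.mem_range.1 hk; omega)]
    exact h2 k hk
  · have h7 := h3 j hj
    unfold gJ at h7 ⊢
    rw [eval_pderiv_Pjm (Finset.mem_filter.1 hj).1 h6.2]
    exact h7
  · unfold gJ at h4 ⊢
    rw [eval_pderiv_Pjm hj₀ h6.2]
    exact h4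

attribute [local irreducible] K0.instCommRing

private lemma step_BJ
    (hH : ∀ u ∈ f.support, (∃ j ∈ J, u j ≠ 0) → m < wt b u ∨ ∃ j ∈ J, u ∈ Pjm f J b m j)
    {j₀ : Fin n} (hj₀ : j₀ ∈ J) (hb : b j₀ + 1 < N) :
    cls {γ | (γ ∈ BJ f N m J b j₀ ∧ PowerSeries.coeff m (Fv f γ) = 0) ∧
      PowerSeries.coeff (m + 1) (Fv f γ) ≠ 0} * L =
    cls {γ | γ ∈ BJ f N m J b j₀ ∧ PowerSeries.coeff m (Fv f γ) ≠ 0} := by
  have hb0 : b j₀ + 0 < N := by omega
  have key1 := hensel_step (BJ f N m J b j₀) (constr_BJ f N m J b j₀)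
    (fun γ => PowerSeries.coeff (m + 0) (Fv f γ)) (exists_coeff_poly f (m + 0))
    (j₀, ⟨b j₀ + 0, hb0⟩) (fun γ hγ c => BJ_shift hH hj₀ 0 (by omega) hb0 hγ c)
    (fun γ => gJ f N m J b j₀ γ) (fun γ hγ => hγ.2.2)
    (fun γ hγ c => (upd_coeff hH hγ.1.1.1 hj₀ 0 (by omega) hb0 c).2)
  have key2 := hensel_step {γ | γ ∈ BJ f N m J b j₀ ∧ PowerSeries.coeff m (Fv f γ) = 0}
    (isConstr_setOf_and (constr_BJ f N m J b j₀) (isConstr_coeff f N m))
    (fun γ => PowerSeries.coeff (m + 1) (Fv f γ)) (exists_coeff_poly f (m + 1))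
    (j₀, ⟨b j₀ + 1, hb⟩) (fun γ hγ c => by
      refine ⟨BJ_shift hH hj₀ 1 le_rfl hb hγ.1 c, ?_⟩
      have h5 := upd_coeff hH hγ.1.1.1.1 hj₀ 1 le_rfl hb c
      rw [h5.1 m (by omega)]
      exact hγ.2)
    (fun γ => gJ f N m J b j₀ γ) (fun γ hγ => hγ.1.2.2)
    (fun γ hγ c => (upd_coeff hH hγ.1.1.1.1 hj₀ 1 le_rfl hb c).2)
  simp only [add_zero] at key1
  simp only [Set.mem_ofPred_eq] at key2
  rw [key2.2, mul_right_comm, key2.1, key1.2]

theorem eq_core {N m : ℕ} {J : Finset (Fin n)} {b : Fin n → ℕ} (hbJ : ∀ j ∈ J, b j + 1 < N)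
    (hH : ∀ u ∈ f.support, (∃ j ∈ J, u j ≠ 0) → m < wt b u ∨ ∃ j ∈ J, u ∈ Pjm f J b m j)
    (hN : ∀ x : Fin n → ℂ, (∀ i, x i ≠ 0) →
      ∃ j ∈ J, eval x (pderiv j (inForm f (Pjm f J b m j))) ≠ 0) :
    cls (arcs f N (m + 1) ∩ QS N J b) * L = cls (arcs f N m ∩ QS N J b) := by
  classical
  have hex : ∀ γ ∈ QS N J b, ∃ j ∈ J, gJ f N m J b j γ ≠ 0 := by
    intro γ hγ
    obtain ⟨j, hj, hne⟩ := hN (fun i => if i ∈ J then 1 else lead0 b γ i) (fun i => by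
      beta_reduce
      split_ifs with h
      · exact one_ne_zero
      · exact hγ.2 i h)
    refine ⟨j, hj, ?_⟩
    unfold gJ
    rwa [eval_pderiv_Pjm hj (x := lead0 b γ) (y := fun i => if i ∈ J then 1 else lead0 b γ i)
      (fun i hi => by rw [if_neg hi])]
  have hfirst : ∀ γ ∈ QS N J b, ∃ j₀ ∈ J, (∀ j ∈ J.filter (· < j₀), gJ f N m J b j γ = 0) ∧
      ¬ gJ f N m J b j₀ γ = 0 := by
    intro γ hγ
    obtain ⟨j, hj, hne⟩ := hex γ hγ
    have hne : (J.filter fun j => gJ f N m J b j γ ≠ 0).Nonempty :=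
      ⟨j, Finset.mem_filter.2 ⟨hj, hne⟩⟩
    have h1 := Finset.mem_filter.1 (Finset.min'_mem _ hne)
    refine ⟨Finset.min' _ hne, h1.1, fun i hi => ?_, h1.2⟩
    by_contra hcon
    have hi' := Finset.mem_filter.1 hi
    have hmem : i ∈ J.filter fun j => gJ f N m J b j γ ≠ 0 :=
      Finset.mem_filter.2 ⟨hi'.1, hcon⟩
    have h2 := Finset.min'_le _ i hmem
    exact absurd hi'.2 (not_lt.2 h2)
  have hdis : ∀ i ∈ J, ∀ j ∈ J, i ≠ j → Disjoint (BJ f N m J b i) (BJ f N m J b j) := by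
    intro i hi j hj hij
    rw [Set.disjoint_left]
    rintro u ⟨-, h1, h2⟩ ⟨-, h3, h4⟩
    rcases lt_or_gt_of_ne hij with h5 | h5
    · exact h2 (h3 i (Finset.mem_filter.2 ⟨hi, h5⟩))
    · exact h4 (h1 j (Finset.mem_filter.2 ⟨hj, h5⟩))
  let W1 : Fin n → Set (Fin n × Fin N → ℂ) := fun j₀ =>
    {γ | (γ ∈ BJ f N m J b j₀ ∧ PowerSeries.coeff m (Fv f γ) = 0) ∧
      PowerSeries.coeff (m + 1) (Fv f γ) ≠ 0}
  let W0 : Fin n → Set (Fin n × Fin N → ℂ) := fun j₀ =>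
    {γ | γ ∈ BJ f N m J b j₀ ∧ PowerSeries.coeff m (Fv f γ) ≠ 0}
  have e1 : arcs f N (m + 1) ∩ QS N J b = ⋃ j₀ ∈ J, W1 j₀ := by
    ext γ
    rw [Set.mem_inter_iff, mem_arcs_iff]
    simp only [Set.mem_iUnion, exists_prop, W1, Set.mem_ofPred_eq]
    constructor
    · rintro ⟨⟨h1, h2⟩, h3⟩
      obtain ⟨j₀, hj₀, h4⟩ := hfirst γ h3
      exact ⟨j₀, hj₀, ⟨⟨⟨h3, fun k hk => h2 k (by have := Finset.mem_range.1 hk; omega)⟩, h4⟩,
        h2 m (by omega)⟩, h1⟩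
    · rintro ⟨j₀, hj₀, ⟨⟨⟨h3, h2⟩, h4⟩, h5⟩, h1⟩
      refine ⟨⟨h1, fun i hi => ?_⟩, h3⟩
      rcases Nat.lt_or_ge i m with h6 | h6
      · exact h2 i (Finset.mem_range.2 h6)
      · rw [show i = m by omega]; exact h5
  have e0 : arcs f N m ∩ QS N J b = ⋃ j₀ ∈ J, W0 j₀ := by
    ext γ
    rw [Set.mem_inter_iff, mem_arcs_iff]
    simp only [Set.mem_iUnion, exists_prop, W0, Set.mem_ofPred_eq]
    constructor
    · rintro ⟨⟨h1, h2⟩, h3⟩
      obtain ⟨j₀, hj₀, h4⟩ := hfirst γ h3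
      exact ⟨j₀, hj₀, ⟨⟨h3, fun k hk => h2 k (Finset.mem_range.1 hk)⟩, h4⟩, h1⟩
    · rintro ⟨j₀, hj₀, ⟨⟨h3, h2⟩, h4⟩, h1⟩
      exact ⟨⟨h1, fun i hi => h2 i (Finset.mem_range.2 hi)⟩, h3⟩
  have c1 : ∀ j₀ ∈ J, IsConstr (W1 j₀) := fun j₀ _ =>
    isConstr_setOf_and (isConstr_setOf_and (constr_BJ f N m J b j₀) (isConstr_coeff f N m))
      (isConstr_setOf_not (isConstr_coeff f N _))
  have c0 : ∀ j₀ ∈ J, IsConstr (W0 j₀) := fun j₀ _ =>
    isConstr_setOf_and (constr_BJ f N m J b j₀) (isConstr_setOf_not (isConstr_coeff f N _))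
  have d1 : ∀ i ∈ J, ∀ j ∈ J, i ≠ j → Disjoint (W1 i) (W1 j) := by
    intro i hi j hj hij
    rw [Set.disjoint_left]
    intro γ h1 h2
    exact Set.disjoint_left.1 (hdis i hi j hj hij) h1.1.1 h2.1.1
  have d0 : ∀ i ∈ J, ∀ j ∈ J, i ≠ j → Disjoint (W0 i) (W0 j) := by
    intro i hi j hj hij
    rw [Set.disjoint_left]
    intro γ h1 h2
    exact Set.disjoint_left.1 (hdis i hi j hj hij) h1.1 h2.1
  rw [e1, e0, cls_biUnion _ _ c1 d1, cls_biUnion _ _ c0 d0, Finset.sum_mul]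
  exact Finset.sum_congr rfl fun j₀ hj₀ => step_BJ hH hj₀ (hbJ j₀ hj₀)

end

end MPb07157
end
end

section

/-!
# The functional equation for a fixed truncation level
-/

noncomputable section

namespace MPb07157

open MvPolynomial Finset

variable {n : ℕ} {f : MvPolynomial (Fin n) ℂ}

private theorem mem_fib {N : ℕ} {J : Finset (Fin n)} {a b c : Fin n → ℕ} :
    c ∈ fib N J a b ↔ (∀ i ∉ J, c i = a i) ∧ ∀ j ∈ J, b j ≤ c j ∧ c j ≤ N := by
  unfold fib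
  rw [Fintype.mem_piFinset]
  constructor
  · intro h
    refine ⟨fun i hi => ?_, fun j hj => ?_⟩
    · have := h i
      rw [if_neg hi] at this
      exact Finset.mem_singleton.1 this
    · have := h j
      rw [if_pos hj] at this
      exact Finset.mem_Icc.1 this
  · rintro ⟨h1, h2⟩ j
    split_ifs with hj
    · exact Finset.mem_Icc.2 (h2 j hj)
    · exact Finset.mem_singleton.2 (h1 j hj)

private theorem Wc_succ {N m : ℕ} {a : Fin n → ℕ} (h : nuf f a < m) :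
    Wc f N (m + 1) a = ((LU ^ (-1 : ℤ) : Motˣ) : Mot) * Wc f N m a := by
  unfold Wc
  rw [if_neg (by omega), if_pos (by omega), if_neg (by omega), if_pos h]
  have e : (m + 1 - nuf f a : ℕ) = (m - nuf f a) + 1 := by omega
  rw [e, mul_left_comm, ← Units.val_mul, ← zpow_add]
  have e2 : (-((∑ j, a j : ℕ) + ((m - nuf f a + 1 : ℕ)) : ℤ)) =
      -1 + -((∑ j, a j : ℕ) + (m - nuf f a : ℕ) : ℤ) := by
    push_cast
    ring
  rw [e2]

private theorem nuf_lt (hf : f ≠ 0) {m : ℕ} {J : Finset (Fin n)} {a α c : Fin n → ℕ} {j : Fin n}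
    (hj : j ∈ J) (hc : ∀ i ∉ J, c i = a i)
    (h1 : ∃ u ∈ f.support, u j = 1 ∧ (∀ i ∈ J, i ≠ j → u i = 0) ∧
      ∑ i ∈ Jᶜ, a i * u i = α j) (h2 : c j + α j < m) : nuf f c < m := by
  obtain ⟨u, hu, hu1, hu2, hu3⟩ := h1
  have h3 := (isMinWt_nuf hf c).1 u hu
  have h4 : wt c u = c j + α j := by
    unfold wt
    rw [← Finset.sum_add_sum_compl J]
    congr 1
    · rw [Finset.sum_eq_single_of_mem j hj]
      · rw [hu1, mul_one]
      · intro i hi hij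
        rw [hu2 i hi hij, mul_zero]
    · rw [← hu3]
      refine Finset.sum_congr rfl fun i hi => ?_
      rw [hc i (Finset.mem_compl.1 hi)]
  omega

private theorem sum_core (hf : f ≠ 0) (hnd : ∀ a : Fin n → ℕ, NondegAt f (face f a (nuf f a)))
    {N m : ℕ} (hm : m + 1 < N) {J : Finset (Fin n)} {b : Fin n → ℕ} (hb : ∀ i ∉ J, b i < N)
    (hbJ : ∀ j ∈ J, b j + 1 < N)
    (hH : ∀ u ∈ f.support, (∃ j ∈ J, u j ≠ 0) → m < wt b u ∨ ∃ j ∈ J, u ∈ Pjm f J b m j)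
    (hN : ∀ x : Fin n → ℂ, (∀ i, x i ≠ 0) →
      ∃ j ∈ J, eval x (pderiv j (inForm f (Pjm f J b m j))) ≠ 0) :
    ∑ c ∈ fib N J b b, Wc f N (m + 1) c =
      ((LU ^ (-1 : ℤ) : Motˣ) : Mot) * ∑ c ∈ fib N J b b, Wc f N m c := by
  have hbJ' : ∀ j ∈ J, b j ≤ N := fun j hj => by have := hbJ j hj; omega
  rw [sum_fib_Wc hf hnd hm hb hbJ', sum_fib_Wc hf hnd (by omega) hb hbJ', mul_left_comm]
  congr 1
  have h1 := congrArg (algebraMap K0 Mot) (eq_core (f := f) hbJ hH hN)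
  rw [map_mul, ← LU_val] at h1
  have h2 : clsM (arcs f N m ∩ QS N J b) = clsM (arcs f N (m + 1) ∩ QS N J b) * (LU : Mot) :=
    h1.symm
  rw [h2, mul_comm (clsM _), ← mul_assoc, ← Units.val_mul, zpow_neg_one, inv_mul_cancel,
    Units.val_one, one_mul]

open Classical in
theorem eq_cap (hf : f ≠ 0) (hnd : ∀ a : Fin n → ℕ, NondegAt f (face f a (nuf f a)))
    {N m : ℕ} (hm : m + 1 < N) {J : Finset (Fin n)} {a α : Fin n → ℕ} (ha : ∀ i ∉ J, a i < N)
    (hα : ∀ j ∈ J, α j < m)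
    (h1 : ∀ j ∈ J, ∃ u ∈ f.support, u j = 1 ∧ (∀ i ∈ J, i ≠ j → u i = 0) ∧
      ∑ i ∈ Jᶜ, a i * u i = α j)
    (hH : ∀ u ∈ f.support, (∃ j ∈ J, u j ≠ 0) →
      m < wt (fun i => if i ∈ J then m - α i else a i) u ∨
        ∃ j ∈ J, u ∈ Pjm f J (fun i => if i ∈ J then m - α i else a i) m j)
    (hN : ∀ x : Fin n → ℂ, (∀ i, x i ≠ 0) →
      ∃ j ∈ J, eval x (pderiv j (inForm f
        (Pjm f J (fun i => if i ∈ J then m - α i else a i) m j))) ≠ 0) :
    ∑ a' ∈ fib N J a (fun _ => 1), Wc f N (m + 1) a' =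
      ((LU ^ (-1 : ℤ) : Motˣ) : Mot) * ∑ a' ∈ fib N J a (fun _ => 1), Wc f N m a' := by
  set b : Fin n → ℕ := fun i => if i ∈ J then m - α i else a i with hb
  have hbJ : ∀ j ∈ J, b j = m - α j := fun j hj => by rw [hb]; exact if_pos hj
  have hbc : ∀ i ∉ J, b i = a i := fun i hi => by rw [hb]; exact if_neg hi
  have hset : (fib N J a fun _ => 1).filter (fun c => ∀ j ∈ J, b j ≤ c j) = fib N J b b := by
    ext c
    rw [Finset.mem_filter, mem_fib, mem_fib]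
    constructor
    · rintro ⟨⟨h2, h3⟩, h4⟩
      exact ⟨fun i hi => by rw [h2 i hi, hbc i hi], fun j hj => ⟨h4 j hj, (h3 j hj).2⟩⟩
    · rintro ⟨h2, h3⟩
      refine ⟨⟨fun i hi => by rw [h2 i hi, hbc i hi], fun j hj => ⟨?_, (h3 j hj).2⟩⟩,
        fun j hj => (h3 j hj).1⟩
      have h4 := (h3 j hj).1
      rw [hbJ j hj] at h4
      have h5 := hα j hj
      omega
  rw [← Finset.sum_filter_add_sum_filter_not (fib N J a fun _ => 1)
      (fun c => ∀ j ∈ J, b j ≤ c j) (fun c => Wc f N (m + 1) c),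
    ← Finset.sum_filter_add_sum_filter_not (fib N J a fun _ => 1)
      (fun c => ∀ j ∈ J, b j ≤ c j) (fun c => Wc f N m c), mul_add, hset]
  congr 1
  · refine sum_core hf hnd hm (fun i hi => by rw [hbc i hi]; exact ha i hi) (fun j hj => ?_) hH hN
    rw [hbJ j hj]
    omega
  · rw [Finset.mul_sum]
    refine Finset.sum_congr rfl fun c hc => ?_
    rw [Finset.mem_filter, mem_fib] at hc
    obtain ⟨⟨h2, h3⟩, h4⟩ := hc
    push Not at h4
    obtain ⟨j, hj, h5⟩ := h4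
    rw [hbJ j hj] at h5
    exact Wc_succ (nuf_lt hf hj h2 (h1 j hj) (by omega))

end MPb07157
end
end
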