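import Pool.Agent.Lib.MP_b07157_ag.PS.Defs
import Pool.Agent.Lib.MP_b07157_ag.PS.Cf

section

/-!
# The hypotheses of the functional equation far away in the direction `q`
-/

noncomputable section

namespace MPb07157

open MvPolynomial Finset

variable {n : ℕ} {f : MvPolynomial (Fin n) ℂ}

private lemma ev_gt (K : ℤ) : ∀ᶠ l : ℕ in Filter.atTop, K < (l : ℤ) :=
  tendsto_natCast_atTop_atTop.eventually_gt_atTop K

/-- The part of the dot product off `J`. -/
private def rst (J : Finset (Fin n)) (c : Fin n → ℤ) (u : Fin n →₀ ℕ) : ℤ :=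
  ∑ i ∈ Jᶜ, c i * (u i : ℤ)

private lemma rst_add (J : Finset (Fin n)) (c d : Fin n → ℤ) (l : ℕ) (u : Fin n →₀ ℕ) :
    rst J (fun i => c i + l * d i) u = rst J c u + l * rst J d u := by
  unfold rst
  rw [Finset.mul_sum, ← Finset.sum_add_distrib]
  exact Finset.sum_congr rfl fun i _ => by ring

private lemma rst_congr (J : Finset (Fin n)) {c d : Fin n → ℤ} (h : ∀ i ∉ J, c i = d i)
    (u : Fin n →₀ ℕ) : rst J c u = rst J d u := by
  unfold rst
  refine Finset.sum_congr rfl fun i hi => ?_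
  rw [h i (Finset.mem_compl.1 hi)]

private lemma dot_split (J : Finset (Fin n)) (c : Fin n → ℤ) (u : Fin n →₀ ℕ) :
    ∑ i, c i * (u i : ℤ) = ∑ i ∈ J, c i * (u i : ℤ) + rst J c u :=
  (Finset.sum_add_sum_compl J _).symm

private lemma sum_J_of_P {J : Finset (Fin n)} (c : Fin n → ℤ) {u : Fin n →₀ ℕ} {j : Fin n}
    (hj : j ∈ J) (h1 : u j = 1) (h2 : ∀ i ∈ J, i ≠ j → u i = 0) :
    ∑ i ∈ J, c i * (u i : ℤ) = c j := by
  rw [Finset.sum_eq_single_of_mem j hj]
  · rw [h1]; simp
  · intro i hi hij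
    rw [h2 i hi hij]; simp

open Classical in
theorem eq_tail {q : GG n} (hq2 : 0 < q.2) (hq0 : ∀ i, 0 ≤ q.1 i)
    (hqm : ∀ u ∈ f.support, q.2 ≤ dotH u q) {J : Finset (Fin n)} (hJ : J ⊆ suppG q)
    (hdis : Disj01 (Gk f q) J)
    (hncz : ∀ P : Fin n → Finset (Fin n →₀ ℕ),
      (∀ j ∈ J, (P j).Nonempty ∧ ∀ u ∈ P j, u ∈ Gk f q ∧ u j = 1) →
      ∀ x : Fin n → ℂ, (∀ i, x i ≠ 0) → ∃ j ∈ J, eval x (pderiv j (inForm f (P j))) ≠ 0)
    (z : GG n) :
    ∃ l₀ : ℕ, ∀ l ≥ l₀, (∀ i ∉ J, 0 ≤ (z + l • q).1 i) → ∀ (a : Fin n → ℕ) (m : ℕ),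
      (∀ i ∉ J, (a i : ℤ) = (z + l • q).1 i) → (m : ℤ) = (z + l • q).2 →
      ∃ α : Fin n → ℕ, (∀ j ∈ J, α j < m) ∧
        (∀ j ∈ J, ∃ u ∈ f.support, u j = 1 ∧ (∀ i ∈ J, i ≠ j → u i = 0) ∧
          ∑ i ∈ Jᶜ, a i * u i = α j) ∧
        (∀ u ∈ f.support, (∃ j ∈ J, u j ≠ 0) →
          m < wt (fun i => if i ∈ J then m - α i else a i) u ∨
            ∃ j ∈ J, u ∈ Pjm f J (fun i => if i ∈ J then m - α i else a i) m j) ∧
        (∀ x : Fin n → ℂ, (∀ i, x i ≠ 0) →
          ∃ j ∈ J, eval x (pderiv j (inForm f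
            (Pjm f J (fun i => if i ∈ J then m - α i else a i) m j))) ≠ 0) := by
  -- elements of `Gk` with `u j = 1` are zero on the rest of `J`
  have hG1 : ∀ u ∈ Gk f q, ∀ j ∈ J, u j = 1 → ∀ i ∈ J, i ≠ j → u i = 0 := by
    intro u hu j hj h1 i hi hij
    have h2 := hdis.1 u hu
    have h3 : u i + u j ≤ ∑ k ∈ J, u k := by
      rw [← Finset.sum_pair hij]
      refine Finset.sum_le_sum_of_subset ?_
      intro k hk
      rcases Finset.mem_insert.1 hk with h | h
      · rw [h]; exact hi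
      · rw [Finset.mem_singleton.1 h]; exact hj
    omega
  have hw : ∀ j ∈ J, ∃ w ∈ (Gk f q).filter (fun u => u j = 1),
      ∀ u ∈ (Gk f q).filter (fun u => u j = 1), rst J z.1 w ≤ rst J z.1 u := by
    intro j hj
    obtain ⟨u, hu, hu1⟩ := hdis.2 j hj
    exact Finset.exists_min_image _ _ ⟨u, Finset.mem_filter.2 ⟨hu, hu1⟩⟩
  choose! w hw1 hw2 using hw
  set β : Fin n → ℤ := fun j => rst J z.1 (w j) with hβ
  -- dot product with `q`
  have hdq : ∀ u, dotH u q = ∑ i ∈ J, q.1 i * (u i : ℤ) + rst J q.1 u := by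
    intro u
    rw [dotH_apply]
    exact dot_split J q.1 u
  have hqJ : ∀ j ∈ J, 0 < q.1 j := by
    intro j hj
    have h1 := Finset.mem_filter.1 (hJ hj)
    exact lt_of_le_of_ne (hq0 j) (Ne.symm h1.2)
  -- the three eventual bounds
  have e1 : ∀ᶠ l : ℕ in Filter.atTop, ∀ j ∈ J, ∀ u ∈ f.support, β j - rst J z.1 u < (l : ℤ) := by
    refine (Finset.eventually_all _).2 fun j _ => (Finset.eventually_all _).2 fun u _ => ev_gt _
  have e2 : ∀ᶠ l : ℕ in Filter.atTop, ∀ j ∈ J, β j - z.2 < (l : ℤ) :=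
    (Finset.eventually_all _).2 fun j _ => ev_gt _
  have e3 : ∀ᶠ l : ℕ in Filter.atTop, ∀ u ∈ f.support,
      z.2 - (∑ i ∈ J, (z.2 - β i) * (u i : ℤ) + rst J z.1 u) < (l : ℤ) :=
    (Finset.eventually_all _).2 fun u _ => ev_gt _
  obtain ⟨l₀, hl₀⟩ := Filter.eventually_atTop.1 (e1.and (e2.and e3))
  refine ⟨l₀, fun l hl _ a m ha hm => ?_⟩
  obtain ⟨h1, h2, h3⟩ := hl₀ l hl
  have hm' : (m : ℤ) = z.2 + l * q.2 := by
    rw [hm]
    simp
  have ha' : ∀ i ∉ J, (a i : ℤ) = z.1 i + l * q.1 i := by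
    intro i hi
    rw [ha i hi]
    simp
  have hS : ∀ u : Fin n →₀ ℕ, ((∑ i ∈ Jᶜ, a i * u i : ℕ) : ℤ) = rst J z.1 u + l * rst J q.1 u := by
    intro u
    rw [← rst_add, ← rst_congr J ha']
    unfold rst
    push_cast
    rfl
  set α : Fin n → ℕ := fun j => (β j + l * (q.2 - q.1 j)).toNat with hα
  have hwG : ∀ j ∈ J, w j ∈ Gk f q ∧ w j j = 1 := fun j hj => by
    have := Finset.mem_filter.1 (hw1 j hj)
    exact this
  have hwsupp : ∀ j ∈ J, w j ∈ f.support := fun j hj => (Finset.mem_filter.1 (hwG j hj).1).1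
  have hrq : ∀ u : Fin n →₀ ℕ, ∀ j ∈ J, u j = 1 → (∀ i ∈ J, i ≠ j → u i = 0) →
      dotH u q = q.1 j + rst J q.1 u := by
    intro u j hj h4 h5
    rw [hdq u, sum_J_of_P q.1 hj h4 h5]
  have hwS : ∀ j ∈ J, ((∑ i ∈ Jᶜ, a i * w j i : ℕ) : ℤ) = β j + l * (q.2 - q.1 j) := by
    intro j hj
    have h4 := hrq (w j) j hj (hwG j hj).2 (hG1 _ (hwG j hj).1 j hj (hwG j hj).2)
    have h5 : dotH (w j) q = q.2 := (Finset.mem_filter.1 (hwG j hj).1).2
    rw [hS]
    have h6 : rst J q.1 (w j) = q.2 - q.1 j := by linarith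
    rw [h6]
  have hαj : ∀ j ∈ J, (α j : ℤ) = β j + l * (q.2 - q.1 j) := by
    intro j hj
    rw [hα]
    simp only
    rw [Int.toNat_of_nonneg]
    rw [← hwS j hj]
    exact Int.natCast_nonneg _
  have hαm : ∀ j ∈ J, α j < m := by
    intro j hj
    have h4 := hqJ j hj
    have h5 := h2 j hj
    have h6 : (l : ℤ) ≤ l * q.1 j := by nlinarith
    have h7 : (α j : ℤ) < m := by
      rw [hαj j hj, hm']
      linarith
    exact_mod_cast h7
  -- the weight
  have hwt : ∀ u : Fin n →₀ ℕ, (wt (fun i => if i ∈ J then m - α i else a i) u : ℤ) =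
      ∑ i ∈ J, ((m : ℤ) - α i) * (u i : ℤ) + (rst J z.1 u + l * rst J q.1 u) := by
    intro u
    unfold wt
    rw [← Finset.sum_add_sum_compl J, Nat.cast_add]
    congr 1
    · push_cast
      refine Finset.sum_congr rfl fun i hi => ?_
      rw [if_pos hi, Nat.cast_sub (hαm i hi).le]
    · rw [← hS u]
      push_cast
      refine Finset.sum_congr rfl fun i hi => ?_
      rw [if_neg (Finset.mem_compl.1 hi)]
  have hwtP : ∀ u ∈ f.support, ∀ j ∈ J, u j = 1 → (∀ i ∈ J, i ≠ j → u i = 0) →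
      m ≤ wt (fun i => if i ∈ J then m - α i else a i) u ∧
      (wt (fun i => if i ∈ J then m - α i else a i) u = m → u ∈ Gk f q) := by
    intro u hu j hj h4 h5
    have h6 := hwt u
    rw [sum_J_of_P (fun i => (m : ℤ) - α i) hj h4 h5, hαj j hj] at h6
    have h7 := hrq u j hj h4 h5
    have h8 := hqm u hu
    by_cases hG : dotH u q = q.2
    · have hGk : u ∈ Gk f q := Finset.mem_filter.2 ⟨hu, hG⟩
      refine ⟨?_, fun _ => hGk⟩
      have h9 := hw2 j hj u (Finset.mem_filter.2 ⟨hGk, h4⟩)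
      have h10 : rst J q.1 u = q.2 - q.1 j := by linarith
      rw [h10] at h6
      have : (m : ℤ) ≤ (wt (fun i => if i ∈ J then m - α i else a i) u : ℤ) := by
        rw [h6]
        simp only [hβ]
        linarith
      exact_mod_cast this
    · have h9 : q.2 + 1 ≤ dotH u q := by
        rcases lt_or_eq_of_le h8 with h | h
        · exact h
        · exact absurd h.symm hG
      have h10 := h1 j hj u hu
      have h11 : (m : ℤ) < (wt (fun i => if i ∈ J then m - α i else a i) u : ℤ) := by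
        rw [h6]
        have h12 : rst J q.1 u = dotH u q - q.1 j := by linarith
        rw [h12]
        have h13 : (l : ℤ) * 1 ≤ l * (dotH u q - q.2) :=
          mul_le_mul_of_nonneg_left (by linarith) (Int.natCast_nonneg _)
        nlinarith [h13, h10]
      have h14 : m < wt (fun i => if i ∈ J then m - α i else a i) u := by exact_mod_cast h11
      exact ⟨h14.le, fun h => absurd h h14.ne'⟩
  refine ⟨α, hαm, ?_, ?_, ?_⟩
  · intro j hj
    refine ⟨w j, hwsupp j hj, (hwG j hj).2, hG1 _ (hwG j hj).1 j hj (hwG j hj).2, ?_⟩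
    have h4 := hwS j hj
    rw [← hαj j hj] at h4
    exact_mod_cast h4
  · intro u hu hne
    by_cases hP : ∃ j ∈ J, u j = 1 ∧ ∀ i ∈ J, i ≠ j → u i = 0
    · obtain ⟨j, hj, h4, h5⟩ := hP
      rcases lt_or_eq_of_le (hwtP u hu j hj h4 h5).1 with h | h
      · exact Or.inl h
      · exact Or.inr ⟨j, hj, Finset.mem_filter.2 ⟨hu, h.symm, h4, h5⟩⟩
    · left
      -- the sum over `J` is at least two
      have h4 : 2 ≤ ∑ j ∈ J, u j := by
        by_contra hlt
        push Not at hlt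
        obtain ⟨j, hj, hjne⟩ := hne
        have h5 : u j ≤ ∑ k ∈ J, u k := Finset.single_le_sum (fun _ _ => Nat.zero_le _) hj
        have h6 : u j = 1 := by omega
        refine hP ⟨j, hj, h6, fun i hi hij => ?_⟩
        have h7 : u i + u j ≤ ∑ k ∈ J, u k := by
          rw [← Finset.sum_pair hij]
          refine Finset.sum_le_sum_of_subset ?_
          intro k hk
          rcases Finset.mem_insert.1 hk with h | h
          · rw [h]; exact hi
          · rw [Finset.mem_singleton.1 h]; exact hj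
        omega
      have h5 : dotH u q ≠ q.2 := by
        intro h
        have := hdis.1 u (Finset.mem_filter.2 ⟨hu, h⟩)
        omega
      have h6 : q.2 + 1 ≤ dotH u q := by
        rcases lt_or_eq_of_le (hqm u hu) with h | h
        · exact h
        · exact absurd h.symm h5
      have h7 : (m : ℤ) < (wt (fun i => if i ∈ J then m - α i else a i) u : ℤ) := by
        rw [hwt u]
        have h8 : ∑ i ∈ J, ((m : ℤ) - α i) * (u i : ℤ) =
            ∑ i ∈ J, (z.2 - β i) * (u i : ℤ) + l * ∑ i ∈ J, q.1 i * (u i : ℤ) := by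
          rw [Finset.mul_sum, ← Finset.sum_add_distrib]
          refine Finset.sum_congr rfl fun i hi => ?_
          rw [hαj i hi, hm']
          ring
        have h9 := h3 u hu
        have h10 := hdq u
        rw [h8, hm']
        have h11 : (l : ℤ) * (q.2 + 1) ≤ l * dotH u q :=
          mul_le_mul_of_nonneg_left h6 (Int.natCast_nonneg _)
        rw [h10] at h11
        nlinarith [h11, h9]
      exact_mod_cast h7
  · refine fun x hx => hncz (fun j => Pjm f J (fun i => if i ∈ J then m - α i else a i) m j) ?_ x hx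
    intro j hj
    constructor
    · refine ⟨w j, Finset.mem_filter.2 ⟨hwsupp j hj, ?_, (hwG j hj).2,
        hG1 _ (hwG j hj).1 j hj (hwG j hj).2⟩⟩
      have h4 := hwt (w j)
      rw [sum_J_of_P (fun i => (m : ℤ) - α i) hj (hwG j hj).2
        (hG1 _ (hwG j hj).1 j hj (hwG j hj).2), ← hS, hwS j hj, ← hαj j hj] at h4
      have h5 : (wt (fun i => if i ∈ J then m - α i else a i) (w j) : ℤ) = m := by
        rw [h4]; ring
      exact_mod_cast h5
    · intro u hu
      obtain ⟨h4, h5, h6, h7⟩ := Finset.mem_filter.1 hu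
      exact ⟨(hwtP u h4 j hj h6 h7).2 h5, h6⟩

end MPb07157
end
end

section

/-!
# No common zeros
-/

noncomputable section

namespace MPb07157

open MvPolynomial Finset

variable {n : ℕ} {f : MvPolynomial (Fin n) ℂ}

private theorem ncz_euler (f : MvPolynomial (Fin n) ℂ) (I : Finset (Fin n →₀ ℕ)) (i : Fin n)
    (y : Fin n → ℂ) :
    y i * eval y (pderiv i (inForm f I)) = ∑ u ∈ I, coeff u f * (u i : ℂ) * ∏ k, y k ^ u k := by
  have h1 : y i * eval y (pderiv i (inForm f I)) = eval y (X i * pderiv i (inForm f I)) := by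
    rw [map_mul, eval_X]
  rw [h1]
  unfold inForm
  rw [map_sum, Finset.mul_sum, map_sum]
  refine Finset.sum_congr rfl fun u _ => ?_
  rw [X_mul_pderiv_monomial, map_nsmul, eval_monomial, Finsupp.prod_fintype _ _ (fun _ => pow_zero _),
    nsmul_eq_mul]
  ring

private theorem ncz_eval (f : MvPolynomial (Fin n) ℂ) (I : Finset (Fin n →₀ ℕ))
    (y : Fin n → ℂ) :
    eval y (inForm f I) = ∑ u ∈ I, coeff u f * ∏ k, y k ^ u k := by
  unfold inForm
  rw [map_sum]
  refine Finset.sum_congr rfl fun u _ => ?_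
  rw [eval_monomial, Finsupp.prod_fintype _ _ (fun _ => pow_zero _)]

private theorem ncz_rank (S : Set (Fin n → ℚ)) :
    Module.finrank ℂ (Submodule.span ℂ ((fun v : Fin n → ℚ => fun i => ((v i : ℚ) : ℂ)) '' S)) ≤
      Module.finrank ℚ (Submodule.span ℚ S) := by
  classical
  let b := Module.finBasis ℚ (Submodule.span ℚ S)
  let c : Fin (Module.finrank ℚ (Submodule.span ℚ S)) → Fin n → ℂ :=
    fun k i => (((b k : Submodule.span ℚ S) : Fin n → ℚ) i : ℂ)
  have h1 : Submodule.span ℂ ((fun v : Fin n → ℚ => fun i => ((v i : ℚ) : ℂ)) '' S) ≤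
      Submodule.span ℂ (Set.range c) := by
    rw [Submodule.span_le]
    rintro _ ⟨v, hv, rfl⟩
    have hvW : v ∈ Submodule.span ℚ S := Submodule.subset_span hv
    have h2 : (fun i => ((v i : ℚ) : ℂ)) = ∑ k, ((b.repr ⟨v, hvW⟩ k : ℚ) : ℂ) • c k := by
      funext i
      have h3 := congrArg (fun z : Submodule.span ℚ S => (z : Fin n → ℚ) i) (b.sum_repr ⟨v, hvW⟩)
      simp only [Submodule.coe_sum, Submodule.coe_smul, Finset.sum_apply, Pi.smul_apply,
        smul_eq_mul] at h3
      rw [Finset.sum_apply]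
      simp only [Pi.smul_apply, smul_eq_mul, c]
      rw [← h3]
      push_cast
      rfl
    simp only [SetLike.mem_coe]
    rw [h2]
    exact Submodule.sum_mem _ fun k _ => Submodule.smul_mem _ _ (Submodule.subset_span ⟨k, rfl⟩)
  have h2 := Submodule.finrank_mono h1
  have h3 := finrank_range_le_card (R := ℂ) c
  rw [Fintype.card_fin] at h3
  exact h2.trans h3

/-- Nondegenerate polynomials: the linear coefficients in the variables of a deficit have no common
zeros in the torus. -/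
theorem ncz (hnd : ∀ I ⊆ f.support, I.Nonempty → NondegAt f I) {G : Finset (Fin n →₀ ℕ)}
    (hG : G ⊆ f.support) {J₀ : Finset (Fin n)} (hD : Dfc G J₀)
    (P : Fin n → Finset (Fin n →₀ ℕ))
    (hP : ∀ j ∈ J₀, (P j).Nonempty ∧ ∀ u ∈ P j, u ∈ G ∧ u j = 1) (x : Fin n → ℂ)
    (hx : ∀ i, x i ≠ 0) : ∃ j ∈ J₀, eval x (pderiv j (inForm f (P j))) ≠ 0 := by
  classical
  obtain ⟨hne, hdis, hrk⟩ := hD
  by_contra hcon
  push Not at hcon
  have hu1 : ∀ j ∈ J₀, ∀ u ∈ P j, ∀ i ∈ J₀, i ≠ j → u i = 0 := by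
    intro j hj u hu i hi hij
    have h1 := hdis.1 u ((hP j hj).2 u hu).1
    have h2 := ((hP j hj).2 u hu).2
    have h3 : u i + u j ≤ ∑ k ∈ J₀, u k := by
      rw [← Finset.sum_pair hij]
      refine Finset.sum_le_sum_of_subset fun k hk => ?_
      rw [Finset.mem_insert, Finset.mem_singleton] at hk
      rcases hk with rfl | rfl
      · exact hi
      · exact hj
    omega
  obtain ⟨M, hM⟩ : ∃ M : (Fin n →₀ ℕ) → ℂ, ∀ u, M u = ∏ k, x k ^ u k := ⟨_, fun _ => rfl⟩
  have hA : ∀ j ∈ J₀, ∑ u ∈ P j, coeff u f * M u = 0 := by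
    intro j hj
    have h1 := ncz_euler f (P j) j x
    rw [hcon j hj, mul_zero] at h1
    rw [h1]
    refine Finset.sum_congr rfl fun u hu => ?_
    rw [((hP j hj).2 u hu).2, hM, Nat.cast_one, mul_one]
  obtain ⟨w, hw⟩ : ∃ w : Fin n → Fin n → ℂ,
      ∀ j i, w j i = ∑ u ∈ P j, coeff u f * (u i : ℂ) * M u := ⟨_, fun _ _ => rfl⟩
  have hw0 : ∀ j ∈ J₀, ∀ i ∈ J₀, w j i = 0 := by
    intro j hj i hi
    by_cases hij : i = j
    · subst hij
      rw [hw, ← hA i hi]
      refine Finset.sum_congr rfl fun u hu => ?_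
      rw [((hP i hi).2 u hu).2, Nat.cast_one, mul_one]
    · rw [hw]
      refine Finset.sum_eq_zero fun u hu => ?_
      rw [hu1 j hj u hu i hi hij, Nat.cast_zero, mul_zero, zero_mul]
  have hdep : ∃ lam : Fin n → ℂ, (∀ i, ∑ j ∈ J₀, lam j * w j i = 0) ∧ ∃ j ∈ J₀, lam j ≠ 0 := by
    by_contra hli
    push Not at hli
    choose! u0 hu0 using fun j (hj : j ∈ J₀) => (hP j hj).1
    let F : J₀ ⊕ J₀ → (Fin n → ℂ) :=
      Sum.elim (fun j => w j) (fun j => fun i => ((u0 j) i : ℂ))
    have hF : LinearIndependent ℂ F := by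
      rw [Fintype.linearIndependent_iff]
      intro g hg
      have h1 : ∀ i, ∑ j : J₀, g (Sum.inl j) * w j i + ∑ j : J₀, g (Sum.inr j) * ((u0 j) i : ℂ)
          = 0 := by
        intro i
        have h2 := congrFun hg i
        rw [Fintype.sum_sum_type] at h2
        simpa [F, Finset.sum_apply] using h2
      have h3 : ∀ k : J₀, g (Sum.inr k) = 0 := by
        intro k
        have h4 := h1 k
        have h5 : ∑ j : J₀, g (Sum.inl j) * w j k = 0 :=
          Finset.sum_eq_zero fun j _ => by rw [hw0 j j.2 k k.2, mul_zero]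
        have h6 : ∑ j : J₀, g (Sum.inr j) * ((u0 j) k : ℂ) = g (Sum.inr k) := by
          rw [Finset.sum_eq_single k]
          · rw [((hP k k.2).2 _ (hu0 k k.2)).2, Nat.cast_one, mul_one]
          · intro j _ hjk
            rw [hu1 j j.2 _ (hu0 j j.2) k k.2 (fun h => hjk (Subtype.ext h.symm)), Nat.cast_zero,
              mul_zero]
          · intro h
            exact absurd (Finset.mem_univ k) h
        rw [h5, h6, zero_add] at h4
        exact h4
      have h7 : ∀ k : J₀, g (Sum.inl k) = 0 := by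
        have h8 := hli (fun j => if hj : j ∈ J₀ then g (Sum.inl ⟨j, hj⟩) else 0) (by
          intro i
          have h9 := h1 i
          have h10 : ∑ j : J₀, g (Sum.inr j) * ((u0 j) i : ℂ) = 0 :=
            Finset.sum_eq_zero fun j _ => by rw [h3 j, zero_mul]
          rw [h10, add_zero] at h9
          rw [← h9, ← Finset.sum_coe_sort J₀]
          refine Finset.sum_congr rfl fun j _ => ?_
          rw [dif_pos j.2])
        intro k
        have h9 := h8 k k.2
        rw [dif_pos k.2] at h9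
        exact h9
      rintro (k | k)
      · exact h7 k
      · exact h3 k
    have e1 := finrank_span_eq_card hF
    have e2 : Submodule.span ℂ (Set.range F) ≤
        Submodule.span ℂ ((fun v : Fin n → ℚ => fun i => ((v i : ℚ) : ℂ)) '' onJ G J₀) := by
      have e3 : ∀ j ∈ J₀, ∀ u ∈ P j, (fun i => ((u i : ℕ) : ℂ)) ∈
          Submodule.span ℂ ((fun v : Fin n → ℚ => fun i => ((v i : ℚ) : ℂ)) '' onJ G J₀) := by
        intro j hj u hu
        apply Submodule.subset_span
        refine ⟨fun i => ((u i : ℕ) : ℚ), ⟨u, ((hP j hj).2 u hu).1, ⟨j, hj, ?_⟩, rfl⟩, ?_⟩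
        · rw [((hP j hj).2 u hu).2]
          exact one_ne_zero
        · funext i
          simp
      rw [Submodule.span_le]
      rintro _ ⟨k | k, rfl⟩
      · have e4 : F (Sum.inl k) = ∑ u ∈ P k, (coeff u f * M u) • (fun i => ((u i : ℕ) : ℂ)) := by
          funext i
          show w k i = _
          rw [hw, Finset.sum_apply]
          refine Finset.sum_congr rfl fun u _ => ?_
          rw [Pi.smul_apply, smul_eq_mul]
          ring
        rw [e4]
        exact Submodule.sum_mem _ fun u hu => Submodule.smul_mem _ _ (e3 k k.2 u hu)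
      · exact e3 k k.2 _ (hu0 k k.2)
    have e5 := Submodule.finrank_mono e2
    have e6 := ncz_rank (onJ G J₀)
    rw [Fintype.card_sum, Fintype.card_coe] at e1
    omega
  obtain ⟨lam, hl0, j1, hj1, hl1⟩ := hdep
  obtain ⟨J₁, hJ₁⟩ : ∃ J₁, J₁ = J₀.filter fun j => lam j ≠ 0 := ⟨_, rfl⟩
  have hmem : ∀ j, j ∈ J₁ ↔ j ∈ J₀ ∧ lam j ≠ 0 := by
    intro j
    rw [hJ₁, Finset.mem_filter]
  obtain ⟨y, hy⟩ : ∃ y : Fin n → ℂ, ∀ i, y i = if i ∈ J₁ then lam i * x i else x i :=
    ⟨_, fun _ => rfl⟩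
  have hy0 : ∀ i, y i ≠ 0 := by
    intro i
    rw [hy]
    split_ifs with h
    · exact mul_ne_zero ((hmem i).1 h).2 (hx i)
    · exact hx i
  have hyM : ∀ j ∈ J₁, ∀ u ∈ P j, ∏ k, y k ^ u k = lam j * M u := by
    intro j hj u hu
    have hj0 := ((hmem j).1 hj).1
    rw [hM, ← Finset.mul_prod_erase _ _ (Finset.mem_univ j),
      ← Finset.mul_prod_erase _ (fun k => x k ^ u k) (Finset.mem_univ j)]
    rw [((hP j hj0).2 u hu).2, pow_one, pow_one, hy j, if_pos hj, mul_assoc]
    congr 2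
    refine Finset.prod_congr rfl fun k hk => ?_
    have hkj := Finset.ne_of_mem_erase hk
    by_cases hk1 : k ∈ J₁
    · rw [hu1 j hj0 u hu k ((hmem k).1 hk1).1 hkj, pow_zero, pow_zero]
    · rw [hy, if_neg hk1]
  have hdisj : (J₁ : Set (Fin n)).PairwiseDisjoint P := by
    intro j hj k hk hjk
    rw [Function.onFun, Finset.disjoint_left]
    intro u hu hu'
    have h1 := hu1 j ((hmem j).1 hj).1 u hu k ((hmem k).1 hk).1 (Ne.symm hjk)
    have h2 := ((hP k ((hmem k).1 hk).1).2 u hu').2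
    omega
  have hInd : NondegAt f (J₁.biUnion P) := by
    apply hnd
    · intro u hu
      obtain ⟨j, hj, hu'⟩ := Finset.mem_biUnion.1 hu
      exact hG ((hP j ((hmem j).1 hj).1).2 u hu').1
    · obtain ⟨u, hu⟩ := (hP j1 hj1).1
      exact ⟨u, Finset.mem_biUnion.2 ⟨j1, (hmem j1).2 ⟨hj1, hl1⟩, hu⟩⟩
  have hz : eval y (inForm f (J₁.biUnion P)) = 0 := by
    rw [ncz_eval, Finset.sum_biUnion hdisj]
    refine Finset.sum_eq_zero fun j hj => ?_
    have h1 : ∑ u ∈ P j, coeff u f * ∏ k, y k ^ u k = lam j * ∑ u ∈ P j, coeff u f * M u := by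
      rw [Finset.mul_sum]
      refine Finset.sum_congr rfl fun u hu => ?_
      rw [hyM j hj u hu]
      ring
    rw [h1, hA j ((hmem j).1 hj).1, mul_zero]
  obtain ⟨i, hi⟩ := hInd y hy0 hz
  apply hi
  have h1 := ncz_euler f (J₁.biUnion P) i y
  have h2 : ∑ u ∈ J₁.biUnion P, coeff u f * (u i : ℂ) * ∏ k, y k ^ u k = 0 := by
    rw [Finset.sum_biUnion hdisj, ← hl0 i, hJ₁, Finset.sum_filter]
    refine Finset.sum_congr rfl fun j hj => ?_
    split_ifs with h
    · rw [hw, Finset.mul_sum]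
      refine Finset.sum_congr rfl fun u hu => ?_
      rw [hyM j ((hmem j).2 ⟨hj, h⟩) u hu]
      ring
    · rw [not_not] at h
      rw [h, zero_mul]
  rw [h2] at h1
  exact (mul_eq_zero.1 h1).resolve_left (hy0 i)

end MPb07157
end
end

section

/-!
# The twisted sums of the parts of the zeta function
-/

noncomputable section

namespace MPb07157

open MvPolynomial Finset

variable {n : ℕ} (f : MvPolynomial (Fin n) ℂ) (K : ℕ)

private theorem mem_fib {N : ℕ} {J : Finset (Fin n)} {a b c : Fin n → ℕ} :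
    c ∈ fib N J a b ↔ (∀ i ∉ J, c i = a i) ∧ ∀ j ∈ J, b j ≤ c j ∧ c j ≤ N := by
  unfold fib
  rw [Fintype.mem_piFinset]
  constructor
  · intro h
    refine ⟨fun i hi => ?_, fun j hj => ?_⟩
    · have := h i
      rw [if_neg hi] at this
      exact Finset.mem_singleton.1 this
    · have := h j
      rw [if_pos hj] at this
      exact Finset.mem_Icc.1 this
  · rintro ⟨h1, h2⟩ j
    split_ifs with hj
    · exact Finset.mem_Icc.2 (h2 j hj)
    · exact Finset.mem_singleton.2 (h1 j hj)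

private theorem zv_inj {a b : Fin n → ℕ} (h : zv a = zv b) : a = b := by
  funext i
  have := congrFun h i
  unfold zv at this
  exact_mod_cast this

private theorem cfun_ZJx {D : Finset (Fin n)} {z : GG n} {m : ℕ} (hm : z.2 = m) :
    cfun (ZJx f K D (AddMonoidHom.id _)) z = qpw LU (∑ i, z.1 i) *
      ∑ a ∈ boxJ D (K * (m + 1)), if zv a = z.1 then Wc f (K * (m + 1)) m a else 0 := by
  classical
  unfold cfun
  rw [if_pos (by rw [hm]; exact Int.natCast_nonneg m)]
  have e : z.2.toNat = m := by rw [hm]; exact Int.toNat_natCast m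
  rw [e]
  unfold ZJx
  rw [PowerSeries.coeff_mk, AddMonoidAlgebra.coeff_sum, Finsupp.finsetSum_apply]
  congr 1
  refine Finset.sum_congr rfl fun a _ => ?_
  rw [AddMonoidAlgebra.coeff_single, Finsupp.single_apply]
  rfl

private theorem tw_eq {J D : Finset (Fin n)} {z : GG n} {m : ℕ} (hm : z.2 = m)
    {S : Finset (Fin n → ℕ)} (hS : ∀ a, a ∈ S ↔ a ∈ boxJ D (K * (m + 1)) ∧
      ∀ i ∉ J, (a i : ℤ) = z.1 i) :
    tw LU J (cfun (ZJx f K D (AddMonoidHom.id _))) z =
      qpw LU (∑ i, z.1 i) * ∑ a ∈ S, Wc f (K * (m + 1)) m a := by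
  classical
  have hF : ∀ e : Fin n → ℤ, qpw LU (-∑ i, e i) *
      cfun (ZJx f K D (AddMonoidHom.id _)) (z + (e, 0)) = qpw LU (∑ i, z.1 i) *
      ∑ a ∈ boxJ D (K * (m + 1)), if zv a = z.1 + e then Wc f (K * (m + 1)) m a else 0 := by
    intro e
    rw [cfun_ZJx f K (z := z + (e, 0)) (m := m) (by simpa using hm), ← mul_assoc, ← qpw_add]
    congr 2
    simp only [Prod.fst_add, Pi.add_apply, Finset.sum_add_distrib]
    ring
  unfold tw
  simp only [hF]
  rw [finsum_mem_eq_sum_of_subset (t := S.image fun a => zv a - z.1)]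
  · rw [Finset.sum_image, Finset.mul_sum]
    · refine Finset.sum_congr rfl fun a ha => ?_
      congr 1
      rw [Finset.sum_eq_single_of_mem a ((hS a).1 ha).1]
      · rw [if_pos (by abel)]
      · intro b _ hb
        rw [if_neg]
        intro h
        apply hb
        apply zv_inj
        rw [h]
        abel
    · intro a _ b _ h
      exact zv_inj (sub_left_injective h)
  · rintro e ⟨he, he2⟩
    rw [Function.mem_support] at he2
    have h3 : ∑ a ∈ boxJ D (K * (m + 1)),
        (if zv a = z.1 + e then Wc f (K * (m + 1)) m a else 0) ≠ 0 := fun h => he2 (by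
          rw [h, mul_zero])
    obtain ⟨a, ha, h4⟩ := Finset.exists_ne_zero_of_sum_ne_zero h3
    have h5 : zv a = z.1 + e := by
      by_contra hcon
      exact h4 (if_neg hcon)
    rw [Finset.mem_coe, Finset.mem_image]
    refine ⟨a, (hS a).2 ⟨ha, fun i hi => ?_⟩, ?_⟩
    · have h6 := congrFun h5 i
      have h7 := he i hi
      unfold zv at h6
      rw [Pi.add_apply, h7, add_zero] at h6
      exact h6
    · rw [h5]
      abel
  · intro e he
    rw [Finset.mem_coe, Finset.mem_image] at he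
    obtain ⟨a, ha, rfl⟩ := he
    intro i hi
    have h6 := ((hS a).1 ha).2 i hi
    rw [Pi.sub_apply]
    unfold zv
    rw [h6, sub_self]

/-- The twisted sum vanishes outside the box. -/
theorem tw_ZJx_zero {J D : Finset (Fin n)} (hJD : Disjoint J D) {z : GG n}
    (h : (∃ i ∈ D, z.1 i ≠ 0) ∨ ∃ i, i ∉ J ∧ i ∉ D ∧ z.1 i < 1) :
    tw LU J (cfun (ZJx f K D (AddMonoidHom.id _))) z = 0 := by
  classical
  rcases lt_or_ge z.2 0 with hz | hz
  · unfold tw
    have : ∀ e : Fin n → ℤ, qpw LU (-∑ i, e i) *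
        cfun (ZJx f K D (AddMonoidHom.id _)) (z + (e, 0)) = 0 := by
      intro e
      unfold cfun
      rw [if_neg, mul_zero]
      rw [Prod.snd_add, add_zero]
      omega
    simp only [this]
    exact finsum_mem_zero _
  · rw [tw_eq f K (m := z.2.toNat) (Int.toNat_of_nonneg hz).symm (S := ∅), Finset.sum_empty,
      mul_zero]
    intro a
    simp only [Finset.notMem_empty, false_iff, not_and]
    intro ha h2
    rw [mem_boxJ] at ha
    rcases h with ⟨i, hi, h3⟩ | ⟨i, hi, hi2, h3⟩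
    · have hiJ : i ∉ J := Finset.disjoint_right.1 hJD hi
      apply h3
      rw [← h2 i hiJ, ha.1 i hi]
      rfl
    · have h4 := (ha.2 i hi2).1
      have h5 := h2 i hi
      omega

/-- The twisted sum inside the box. -/
theorem tw_ZJx {J D : Finset (Fin n)} (hJD : Disjoint J D) {z : GG n} {m : ℕ} (hm : z.2 = m)
    (hD : ∀ i ∈ D, z.1 i = 0) (h : ∀ i, i ∉ J → i ∉ D → 1 ≤ z.1 i ∧ z.1 i ≤ K * (m + 1)) :
    tw LU J (cfun (ZJx f K D (AddMonoidHom.id _))) z =
      qpw LU (∑ i, z.1 i) * ∑ a ∈ fib (K * (m + 1)) J (fun i => (z.1 i).toNat) (fun _ => 1),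
        Wc f (K * (m + 1)) m a := by
  refine tw_eq f K hm fun a => ?_
  rw [mem_fib, mem_boxJ]
  constructor
  · rintro ⟨h1, h2⟩
    refine ⟨⟨fun i hi => ?_, fun i hi => ?_⟩, fun i hi => ?_⟩
    · rw [h1 i (Finset.disjoint_right.1 hJD hi), hD i hi]
      rfl
    · by_cases hiJ : i ∈ J
      · exact h2 i hiJ
      · have h3 := h i hiJ hi
        have h4 := h1 i hiJ
        have h5 : ((K * (m + 1) : ℕ) : ℤ) = K * (m + 1) := by push_cast; ring
        omega
    · have h4 := h1 i hi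
      by_cases hiD : i ∈ D
      · have := hD i hiD
        omega
      · have := h i hi hiD
        omega
  · rintro ⟨⟨h1, h2⟩, h3⟩
    refine ⟨fun i hi => ?_, fun j hj => h2 j (Finset.disjoint_left.1 hJD hj)⟩
    have := h3 i hi
    omega

end MPb07157
end
end
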