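import Pool.Agent.Lib.MP_b07157_ag.N3.Reg1
import Pool.Agent.Lib.MP_b07157_ag.PS.EqCap
import Pool.Agent.Lib.MP_b07157_ag.PS.TwZ

section

/-!
# Power series with prescribed denominators: removal of denominators
-/

noncomputable section

namespace MPb07157

open Finset

variable {R : Type} [CommRing R]

theorem CoP.prod {w : Rˣ × ℕ} (s : Multiset (Rˣ × ℕ)) (hs : ∀ z ∈ s, CoP w z)
    (a b : Polynomial R) (h : (s.map fac).prod * a = fac w * b) : ∃ c, a = fac w * c := by
  induction s using Multiset.induction_on generalizing b with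
  | empty =>
    rw [Multiset.map_zero, Multiset.prod_zero, one_mul] at h
    exact ⟨b, h⟩
  | cons z s ih =>
    rw [Multiset.map_cons, Multiset.prod_cons, mul_assoc] at h
    obtain ⟨c, hc⟩ := hs z (Multiset.mem_cons_self z s) _ _ h
    exact ih (fun y hy => hs y (Multiset.mem_cons_of_mem hy)) c hc

private theorem remove_aux {A W : Set (Rˣ × ℕ)} {F : PowerSeries R}
    (h : ∀ w ∈ A, 0 < w.2 → ∃ W' : Set (Rˣ × ℕ), RegP W' F ∧
      ∀ z ∈ W', 0 < z.2 → z ∈ W ∨ CoP w z) (t : Multiset (Rˣ × ℕ)) :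
    ∀ (s : Multiset (Rˣ × ℕ)) (p : Polynomial R), (∀ w ∈ t, w ∈ A ∧ 0 < w.2) →
      (∀ w ∈ s, w ∈ W ∧ 0 < w.2) →
      (((t.map fac).prod : Polynomial R) : PowerSeries R) *
        ((((s.map fac).prod : Polynomial R) : PowerSeries R) * F) = (p : PowerSeries R) →
      RegP W F := by
  classical
  induction t using Multiset.induction_on with
  | empty =>
    intro s p _ hs hp
    rw [Multiset.map_zero, Multiset.prod_zero, Polynomial.coe_one, one_mul] at hp
    exact ⟨s, p, hs, hp⟩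
  | cons w t ih =>
    intro s p ht hs hp
    obtain ⟨hwA, hwb⟩ := ht w (Multiset.mem_cons_self w t)
    obtain ⟨W', ⟨s₂, p₂, hs₂, hp₂⟩, hW'⟩ := h w hwA hwb
    -- splitting of the second denominator
    obtain ⟨sa, hsa⟩ : ∃ sa, sa = s₂.filter (· ∈ W) := ⟨_, rfl⟩
    obtain ⟨sb, hsb⟩ : ∃ sb, sb = s₂.filter (fun z => ¬ (z ∈ W)) := ⟨_, rfl⟩
    have hsplit : sa + sb = s₂ := by rw [hsa, hsb]; exact Multiset.filter_add_not _ _
    have hsa' : ∀ z ∈ sa, z ∈ W ∧ 0 < z.2 := by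
      intro z hz
      rw [hsa, Multiset.mem_filter] at hz
      exact ⟨hz.2, (hs₂ z hz.1).2⟩
    have hsb' : ∀ z ∈ sb, CoP w z := by
      intro z hz
      rw [hsb, Multiset.mem_filter] at hz
      exact (hW' z (hs₂ z hz.1).1 (hs₂ z hz.1).2).resolve_left hz.2
    obtain ⟨Da, hDa⟩ : ∃ Da : Polynomial R, Da = (sa.map fac).prod := ⟨_, rfl⟩
    obtain ⟨Db, hDb⟩ : ∃ Db : Polynomial R, Db = (sb.map fac).prod := ⟨_, rfl⟩
    obtain ⟨Dt, hDt⟩ : ∃ Dt : Polynomial R, Dt = (t.map fac).prod := ⟨_, rfl⟩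
    obtain ⟨Ds, hDs⟩ : ∃ Ds : Polynomial R, Ds = (s.map fac).prod := ⟨_, rfl⟩
    have hD₂ : (s₂.map fac).prod = Da * Db := by
      rw [← hsplit, Multiset.map_add, Multiset.prod_add, hDa, hDb]
    rw [hD₂, Polynomial.coe_mul] at hp₂
    rw [Multiset.map_cons, Multiset.prod_cons, ← hDt, ← hDs, Polynomial.coe_mul] at hp
    -- the polynomial identity
    have hpol : Db * (Da * p) = fac w * (Dt * Ds * p₂) := by
      apply Polynomial.coe_injective (R := R)
      show ((Db * (Da * p) : Polynomial R) : PowerSeries R) =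
        ((fac w * (Dt * Ds * p₂) : Polynomial R) : PowerSeries R)
      rw [Polynomial.coe_mul, Polynomial.coe_mul, Polynomial.coe_mul, Polynomial.coe_mul,
        Polynomial.coe_mul, ← hp, ← hp₂]
      ring
    rw [hDb] at hpol
    obtain ⟨c, hc⟩ := CoP.prod sb hsb' _ _ hpol
    have hunit := isUnit_fac w hwb
    refine ih (s + sa) c (fun z hz => ht z (Multiset.mem_cons_of_mem hz)) ?_ ?_
    · intro z hz
      rcases Multiset.mem_add.1 hz with h | h
      · exact hs z h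
      · exact hsa' z h
    · rw [Multiset.map_add, Multiset.prod_add, ← hDt, ← hDs, ← hDa, Polynomial.coe_mul]
      apply hunit.mul_left_cancel
      have h1 : ((fac w : Polynomial R) : PowerSeries R) * (c : PowerSeries R) =
          ((Da * p : Polynomial R) : PowerSeries R) := by
        rw [hc, Polynomial.coe_mul]
      rw [h1, Polynomial.coe_mul, ← hp]
      ring

/-- Removal of the denominators in `A`. -/
theorem RegP.remove {A W : Set (Rˣ × ℕ)} {F : PowerSeries R} (hF : RegP (A ∪ W) F)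
    (h : ∀ w ∈ A, 0 < w.2 → ∃ W' : Set (Rˣ × ℕ), RegP W' F ∧
      ∀ z ∈ W', 0 < z.2 → z ∈ W ∨ CoP w z) : RegP W F := by
  classical
  obtain ⟨s, p, hs, hp⟩ := hF
  have hsplit : s.filter (· ∈ W) + s.filter (fun z => ¬ (z ∈ W)) = s :=
    Multiset.filter_add_not _ _
  refine remove_aux h (s.filter (fun z => ¬ (z ∈ W))) (s.filter (· ∈ W)) p ?_ ?_ ?_
  · intro z hz
    rw [Multiset.mem_filter] at hz
    exact ⟨(hs z hz.1).1.resolve_right hz.2, (hs z hz.1).2⟩
  · intro z hz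
    rw [Multiset.mem_filter] at hz
    exact ⟨hz.2, (hs z hz.1).2⟩
  · rw [← hp]
    conv_rhs => rw [← hsplit]
    rw [Multiset.map_add, Multiset.prod_add, Polynomial.coe_mul]
    ring

end MPb07157
end
end

section

/-!
# The functional equation of a part of the zeta function
-/

noncomputable section

namespace MPb07157

open MvPolynomial Finset

variable {n : ℕ} {f : MvPolynomial (Fin n) ℂ}

open Classical in
private theorem eqm_fib (N : ℕ) (J : Finset (Fin n)) (a : Fin n → ℕ) :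
    fib N J a (fun _ => 1) =
      fib N J (fun i => if i ∈ J then 1 else a i) (fun i => if i ∈ J then 1 else a i) := by
  unfold fib
  congr 1
  funext i
  by_cases hi : i ∈ J
  · simp [hi]
  · simp [hi]

open Classical in
private theorem eqm_cap (hf : f ≠ 0) (hnd : ∀ a : Fin n → ℕ, NondegAt f (face f a (nuf f a)))
    {N N' m : ℕ} (hm : m < N) (hm' : m < N') {J : Finset (Fin n)} {a : Fin n → ℕ}
    (hb : ∀ i ∉ J, a i < N) (hb' : ∀ i ∉ J, a i < N') :
    ∑ a' ∈ fib N J a (fun _ => 1), Wc f N m a' =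
      ∑ a' ∈ fib N' J a (fun _ => 1), Wc f N' m a' := by
  rw [eqm_fib, eqm_fib]
  refine sum_fib_eq hf hnd hm hm' (fun i hi => ?_) (fun i hi => ?_) (fun j hj => ?_)
    (fun j hj => ?_)
  · simp only [hi, if_false]; exact hb i hi
  · simp only [hi, if_false]; exact hb' i hi
  · simp only [hj, if_true]; omega
  · simp only [hj, if_true]; omega

private theorem eqm_tw (J : Finset (Fin n)) (Z : PowerSeries (RX n)) (z : GG n) :
    tw LU J (cfun (((fac (uX 0 1, 1) : Polynomial (RX n)) : PowerSeries (RX n)) * Z)) z =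
      tw LU J (cfun Z) z - qpw LU (-1) * tw LU J (cfun Z) (z - (0, 1)) := by
  have h1 : cfun (((fac (uX 0 1, 1) : Polynomial (RX n)) : PowerSeries (RX n)) * Z) =
      fun z => cfun Z z + (-qpw LU (-1)) * (fun z => cfun Z (z - ((0, 1) : GG n))) z := by
    funext w
    rw [cfun_fac]
    simp only [Pi.zero_apply, Finset.sum_const_zero, zero_sub, Nat.cast_one]
    ring
  rw [h1, tw_add LU J (cfun_LF Z) (((cfun_LF Z).shift (0, 1)).const_mul (-qpw LU (-1))),
    tw_const_mul LU J _ ((cfun_LF Z).shift (0, 1)), tw_shift]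
  ring

/-- **The functional equation.** -/
theorem eq_main (hf : f ≠ 0) (hnd : ∀ I ⊆ f.support, I.Nonempty → NondegAt f I) {K : ℕ}
    {D : Finset (Fin n)} {q : GG n} (hq2 : 0 < q.2) (hq0 : ∀ i, 0 ≤ q.1 i)
    (hqD : ∀ i ∈ D, q.1 i = 0) (hqK : ∀ i, q.1 i < K * q.2)
    (hqm : ∀ u ∈ f.support, q.2 ≤ dotH u q) {J J₀ : Finset (Fin n)} (hJ : J ⊆ suppG q)
    (hdis : Disj01 (Gk f q) J) (hJ₀ : J₀ ⊆ J) (hDfc : Dfc (Gk f q) J₀) (z : GG n) :
    ∃ l₀ : ℕ, ∀ l ≥ l₀, tw LU J (cfun (((fac (uX 0 1, 1) : Polynomial (RX n)) :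
      PowerSeries (RX n)) * ZJx f K D (AddMonoidHom.id _))) (z + l • q) = 0 := by
  classical
  have hJD : Disjoint J D := by
    rw [Finset.disjoint_left]
    intro i hi hD
    have := hJ hi
    unfold suppG at this
    rw [Finset.mem_filter] at this
    exact this.2 (hqD i hD)
  have hnd' : ∀ a : Fin n → ℕ, NondegAt f (face f a (nuf f a)) := by
    intro a
    refine hnd _ (Finset.filter_subset _ _) ?_
    obtain ⟨-, v, hv, h⟩ := isMinWt_nuf hf a
    exact ⟨v, Finset.mem_filter.2 ⟨hv, h⟩⟩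
  have h1 : ∀ l : ℕ, ∀ i, (z + l • q).1 i = z.1 i + l * q.1 i := by
    intro l i
    simp [nsmul_eq_mul]
  have h2 : ∀ l : ℕ, (z + l • q).2 = z.2 + l * q.2 := by
    intro l
    simp [nsmul_eq_mul]
  have hK1 : 1 ≤ K := by
    obtain ⟨j, hj⟩ := hDfc.1
    have h3 := hqK j
    have h0 := hq0 j
    rcases Nat.eq_zero_or_pos K with hK | hK
    · rw [hK, Nat.cast_zero, zero_mul] at h3
      omega
    · exact hK
  by_cases hD : ∃ i ∈ D, z.1 i ≠ 0
  · obtain ⟨i, hi, hzi⟩ := hD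
    refine ⟨0, fun l _ => ?_⟩
    have e1 : (z + l • q).1 i ≠ 0 := by rw [h1, hqD i hi]; simpa using hzi
    rw [eqm_tw, tw_ZJx_zero f K hJD (Or.inl ⟨i, hi, e1⟩),
      tw_ZJx_zero f K hJD (Or.inl ⟨i, hi, by simpa using e1⟩)]
    simp
  push Not at hD
  obtain ⟨l₁, hl₁⟩ := eq_tail hq2 hq0 hqm hJ hdis (fun P hP x hx => by
    obtain ⟨j, hj, h⟩ := ncz hnd (G := Gk f q) (Finset.filter_subset _ _) hDfc P
      (fun j hj => hP j (hJ₀ hj)) x hx
    exact ⟨j, hJ₀ hj, h⟩) (z - (0, 1))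
  refine ⟨l₁ + (z.2.natAbs + 1) + ∑ i, ((z.1 i).natAbs + 1 + K * z.2.natAbs), fun l hl => ?_⟩
  have hll₁ : l₁ ≤ l := by omega
  have hl2 : z.2.natAbs + 1 ≤ l := by omega
  have hl3 : ∀ i, (z.1 i).natAbs + 1 + K * z.2.natAbs ≤ l := by
    intro i
    have := Finset.single_le_sum (f := fun i => (z.1 i).natAbs + 1 + K * z.2.natAbs)
      (fun _ _ => Nat.zero_le _) (Finset.mem_univ i)
    omega
  rw [eqm_tw]
  by_cases hb : ∃ i, i ∉ J ∧ i ∉ D ∧ (z + l • q).1 i < 1
  · rw [tw_ZJx_zero f K hJD (Or.inr hb), tw_ZJx_zero f K hJD (Or.inr (by simpa using hb))]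
    simp
  push Not at hb
  have hM : 1 ≤ (z + l • q).2 := by
    rw [h2]
    have : (l : ℤ) ≤ l * q.2 := by nlinarith
    have h3 : -(z.2.natAbs : ℤ) ≤ z.2 := by omega
    have h4 : (z.2.natAbs : ℤ) + 1 ≤ l := by exact_mod_cast hl2
    linarith
  obtain ⟨m, hm⟩ : ∃ m : ℕ, (z + l • q).2 = m + 1 :=
    ⟨((z + l • q).2 - 1).toNat, by omega⟩
  have hbd : ∀ i, (z + l • q).1 i < K * (m + 1) := by
    intro i
    have e1 : (m : ℤ) + 1 = z.2 + l * q.2 := by rw [← hm, h2]
    rw [h1, e1]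
    have e2 : q.1 i + 1 ≤ K * q.2 := hqK i
    have e3 : ((z.1 i).natAbs : ℤ) + 1 + K * z.2.natAbs ≤ l := by exact_mod_cast hl3 i
    have e4 : z.1 i ≤ (z.1 i).natAbs := by omega
    have e5 : -(K * (z.2.natAbs : ℤ)) ≤ K * z.2 := by
      have : -(z.2.natAbs : ℤ) ≤ z.2 := by omega
      have hK0 : (0 : ℤ) ≤ K := by positivity
      nlinarith
    have e6 : (l : ℤ) * (q.1 i + 1) ≤ l * (K * q.2) := by
      have hl0 : (0 : ℤ) ≤ l := by positivity
      nlinarith
    nlinarith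
  have hpos : ∀ i ∉ J, 0 ≤ (z + l • q).1 i := by
    intro i hi
    by_cases hiD : i ∈ D
    · rw [h1, hD i hiD, hqD i hiD]; simp
    · have := hb i hi hiD
      omega
  have hDz : ∀ i ∈ D, (z + l • q).1 i = 0 := by
    intro i hi
    rw [h1, hD i hi, hqD i hi]; simp
  set a : Fin n → ℕ := fun i => ((z + l • q).1 i).toNat with ha
  have haz : ∀ i ∉ J, (a i : ℤ) = (z + l • q).1 i := by
    intro i hi
    simp only [ha]
    exact Int.toNat_of_nonneg (hpos i hi)
  have hsub1 : ∀ w : GG n, (w - (0, 1)).1 = w.1 := by intro w; simp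
  have hsub : (z + l • q) - (0, 1) = (z - (0, 1)) + l • q := by abel
  -- the two twisted sums
  have hA : tw LU J (cfun (ZJx f K D (AddMonoidHom.id _))) (z + l • q) =
      qpw LU (∑ i, (z + l • q).1 i) * ∑ a' ∈ fib (K * (m + 1 + 1)) J a (fun _ => 1),
        Wc f (K * (m + 1 + 1)) (m + 1) a' := by
    refine tw_ZJx f K hJD (by rw [hm]; push_cast; ring) hDz (fun i hi hiD => ⟨hb i hi hiD, ?_⟩)
    have := hbd i
    have hK0 : (0 : ℤ) ≤ K := by positivity
    push_cast
    nlinarith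
  have hB : tw LU J (cfun (ZJx f K D (AddMonoidHom.id _))) (z + l • q - (0, 1)) =
      qpw LU (∑ i, (z + l • q).1 i) * ∑ a' ∈ fib (K * (m + 1)) J a (fun _ => 1),
        Wc f (K * (m + 1)) m a' := by
    have := tw_ZJx f K (J := J) (D := D) hJD (z := z + l • q - (0, 1)) (m := m)
      (by simp only [Prod.snd_sub, hm]; ring)
      (by intro i hi; rw [hsub1]; exact hDz i hi)
      (fun i hi hiD => by
        rw [hsub1]
        exact ⟨hb i hi hiD, (hbd i).le⟩)
    rw [this, hsub1]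
  rw [hA, hB]
  -- common cap
  have haN : ∀ i ∉ J, a i < K * (m + 1) := by
    intro i hi
    have e1 := haz i hi
    have e2 := hbd i
    rw [← e1] at e2
    exact_mod_cast e2
  have hKm : m + 1 ≤ K * (m + 1) := Nat.le_mul_of_pos_left _ hK1
  have hKm' : K * (m + 1) ≤ K * (m + 1 + 1) := Nat.mul_le_mul_left _ (by omega)
  have hKm2 : m + 2 ≤ K * (m + 1 + 1) := Nat.le_mul_of_pos_left _ hK1
  have c1 := eqm_cap hf hnd' (N := K * (m + 1 + 1)) (N' := K * (m + 1 + 1) + m + 3)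
    (m := m + 1) (J := J) (a := a) (by omega) (by omega)
    (fun i hi => lt_of_lt_of_le (haN i hi) hKm')
    (fun i hi => by have := haN i hi; omega)
  have c2 := eqm_cap hf hnd' (N := K * (m + 1)) (N' := K * (m + 1 + 1) + m + 3)
    (m := m) (J := J) (a := a) (by omega) (by omega) haN
    (fun i hi => by have := haN i hi; omega)
  rw [c1, c2]
  obtain ⟨α, hα1, hα2, hα3, hα4⟩ := hl₁ l hll₁ (by
      intro i hi; rw [← hsub, hsub1]; exact hpos i hi) a m
    (by intro i hi; rw [← hsub, hsub1]; exact haz i hi)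
    (by rw [← hsub, Prod.snd_sub, hm]; ring)
  have key := eq_cap hf hnd' (N := K * (m + 1 + 1) + m + 3) (m := m) (by omega) (J := J) (a := a)
    (α := α) (fun i hi => by have := haN i hi; omega) hα1 hα2 hα3 hα4
  rw [key]
  unfold qpw
  ring

end MPb07157
end
end
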