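import Pool.Agent.Lib.MP_b07157_ag.PS.Flag

/-!
# Deficits: basic properties
-/

noncomputable section

namespace MPb07157

open MvPolynomial Finset

variable {n : ℕ} {f : MvPolynomial (Fin n) ℂ} {D : Finset (Fin n)} {s₀ : ℚ}

theorem Gk_mono {k k' : GG n} (h : k' ∈ car f k) : Gk f k ⊆ Gk f k' := by
  intro u hu
  unfold Gk at hu ⊢
  rw [Finset.mem_filter] at hu ⊢
  exact ⟨hu.1, h.2.2.2 u hu.1 hu.2⟩

theorem suppG_mono {k k' : GG n} (h : k' ∈ car f k) : suppG k' ⊆ suppG k := by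
  intro i hi
  unfold suppG at hi ⊢
  rw [Finset.mem_filter] at hi ⊢
  exact ⟨hi.1, fun h0 => hi.2 (h.2.1 i h0)⟩

/-- The columns in the support are not zero on the face. -/
theorem IsB.col_ne {k : GG n} (hk : IsB f D s₀ k) {j : Fin n} (hj : j ∈ suppG k) :
    ∃ u ∈ Gk f k, u j ≠ 0 := by
  by_contra hcon
  push Not at hcon
  have hkj : k.1 j ≠ 0 := by
    unfold suppG at hj
    exact (Finset.mem_filter.1 hj).2
  have hdot : ∀ u : Fin n →₀ ℕ, dotH u (((fun i => if i = j then 1 else 0), 0) : GG n) = (u j : ℤ) := by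
    intro u
    show ∑ i, (if i = j then (1 : ℤ) else 0) * (u i : ℤ) = (u j : ℤ)
    simp
  have hz : (((fun i => if i = j then 1 else 0), 0) : GG n) ∈ car f k := by
    refine ⟨fun i => ?_, fun i hi => ?_, fun u _ => ?_, fun u hu hu' => ?_⟩
    · show (0 : ℤ) ≤ if i = j then 1 else 0
      split_ifs <;> norm_num
    · show (if i = j then (1 : ℤ) else 0) = 0
      rw [if_neg]
      rintro rfl
      exact hkj hi
    · rw [hdot]
      exact Int.natCast_nonneg _
    · rw [hdot]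
      have h1 : u ∈ Gk f k := by
        unfold Gk
        exact Finset.mem_filter.2 ⟨hu, hu'⟩
      rw [hcon u h1]
      rfl
  have h1 := hk.s0 _ hz
  have h2 : (∑ i, ((((fun i => if i = j then 1 else 0), 0) : GG n)).1 i : ℤ) = 1 := by
    show (∑ i, (if i = j then (1 : ℤ) else 0)) = 1
    simp
  rw [h2] at h1
  simp at h1

theorem Disj01.mono {G G' : Finset (Fin n →₀ ℕ)} (hG : G' ⊆ G) {J J' : Finset (Fin n)}
    (hJ : J' ⊆ J) (h : Disj01 G J) (hne : ∀ j ∈ J', ∃ u ∈ G', u j ≠ 0) : Disj01 G' J' := by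
  refine ⟨fun u hu => ?_, fun j hj => ?_⟩
  · exact (Finset.sum_le_sum_of_subset hJ).trans (h.1 u (hG hu))
  · obtain ⟨u, hu, hu0⟩ := hne j hj
    refine ⟨u, hu, le_antisymm ?_ (Nat.one_le_iff_ne_zero.2 hu0)⟩
    exact (Finset.single_le_sum (f := fun j => u j) (fun _ _ => Nat.zero_le _) (hJ hj)).trans
      (h.1 u (hG hu))

/-- Pairwise form. -/
theorem disj01_iff {G : Finset (Fin n →₀ ℕ)} {J : Finset (Fin n)} :
    Disj01 G J ↔ (∀ u ∈ G, ∀ i ∈ J, u i ≤ 1) ∧ (∀ u ∈ G, ∀ i ∈ J, ∀ j ∈ J, i ≠ j →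
      u i = 0 ∨ u j = 0) ∧ ∀ j ∈ J, ∃ u ∈ G, u j = 1 := by
  constructor
  · rintro ⟨h1, h2⟩
    refine ⟨fun u hu i hi => ?_, fun u hu i hi j hj hij => ?_, h2⟩
    · exact (Finset.single_le_sum (f := fun j => u j) (fun _ _ => Nat.zero_le _) hi).trans
        (h1 u hu)
    · have h3 : u i + u j ≤ ∑ j ∈ J, u j := by
        have h4 : ∑ k ∈ ({i, j} : Finset (Fin n)), u k = u i + u j := Finset.sum_pair hij
        rw [← h4]
        refine Finset.sum_le_sum_of_subset ?_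
        intro k hk
        rcases Finset.mem_insert.1 hk with rfl | hk
        · exact hi
        · rw [Finset.mem_singleton.1 hk]
          exact hj
      have h4 := h3.trans (h1 u hu)
      omega
  · rintro ⟨h1, h2, h3⟩
    refine ⟨fun u hu => ?_, h3⟩
    by_cases h4 : ∃ i ∈ J, u i ≠ 0
    · obtain ⟨i, hi, hi0⟩ := h4
      rw [Finset.sum_eq_single_of_mem i hi]
      · exact h1 u hu i hi
      · intro j hj hji
        rcases h2 u hu i hi j hj (Ne.symm hji) with h5 | h5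
        · exact absurd h5 hi0
        · exact h5
    · push Not at h4
      rw [Finset.sum_eq_zero h4]
      exact Nat.zero_le _

theorem Dfc.mono {G G' : Finset (Fin n →₀ ℕ)} (hG : G' ⊆ G) {J : Finset (Fin n)} (h : Dfc G J)
    (hne : ∀ j ∈ J, ∃ u ∈ G', u j ≠ 0) : Dfc G' J := by
  obtain ⟨h1, h2, h3⟩ := h
  refine ⟨h1, h2.mono hG Finset.Subset.rfl hne, ?_⟩
  have h4 : onJ G' J ⊆ onJ G J := by
    rintro x ⟨u, hu, hx⟩
    exact ⟨u, hG hu, hx⟩
  have h5 : Module.finrank ℚ (Submodule.span ℚ (onJ G' J)) ≤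
      Module.finrank ℚ (Submodule.span ℚ (onJ G J)) :=
    Submodule.finrank_mono (Submodule.span_mono h4)
  omega

theorem Dfc.exists_min {G : Finset (Fin n →₀ ℕ)} {J : Finset (Fin n)} (h : Dfc G J) :
    ∃ J' ⊆ J, MinDfc G J' := by
  induction J using Finset.strongInduction with
  | H J ih =>
    by_cases hm : ∀ J' ⊂ J, ¬ Dfc G J'
    · exact ⟨J, Finset.Subset.rfl, h, hm⟩
    · push Not at hm
      obtain ⟨J', hJ', hd⟩ := hm
      obtain ⟨J'', h1, h2⟩ := ih J' hJ' hd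
      exact ⟨J'', h1.trans hJ'.subset, h2⟩

theorem Core_subset (G : Finset (Fin n →₀ ℕ)) (J : Finset (Fin n)) : Core G J ⊆ J := by
  classical
  exact Finset.filter_subset _ _

theorem Core_mono (G : Finset (Fin n →₀ ℕ)) {J J' : Finset (Fin n)} (h : J ⊆ J') :
    Core G J ⊆ Core G J' := by
  classical
  intro j hj
  unfold Core at hj ⊢
  rw [Finset.mem_filter] at hj ⊢
  obtain ⟨hj1, J'', h1, h2, h3⟩ := hj
  exact ⟨h hj1, J'', h1.trans h, h2, h3⟩

end MPb07157
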