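import Pool.Agent.Lib.MP_b07157_ag.E.Core
import Pool.Agent.Lib.MP_b07157_ag.SK.R2
import Pool.Agent.Lib.MP_b07157_ag.SK.Main
import Pool.Agent.Lib.MP_b07157_ag.SK.LemC
import Pool.Agent.Lib.MP_b07157_ag.PS.Lab1

section

/-!
# Theorem E: the general exceptional root theorem, global version
-/

noncomputable section

namespace MPb07157

open MvPolynomial Finset

variable {n : ℕ} {f : MvPolynomial (Fin n) ℂ}

/-- E-26. **Root theorem with twins, global version.** -/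
theorem root_twin (hf : f ≠ 0) (halg : AlgebraicIndependent ℚ (cf f)) {w : Fin n → ℕ} {N : ℕ}
    (hN : 0 < N) (hmin : ∀ v ∈ f.support, N ≤ wt w v) (P : Finset (Fin n))
    (hP : ∀ j, 0 < w j → j ∈ P) (ρ : Finset (Sf f)) (hρ : ∀ v ∈ ρ, wt w v.1 = N)
    (lin : ∀ g : Sf f → ℚ, (∀ v, v ∉ ρ → g v = 0) →
      (∀ j, ∑ v, g v * ((v.1 j : ℕ) : ℚ) = 0) → g = 0)
    (γ : Sf f → ℚ) (hγ0 : ∀ v, v ∉ ρ → γ v = 0)
    (hγ : ∀ j ∈ P, ∑ v, γ v * ((v.1 j : ℕ) : ℚ) = 1)
    (htw : ∀ j ∈ P, (∃ v ∈ ρ, (∀ k : ℕ, γ v ≠ k + 1) ∧ 0 < v.1 j) ∨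
      ∃ j' ∈ P, j' ≠ j ∧ ∀ v ∈ ρ, v.1 j' = v.1 j)
    (b : Polynomial ℂ) (hb : IsBernsteinSato f b) :
    b.eval ((-(∑ v, γ v) : ℚ) : ℂ) = 0 := by
  classical
  rw [← Finset.sum_neg_distrib]
  refine rootM hf halg (fun v => -γ v) (ρ.filter fun v => ∃ k : ℕ, γ v = k + 1).card
    (fun K => ?_) b hb
  obtain ⟨S, hS⟩ : ∃ S : ℝ, S = ∑ v : Sf f, ∑ j, ((v.1 j : ℕ) : ℝ) := ⟨_, rfl⟩
  have hS0 : 0 ≤ S := by rw [hS]; positivity
  have hK0 : (0 : ℝ) ≤ K := by positivity
  have hNR : (0 : ℝ) < N := by exact_mod_cast hN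
  obtain ⟨t, ht⟩ : ∃ t : ℝ, t = 1 / (4 * ((K : ℝ) * S + 1)) := ⟨_, rfl⟩
  have hKS : 0 ≤ (K : ℝ) * S := by positivity
  have ht0 : 0 < t := by rw [ht]; positivity
  have htK : t * (K * S) ≤ 1 / 4 := by
    have htd : t * (4 * ((K : ℝ) * S + 1)) = 1 := by rw [ht]; field_simp
    nlinarith
  let x : Fin n → ℝ := fun j => if j ∈ P ∧ w j = 0 then t else 0
  let y₁ : Fin n → ℝ := fun j => (w j : ℝ) / N + x j
  have hx0 : ∀ j, 0 ≤ x j := by
    intro j
    simp only [x]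
    split_ifs
    · exact ht0.le
    · exact le_rfl
  have hxt : ∀ j, x j ≤ t := by
    intro j
    simp only [x]
    split_ifs
    · exact le_rfl
    · exact ht0.le
  have hw0 : ∀ j, 0 ≤ (w j : ℝ) / N := fun j => by positivity
  have hwt : ∀ v : Sf f, ∑ j, ((v.1 j : ℕ) : ℝ) * y₁ j =
      (wt w v.1 : ℝ) / N + ∑ j, ((v.1 j : ℕ) : ℝ) * x j := by
    intro v
    unfold wt
    push_cast
    rw [Finset.sum_div, ← Finset.sum_add_distrib]
    refine Finset.sum_congr rfl fun j _ => ?_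
    simp only [y₁]
    ring
  obtain ⟨E, α, Λ, h1, h2, h3, h4, h5⟩ := twin_core P ρ lin γ hγ0 hγ htw K y₁ x
    (fun j hj => by
      simp only [y₁]
      by_cases hwj : w j = 0
      · have : x j = t := if_pos ⟨hj, hwj⟩
        rw [this]
        have := hw0 j
        linarith
      · have h1 : 0 < (w j : ℝ) / N := div_pos (by exact_mod_cast Nat.pos_of_ne_zero hwj) hNR
        have := hx0 j
        linarith)
    (fun j => add_nonneg (hw0 j) (hx0 j))
    (fun v hv => by rw [hwt v, hρ v hv, div_self hNR.ne'])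
    (fun v => by
      rw [hwt v]
      have h2 : (1 : ℝ) ≤ (wt w v.1 : ℝ) / N := by
        rw [le_div_iff₀ hNR, one_mul]
        exact_mod_cast hmin v.1 v.2
      linarith)
    (fun δ hδK hδs => by
      have e1 : ∑ j ∈ Pᶜ, ((∑ v, δ v * ((v.1 j : ℕ) : ℤ) : ℤ) : ℝ) * y₁ j = 0 := by
        refine Finset.sum_eq_zero fun j hj => ?_
        rw [Finset.mem_compl] at hj
        have hwj : w j = 0 := by
          by_contra h
          exact hj (hP j (Nat.pos_of_ne_zero h))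
        have hxj : x j = 0 := if_neg fun h => hj h.1
        have : y₁ j = 0 := by
          simp only [y₁]
          rw [hxj, hwj]
          simp
        rw [this, mul_zero]
      have e2 : ∀ j ∈ (univ : Finset (Fin n)),
          -(((∑ v, δ v * ((v.1 j : ℕ) : ℤ) : ℤ) : ℝ) * x j) ≤
          (K * ∑ v : Sf f, ((v.1 j : ℕ) : ℝ)) * t := by
        intro j _
        have h6 : |((∑ v, δ v * ((v.1 j : ℕ) : ℤ) : ℤ) : ℝ)| ≤ K * ∑ v : Sf f, ((v.1 j : ℕ) : ℝ) := by
          push_cast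
          refine (Finset.abs_sum_le_sum_abs _ _).trans ?_
          rw [Finset.mul_sum]
          refine Finset.sum_le_sum fun v _ => ?_
          rw [abs_mul, abs_of_nonneg (a := ((v.1 j : ℕ) : ℝ)) (by positivity)]
          refine mul_le_mul_of_nonneg_right ?_ (by positivity)
          exact_mod_cast hδK v
        have h7 := (abs_le.1 h6).1
        have h8 : 0 ≤ K * ∑ v : Sf f, ((v.1 j : ℕ) : ℝ) := by positivity
        have h9 : -((∑ v, δ v * ((v.1 j : ℕ) : ℤ) : ℤ) : ℝ) * x j ≤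
            (K * ∑ v : Sf f, ((v.1 j : ℕ) : ℝ)) * x j :=
          mul_le_mul_of_nonneg_right (by linarith) (hx0 j)
        have h10 := mul_le_mul_of_nonneg_left (hxt j) h8
        linarith
      have e3 := Finset.sum_le_sum e2
      rw [Finset.sum_neg_distrib, ← Finset.sum_mul, ← Finset.mul_sum, Finset.sum_comm, ← hS] at e3
      rw [e1]
      linarith)
  refine ⟨E, α, Λ, h1, h2, h3, fun δ hδ0 hδK hδs hδj => ?_, h5⟩
  rcases h4 δ hδ0 hδK hδs 0 (fun j => by rw [hδj j]; simp) (Or.inl rfl) with ⟨-, h⟩ | h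
  · exact Or.inl h
  · exact Or.inr h

end MPb07157
end
end

section

/-!
# (STAR): without good independent sets there is a conflict-free minimal deficit
-/

set_option linter.unusedSectionVars false

namespace MPb07157.SK

open Finset Module MPb07157.EX

variable {ι κ : Type} [Fintype ι] [DecidableEq ι] [DecidableEq κ]
variable {c : κ → ι → ℕ} {C : Finset κ} {A : Set (ι → ℚ)} {V V' : Submodule ℚ (ι → ℚ)}
  {T R : Finset ι} {J J' Y Z : Finset κ} {W : Finset ι} {w₀ : ι} {t : ι → ℚ}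

private theorem star_equiv {W : Type} [AddCommGroup W] [Module ℚ W] (e : ι → W) (C : Finset κ)
    (c : κ → ι → ℕ) (V : Submodule ℚ (ι → ℚ)) (hV : ∀ ξ, ξ ∈ V ↔ ∑ i, ξ i • e i = 0)
    (Y : Finset κ) (hY : Y ⊆ C) : DfcW e c Y ↔ Dfc c C V ∅ Y := by
  have hset : {i | ∃ k ∈ Y, c k i ≠ 0} = ((PU c ∅ Y : Finset ι) : Set ι) := by
    ext i
    simp [PU, EX.sup]
  have hrk := finrank_span_eq e (PU c ∅ Y) V hV
  constructor
  · intro h
    refine ⟨⟨hY, fun k hk i _ => h.zo k hk i, fun k hk k' hk' i _ => h.dj k hk k' hk' i⟩, h.ne, ?_⟩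
    have h1 := h.num
    rw [hset] at h1
    omega
  · intro h
    refine ⟨h.ne, fun k hk i => h.fam.zo k hk i (Finset.notMem_empty i),
      fun k hk k' hk' i => h.fam.dj k hk k' hk' i (Finset.notMem_empty i), ?_⟩
    have h1 := h.num
    rw [hset]
    omega

/-- (STAR).  `e i` = the vectors, `L k` (`k ∈ C`) = the columns (linear forms), `c k i = L k (e i)`
natural numbers, `one` in the span of the `e i`, all columns are one at `one`.  Hypothesis `H`: for
every linearly independent subfamily `ρ` with `one` in its span there are `v ∈ ρ` and exactly one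
column `k ∈ C` that is the dual vector of `v` on `ρ`.  Then there is a minimal deficit `J ⊆ C` that
is compatible with all minimal deficits `Z ⊆ C`.

Proof.  `sys_of_config`, `rigid_exists`, `Dfc.exists_min`, `Rigid.mono`, `lemC`; with
`T = ∅`, `DfcW` for `J ⊆ C` is `Dfc` by `finrank_span_eq` (`P = PU c ∅ J`). -/
theorem star {W : Type} [AddCommGroup W] [Module ℚ W] (e : ι → W) (C : Finset κ)
    (L : κ → W →ₗ[ℚ] ℚ) (c : κ → ι → ℕ) (hc : ∀ k ∈ C, ∀ i, L k (e i) = c k i) (one : W)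
    (h1 : one ∈ Submodule.span ℚ (Set.range e)) (hL : ∀ k ∈ C, L k one = 1)
    (H : ∀ ρ : Finset ι, LinearIndependent ℚ (fun i : ρ => e i) →
      one ∈ Submodule.span ℚ (e '' (ρ : Set ι)) →
      ∃ v ∈ ρ, ∃ k ∈ C, ∀ k' ∈ C, (∀ i ∈ ρ, c k' i = if i = v then 1 else 0) ↔ k' = k) :
    ∃ J : Finset κ, J ⊆ C ∧ DfcW e c J ∧ (∀ Y, Y ⊂ J → ¬ DfcW e c Y) ∧
      ∀ Z : Finset κ, Z ⊆ C → DfcW e c Z → (∀ Y, Y ⊂ Z → ¬ DfcW e c Y) →
        ∀ k ∈ J, ∀ z ∈ Z, ∀ i, c k i ≠ 0 → c z i ≠ 0 → k = z := by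
  have hV : ∀ ξ, ξ ∈ LinearMap.ker (Fintype.linearCombination ℚ e) ↔ ∑ i, ξ i • e i = 0 :=
    fun ξ => by rw [LinearMap.mem_ker, Fintype.linearCombination_apply]
  have hS := sys_of_config e C L c hc one h1 hL H _ hV
  obtain ⟨J₀, hJ₀, hr⟩ := rigid_exists _ κ c C _ _ ∅ hS rfl
  obtain ⟨J, hJJ, hJ⟩ := hJ₀.exists_min
  have hrJ := hr.mono hJJ
  have hsub := hJ.dfc.fam.sub
  refine ⟨J, hsub, (star_equiv e C c _ hV J hsub).2 hJ.dfc, ?_, ?_⟩
  · intro Y hY hD
    exact hJ.min Y hY ((star_equiv e C c _ hV Y (hY.1.trans hsub)).1 hD)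
  · intro Z hZC hZ hmin k hk z hz i
    refine lemC (Pre.of_sys hS) hJ hrJ ⟨(star_equiv e C c _ hV Z hZC).1 hZ, ?_⟩ k hk z hz i
      (Finset.notMem_empty i)
    intro Y hY hD
    exact hmin Y hY ((star_equiv e C c _ hV Y (hY.1.trans hZC)).2 hD)

end MPb07157.SK
end

section

/-!
# (STAR): if there is no good independent set then there is a conflict-free minimal deficit
-/

namespace MPb07157.EX

open Finset Module

variable {ι κ : Type} [Fintype ι] [DecidableEq ι] [Fintype κ] [DecidableEq κ]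

/-- A deficit of vectors. -/
structure DfV {W : Type} [AddCommGroup W] [Module ℚ W] (e : ι → W) (c : κ → ι → ℕ)
    (J : Finset κ) : Prop where
  ne : J.Nonempty
  zo : ∀ k ∈ J, ∀ i, c k i ≤ 1
  dj : ∀ k ∈ J, ∀ k' ∈ J, ∀ i, c k i ≠ 0 → c k' i ≠ 0 → k = k'
  rk : finrank ℚ (Submodule.span ℚ (e '' {i | ∃ k ∈ J, c k i ≠ 0})) + 1 ≤ 2 * J.card

theorem dfV_iff {W : Type} [AddCommGroup W] [Module ℚ W] (e : ι → W) (c : κ → ι → ℕ)
    (J : Finset κ) : SK.DfcW e c J ↔ DfV e c J :=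
  ⟨fun h => ⟨h.ne, h.zo, h.dj, h.num⟩, fun h => ⟨h.ne, h.zo, h.dj, h.rk⟩⟩

/-- (STAR).  `e i` = the vectors, `L k` = the columns (linear forms), `c k i = L k (e i)` natural
numbers, `one` in the span of the `e i`, all columns are one at `one`.  Hypothesis `H`: every
linearly independent subfamily `ρ` with `one` in its span has an element `v` for which exactly one
column is the dual vector of `v` on `ρ`.  Then there is a minimal deficit `J` that is compatible
with all minimal deficits. -/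
theorem star {W : Type} [AddCommGroup W] [Module ℚ W] (e : ι → W) (L : κ → W →ₗ[ℚ] ℚ)
    (c : κ → ι → ℕ) (hc : ∀ k i, L k (e i) = c k i) (one : W)
    (h1 : one ∈ Submodule.span ℚ (Set.range e)) (hL : ∀ k, L k one = 1)
    (H : ∀ ρ : Finset ι, LinearIndependent ℚ (fun i : ρ => e i) →
      one ∈ Submodule.span ℚ (e '' (ρ : Set ι)) →
      ∃ v ∈ ρ, ∃ k, ∀ k', (∀ i ∈ ρ, c k' i = if i = v then 1 else 0) ↔ k' = k) :
    ∃ J : Finset κ, DfV e c J ∧ (∀ Y, Y ⊂ J → ¬ DfV e c Y) ∧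
      ∀ J', DfV e c J' → (∀ Y, Y ⊂ J' → ¬ DfV e c Y) →
        ∀ k ∈ J, ∀ k' ∈ J', ∀ i, c k i ≠ 0 → c k' i ≠ 0 → k = k' := by
  obtain ⟨J, -, hJ, hmin, hcomp⟩ := SK.star e Finset.univ L c (fun k _ => hc k) one h1
    (fun k _ => hL k) fun ρ h2 h3 => by
      obtain ⟨v, hv, k, hk⟩ := H ρ h2 h3
      exact ⟨v, hv, k, Finset.mem_univ _, fun k' _ => hk k'⟩
  refine ⟨J, (dfV_iff e c J).1 hJ, fun Y hY h => hmin Y hY ((dfV_iff e c Y).2 h),
    fun J' hJ' hmin' => hcomp J' (Finset.subset_univ _) ((dfV_iff e c J').2 hJ')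
      fun Y hY h => hmin' Y hY ((dfV_iff e c Y).1 h)⟩

end MPb07157.EX
end

section

/-!
# The columns of a face as a system of vectors and linear forms
-/

noncomputable section

namespace MPb07157

open MvPolynomial Finset

variable {n : ℕ} {f : MvPolynomial (Fin n) ℂ} {D : Finset (Fin n)} {s₀ : ℚ}

/-- The vector that is one on `P` and zero outside. -/
def oneP (P : Finset (Fin n)) : Fin n → ℚ := fun j => if j ∈ P then 1 else 0

/-- The elements: the exponents of the face and the unit vectors outside `P`. -/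
abbrev El (G : Finset (Fin n →₀ ℕ)) (P : Finset (Fin n)) : Type := {u // u ∈ G} ⊕ {i // i ∉ P}

/-- The vectors of the elements. -/
def elV (G : Finset (Fin n →₀ ℕ)) (P : Finset (Fin n)) : El G P → (Fin n → ℚ)
  | Sum.inl u => fun i => (u.1 i : ℚ)
  | Sum.inr i => Pi.single i.1 1

/-- The columns `j ∈ P`. -/
def elC (G : Finset (Fin n →₀ ℕ)) (P : Finset (Fin n)) (k : {j // j ∈ P}) : El G P → ℕ
  | Sum.inl u => u.1 k.1
  | Sum.inr _ => 0

theorem elC_eq (G : Finset (Fin n →₀ ℕ)) (P : Finset (Fin n)) (k : {j // j ∈ P}) (x : El G P) :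
    LinearMap.proj (R := ℚ) (φ := fun _ : Fin n => ℚ) k.1 (elV G P x) = elC G P k x := by
  rcases x with u | i
  · rfl
  · have h : k.1 ≠ i.1 := fun h => i.2 (h ▸ k.2)
    show (Pi.single i.1 (1 : ℚ) : Fin n → ℚ) k.1 = ((0 : ℕ) : ℚ)
    rw [Pi.single_eq_of_ne h, Nat.cast_zero]

/-- The vector `oneP` is in the span of the elements. -/
theorem IsB.one_mem {k : GG n} (hk : IsB f D s₀ k) :
    oneP (suppG k) ∈ Submodule.span ℚ (Set.range (elV (Gk f k) (suppG k))) := by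
  classical
  by_contra hcon
  obtain ⟨φ, hφ1, hφ2⟩ := Submodule.exists_dual_map_eq_bot_of_notMem hcon inferInstance
  have hφ0 : ∀ x, φ (elV (Gk f k) (suppG k) x) = 0 := by
    intro x
    have h1 : φ (elV (Gk f k) (suppG k) x) ∈ (Submodule.span ℚ
        (Set.range (elV (Gk f k) (suppG k)))).map φ :=
      Submodule.mem_map_of_mem (Submodule.subset_span ⟨x, rfl⟩)
    rw [hφ2, Submodule.mem_bot] at h1
    exact h1
  -- the coefficients of `φ`
  have hφ : ∀ x : Fin n → ℚ, φ x = ∑ j, x j * φ (Pi.single j 1) := by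
    intro x
    conv_lhs => rw [LinearMap.pi_apply_eq_sum_univ φ x]
    refine Finset.sum_congr rfl fun j _ => ?_
    rw [smul_eq_mul]
    congr 2
    funext i
    rw [Pi.single_apply]
    simp only [eq_comm]
  obtain ⟨⟨d, hd⟩, hdi⟩ := IsLocalization.exist_integer_multiples_of_finset
    (nonZeroDivisors ℤ) (Finset.univ.image fun j : Fin n => φ (Pi.single j 1))
  have hd0 : d ≠ 0 := nonZeroDivisors.ne_zero hd
  have hai : ∀ j : Fin n, ∃ a : ℤ, (a : ℚ) = d * φ (Pi.single j 1) := by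
    intro j
    obtain ⟨a, ha⟩ := hdi _ (Finset.mem_image_of_mem _ (Finset.mem_univ j))
    refine ⟨a, ?_⟩
    have h1 : (algebraMap ℤ ℚ) a = ((a : ℤ) : ℚ) := rfl
    rw [← h1, ha]
    show (d : ℤ) • φ (Pi.single j 1) = (d : ℚ) * φ (Pi.single j 1)
    rw [zsmul_eq_mul]
  choose a ha using hai
  have hasum : ∀ x : Fin n → ℚ, ∑ j, x j * (a j : ℚ) = d * φ x := by
    intro x
    rw [hφ x, Finset.mul_sum]
    refine Finset.sum_congr rfl fun j _ => ?_
    rw [ha j]
    ring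
  have ha0 : ∀ i, i ∉ suppG k → a i = 0 := by
    intro i hi
    have h1 := hφ0 (Sum.inr ⟨i, hi⟩)
    have h2 : (a i : ℚ) = 0 := by
      rw [ha i]
      have : φ (Pi.single i 1) = 0 := h1
      rw [this, mul_zero]
    exact_mod_cast h2
  have hau : ∀ u ∈ Gk f k, ∑ j, (u j : ℤ) * a j = 0 := by
    intro u hu
    have h1 := hasum (elV (Gk f k) (suppG k) (Sum.inl ⟨u, hu⟩))
    rw [hφ0, mul_zero] at h1
    have h2 : ((∑ j, (u j : ℤ) * a j : ℤ) : ℚ) = 0 := by
      push_cast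
      exact h1
    exact_mod_cast h2
  -- a large multiple of `k` plus `a`
  obtain ⟨M, hM⟩ : ∃ M : ℤ, 0 ≤ M ∧ (∀ j, |a j| ≤ M) ∧
      ∀ u ∈ f.support, |∑ j, (u j : ℤ) * a j| ≤ M := by
    refine ⟨∑ j, |a j| + ∑ u ∈ f.support, |∑ j, (u j : ℤ) * a j|, by positivity, fun j => ?_,
      fun u hu => ?_⟩
    · have h1 : |a j| ≤ ∑ j, |a j| :=
        Finset.single_le_sum (f := fun j => |a j|) (fun _ _ => abs_nonneg _) (Finset.mem_univ j)
      have h2 : 0 ≤ ∑ u ∈ f.support, |∑ j, (u j : ℤ) * a j| := by positivity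
      linarith
    · have h1 : |∑ j, (u j : ℤ) * a j| ≤ ∑ u ∈ f.support, |∑ j, (u j : ℤ) * a j| :=
        Finset.single_le_sum (f := fun u : Fin n →₀ ℕ => |∑ j, (u j : ℤ) * a j|)
          (fun _ _ => abs_nonneg _) hu
      have h2 : 0 ≤ ∑ j, |a j| := by positivity
      linarith
  obtain ⟨hM0, hMa, hMu⟩ := hM
  have hdot : ∀ u : Fin n →₀ ℕ, dotH u ((M • k.1 + a, M * k.2) : GG n) =
      M * dotH u k + ∑ j, (u j : ℤ) * a j := by
    intro u
    rw [dotH_apply, dotH_apply, Finset.mul_sum, ← Finset.sum_add_distrib]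
    refine Finset.sum_congr rfl fun j _ => ?_
    simp only [Pi.add_apply, Pi.smul_apply, smul_eq_mul]
    ring
  have hcar := hk.mem
  have hz : ((M • k.1 + a, M * k.2) : GG n) ∈ car f k := by
    refine ⟨fun i => ?_, fun i hi => ?_, fun u hu => ?_, fun u hu hu' => ?_⟩
    · show 0 ≤ M * k.1 i + a i
      have h0 := hcar.1 i
      rcases eq_or_lt_of_le h0 with h1 | h1
      · have h2 : i ∉ suppG k := by
          unfold suppG
          rw [Finset.mem_filter]
          exact fun h => h.2 h1.symm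
        rw [← h1, ha0 i h2]
        simp
      · have h2 := (abs_le.1 (hMa i)).1
        nlinarith
    · show M * k.1 i + a i = 0
      have h2 : i ∉ suppG k := by
        unfold suppG
        rw [Finset.mem_filter]
        exact fun h => h.2 hi
      rw [hi, ha0 i h2]
      simp
    · rw [hdot]
      show M * k.2 ≤ _
      have h1 := hcar.2.2.1 u hu
      rcases eq_or_lt_of_le h1 with h2 | h2
      · have h3 : u ∈ Gk f k := by
          unfold Gk
          exact Finset.mem_filter.2 ⟨hu, h2.symm⟩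
        rw [← h2, hau u h3, add_zero]
      · have h3 := (abs_le.1 (hMu u hu)).1
        nlinarith
    · rw [hdot, hu']
      have h3 : u ∈ Gk f k := by
        unfold Gk
        exact Finset.mem_filter.2 ⟨hu, hu'⟩
      rw [hau u h3, add_zero]
  have h1 := hk.s0 _ hz
  have h2 := hk.s0 _ hcar
  have h3 : (∑ i, ((M • k.1 + a, M * k.2) : GG n).1 i : ℤ) = M * ∑ i, k.1 i + ∑ i, a i := by
    rw [Finset.mul_sum, ← Finset.sum_add_distrib]
    refine Finset.sum_congr rfl fun i _ => ?_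
    simp
  have h4 : ((M • k.1 + a, M * k.2) : GG n).2 = M * k.2 := rfl
  rw [h3, h4] at h1
  push_cast at h1 h2
  have h5 : ((∑ i, a i : ℤ) : ℚ) = 0 := by
    push_cast
    have e1 : (M : ℚ) * ∑ i, (k.1 i : ℚ) = M * (-s₀ * k.2) := by rw [h2]
    linarith
  have h6 := hasum (oneP (suppG k))
  have h7 : ∑ j, oneP (suppG k) j * (a j : ℚ) = ((∑ i, a i : ℤ) : ℚ) := by
    push_cast
    refine Finset.sum_congr rfl fun j _ => ?_
    unfold oneP
    split_ifs with hj
    · rw [one_mul]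
    · rw [ha0 j hj]
      simp
  rw [h7, h5] at h6
  rcases mul_eq_zero.1 h6.symm with h8 | h8
  · exact hd0 (by exact_mod_cast h8)
  · exact hφ1 h8

end MPb07157
end
end

section

/-!
# No root: every independent set has an owner
-/

noncomputable section

namespace MPb07157

open MvPolynomial Finset

variable {n : ℕ} {f : MvPolynomial (Fin n) ℂ} {D : Finset (Fin n)} {s₀ : ℚ}

/-- A good set in the face of `k`: the hypotheses of the root theorem. -/
structure GoodSet (f : MvPolynomial (Fin n) ℂ) (s₀ : ℚ) (k : GG n) (ρ : Finset (Sf f))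
    (γ : Sf f → ℚ) : Prop where
  face : ∀ v ∈ ρ, v.1 ∈ Gk f k
  lin : ∀ g : Sf f → ℚ, (∀ v, v ∉ ρ → g v = 0) →
      (∀ j, ∑ v, g v * ((v.1 j : ℕ) : ℚ) = 0) → g = 0
  zero : ∀ v, v ∉ ρ → γ v = 0
  one : ∀ j ∈ suppG k, ∑ v, γ v * ((v.1 j : ℕ) : ℚ) = 1
  tw : ∀ j ∈ suppG k, (∃ v ∈ ρ, (∀ m : ℕ, γ v ≠ m + 1) ∧ 0 < v.1 j) ∨
      ∃ j' ∈ suppG k, j' ≠ j ∧ ∀ v ∈ ρ, v.1 j' = v.1 j
  sum : -∑ v, γ v = s₀

private theorem sum_El {G : Finset (Fin n →₀ ℕ)} {P : Finset (Fin n)} (hG : G ⊆ f.support)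
    (ρ : Finset (El G P)) (F : El G P → ℚ) (H : Sf f → ℚ)
    (h1 : ∀ (v : Sf f) (h : v.1 ∈ G), H v = if Sum.inl ⟨v.1, h⟩ ∈ ρ then F (Sum.inl ⟨v.1, h⟩) else 0)
    (h2 : ∀ v : Sf f, v.1 ∉ G → H v = 0) (h3 : ∀ i, F (Sum.inr i) = 0) :
    ∑ x ∈ ρ, F x = ∑ v, H v := by
  classical
  have e1 : ∑ x ∈ ρ, F x = ∑ x : El G P, if x ∈ ρ then F x else 0 := by
    rw [Finset.sum_ite_mem, Finset.univ_inter]
  rw [e1, Fintype.sum_sum_type]
  have e2 : ∑ i : {i // i ∉ P}, (if (Sum.inr i : El G P) ∈ ρ then F (Sum.inr i) else 0) = 0 := by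
    refine Finset.sum_eq_zero fun i _ => ?_
    rw [h3, ite_self]
  rw [e2, add_zero]
  symm
  refine Finset.sum_bij_ne_zero (fun (v : Sf f) _ (hv : H v ≠ 0) =>
    (⟨v.1, by by_contra h; exact hv (h2 v h)⟩ : {u // u ∈ G})) ?_ ?_ ?_ ?_
  · intro v _ _
    exact Finset.mem_univ _
  · intro v _ _ v' _ _ h
    exact Subtype.ext (Subtype.mk.inj h)
  · intro u _ hu
    refine ⟨⟨u.1, hG u.2⟩, Finset.mem_univ _, ?_, rfl⟩
    rw [h1 _ u.2]
    exact hu
  · intro v _ hv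
    rw [h1]

private def liftEl {G : Finset (Fin n →₀ ℕ)} {P : Finset (Fin n)} (hG : G ⊆ f.support)
    (g : Sf f → ℚ) : El G P → ℚ
  | Sum.inl u => g ⟨u.1, hG u.2⟩
  | Sum.inr _ => 0

theorem IsB.good {k : GG n} (hk : IsB f D s₀ k) (ρ : Finset (El (Gk f k) (suppG k)))
    (lin : LinearIndependent ℚ (fun i : ρ => elV (Gk f k) (suppG k) i))
    (h1 : oneP (suppG k) ∈ Submodule.span ℚ (elV (Gk f k) (suppG k) '' (ρ : Set _)))
    (hno : ¬ ∃ v ∈ ρ, ∃ c, ∀ c', (∀ i ∈ ρ, elC (Gk f k) (suppG k) c' i =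
      if i = v then 1 else 0) ↔ c' = c) :
    ∃ (ρ₁ : Finset (Sf f)) (γ : Sf f → ℚ), GoodSet f s₀ k ρ₁ γ := by
  classical
  have hGs : Gk f k ⊆ f.support := Finset.filter_subset _ _
  obtain ⟨g₀, hg₀⟩ := (Submodule.mem_span_image_finset_iff_exists_fun ℚ).1 h1
  obtain ⟨g, hg⟩ : ∃ g : El (Gk f k) (suppG k) → ℚ,
      ∑ x ∈ ρ, g x • elV (Gk f k) (suppG k) x = oneP (suppG k) := by
    refine ⟨fun x => if h : x ∈ ρ then g₀ ⟨x, h⟩ else 0, ?_⟩
    rw [← hg₀, ← Finset.sum_coe_sort ρ]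
    refine Finset.sum_congr rfl fun x _ => ?_
    beta_reduce
    rw [dif_pos x.2]
  let ρ₁ : Finset (Sf f) := Finset.univ.filter fun v =>
    ∃ h : v.1 ∈ Gk f k, (Sum.inl ⟨v.1, h⟩ : El (Gk f k) (suppG k)) ∈ ρ
  let γ : Sf f → ℚ := fun v => if h : v.1 ∈ Gk f k then
    (if (Sum.inl ⟨v.1, h⟩ : El (Gk f k) (suppG k)) ∈ ρ then g (Sum.inl ⟨v.1, h⟩) else 0) else 0
  have hρ₁ : ∀ v, v ∈ ρ₁ ↔ ∃ h : v.1 ∈ Gk f k,
      (Sum.inl ⟨v.1, h⟩ : El (Gk f k) (suppG k)) ∈ ρ := by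
    intro v
    simp only [ρ₁, Finset.mem_filter, Finset.mem_univ, true_and]
  have hγ1 : ∀ (v : Sf f) (h : v.1 ∈ Gk f k),
      γ v = if (Sum.inl ⟨v.1, h⟩ : El (Gk f k) (suppG k)) ∈ ρ then g (Sum.inl ⟨v.1, h⟩) else 0 := by
    intro v h
    simp only [γ, dif_pos h]
  have hγ2 : ∀ v : Sf f, v.1 ∉ Gk f k → γ v = 0 := by
    intro v h
    simp only [γ, dif_neg h]
  have hγ0 : ∀ v, v ∉ ρ₁ → γ v = 0 := by
    intro v hv
    by_cases h : v.1 ∈ Gk f k
    · rw [hγ1 v h, if_neg]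
      exact fun h' => hv ((hρ₁ v).2 ⟨h, h'⟩)
    · exact hγ2 v h
  have hone : ∀ j ∈ suppG k, ∑ v, γ v * ((v.1 j : ℕ) : ℚ) = 1 := by
    intro j hj
    have e1 := congrFun hg j
    rw [Finset.sum_apply] at e1
    have e2 : oneP (suppG k) j = 1 := by
      unfold oneP
      rw [if_pos hj]
    rw [e2] at e1
    rw [← e1]
    symm
    refine sum_El hGs ρ _ _ (fun v h => ?_) (fun v h => ?_) (fun i => ?_)
    · rw [hγ1 v h]
      split_ifs
      · rfl
      · rw [zero_mul]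
    · rw [hγ2 v h, zero_mul]
    · have hne : j ≠ i.1 := fun h => i.2 (h ▸ hj)
      show g (Sum.inr i) • (Pi.single i.1 (1 : ℚ) : Fin n → ℚ) j = 0
      rw [Pi.single_eq_of_ne hne, smul_zero]
  refine ⟨ρ₁, γ, fun v hv => ?_, fun g' h0 hs => ?_, hγ0, hone, fun j hj => ?_, ?_⟩
  · exact ((hρ₁ v).1 hv).1
  · -- independence
    rw [Fintype.linearIndependent_iff] at lin
    have h2 := lin (fun x => liftEl hGs g' x.1) (by
      funext j
      rw [Finset.sum_apply, Pi.zero_apply]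
      refine Eq.trans ?_ (hs j)
      rw [← sum_El (f := f) (P := suppG k) hGs ρ (fun x : El (Gk f k) (suppG k) =>
          (liftEl hGs g' x • elV (Gk f k) (suppG k) x) j)
          (fun v => g' v * ((v.1 j : ℕ) : ℚ)) (fun v h => ?_) (fun v h => ?_) (fun i => ?_),
        ← Finset.sum_coe_sort ρ]
      · by_cases h' : (Sum.inl ⟨v.1, h⟩ : El (Gk f k) (suppG k)) ∈ ρ
        · rw [if_pos h']
          rfl
        · rw [if_neg h', h0 v, zero_mul]
          intro hv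
          exact h' ((hρ₁ v).1 hv).2
      · rw [h0 v, zero_mul]
        intro hv
        exact h ((hρ₁ v).1 hv).1
      · show ((0 : ℚ) • elV (Gk f k) (suppG k) (Sum.inr i)) j = 0
        rw [zero_smul]
        rfl)
    funext v
    by_cases hv : v ∈ ρ₁
    · obtain ⟨h, h'⟩ := (hρ₁ v).1 hv
      exact h2 ⟨Sum.inl ⟨v.1, h⟩, h'⟩
    · exact h0 v hv
  · -- twins
    by_cases hex : ∃ v ∈ ρ₁, (∀ m : ℕ, γ v ≠ m + 1) ∧ 0 < v.1 j
    · exact Or.inl hex
    right
    push Not at hex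
    have hint : ∀ v ∈ ρ₁, v.1 j ≠ 0 → ∃ m : ℕ, γ v = m + 1 := by
      intro v hv hvj
      by_contra hc
      push Not at hc
      exact hvj (Nat.le_zero.1 (hex v hv hc))
    have hnn : ∀ v, 0 ≤ γ v * ((v.1 j : ℕ) : ℚ) := by
      intro v
      by_cases hv : v ∈ ρ₁
      · by_cases hvj : v.1 j = 0
        · rw [hvj]
          simp
        · obtain ⟨m, hm⟩ := hint v hv hvj
          rw [hm]
          positivity
      · rw [hγ0 v hv, zero_mul]
    obtain ⟨v₀, hv₀, hv₀j⟩ : ∃ v ∈ ρ₁, v.1 j ≠ 0 := by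
      by_contra hc
      push Not at hc
      have e1 := hone j hj
      rw [Finset.sum_eq_zero] at e1
      · exact zero_ne_one e1
      · intro v _
        by_cases hv : v ∈ ρ₁
        · rw [hc v hv]
          simp
        · rw [hγ0 v hv, zero_mul]
    have hge : ∀ v ∈ ρ₁, v.1 j ≠ 0 → (((v.1 j : ℕ) : ℚ)) ≤ γ v * ((v.1 j : ℕ) : ℚ) := by
      intro v hv hvj
      obtain ⟨m, hm⟩ := hint v hv hvj
      rw [hm]
      have e1 : (0 : ℚ) ≤ m := Nat.cast_nonneg _
      have e2 : (0 : ℚ) ≤ ((v.1 j : ℕ) : ℚ) := Nat.cast_nonneg _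
      nlinarith
    have hv₀1 : v₀.1 j = 1 := by
      have e1 : γ v₀ * ((v₀.1 j : ℕ) : ℚ) ≤ 1 := by
        rw [← hone j hj]
        exact Finset.single_le_sum (f := fun v : Sf f => γ v * ((v.1 j : ℕ) : ℚ))
          (fun v _ => hnn v) (Finset.mem_univ v₀)
      have e2 := (hge v₀ hv₀ hv₀j).trans e1
      have e3 : v₀.1 j ≤ 1 := by exact_mod_cast e2
      omega
    have hother : ∀ v ∈ ρ₁, v ≠ v₀ → v.1 j = 0 := by
      intro v hv hne
      by_contra hvj
      have e1 : γ v * ((v.1 j : ℕ) : ℚ) + γ v₀ * ((v₀.1 j : ℕ) : ℚ) ≤ 1 := by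
        rw [← hone j hj, ← Finset.sum_pair (f := fun v : Sf f => γ v * ((v.1 j : ℕ) : ℚ)) hne]
        exact Finset.sum_le_sum_of_subset_of_nonneg (Finset.subset_univ _) fun v _ _ => hnn v
      have e2 := hge v hv hvj
      have e3 := hge v₀ hv₀ hv₀j
      rw [hv₀1] at e3
      have e4 : (1 : ℚ) ≤ ((v.1 j : ℕ) : ℚ) := by
        exact_mod_cast Nat.one_le_iff_ne_zero.2 hvj
      rw [hv₀1] at e1
      push_cast at e1 e3
      linarith
    obtain ⟨hv₀G, hv₀ρ⟩ := (hρ₁ v₀).1 hv₀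
    push Not at hno
    have hj1 : ∀ i ∈ ρ, elC (Gk f k) (suppG k) ⟨j, hj⟩ i =
        if i = Sum.inl ⟨v₀.1, hv₀G⟩ then 1 else 0 := by
      intro i hi
      rcases i with u | i
      · by_cases hu : u = ⟨v₀.1, hv₀G⟩
        · rw [hu, if_pos rfl]
          exact hv₀1
        · rw [if_neg fun h => hu (Sum.inl.inj h)]
          refine hother ⟨u.1, hGs u.2⟩ ((hρ₁ _).2 ⟨u.2, hi⟩) fun h => hu ?_
          have h5 : u.1 = v₀.1 := by rw [← h]
          exact Subtype.ext h5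
      · rw [if_neg (by simp)]
        rfl
    obtain ⟨c', hc'⟩ := hno _ hv₀ρ ⟨j, hj⟩
    rcases hc' with ⟨h3, h4⟩ | ⟨h3, h4⟩
    · refine ⟨c'.1, c'.2, fun h => h4 (Subtype.ext h), fun v hv => ?_⟩
      obtain ⟨hvG, hvρ⟩ := (hρ₁ v).1 hv
      have e1 := h3 _ hvρ
      have e2 := hj1 _ hvρ
      rw [← e2] at e1
      exact e1
    · exfalso
      obtain ⟨i, hi, hne⟩ := h3
      rw [h4] at hne
      exact hne (hj1 i hi)
  · -- the sum
    have hcar := hk.mem
    have hs := hk.s0 k hcar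
    have h2pos : (0 : ℚ) < ((k.2 : ℤ) : ℚ) := by exact_mod_cast hk.pos
    have e1 : ((∑ i, k.1 i : ℤ) : ℚ) = ∑ v, γ v * ((k.2 : ℤ) : ℚ) := by
      have e2 : ∀ v : Sf f, γ v * ((k.2 : ℤ) : ℚ) =
          ∑ j, ((k.1 j : ℤ) : ℚ) * (γ v * ((v.1 j : ℕ) : ℚ)) := by
        intro v
        by_cases hv : v.1 ∈ Gk f k
        · have e3 : dotH v.1 k = k.2 := (Finset.mem_filter.1 hv).2
          rw [← e3, dotH_apply]
          push_cast
          rw [Finset.mul_sum]
          refine Finset.sum_congr rfl fun j _ => ?_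
          ring
        · rw [hγ2 v hv]
          simp
      rw [Finset.sum_congr rfl fun v _ => e2 v, Finset.sum_comm]
      push_cast
      refine Finset.sum_congr rfl fun j _ => ?_
      rw [← Finset.mul_sum]
      by_cases hj : j ∈ suppG k
      · rw [hone j hj, mul_one]
      · have : k.1 j = 0 := by
          by_contra h
          exact hj (Finset.mem_filter.2 ⟨Finset.mem_univ _, h⟩)
        rw [this]
        simp
    rw [hs, ← Finset.sum_mul] at e1
    have e2 : -s₀ = ∑ v, γ v := mul_right_cancel₀ h2pos.ne' e1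
    rw [← e2, neg_neg]

/-- A good set gives a root. -/
theorem GoodSet.root (hf : f ≠ 0) (halg : AlgebraicIndependent ℚ (cf f)) {k : GG n}
    (hk : IsB f D s₀ k) {ρ : Finset (Sf f)} {γ : Sf f → ℚ} (h : GoodSet f s₀ k ρ γ) :
    IsBernsteinSatoRoot f s₀ := by
  classical
  have hcar := hk.mem
  have hwt : ∀ v : Fin n →₀ ℕ, ((wt (fun i => (k.1 i).toNat) v : ℕ) : ℤ) = dotH v k := by
    intro v
    unfold wt
    rw [dotH_apply]
    push_cast
    refine Finset.sum_congr rfl fun j _ => ?_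
    rw [Int.toNat_of_nonneg (hcar.1 j)]
  have hN : ((k.2.toNat : ℕ) : ℤ) = k.2 := Int.toNat_of_nonneg hk.pos.le
  intro b hb
  have h1 := root_twin hf halg (w := fun i => (k.1 i).toNat) (N := k.2.toNat)
    (by have := hk.pos; omega)
    (fun v hv => by
      have h2 := hcar.2.2.1 v hv
      have h3 := hwt v
      omega)
    (suppG k) (fun j hj => by
      unfold suppG
      refine Finset.mem_filter.2 ⟨Finset.mem_univ _, fun h0 => ?_⟩
      rw [h0] at hj
      exact absurd hj (by simp)) ρ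
    (fun v hv => by
      have h2 : dotH v.1 k = k.2 := (Finset.mem_filter.1 (h.face v hv)).2
      have h3 := hwt v.1
      omega)
    h.lin γ h.zero h.one h.tw b hb
  rw [← h.sum]
  exact_mod_cast h1

end MPb07157
end
end
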