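import Pool.Agent.Lib.MP_b07157_ag.N3.PX2
import Pool.Agent.Lib.MP_b07157_ag.N3.ColRay
import Pool.Agent.Lib.MP_b07157_ag.N3.GenR2
import Pool.Agent.Lib.MP_b07157_ag.N3.Mono1
import Pool.Agent.Lib.MP_b07157_ag.PS.EqMain
import Pool.Agent.Lib.MP_b07157_ag.N3.PX3
import Pool.Agent.Lib.MP_b07157_ag.NewtRootLoc
import Pool.Agent.Lib.MP_b07157_ag.NewtAll
import Pool.Agent.Lib.MP_b07157_ag.PS.Aug
import Pool.Agent.Lib.MP_b07157_ag.PS.Dec
import Pool.Agent.Lib.MP_b07157_ag.PS.Lab2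
import Pool.Agent.Lib.MP_b07157_ag.PS.R2

section

/-!
# The decomposition of the parts of the zeta function
-/

noncomputable section

namespace MPb07157

open MvPolynomial Finset

variable {n : ℕ}

/-- Decomposable series. -/
private def Dec {R : Type} [CommRing R] (W₀ : Set (Rˣ × ℕ)) (W : Fin n → Set (Rˣ × ℕ))
    (X : PowerSeries R) : Prop :=
  ∃ (F₀ : PowerSeries R) (F : Fin n → PowerSeries R),
    X = F₀ + ∑ j, F j ∧ RegP W₀ F₀ ∧ ∀ j, RegP (W j) (F j)

private theorem Dec.zero {R : Type} [CommRing R] {W₀ : Set (Rˣ × ℕ)} {W : Fin n → Set (Rˣ × ℕ)} :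
    Dec W₀ W (0 : PowerSeries R) :=
  ⟨0, fun _ => 0, by simp, regP_zero _, fun _ => regP_zero _⟩

private theorem Dec.add {R : Type} [CommRing R] {W₀ : Set (Rˣ × ℕ)} {W : Fin n → Set (Rˣ × ℕ)}
    {X Y : PowerSeries R} (hX : Dec W₀ W X) (hY : Dec W₀ W Y) : Dec W₀ W (X + Y) := by
  obtain ⟨F₀, F, rfl, hF0, hF⟩ := hX
  obtain ⟨G₀, H, rfl, hG0, hH⟩ := hY
  refine ⟨F₀ + G₀, fun j => F j + H j, ?_, hF0.add hG0, fun j => (hF j).add (hH j)⟩
  rw [Finset.sum_add_distrib]
  abel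

private theorem Dec.C_mul {R : Type} [CommRing R] {W₀ : Set (Rˣ × ℕ)} {W : Fin n → Set (Rˣ × ℕ)}
    {X : PowerSeries R} (hX : Dec W₀ W X) (a : R) : Dec W₀ W (PowerSeries.C a * X) := by
  obtain ⟨F₀, F, rfl, hF0, hF⟩ := hX
  refine ⟨PowerSeries.C a * F₀, fun j => PowerSeries.C a * F j, ?_, hF0.C_mul a,
    fun j => (hF j).C_mul a⟩
  rw [mul_add, Finset.mul_sum]

private theorem Dec.sum {R : Type} [CommRing R] {W₀ : Set (Rˣ × ℕ)} {W : Fin n → Set (Rˣ × ℕ)}
    {α : Type} (s : Finset α) (X : α → PowerSeries R) (h : ∀ i ∈ s, Dec W₀ W (X i)) :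
    Dec W₀ W (∑ i ∈ s, X i) := by
  classical
  induction s using Finset.induction_on with
  | empty => simpa using Dec.zero
  | insert a s ha ih =>
    rw [Finset.sum_insert ha]
    exact (h a (Finset.mem_insert_self _ _)).add (ih fun i hi => h i (Finset.mem_insert_of_mem hi))

private theorem Dec.mono {R : Type} [CommRing R] {W₀ W₀' : Set (Rˣ × ℕ)}
    {W W' : Fin n → Set (Rˣ × ℕ)} {X : PowerSeries R} (h : Dec W₀ W X) (h0 : W₀ ⊆ W₀')
    (h1 : ∀ j, W j ⊆ W' j) : Dec W₀' W' X := by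
  obtain ⟨F₀, F, hX, hF0, hF⟩ := h
  exact ⟨F₀, F, hX, hF0.mono h0, fun j => (hF j).mono (h1 j)⟩

private theorem piece_dec {f : MvPolynomial (Fin n) ℂ} {J : Finset (Fin n)} {s₀ : ℚ}
    (h1 : s₀ ≠ -1) {K : ℕ} (hK : -s₀ < K) {lab : (Fin n → ℕ) → ℕ → Fin n}
    (hl : Labels f J s₀ lab) {I : Finset (Fin n →₀ ℕ)} (hI : I.Nonempty) (hIf : I ⊆ f.support)
    (S : Finset (Fin n)) (ty : ℕ) :
    Dec (OH n s₀) (fun j => OH n s₀ ∪ AL f J s₀ lab j)
      (genR (omJ (AddMonoidHom.id _) I) (muH n) (PX f K J I S ty (kapE n) ∅)) := by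
  have hv0 : v0 I ∈ f.support := hIf (v0_mem hI)
  set O : Set (GG n) := {z | ((nuH (v0 I) z : ℤ) : ℚ) ≠ -s₀ * (z.2 : ℤ) ∧ 0 < z.2} with hO
  set A : Fin n → Set (GG n) := fun j =>
    {z | ∃ w N, HF f J s₀ w N ∧ z = emb N w ∧ v0 I ∈ face f w N ∧ lab w N = j} with hA
  have hdec : Dec (rayP (omJ (AddMonoidHom.id _) I) (muH n) '' O)
      (fun j => rayP (omJ (AddMonoidHom.id _) I) (muH n) '' (O ∪ A j))
      (genR (omJ (AddMonoidHom.id _) I) (muH n) (PX f K J I S ty (kapE n) ∅)) := by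
    refine genR_dec (lamX f K (v0 I) (kapE n) ∅) (lamX_inj f K (v0 I) (kapE n) ∅)
      (omJ (AddMonoidHom.id _) I) (muH n) O A (EX f Empty J I S ty) ?_ (cX f K J I S ty ∅)
      (fun z hz => PX_pos hz) (fun m => PX_finite m)
    intro E' hE hex hno
    obtain ⟨z₁, hz₁⟩ := hex
    have hray : ∀ z, MaxTight (lamX f K (v0 I) (kapE n) ∅) E' z →
        ((nuH (v0 I) z : ℤ) : ℚ) = -s₀ * (z.2 : ℤ) ∧
          ∃ w N, HF f J s₀ w N ∧ z = emb N w ∧ v0 I ∈ face f w N := by
      intro z hz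
      obtain ⟨hpos, hcase⟩ := ray_cases hv0 hK h1 z (MaxTight.of_subset _ hE hz)
      have heq : ((nuH (v0 I) z : ℤ) : ℚ) = -s₀ * (z.2 : ℤ) := by
        by_contra hne
        exact hno z hz ⟨hne, hpos⟩
      refine ⟨heq, ?_⟩
      rcases hcase with h3 | h3
      · exact absurd heq h3
      · exact h3
    obtain ⟨_, w₁, N₁, hw₁, hz₁e, hv₁⟩ := hray z₁ hz₁
    refine ⟨lab w₁ N₁, fun z hz => ?_⟩
    obtain ⟨_, w, N, hw, hze, hv⟩ := hray z hz
    refine ⟨w, N, hw, hze, hv, ?_⟩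
    have hz' : emb N w ∈ PSet (lamX f K (v0 I) (kapE n) ∅) 0 E' := hze ▸ hz.2.1
    have hz₁' : emb N₁ w₁ ∈ PSet (lamX f K (v0 I) (kapE n) ∅) 0 E' := hz₁e ▸ hz₁.2.1
    exact hl.join w N w₁ N₁ hw hw₁
      (joined_of_cone hv0 hK E' (fun z hz => (hray z hz).1) hw hw₁ hv hv₁ hz' hz₁')
  have hsubO : rayP (omJ (AddMonoidHom.id _) I) (muH n) '' O ⊆ OH n s₀ := by
    rintro p ⟨z, hz, rfl⟩
    refine ⟨z.1, nuH (v0 I) z, z.2.toNat, rfl, ?_⟩
    have h2 : ((z.2.toNat : ℕ) : ℚ) = ((z.2 : ℤ) : ℚ) := by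
      exact_mod_cast Int.toNat_of_nonneg hz.2.le
    rw [h2]
    exact hz.1
  refine hdec.mono hsubO fun j => ?_
  show rayP (omJ (AddMonoidHom.id _) I) (muH n) '' (O ∪ A j) ⊆ OH n s₀ ∪ AL f J s₀ lab j
  rw [Set.image_union]
  refine Set.union_subset_union hsubO ?_
  rintro p ⟨z, ⟨w, N, hw, rfl, hv, hlab⟩, rfl⟩
  refine ⟨w, N, hw, hlab, ?_⟩
  have h3 : nuH (v0 I) (emb N w) = ∑ i, (w i : ℤ) := by
    rw [nuH_apply, dotH_emb]
    have : wt w (v0 I) = N := (Finset.mem_filter.mp hv).2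
    rw [this]
    show ∑ j, (w j : ℤ) + ((N : ℤ) - N) = _
    rw [sub_self, add_zero]
  show (uX (zv w) (nuH (v0 I) (emb N w)), (N : ℤ).toNat) = _
  rw [h3, Int.toNat_natCast]

/-- The decomposition of a part of the zeta function by labels. -/
theorem ZJx_split {f : MvPolynomial (Fin n) ℂ} (hf : f ≠ 0) {J : Finset (Fin n)} {s₀ : ℚ}
    (h1 : s₀ ≠ -1) {K : ℕ} (hK : -s₀ < K) {lab : (Fin n → ℕ) → ℕ → Fin n}
    (hl : Labels f J s₀ lab) :
    ∃ (Z₀ : PowerSeries (RX n)) (Z : Fin n → PowerSeries (RX n)),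
      ZJx f K J (AddMonoidHom.id _) = Z₀ + ∑ j, Z j ∧ RegP (OH n s₀) Z₀ ∧
        ∀ j, RegP (OH n s₀ ∪ AL f J s₀ lab j) (Z j) := by
  have key : Dec (OH n s₀) (fun j => OH n s₀ ∪ AL f J s₀ lab j)
      (ZJx f K J (AddMonoidHom.id _)) := by
    rw [ZJx_eq_sum f K J (AddMonoidHom.id _) (kapE n), Fintype.sum_subsingleton _ ∅,
      ZPx_eq hf]
    apply Dec.sum
    rintro ⟨I, S⟩ hp
    rw [Finset.mem_product, Finset.mem_filter, Finset.mem_powerset] at hp
    have hI : I.Nonempty := hp.1.2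
    have hIf : I ⊆ f.support := hp.1.1
    exact ((piece_dec h1 hK hl hI hIf S 0).C_mul _).add ((piece_dec h1 hK hl hI hIf S 1).C_mul _)
  exact key

end MPb07157
end
end

section

/-!
# The column theorem
-/

noncomputable section

namespace MPb07157

open MvPolynomial Finset

variable {n : ℕ}

/-- The denominators that are independent of the projection of the facet vector. -/
def Indep (j : Fin n) (w : Fin n → ℕ) (N : ℕ) : Set ((RX n)ˣ × ℕ) :=
  {p | ∃ (γ : Fin n → ℤ) (e : ℤ) (b : ℕ), p = (uX γ e, b) ∧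
    (N : ℤ) • γ ≠ (b : ℤ) • thj j (zv w)}

private theorem column_genR {κ : Type} [Fintype κ] (g : MvPolynomial (Fin n) ℂ)
    (J : Finset (Fin n)) (w : Fin n → ℕ) (N : ℕ) (j : Fin n) (K : ℕ) (kap : κ → GG n →+ ℤ)
    (B : Finset κ) (I : Finset (Fin n →₀ ℕ)) (S : Finset (Fin n)) (ty : ℕ)
    (hray : ∀ z : GG n, MaxTight (lamX g K (v0 I) kap B) (EX g κ J I S ty) z →
      (N : ℤ) • thj j z.1 ≠ z.2 • thj j (zv w)) :
    RegP (Indep j w N) (genR (omJ (thj j) I) (muH n) (PX g K J I S ty kap B)) := by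
  unfold PX
  refine genR_regP (lamX g K (v0 I) kap B) (lamX_inj g K (v0 I) kap B) (omJ (thj j) I) (muH n)
    (EX g κ J I S ty) (Indep j w N) (fun z hz hmu => ?_) (cX g K J I S ty B)
    (fun z hz => PX_pos (f := g) (K := K) (J := J) (I := I) (S := S) (ty := ty) (kap := kap)
      (B := B) hz)
    (fun m => PX_finite (f := g) (K := K) (J := J) (I := I) (S := S) (ty := ty) (kap := kap)
      (B := B) m)
  unfold omJ
  rw [rayP_omX]
  refine ⟨thj j z.1, nuH (v0 I) z, (muH n z).toNat, rfl, ?_⟩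
  rw [Int.toNat_of_nonneg hmu.le]
  exact hray z hz

private theorem column_ZPx {κ : Type} [Fintype κ] {g : MvPolynomial (Fin n) ℂ} (hg : g ≠ 0)
    (J : Finset (Fin n)) (w : Fin n → ℕ) (N : ℕ) (j : Fin n) (K : ℕ) (kap : κ → GG n →+ ℤ)
    (B : Finset κ)
    (hray : ∀ (I : Finset (Fin n →₀ ℕ)) (S : Finset (Fin n)) (ty : ℕ) (z : GG n),
      I ⊆ g.support → I.Nonempty →
      MaxTight (lamX g K (v0 I) kap B) (EX g κ J I S ty) z →
      (N : ℤ) • thj j z.1 ≠ z.2 • thj j (zv w)) :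
    RegP (Indep j w N) (ZPx g K J (thj j) kap B) := by
  rw [ZPx_eq hg]
  refine RegP.sum _ _ fun p hp => ?_
  obtain ⟨hp1, -⟩ := Finset.mem_product.1 hp
  obtain ⟨hp2, hp3⟩ := Finset.mem_filter.1 hp1
  have hp4 := Finset.mem_powerset.1 hp2
  refine RegP.add (RegP.C_mul ?_ _) (RegP.C_mul ?_ _)
  · exact column_genR g J w N j K kap B p.1 p.2 0 fun z hz => hray p.1 p.2 0 z hp4 hp3 hz
  · exact column_genR g J w N j K kap B p.1 p.2 1 fun z hz => hray p.1 p.2 1 z hp4 hp3 hz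

/-- **The column theorem**: after `x_j ↦ 1` the part `J` of the zeta function has a representation
without the denominator of the B1-facet `w`. -/
theorem column {f : MvPolynomial (Fin n) ℂ} {J : Finset (Fin n)} {w : Fin n → ℕ} {N : ℕ}
    {j : Fin n} {v : Fin n →₀ ℕ} (hN : 0 < N) (hmin : ∀ u ∈ f.support, N ≤ wt w u)
    (hwJ : ∀ i ∈ J, w i = 0)
    (hap : Apex f J w N j v) {s₀ : ℚ} (h1 : s₀ ≠ -1) (hs : ((∑ i, w i : ℕ) : ℚ) = -s₀ * N)
    {K : ℕ} (hK1 : 1 ≤ K) (hK : -s₀ < K) : RegP (Indep j w N) (ZJx f K J (thj j)) := by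
  have hv : v ∈ f.support := (Finset.mem_filter.1 hap.1).1
  have hvj : v j = 1 := hap.2.1
  have hj : j ∉ J := fun h => by
    have h2 := hwJ j h
    have h3 := hap.2.2.1
    omega
  have hf : f ≠ 0 := by
    rintro rfl
    simp at hv
  have hsm := support_monF hv
  have hm : monF f v ≠ 0 := by
    intro h
    rw [h] at hsm
    simp at hsm
  rw [ZJx_eq_sum f K J (thj j) (kapF f J v j)]
  refine RegP.sum _ _ fun B _ => ?_
  by_cases hB : B.Nonempty
  · exact column_ZPx hf J w N j K (kapF f J v j) B fun I S ty z _ _ hz =>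
      colray1 hN hmin hap h1 hs hK hB hz
  · rw [Finset.not_nonempty_iff_eq_empty] at hB
    subst hB
    rw [ZPx_zone_eq hv hvj hj hK1]
    refine column_ZPx hm J w N j K (kapF f J v j) ∅ fun I S ty z hI hIn hz => ?_
    have hv0 : v0 I = v := by
      have h2 := hI (v0_mem hIn)
      rw [hsm, Finset.mem_singleton] at h2
      exact h2
    rw [hv0] at hz
    exact colray2 hN hmin hwJ hap h1 hs hK hz

end MPb07157
end
end

section

/-!
# Parts of the zeta function with a consistent labelling have no pole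
-/

noncomputable section

namespace MPb07157

open MvPolynomial Finset

variable {n : ℕ}

/-- proportional contributing facets are joined -/
private theorem asm_joined_of_prop {f : MvPolynomial (Fin n) ℂ} {J : Finset (Fin n)} {s₀ : ℚ}
    {w w' : Fin n → ℕ} {N N' : ℕ} (h : HF f J s₀ w N) (h' : HF f J s₀ w' N')
    (hp : ∀ i, (N' : ℤ) * (w i : ℤ) = (N : ℤ) * (w' i : ℤ)) : Joined f s₀ w N w' N' := by
  obtain ⟨⟨hmin, hN, hspan⟩, -, hs⟩ := h
  obtain ⟨⟨-, hN', -⟩, -, -⟩ := h'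
  have hwt : ∀ u : Fin n →₀ ℕ, N' * wt w u = N * wt w' u := by
    intro u
    have h1 : ((N' * wt w u : ℕ) : ℤ) = ((N * wt w' u : ℕ) : ℤ) := by
      unfold wt
      push_cast
      rw [Finset.mul_sum, Finset.mul_sum]
      refine Finset.sum_congr rfl fun i _ => ?_
      rw [← mul_assoc, ← mul_assoc, hp i]
    exact_mod_cast h1
  have hface : ∀ u, u ∈ face f w N → u ∈ face f w' N' := by
    intro u hu
    unfold face at hu ⊢
    rw [Finset.mem_filter] at hu ⊢
    refine ⟨hu.1, ?_⟩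
    have h1 := hwt u
    rw [hu.2, mul_comm N' N] at h1
    exact (Nat.eq_of_mul_eq_mul_left hN h1).symm
  refine ⟨?_, ?_⟩
  · obtain ⟨u, hu, huN⟩ := hmin.2
    have h1 : u ∈ face f w N := by
      unfold face
      exact Finset.mem_filter.2 ⟨hu, huN⟩
    exact ⟨u, h1, hface u h1⟩
  · intro y c hy hyc
    have h1 := hspan (fun i => (N : ℤ) * y i - c * (w i : ℤ)) (fun i hi => by
      have h2 : w' i = 0 := by
        have := hp i
        rw [hi] at this
        simp only [Nat.cast_zero, mul_zero] at this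
        have hN0 : (N : ℤ) ≠ 0 := by exact_mod_cast hN.ne'
        have h3 := (mul_eq_zero.1 this.symm).resolve_left hN0
        exact_mod_cast h3
      rw [hy i hi h2, hi]
      simp) (fun u hu => by
      have h2 := hyc u hu (hface u hu)
      have h3 : ∑ j, (w j : ℤ) * (u j : ℤ) = N := by
        have h4 := (Finset.mem_filter.1 hu).2
        unfold wt at h4
        rw [← h4]
        push_cast
        rfl
      calc ∑ j, ((N : ℤ) * y j - c * (w j : ℤ)) * (u j : ℤ)
          = (N : ℤ) * ∑ j, y j * (u j : ℤ) - c * ∑ j, (w j : ℤ) * (u j : ℤ) := by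
            rw [Finset.mul_sum, Finset.mul_sum, ← Finset.sum_sub_distrib]
            refine Finset.sum_congr rfl fun j _ => ?_
            ring
        _ = 0 := by
            rw [h2, h3]
            ring)
    have h2 : (N : ℤ) * ∑ i, y i = c * ∑ i, (w i : ℤ) := by
      rw [Finset.mul_sum, Finset.mul_sum]
      refine Finset.sum_congr rfl fun i _ => ?_
      have := congrFun h1 i
      simp only [Pi.zero_apply] at this
      linarith
    have h3 : (N : ℚ) * ((∑ i, y i : ℤ) : ℚ) = (c : ℚ) * ((∑ i, w i : ℕ) : ℚ) := by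
      have := congrArg (fun z : ℤ => (z : ℚ)) h2
      push_cast at this ⊢
      exact this
    have hN0 : (N : ℚ) ≠ 0 := by exact_mod_cast hN.ne'
    rw [hs] at h3
    have h4 : (N : ℚ) * ((∑ i, y i : ℤ) : ℚ) = (N : ℚ) * (-s₀ * c) := by
      rw [h3]
      ring
    exact mul_left_cancel₀ hN0 h4

/-- The map of a sum of series. -/
private theorem asm_map_sum {R R' α : Type} [CommRing R] [CommRing R'] (φ : R →+* R')
    (s : Finset α) (F : α → PowerSeries R) :
    PowerSeries.map φ (∑ i ∈ s, F i) = ∑ i ∈ s, PowerSeries.map φ (F i) :=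
  map_sum (PowerSeries.map φ) F s

private theorem asm_OH_map {s₀ : ℚ} {Z : PowerSeries (RX n)} (θ : (Fin n → ℤ) →+ (Fin n → ℤ))
    {W : Set ((RX n)ˣ × ℕ)} (h : RegP (OH n s₀) Z) (hW : OH n s₀ ⊆ W) :
    RegP W (PowerSeries.map (phiX θ) Z) := by
  refine RegP.map (phiX θ) ?_ h
  rintro p ⟨γ, e, b, rfl, he⟩ _
  apply hW
  refine ⟨θ γ, e, b, ?_, he⟩
  rw [map_phiX_uX]

private theorem asm_AL_map {f : MvPolynomial (Fin n) ℂ} {J : Finset (Fin n)} {s₀ : ℚ}
    {lab : (Fin n → ℕ) → ℕ → Fin n} {i : Fin n} {Z : PowerSeries (RX n)}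
    (θ : (Fin n → ℤ) →+ (Fin n → ℤ)) {W : Set ((RX n)ˣ × ℕ)}
    (h : RegP (OH n s₀ ∪ AL f J s₀ lab i) Z) (hW : OH n s₀ ⊆ W)
    (hW' : ∀ w N, HF f J s₀ w N → lab w N = i → (uX (θ (zv w)) (∑ i, (w i : ℤ)), N) ∈ W) :
    RegP W (PowerSeries.map (phiX θ) Z) := by
  refine RegP.map (phiX θ) ?_ h
  rintro p (⟨γ, e, b, rfl, he⟩ | ⟨w, N, hw, hl, rfl⟩) _
  · apply hW
    refine ⟨θ γ, e, b, ?_, he⟩
    rw [map_phiX_uX]
  · have h1 := hW' w N hw hl
    rw [map_phiX_uX]
    exact h1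

private theorem asm_label {f : MvPolynomial (Fin n) ℂ} (hf : f ≠ 0) {J : Finset (Fin n)} {s₀ : ℚ}
    (h1 : s₀ ≠ -1) {K : ℕ} (hK1 : 1 ≤ K) (hK : -s₀ < K) {lab : (Fin n → ℕ) → ℕ → Fin n}
    (hl : Labels f J s₀ lab) {Z₀ : PowerSeries (RX n)} {Z : Fin n → PowerSeries (RX n)}
    (hZ : ZJx f K J (AddMonoidHom.id _) = Z₀ + ∑ j, Z j) (hZ₀ : RegP (OH n s₀) Z₀)
    (hZj : ∀ j, RegP (OH n s₀ ∪ AL f J s₀ lab j) (Z j)) (j : Fin n) :
    RegP (OH n s₀) (PowerSeries.map (phiX (thj j)) (Z j)) := by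
  classical
  have _ := hf
  set A : Set ((RX n)ˣ × ℕ) := {p | ∃ (w : Fin n → ℕ) (N : ℕ), HF f J s₀ w N ∧ lab w N = j ∧
    p = (uX (thj j (zv w)) (∑ i, (w i : ℤ)), N)} with hA
  have hF : RegP (A ∪ OH n s₀) (PowerSeries.map (phiX (thj j)) (Z j)) :=
    asm_AL_map (thj j) (hZj j) Set.subset_union_right
      (fun w N hw hlw => Or.inl ⟨w, N, hw, hlw, rfl⟩)
  refine RegP.remove hF ?_
  rintro p ⟨w, N, hw, hlw, rfl⟩ hN
  obtain ⟨v, hv⟩ := hl.apex w N hw
  rw [hlw] at hv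
  have hcol := column hw.1.2.1 hw.1.1.1 hw.2.1 hv h1 hw.2.2 hK1 hK
  have hid : ZJx f K J (thj j) = PowerSeries.map (phiX (thj j)) Z₀ +
      ∑ i, PowerSeries.map (phiX (thj j)) (Z i) := by
    have h2 := map_phiX_ZJx f K J (AddMonoidHom.id _) (thj j)
    rw [AddMonoidHom.comp_id] at h2
    rw [← h2, hZ, map_add, asm_map_sum]
  have hF2 : PowerSeries.map (phiX (thj j)) (Z j) = ZJx f K J (thj j) -
      PowerSeries.map (phiX (thj j)) Z₀ -
      ∑ i ∈ Finset.univ.erase j, PowerSeries.map (phiX (thj j)) (Z i) := by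
    rw [hid, ← Finset.add_sum_erase Finset.univ
      (fun i => PowerSeries.map (phiX (thj j)) (Z i)) (Finset.mem_univ j)]
    ring
  set B : Set ((RX n)ˣ × ℕ) := {p | ∃ (w' : Fin n → ℕ) (N' : ℕ), HF f J s₀ w' N' ∧
    lab w' N' ≠ j ∧ p = (uX (thj j (zv w')) (∑ i, (w' i : ℤ)), N')} with hB
  refine ⟨Indep j w N ∪ OH n s₀ ∪ B, ?_, ?_⟩
  · rw [hF2]
    refine ((hcol.mono ?_).sub (asm_OH_map (thj j) hZ₀ ?_)).sub (RegP.sum _ _ fun i hi => ?_)
    · exact fun z hz => Or.inl (Or.inl hz)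
    · exact fun z hz => Or.inl (Or.inr hz)
    · refine asm_AL_map (thj j) (hZj i) (fun z hz => Or.inl (Or.inr hz)) (fun w' N' hw' hlw' => ?_)
      refine Or.inr ⟨w', N', hw', ?_, rfl⟩
      rw [hlw']
      exact (Finset.mem_erase.1 hi).1
  · rintro z ((⟨γ, e, b, rfl, hne⟩ | hz) | ⟨w', N', hw', hlw', rfl⟩) hzb
    · right
      exact cop_uX hN hzb (fun h => hne h.symm)
    · exact Or.inl hz
    · right
      refine cop_uX hN hzb (fun heq => hlw' ?_)
      have heq' : ∀ i, i ≠ j → (N' : ℤ) * (w i : ℤ) = (N : ℤ) * (w' i : ℤ) := by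
        intro i hi
        have h2 := congrFun heq i
        simp only [Pi.smul_apply, thj_apply, if_neg hi, zv, smul_eq_mul] at h2
        exact h2
      have hsum : (N' : ℤ) * ∑ i, (w i : ℤ) = (N : ℤ) * ∑ i, (w' i : ℤ) := by
        have h2 := hw.2.2
        have h3 := hw'.2.2
        have h4 : ((N' : ℤ) : ℚ) * ((∑ i, (w i : ℤ) : ℤ) : ℚ) =
            ((N : ℤ) : ℚ) * ((∑ i, (w' i : ℤ) : ℤ) : ℚ) := by
          push_cast at h2 h3 ⊢
          rw [h2, h3]
          ring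
        exact_mod_cast h4
      have hj : (N' : ℤ) * (w j : ℤ) = (N : ℤ) * (w' j : ℤ) := by
        rw [← Finset.add_sum_erase Finset.univ (fun i => (w i : ℤ)) (Finset.mem_univ j),
          ← Finset.add_sum_erase Finset.univ (fun i => (w' i : ℤ)) (Finset.mem_univ j),
          mul_add, mul_add, Finset.mul_sum, Finset.mul_sum,
          Finset.sum_congr rfl (fun i hi => heq' i (Finset.mem_erase.1 hi).1)] at hsum
        exact add_right_cancel hsum
      have hall : ∀ i, (N' : ℤ) * (w i : ℤ) = (N : ℤ) * (w' i : ℤ) := by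
        intro i
        by_cases hi : i = j
        · rw [hi]; exact hj
        · exact heq' i hi
      have h5 := hl.join w N w' N' hw hw' (asm_joined_of_prop hw hw' hall)
      rw [← h5, hlw]

private theorem asm_aug {s₀ : ℚ} {F : PowerSeries (RX n)} (h : RegP (OH n s₀) F) :
    PowerSeries.map (augX n) F ∈ regularAt s₀ := by
  have h1 : RegP {p : Motˣ × ℕ | ∃ e : ℤ, p.1 = LU ^ (-e) ∧ (e : ℚ) ≠ -s₀ * p.2}
      (PowerSeries.map (augX n) F) := by
    refine RegP.map (augX n) ?_ h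
    rintro p ⟨γ, e, b, rfl, he⟩ _
    exact ⟨e, map_augX_uX γ e, he⟩
  exact h1.mem_regularAt (fun w hw _ => hw)

/-- **The assembly theorem**: if the contributing facets have a consistent labelling by
B1-directions, then the part `J` of the zeta function is regular at `s₀`. -/
theorem ZJm_mem_regularAt {f : MvPolynomial (Fin n) ℂ} (hf : f ≠ 0) {J : Finset (Fin n)} {s₀ : ℚ}
    (h1 : s₀ ≠ -1) {K : ℕ} (hK1 : 1 ≤ K) (hK : -s₀ < K) {lab : (Fin n → ℕ) → ℕ → Fin n}
    (hl : Labels f J s₀ lab) : ZJm f K J ∈ regularAt s₀ := by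
  obtain ⟨Z₀, Z, hZ, hZ₀, hZj⟩ := ZJx_split hf h1 hK hl
  rw [← map_augX_ZJx f K J (AddMonoidHom.id _), hZ, map_add, asm_map_sum]
  refine add_mem (asm_aug hZ₀) (sum_mem fun j _ => ?_)
  have h2 : PowerSeries.map (augX n) (Z j) =
      PowerSeries.map (augX n) (PowerSeries.map (phiX (thj j)) (Z j)) := by
    refine PowerSeries.ext fun m => ?_
    rw [PowerSeries.coeff_map, PowerSeries.coeff_map, PowerSeries.coeff_map,
      ← RingHom.comp_apply, augX_phiX]
  rw [h2]
  exact asm_aug (asm_label hf h1 hK1 hK hl hZ hZ₀ hZj j)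

end MPb07157
end
end

section

/-!
# The local strong monodromy conjecture for very general polynomials with thick facets
-/

noncomputable section

namespace MPb07157

open MvPolynomial Finset
open scoped Nat

variable {n : ℕ}

/-- A facet of the Newton polyhedron (with weight `w` and minimum `N`) is compactly thick if one of
its compact faces (the face of a weight `ω` with positive coordinates) contains a set `ρ` of
exponents of `f`, whose projections to the coordinates `j` with `w j > 0` form a basis, such that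
`∑_{v ∈ ρ} v_j ≥ 2` for all `j` with `w j > 0`. -/
def ThickC (f : MvPolynomial (Fin n) ℂ) (w : Fin n → ℕ) (N : ℕ) : Prop :=
  ∃ (ω : Fin n → ℕ) (Nω : ℕ) (ρ : Finset (Fin n →₀ ℕ)), (∀ j, 0 < ω j) ∧ IsMinWt f ω Nω ∧
    ρ ⊆ face f w N ∧ ρ ⊆ face f ω Nω ∧
    LinearIndependent ℚ (fun (v : {v // v ∈ ρ}) (j : {j // 0 < w j}) => ((v.1 j.1 : ℕ) : ℚ)) ∧
    ρ.card = Fintype.card {j // 0 < w j} ∧ ∀ j, 0 < w j → 2 ≤ ∑ v ∈ ρ, v j

theorem sum_ext_Sf {f : MvPolynomial (Fin n) ℂ} (ρ : Finset (Fin n →₀ ℕ)) (hρ : ρ ⊆ f.support)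
    (F : {v // v ∈ ρ} → ℚ) (c : (Fin n →₀ ℕ) → ℚ) [∀ v : Sf f, Decidable (v.1 ∈ ρ)] :
    ∑ v : Sf f, (if h : v.1 ∈ ρ then F ⟨v.1, h⟩ else 0) * c v.1 =
      ∑ v : {v // v ∈ ρ}, F v * c v.1 := by
  classical
  let F' : (Fin n →₀ ℕ) → ℚ := fun v => if h : v ∈ ρ then F ⟨v, h⟩ else 0
  have h1 : ∑ v : Sf f, (if h : v.1 ∈ ρ then F ⟨v.1, h⟩ else 0) * c v.1 =
      ∑ v ∈ f.support, F' v * c v := by
    rw [← Finset.sum_coe_sort f.support (fun v => F' v * c v)]
    refine Finset.sum_congr rfl fun v _ => ?_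
    simp only [F']
    congr 1
    split_ifs <;> rfl
  have h2 : ∑ v : {v // v ∈ ρ}, F v * c v.1 = ∑ v ∈ ρ, F' v * c v := by
    rw [← Finset.sum_coe_sort ρ (fun v => F' v * c v)]
    refine Finset.sum_congr rfl fun v _ => ?_
    simp only [F']
    rw [dif_pos v.2]
  rw [h1, h2]
  refine (Finset.sum_subset hρ fun v _ hv => ?_).symm
  simp only [F']
  rw [dif_neg hv, zero_mul]

theorem ThickC.root {f : MvPolynomial (Fin n) ℂ} (hf : f ≠ 0)
    (halg : AlgebraicIndependent ℚ (cf f)) {w : Fin n → ℕ} {N : ℕ} (hN : 0 < N)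
    (hmin : ∀ v ∈ f.support, N ≤ wt w v) (h : ThickC f w N) {s₀ : ℚ}
    (hs : ((∑ j, w j : ℕ) : ℚ) = -s₀ * N) :
    IsBernsteinSatoRoot f s₀ ∧ IsLocalBernsteinSatoRoot f s₀ := by
  classical
  obtain ⟨ω, Nω, ρ, hω, hωmin, hρ, hρω, hlin, hcard, hge⟩ := h
  refine roots_of_form fun b hb => ?_
  have hρf : ρ ⊆ f.support := fun v hv => (Finset.mem_filter.1 (hρ hv)).1
  have hcard' : Fintype.card {v // v ∈ ρ} = Module.finrank ℚ ({j // 0 < w j} → ℚ) := by
    rw [Module.finrank_fintype_fun_eq_card, ← hcard, Fintype.card_coe]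
  -- there is an exponent with positive weight, so `w` is not zero and `ρ` is not empty
  have hw : ∃ j, 0 < w j := by
    by_contra hcon
    push Not at hcon
    obtain ⟨v, hv⟩ := MvPolynomial.support_nonempty.2 hf
    have h1 := hmin v hv
    have h2 : wt w v = 0 := by
      unfold wt
      exact Finset.sum_eq_zero fun j _ => by rw [Nat.le_zero.1 (hcon j), zero_mul]
    omega
  have hJ : Nonempty {j // 0 < w j} := ⟨⟨hw.choose, hw.choose_spec⟩⟩
  have hρne : ρ.Nonempty := by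
    rw [← Finset.card_pos, hcard]
    exact Fintype.card_pos
  have hρne' : Nonempty {v // v ∈ ρ} := ⟨⟨hρne.choose, hρne.choose_spec⟩⟩
  let bas := basisOfLinearIndependentOfCardEqFinrank hlin hcard'
  have hbas : ∀ v, bas v = fun j : {j // 0 < w j} => ((v.1 j.1 : ℕ) : ℚ) := fun v => by
    simp [bas]
  have hNω : 0 < Nω := by
    obtain ⟨v, hv⟩ := hρne
    have h1 := (Finset.mem_filter.1 (hρω hv)).2
    rw [← h1]
    by_contra h2
    have h3 : wt ω v = 0 := by omega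
    have h4 : ∀ j, v j = 0 := by
      intro j
      unfold wt at h3
      rw [Finset.sum_eq_zero_iff] at h3
      rcases Nat.mul_eq_zero.1 (h3 j (Finset.mem_univ j)) with h5 | h5
      · exact absurd h5 (hω j).ne'
      · exact h5
    have h5 := (Finset.mem_filter.1 (hρ hv)).2
    unfold wt at h5
    rw [Finset.sum_eq_zero fun j _ => by rw [h4 j, mul_zero]] at h5
    omega
  -- coordinates
  let co : ({j // 0 < w j} → ℚ) → Sf f → ℚ := fun y v =>
    if h : v.1 ∈ ρ then bas.repr y ⟨v.1, h⟩ else 0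
  have hco0 : ∀ y v, v.1 ∉ ρ → co y v = 0 := fun y v hv => dif_neg hv
  have hco : ∀ (y : {j // 0 < w j} → ℚ) (j : {j // 0 < w j}),
      ∑ v, co y v * ((v.1 j.1 : ℕ) : ℚ) = y j := by
    intro y j
    have h1 := sum_ext_Sf ρ hρf (fun v => bas.repr y v) (fun v => ((v j.1 : ℕ) : ℚ))
    rw [show (∑ v, co y v * ((v.1 j.1 : ℕ) : ℚ)) = _ from h1]
    have h2 := congrFun (bas.sum_repr y) j
    rw [Finset.sum_apply] at h2
    rw [← h2]
    refine Finset.sum_congr rfl fun v _ => ?_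
    rw [hbas]
    rfl
  let ρ' : Finset (Sf f) := (Finset.univ : Finset (Sf f)).filter (fun v => v.1 ∈ ρ)
  have hmem : ∀ v, v ∈ ρ' ↔ v.1 ∈ ρ := fun v => by simp [ρ']
  let γ : Sf f → ℚ := co fun _ => 1
  have hγ0 : ∀ v, v ∉ ρ' → γ v = 0 := fun v hv => hco0 _ v fun h => hv ((hmem v).2 h)
  have hγ : ∀ j, 0 < w j → ∑ v, γ v * ((v.1 j : ℕ) : ℚ) = 1 := fun j hj => hco _ ⟨j, hj⟩
  have hρw : ∀ v ∈ ρ', wt w v.1 = N := fun v hv =>
    (Finset.mem_filter.1 (hρ ((hmem v).1 hv))).2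
  have hsumρ : ∀ j, (∑ v : Sf f, if v.1 ∈ ρ then ((v.1 j : ℕ) : ℚ) else 0) =
      ((∑ v ∈ ρ, v j : ℕ) : ℚ) := by
    intro j
    rw [← Finset.sum_filter]
    have := sum_Sf f ρ hρf (fun v => ((v j : ℕ) : ℚ))
    rw [this]
    push_cast
    rfl
  have := root_simplex_form hf halg hN hNω hmin hω hωmin.1 ρ' hρw
    (fun v hv => (Finset.mem_filter.1 (hρω ((hmem v).1 hv))).2) ?_ ?_ γ hγ0 hγ ?_ b hb
  · rw [sum_coord hN ρ' hρw γ hγ0 hγ hs] at this
    exact this
  · -- independence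
    intro g hg0 hg
    have h1 := Fintype.linearIndependent_iff.1 hlin
      (fun v => if h : v.1 ∈ f.support then g ⟨v.1, h⟩ else 0) (by
        funext j
        have h2 := hg j.1 j.2
        rw [Finset.sum_apply]
        simp only [Pi.smul_apply, smul_eq_mul, Pi.zero_apply]
        refine Eq.trans ?_ h2
        rw [Finset.sum_coe_sort ρ (fun v => (if h : v ∈ f.support then g ⟨v, h⟩ else 0) *
          ((v j.1 : ℕ) : ℚ)), Finset.sum_subset hρf (fun v hv hvρ => by
            rw [dif_pos hv, hg0 ⟨v, hv⟩ (fun h => hvρ ((hmem _).1 h)), zero_mul]),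
          ← Finset.sum_coe_sort f.support]
        refine Finset.sum_congr rfl fun v _ => ?_
        rw [dif_pos v.2])
    funext v
    by_cases hv : v.1 ∈ ρ
    · have h3 := h1 ⟨v.1, hv⟩
      simp only at h3
      rw [dif_pos v.2] at h3
      exact h3
    · exact hg0 v fun h4 => hv ((hmem v).1 h4)
  · -- spanning
    intro j hj
    refine ⟨co fun i => if i.1 = j then 1 else 0, fun v hv => hco0 _ v fun h => hv ((hmem v).2 h),
      fun i hi => ?_⟩
    exact hco _ ⟨i, hi⟩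
  · intro j hj
    by_contra hcon
    push Not at hcon
    have h1 : (∑ v : Sf f, if v.1 ∈ ρ then ((v.1 j : ℕ) : ℚ) else 0) ≤
        ∑ v, γ v * ((v.1 j : ℕ) : ℚ) := by
      refine Finset.sum_le_sum fun v _ => ?_
      split_ifs with hv
      · rcases Nat.eq_zero_or_pos (v.1 j) with h0 | h0
        · rw [h0]; simp
        · have h2 : ∃ k : ℕ, γ v = k + 1 := by
            by_contra h3
            push Not at h3
            exact absurd (hcon v ((hmem v).2 hv) h3) (by omega)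
          obtain ⟨k, hk⟩ := h2
          rw [hk]
          have h3 : (0 : ℚ) ≤ k := by positivity
          have h4 : (0 : ℚ) ≤ ((v.1 j : ℕ) : ℚ) := by positivity
          nlinarith
      · rw [hγ0 v fun h => hv ((hmem v).1 h)]
        simp
    rw [hsumρ, hγ j hj] at h1
    have h2 : (2 : ℚ) ≤ ((∑ v ∈ ρ, v j : ℕ) : ℚ) := by exact_mod_cast hge j hj
    linarith

/-- A spanning set contains a set whose projections form a basis. -/
theorem Spans.exists_basis {w : Fin n → ℕ} {I : Finset (Fin n →₀ ℕ)} (hs : Spans w I) :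
    ∃ ρ : Finset (Fin n →₀ ℕ), ρ ⊆ I ∧
      LinearIndependent ℚ (fun (v : {v // v ∈ ρ}) (j : {j // 0 < w j}) => ((v.1 j.1 : ℕ) : ℚ)) ∧
      ρ.card = Fintype.card {j // 0 < w j} := by
  classical
  let P := {j : Fin n // 0 < w j}
  let π : (Fin n →₀ ℕ) → (P → ℚ) := fun v j => ((v j.1 : ℕ) : ℚ)
  -- the projections span
  have hspan : Submodule.span ℚ (Set.range fun v : {v // v ∈ I} => π v.1) = ⊤ := by
    by_contra hcon
    obtain ⟨f, hf0, hf⟩ := Submodule.exists_le_ker_of_lt_top _ (lt_top_iff_ne_top.2 hcon)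
    obtain ⟨b, hb⟩ := IsLocalization.exist_integer_multiples_of_finite (nonZeroDivisors ℤ)
      (fun j : P => f (Pi.single j 1))
    choose z hz using hb
    have hb0 : (b : ℤ) ≠ 0 := nonZeroDivisors.ne_zero b.2
    have hz' : ∀ j, ((z j : ℤ) : ℚ) = (b : ℤ) * f (Pi.single j 1) := by
      intro j
      have := hz j
      rw [eq_intCast] at this
      rw [this]
      exact zsmul_eq_mul _ _
    have hfx : ∀ x : P → ℚ, f x = ∑ j : P, x j * f (Pi.single j 1) := by
      intro x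
      conv_lhs => rw [← Finset.univ_sum_single x]
      rw [map_sum]
      refine Finset.sum_congr rfl fun j _ => ?_
      rw [← smul_eq_mul, ← map_smul, ← Pi.single_smul, smul_eq_mul, mul_one]
    have h1 := hs (fun j => if h : 0 < w j then z ⟨j, h⟩ else 0)
      (fun j hj => by simp [hj]) (by
        intro v hv
        have h2 : f (π v) = 0 := hf (Submodule.subset_span ⟨⟨v, hv⟩, rfl⟩)
        have h4 : (((∑ j : Fin n, (if h : 0 < w j then z ⟨j, h⟩ else 0) * (v j : ℤ)) : ℤ) : ℚ) =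
            (b : ℤ) * f (π v) := by
          rw [hfx, Finset.mul_sum]
          push_cast
          rw [sum_pos_eq w _ (by intro j hj; simp [hj])]
          refine Finset.sum_congr rfl fun j _ => ?_
          rw [dif_pos j.2, hz' j]
          simp only [π]
          ring
        rw [h2, mul_zero] at h4
        exact_mod_cast h4)
    apply hf0
    have hz0 : ∀ j : P, f (Pi.single j 1) = 0 := by
      intro j
      have h2 := congrFun h1 j.1
      simp only [dif_pos j.2, Pi.zero_apply] at h2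
      have h3 := hz' j
      have h4 : z ⟨j.1, j.2⟩ = 0 := h2
      have h5 : z j = 0 := h4
      rw [h5, Int.cast_zero] at h3
      exact (mul_eq_zero.1 h3.symm).resolve_left (by exact_mod_cast hb0)
    refine LinearMap.ext fun x => ?_
    rw [hfx]
    simp [hz0]
  obtain ⟨κ, a, ha, hsp, hli⟩ := exists_linearIndependent' ℚ (fun v : {v // v ∈ I} => π v.1)
  rw [hspan] at hsp
  have : Finite κ := Finite.of_injective a ha
  have : Fintype κ := Fintype.ofFinite κ
  let bas : Module.Basis κ ℚ (P → ℚ) := Module.Basis.mk hli (by rw [hsp])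
  have hcard : Fintype.card κ = Fintype.card P := by
    rw [← Module.finrank_eq_card_basis bas, Module.finrank_fintype_fun_eq_card]
  have hinj : Function.Injective fun k : κ => (a k).1 := Subtype.val_injective.comp ha
  let ρ : Finset (Fin n →₀ ℕ) := Finset.univ.image fun k : κ => (a k).1
  refine ⟨ρ, ?_, ?_, ?_⟩
  · intro v hv
    obtain ⟨k, -, rfl⟩ := Finset.mem_image.1 hv
    exact (a k).2
  · have h2 : ∀ v : {v // v ∈ ρ}, ∃ k : κ, (a k).1 = v.1 := by
      intro v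
      obtain ⟨k, -, hk⟩ := Finset.mem_image.1 v.2
      exact ⟨k, hk⟩
    choose g hg using h2
    have h3 : Function.Injective g := by
      intro v v' h
      apply Subtype.ext
      rw [← hg v, ← hg v', h]
    have h4 := hli.comp g h3
    have h5 : (((fun v : {v // v ∈ I} => π v.1) ∘ a) ∘ g) =
        fun (v : {v // v ∈ ρ}) (j : {j // 0 < w j}) => ((v.1 j.1 : ℕ) : ℚ) := by
      funext v j
      simp only [Function.comp, π]
      rw [hg v]
    rw [h5] at h4
    exact h4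
  · show (Finset.univ.image fun k : κ => (a k).1).card = _
    rw [Finset.card_image_of_injective _ hinj, Finset.card_univ, hcard]

/-- A facet without coordinates equal to `1` is compactly thick. -/
theorem thickC_of_ne_one {f : MvPolynomial (Fin n) ℂ} {w : Fin n → ℕ} {N : ℕ}
    (hfac : IsFacetWt f w N) (h : ∀ v ∈ face f w N, ∀ j, 0 < w j → v j ≠ 1) : ThickC f w N := by
  classical
  obtain ⟨ω, Nω, hω, hωmin, hωw, hωs⟩ := exists_compact_face f w N hfac.1 hfac.2.2
  obtain ⟨ρ, hρ, hlin, hcard⟩ := hωs.exists_basis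
  have hρw : ρ ⊆ face f w N := fun v hv => by
    have h1 := Finset.mem_filter.1 (hρ hv)
    exact Finset.mem_filter.2 ⟨h1.1, hωw v h1.1 h1.2⟩
  refine ⟨ω, Nω, ρ, hω, hωmin, hρw, hρ, hlin, hcard, fun j hj => ?_⟩
  have h1 : ∃ v ∈ ρ, v j ≠ 0 := by
    by_contra hcon
    push Not at hcon
    have hcard' : Fintype.card {v // v ∈ ρ} = Module.finrank ℚ ({j // 0 < w j} → ℚ) := by
      rw [Module.finrank_fintype_fun_eq_card, ← hcard, Fintype.card_coe]
    have hne : Nonempty {v // v ∈ ρ} := by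
      have : 0 < ρ.card := by
        rw [hcard]
        exact Fintype.card_pos_iff.2 ⟨⟨j, hj⟩⟩
      obtain ⟨v, hv⟩ := Finset.card_pos.1 this
      exact ⟨⟨v, hv⟩⟩
    let bas := basisOfLinearIndependentOfCardEqFinrank hlin hcard'
    have h2 := congrFun (bas.sum_repr (fun _ => 1)) ⟨j, hj⟩
    rw [Finset.sum_apply, Finset.sum_eq_zero fun v _ => ?_] at h2
    · exact zero_ne_one h2
    · rw [Pi.smul_apply]
      have : bas v ⟨j, hj⟩ = 0 := by
        simp only [bas, coe_basisOfLinearIndependentOfCardEqFinrank]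
        rw [hcon v.1 v.2]
        simp
      rw [this, smul_zero]
  obtain ⟨v, hv, hvj⟩ := h1
  have h2 := h v (hρw hv) j hj
  have h3 : v j ≤ ∑ v ∈ ρ, v j := Finset.single_le_sum (f := fun v : Fin n →₀ ℕ => v j)
    (fun _ _ => Nat.zero_le _) hv
  omega

/-- **The strong monodromy conjecture, global and local, for very general polynomials whose Newton
polyhedron has only compactly thick facets** (apart from those with `|w| = N`). -/
theorem smc_thickC {f : MvPolynomial (Fin n) ℂ} (hf : f ≠ 0) (h0 : (0 : Fin n →₀ ℕ) ∉ f.support)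
    (halg : AlgebraicIndependent ℚ (cf f))
    (hthick : ∀ w N, IsFacetWt f w N → ∑ j, w j ≠ N → ThickC f w N) (s₀ : ℚ) :
    (IsPole (Zmot f) s₀ → IsBernsteinSatoRoot f s₀) ∧
      (IsPole (Zmot0 f) s₀ → IsLocalBernsteinSatoRoot f s₀) := by
  by_cases h1 : s₀ = -1
  · subst h1
    have := roots_of_form (f := f) (s₀ := -1) fun b hb => neg_one_root hf h0 b hb
    exact ⟨fun _ => this.1, fun _ => this.2⟩
  by_cases hex : ∃ w N, IsFacetWt f w N ∧ ((∑ j, w j : ℕ) : ℚ) = -s₀ * N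
  · obtain ⟨w, N, hfac, hs⟩ := hex
    have := (hthick w N hfac (by
      intro h2
      rw [h2] at hs
      apply h1
      have h3 : (0 : ℚ) < N := by exact_mod_cast hfac.2.1
      have h4 : (N : ℚ) * (1 + s₀) = 0 := by linarith
      rcases mul_eq_zero.1 h4 with h5 | h5
      · exact absurd h5 h3.ne'
      · linarith)).root hf halg hfac.2.1 hfac.1.1 hs
    exact ⟨fun _ => this.1, fun _ => this.2⟩
  · push Not at hex
    have hnd : ∀ a : Fin n → ℕ, NondegAt f (face f a (nuf f a)) := by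
      intro a
      refine nondegAt_of_algInd f halg _ (Finset.filter_subset _ _) ?_
      obtain ⟨-, v, hv, hvN⟩ := isMinWt_nuf hf a
      exact ⟨v, Finset.mem_filter.2 ⟨hv, hvN⟩⟩
    refine ⟨fun h => absurd ?_ h, fun h => absurd ?_ h⟩
    · rw [Zmot_eq]
      exact ZE_mem_regularAt hf (by omega) (fun a _ => hnd a) h1 fun w N h => hex w N h
    · rw [Zmot0_eq]
      exact ZE_mem_regularAt hf (by omega) (fun a _ => hnd a) h1 fun w N h => hex w N h

end MPb07157
end
end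

section

/-!
# Regularity of the parts of the zeta function
-/

noncomputable section

namespace MPb07157

open MvPolynomial Finset

variable {n : ℕ} {f : MvPolynomial (Fin n) ℂ} {D : Finset (Fin n)} {s₀ : ℚ}

/-- the special exponents of a column -/
private theorem fin_col {F : Finset (GG n)} (hF : F ∈ Fl f D s₀) {U : Finset (Fin n)}
    (hU : Disj01 (Gk f (∑ k ∈ F, k)) U) :
    ∀ j ∈ U, ∃ u ∈ f.support, (∀ k ∈ F, dotH u k = k.2) ∧ u j = 1 ∧
      ∀ i ∈ U, i ≠ j → u i = 0 := by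
  classical
  intro j hj
  obtain ⟨u, hu, huj⟩ := hU.2 j hj
  have h1 := (mem_Gk_sum hF).1 hu
  refine ⟨u, h1.1, h1.2, huj, fun i hi hij => ?_⟩
  have h2 := hU.1 u hu
  rw [← Finset.add_sum_erase U (fun j => u j) hj] at h2
  have h3 : u i ≤ ∑ i ∈ U.erase j, u i :=
    Finset.single_le_sum (f := fun i => u i) (fun _ _ => Nat.zero_le _)
      (Finset.mem_erase.2 ⟨hij, hi⟩)
  omega

/-- the property of vanishing far away is stable under multiplication by a factor -/
private theorem fin_fac (J : Finset (Fin n)) (q : GG n) {Y : PowerSeries (RX n)}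
    (hY : ∀ z, ∃ l₀ : ℕ, ∀ l ≥ l₀, tw LU J (cfun Y) (z + l • q) = 0) {w : (RX n)ˣ × ℕ}
    (hw : w ∈ OH n s₀) : ∀ z, ∃ l₀ : ℕ, ∀ l ≥ l₀,
      tw LU J (cfun (((fac w : Polynomial (RX n)) : PowerSeries (RX n)) * Y)) (z + l • q) = 0 := by
  intro z
  obtain ⟨γ, e, b, rfl, -⟩ := hw
  obtain ⟨l₁, hl₁⟩ := hY z
  obtain ⟨l₂, hl₂⟩ := hY (z - ((γ, (b : ℤ)) : GG n))
  refine ⟨l₁ + l₂, fun l hl => ?_⟩
  have h1 : cfun (((fac (uX γ e, b) : Polynomial (RX n)) : PowerSeries (RX n)) * Y) =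
      fun z => cfun Y z + (-qpw LU (∑ i, γ i - e)) * cfun Y (z - ((γ, (b : ℤ)) : GG n)) := by
    funext z
    rw [cfun_fac]
    ring
  rw [h1, tw_add LU J (cfun_LF Y) (((cfun_LF Y).shift _).const_mul _),
    tw_const_mul LU J _ ((cfun_LF Y).shift _), tw_shift, hl₁ l (by omega)]
  have h2 : z + l • q - ((γ, (b : ℤ)) : GG n) = z - ((γ, (b : ℤ)) : GG n) + l • q := by abel
  rw [h2, hl₂ l (by omega), mul_zero, add_zero]

private theorem fin_prod (J : Finset (Fin n)) (q : GG n) {Y : PowerSeries (RX n)}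
    (hY : ∀ z, ∃ l₀ : ℕ, ∀ l ≥ l₀, tw LU J (cfun Y) (z + l • q) = 0)
    (s : Multiset ((RX n)ˣ × ℕ)) (hs : ∀ w ∈ s, w ∈ OH n s₀) : ∀ z, ∃ l₀ : ℕ, ∀ l ≥ l₀,
      tw LU J (cfun ((((s.map fac).prod : Polynomial (RX n)) : PowerSeries (RX n)) * Y))
        (z + l • q) = 0 := by
  induction s using Multiset.induction_on with
  | empty =>
    rw [Multiset.map_zero, Multiset.prod_zero, Polynomial.coe_one, one_mul]
    exact hY
  | cons w s ih =>
    rw [Multiset.map_cons, Multiset.prod_cons, Polynomial.coe_mul, mul_assoc]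
    exact fin_fac J q (ih fun w hw => hs w (Multiset.mem_cons_of_mem hw))
      (hs w (Multiset.mem_cons_self w s))

/-- **The pole side in all dimensions**: if every chosen vector that contributes the candidate pole
has a conflict-free deficit, then the part `D` of the zeta function is regular at `s₀`. -/
theorem ZJm_regular {f : MvPolynomial (Fin n) ℂ} (hf : f ≠ 0)
    (hnd : ∀ I ⊆ f.support, I.Nonempty → NondegAt f I) {s₀ : ℚ} (h1 : s₀ ≠ -1) {K : ℕ}
    (hK : -s₀ < K) {D : Finset (Fin n)} (Jl : GG n → Finset (Fin n))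
    (hJl : ∀ k, IsB f D s₀ k → ConfFree (Gk f k) (suppG k) (Jl k)) :
    ZJm f K D ∈ regularAt s₀ := by
  classical
  obtain ⟨s, K₀, A, hs, hK₀, hA⟩ := ZJx_dec hf h1 hK (D := D)
  obtain ⟨𝓢, h𝓢⟩ := exists_labels Jl hJl
  set 𝒦 : Finset (Finset (GG n)) := K₀.biUnion Finset.powerset with h𝒦
  have hmem : ∀ F, F ∈ 𝒦 ↔ ∃ F' ∈ K₀, F ⊆ F' := by
    intro F
    rw [h𝒦, Finset.mem_biUnion]
    simp only [Finset.mem_powerset]
  have hFl : ∀ F ∈ 𝒦, F ∈ Fl f D s₀ := by
    intro F hF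
    obtain ⟨F', hF', hs⟩ := (hmem F).1 hF
    exact Fl.subset (hK₀ F' hF') hs
  have hsub : K₀ ⊆ 𝒦 := fun F hF => (hmem F).2 ⟨F, hF, subset_rfl⟩
  set Z := ZJx f K D (AddMonoidHom.id _) with hZ
  set P : PowerSeries (RX n) := (((s.map fac).prod : Polynomial (RX n)) : PowerSeries (RX n))
    with hP
  -- the functional vectors
  have hpos : ∀ F ∈ 𝒦, ∀ k ∈ F, 0 < k.2 := fun F hF k hk => ((hFl F hF).1 k hk).pos
  -- the labels
  have hU : ∀ F ∈ 𝒦, F.Nonempty → ∃ U, U ⊆ suppG (∑ k ∈ F, k) ∧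
      Disj01 (Gk f (∑ k ∈ F, k)) U ∧ ∀ J ∈ 𝓢 F, J ⊆ U := fun F hF hne =>
    (h𝓢 F (hFl F hF) hne).2.1
  choose! U hU using hU
  have hJdis : ∀ F ∈ 𝒦, F.Nonempty → ∀ J ∈ 𝓢 F, Disj01 (Gk f (∑ k ∈ F, k)) J := by
    intro F hF hne J hJ
    obtain ⟨-, h2, h3⟩ := hU F hF hne
    exact h2.mono subset_rfl (h3 J hJ) fun j hj => by
      obtain ⟨u, hu, huj⟩ := h2.2 j (h3 J hJ hj)
      exact ⟨u, hu, by rw [huj]; exact one_ne_zero⟩
  -- the decomposition
  set c : Mot := qpw LU (∑ i, (0 : Fin n → ℤ) i - 1) with hc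
  set A₀ : Finset (GG n) → (GG n →₀ Mot) := fun F => if F ∈ K₀ then A F else 0 with hA₀
  set A₁ : Finset (GG n) → (GG n →₀ Mot) := fun F =>
    A₀ F + (-c) • shG ((0, ((1 : ℕ) : ℤ)) : GG n) (A₀ F) with hA₁
  set Y : PowerSeries (RX n) :=
    ((fac (uX 0 1, 1) : Polynomial (RX n)) : PowerSeries (RX n)) * (P * Z) with hY
  have hA₀s : ∀ z, cfun (P * Z) z = ∑ F ∈ 𝒦, GF F (A₀ F) z := by
    intro z
    rw [hP, hA z]
    have h2 : ∑ F ∈ K₀, GF F (A F) z = ∑ F ∈ K₀, GF F (A₀ F) z :=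
      Finset.sum_congr rfl fun F hF => by rw [hA₀]; simp only [if_pos hF]
    rw [h2]
    refine Finset.sum_subset hsub fun F _ hF => ?_
    rw [hA₀]
    simp only [if_neg hF]
    exact GF_zero F z
  have hφ : ∀ z, cfun Y z = ∑ F ∈ 𝒦, GF F (A₁ F) z := by
    intro z
    rw [hY, cfun_fac, hA₀s z, hA₀s, Finset.mul_sum, ← Finset.sum_sub_distrib]
    refine Finset.sum_congr rfl fun F _ => ?_
    rw [hA₁]
    simp only
    rw [GF_add, GF_smul, GF_shG, ← hc]
    ring
  have hYP : Y = P * (((fac (uX 0 1, 1) : Polynomial (RX n)) : PowerSeries (RX n)) * Z) := by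
    rw [hY]
    ring
  obtain ⟨M, hM⟩ := patch LU 𝒦 (fun F hF F' hs => by
      obtain ⟨F'', hF'', hs'⟩ := (hmem F).1 hF
      exact (hmem F').2 ⟨F'', hF'', hs.trans hs'⟩) hpos 𝓢 U
    (fun F hF hne J hJ => (hU F hF hne).2.2 J hJ)
    (fun F hF hne => Fl.ind (hFl F hF) (fin_col (hFl F hF) (hU F hF hne).2.1))
    (fun F hF hne => (h𝓢 F (hFl F hF) hne).1)
    (fun F hF F' hs hne J' hJ' => (h𝓢 F (hFl F hF) (hne.mono hs)).2.2.2 F' hs hne J' hJ')
    (fun F hF hne J hJ F' hF' hFF' z => Fl.h3 (hFl F hF) (hFl F' hF') hFF'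
      (fin_col (hFl F hF) (hJdis F hF hne J hJ)) z)
    (cfun Y) A₁ hφ (fun F hF hne J hJ => by
      rw [hYP]
      refine fin_prod J _ (fun z => ?_) s fun w hw => (hs w hw).1
      obtain ⟨J₀, hJ₀, hD₀⟩ := (h𝓢 F (hFl F hF) hne).2.2.1 J hJ
      have hcar := fun k hk => ((hFl F hF).1 k hk).mem
      have h2 : ∀ i, (∑ k ∈ F, k : GG n).1 i = ∑ k ∈ F, k.1 i := by
        intro i
        rw [Prod.fst_sum, Finset.sum_apply]
      have h3 : (∑ k ∈ F, k : GG n).2 = ∑ k ∈ F, k.2 := Prod.snd_sum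
      have h0 : ∀ i, 0 ≤ (∑ k ∈ F, k : GG n).1 i := by
        intro i
        rw [h2]
        exact Finset.sum_nonneg fun k hk => (hcar k hk).1 i
      have h2pos : 0 < (∑ k ∈ F, k : GG n).2 := by
        rw [h3]
        exact Finset.sum_pos (fun k hk => hpos F hF k hk) hne
      refine eq_main hf hnd h2pos h0 ?_ ?_ ?_ (((hU F hF hne).2.2 J hJ).trans (hU F hF hne).1)
        (hJdis F hF hne J hJ) hJ₀ hD₀ z
      · intro i hi
        rw [h2]
        exact Finset.sum_eq_zero fun k hk => ((hFl F hF).1 k hk).zero i hi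
      · intro i
        have h4 : (∑ k ∈ F, k : GG n).1 i ≤ ∑ i, (∑ k ∈ F, k : GG n).1 i :=
          Finset.single_le_sum (f := fun i => (∑ k ∈ F, k : GG n).1 i) (fun i _ => h0 i)
            (Finset.mem_univ i)
        have h5 : ((∑ i, (∑ k ∈ F, k : GG n).1 i : ℤ) : ℚ) =
            -s₀ * ((∑ k ∈ F, k : GG n).2 : ℤ) := by
          rw [h3]
          simp only [h2]
          rw [Finset.sum_comm]
          push_cast
          rw [Finset.mul_sum]
          refine Finset.sum_congr rfl fun k hk => ?_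
          have h6 := ((hFl F hF).1 k hk).s0 k (hcar k hk)
          push_cast at h6
          exact h6
        have h6 : (((∑ k ∈ F, k : GG n).1 i : ℤ) : ℚ) ≤
            ((∑ i, (∑ k ∈ F, k : GG n).1 i : ℤ) : ℚ) := by exact_mod_cast h4
        have h7 : (0 : ℚ) < (((∑ k ∈ F, k : GG n).2 : ℤ) : ℚ) := by exact_mod_cast h2pos
        have h8 : (((∑ k ∈ F, k : GG n).1 i : ℤ) : ℚ) <
            (K : ℚ) * (((∑ k ∈ F, k : GG n).2 : ℤ) : ℚ) := by
          rw [h5] at h6
          nlinarith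
        exact_mod_cast h8
      · intro u hu
        rw [map_sum, h3]
        exact Finset.sum_le_sum fun k hk => (hcar k hk).2.2.1 u hu)
  -- the conclusion
  have h2 := regular_of_tw ((uX 0 1, 1) ::ₘ s) (s₀ := s₀) (fun w hw => by
    rcases Multiset.mem_cons.1 hw with rfl | hw
    · refine ⟨⟨0, 1, 1, rfl, ?_⟩, one_pos⟩
      intro h
      apply h1
      push_cast at h
      linarith
    · exact hs w hw) Z M (fun z hz => by
    rw [Multiset.map_cons, Multiset.prod_cons, Polynomial.coe_mul, mul_assoc, ← hP, ← hY]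
    exact hM z hz)
  rwa [hZ, map_augX_ZJx] at h2

end MPb07157
end
end

section

/-!
# Conflict-free deficits exist if there are no good sets
-/

noncomputable section

namespace MPb07157

open MvPolynomial Finset

variable {n : ℕ} {f : MvPolynomial (Fin n) ℂ} {D : Finset (Fin n)} {s₀ : ℚ}

private theorem mem_map_sub {P : Finset (Fin n)} {J : Finset {j // j ∈ P}} {j : Fin n} :
    j ∈ J.map (Function.Embedding.subtype _) ↔ ∃ k ∈ J, k.1 = j := by
  rw [Finset.mem_map]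
  rfl

private theorem dfV_iff {G : Finset (Fin n →₀ ℕ)} {P : Finset (Fin n)}
    (hne : ∀ j ∈ P, ∃ u ∈ G, u j ≠ 0) (J : Finset {j // j ∈ P}) :
    EX.DfV (elV G P) (elC G P) J ↔ Dfc G (J.map (Function.Embedding.subtype _)) := by
  have hset : elV G P '' {x | ∃ k ∈ J, elC G P k x ≠ 0} =
      onJ G (J.map (Function.Embedding.subtype _)) := by
    ext x
    constructor
    · rintro ⟨y, ⟨k, hk, hy⟩, rfl⟩
      rcases y with u | i
      · exact ⟨u.1, u.2, ⟨k.1, mem_map_sub.2 ⟨k, hk, rfl⟩, hy⟩, rfl⟩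
      · exact absurd rfl hy
    · rintro ⟨u, hu, ⟨j, hj, huj⟩, rfl⟩
      obtain ⟨k, hk, rfl⟩ := mem_map_sub.1 hj
      exact ⟨Sum.inl ⟨u, hu⟩, ⟨k, hk, huj⟩, rfl⟩
  constructor
  · rintro ⟨h1, h2, h3, h4⟩
    rw [hset] at h4
    refine ⟨?_, ?_, ?_⟩
    · obtain ⟨k, hk⟩ := h1
      exact ⟨k.1, mem_map_sub.2 ⟨k, hk, rfl⟩⟩
    · rw [disj01_iff]
      refine ⟨fun u hu i hi => ?_, fun u hu i hi j hj hij => ?_, fun j hj => ?_⟩
      · obtain ⟨k, hk, rfl⟩ := mem_map_sub.1 hi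
        exact h2 k hk (Sum.inl ⟨u, hu⟩)
      · obtain ⟨k, hk, rfl⟩ := mem_map_sub.1 hi
        obtain ⟨k', hk', rfl⟩ := mem_map_sub.1 hj
        by_contra hcon
        push Not at hcon
        exact hij (congrArg Subtype.val (h3 k hk k' hk' (Sum.inl ⟨u, hu⟩) hcon.1 hcon.2))
      · obtain ⟨k, hk, rfl⟩ := mem_map_sub.1 hj
        obtain ⟨u, hu, huk⟩ := hne k.1 k.2
        have h5 : u k.1 ≤ 1 := h2 k hk (Sum.inl ⟨u, hu⟩)
        exact ⟨u, hu, by omega⟩
    · rw [Finset.card_map]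
      exact h4
  · rintro ⟨h1, h2, h3⟩
    rw [disj01_iff] at h2
    rw [Finset.card_map, ← hset] at h3
    refine ⟨?_, fun k hk x => ?_, fun k hk k' hk' x hx hx' => ?_, h3⟩
    · obtain ⟨j, hj⟩ := h1
      obtain ⟨k, hk, -⟩ := mem_map_sub.1 hj
      exact ⟨k, hk⟩
    · rcases x with u | i
      · exact h2.1 u.1 u.2 k.1 (mem_map_sub.2 ⟨k, hk, rfl⟩)
      · exact Nat.zero_le 1
    · rcases x with u | i
      · by_contra hne'
        rcases h2.2.1 u.1 u.2 k.1 (mem_map_sub.2 ⟨k, hk, rfl⟩) k'.1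
          (mem_map_sub.2 ⟨k', hk', rfl⟩) (fun h => hne' (Subtype.ext h)) with h | h
        · exact hx h
        · exact hx' h
      · exact absurd rfl hx

private theorem exists_sub {P : Finset (Fin n)} {J : Finset (Fin n)} (h : J ⊆ P) :
    ∃ J' : Finset {j // j ∈ P}, J'.map (Function.Embedding.subtype _) = J :=
  ⟨J.subtype (· ∈ P), Finset.subtype_map_of_mem h⟩

private theorem minDfV_iff {G : Finset (Fin n →₀ ℕ)} {P : Finset (Fin n)}
    (hne : ∀ j ∈ P, ∃ u ∈ G, u j ≠ 0) (J : Finset {j // j ∈ P}) :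
    (EX.DfV (elV G P) (elC G P) J ∧ ∀ Y, Y ⊂ J → ¬ EX.DfV (elV G P) (elC G P) Y) ↔
      MinDfc G (J.map (Function.Embedding.subtype _)) := by
  unfold MinDfc
  rw [dfV_iff hne]
  constructor
  · rintro ⟨h1, h2⟩
    refine ⟨h1, fun J' hJ' h3 => ?_⟩
    have hP : J' ⊆ P := by
      intro j hj
      obtain ⟨k, -, rfl⟩ := mem_map_sub.1 (hJ'.subset hj)
      exact k.2
    obtain ⟨Y, rfl⟩ := exists_sub hP
    exact h2 Y (Finset.map_ssubset_map.1 hJ') ((dfV_iff hne Y).2 h3)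
  · rintro ⟨h1, h2⟩
    exact ⟨h1, fun Y hY h3 => h2 _ (Finset.map_ssubset_map.2 hY) ((dfV_iff hne Y).1 h3)⟩

/-- **Conflict-free deficits exist** in the faces that have no good sets. -/
theorem IsB.exists_confFree {k : GG n} (hk : IsB f D s₀ k)
    (hng : ∀ (ρ : Finset (Sf f)) (γ : Sf f → ℚ), ¬ GoodSet f s₀ k ρ γ) :
    ∃ J, ConfFree (Gk f k) (suppG k) J := by
  classical
  have hne : ∀ j ∈ suppG k, ∃ u ∈ Gk f k, u j ≠ 0 := fun j hj => hk.col_ne hj
  obtain ⟨J, h1, h2, h3⟩ := EX.star (elV (Gk f k) (suppG k))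
    (fun c => LinearMap.proj (R := ℚ) (φ := fun _ : Fin n => ℚ) c.1)
    (elC (Gk f k) (suppG k)) (fun c x => elC_eq _ _ c x) (oneP (suppG k)) hk.one_mem
    (fun c => by
      show oneP (suppG k) c.1 = 1
      unfold oneP
      rw [if_pos c.2])
    (fun ρ lin hρ => by
      by_contra hno
      obtain ⟨ρ₁, γ, hg⟩ := hk.good ρ lin hρ hno
      exact hng ρ₁ γ hg)
  refine ⟨J.map (Function.Embedding.subtype _), fun j hj => ?_, (minDfV_iff hne J).1 ⟨h1, h2⟩,
    fun J' hJ' hmin => ?_⟩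
  · obtain ⟨c, -, rfl⟩ := mem_map_sub.1 hj
    exact c.2
  · obtain ⟨Y, rfl⟩ := exists_sub hJ'
    have h4 := (minDfV_iff hne Y).2 hmin
    have h5 := h3 Y h4.1 h4.2
    have h6 := (disj01_iff.1 ((dfV_iff hne J).1 h1).2.1)
    have h7 := (disj01_iff.1 hmin.1.2.1)
    rw [disj01_iff]
    refine ⟨fun u hu i hi => ?_, fun u hu i hi j hj hij => ?_, fun j hj => ?_⟩
    · rcases Finset.mem_union.1 hi with hi | hi
      · exact h6.1 u hu i hi
      · exact h7.1 u hu i hi
    · rcases Finset.mem_union.1 hi with hi | hi <;> rcases Finset.mem_union.1 hj with hj | hj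
      · exact h6.2.1 u hu i hi j hj hij
      · obtain ⟨c, hc, rfl⟩ := mem_map_sub.1 hi
        obtain ⟨c', hc', rfl⟩ := mem_map_sub.1 hj
        by_contra hcon
        push Not at hcon
        exact hij (congrArg Subtype.val (h5 c hc c' hc' (Sum.inl ⟨u, hu⟩) hcon.1 hcon.2))
      · obtain ⟨c, hc, rfl⟩ := mem_map_sub.1 hi
        obtain ⟨c', hc', rfl⟩ := mem_map_sub.1 hj
        by_contra hcon
        push Not at hcon
        exact hij (congrArg Subtype.val (h5 c' hc' c hc (Sum.inl ⟨u, hu⟩) hcon.2 hcon.1).symm)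
      · exact h7.2.1 u hu i hi j hj hij
    · rcases Finset.mem_union.1 hj with hj | hj
      · exact h6.2.2 j hj
      · exact h7.2.2 j hj

end MPb07157
end
end

section

/-!
# The strong monodromy conjecture for very general polynomials in any number of variables
-/

noncomputable section

namespace MPb07157

open MvPolynomial Finset

variable {n : ℕ} {f : MvPolynomial (Fin n) ℂ}

/-- The parts of the zeta function are regular if there are no good sets. -/
theorem ZJm_regular_of_noGood (hf : f ≠ 0) (halg : AlgebraicIndependent ℚ (cf f)) {s₀ : ℚ}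
    (h1 : s₀ ≠ -1) {K : ℕ} (hK : -s₀ < K) {D : Finset (Fin n)}
    (hng : ∀ k, IsB f D s₀ k → ∀ (ρ : Finset (Sf f)) (γ : Sf f → ℚ), ¬ GoodSet f s₀ k ρ γ) :
    ZJm f K D ∈ regularAt s₀ := by
  classical
  have hnd : ∀ I ⊆ f.support, I.Nonempty → NondegAt f I := fun I hI hne =>
    nondegAt_of_algInd f halg I hI hne
  refine ZJm_regular hf hnd h1 hK
    (fun k => if h : IsB f D s₀ k then (h.exists_confFree (hng k h)).choose else ∅) fun k hk => ?_
  rw [dif_pos hk]
  exact (hk.exists_confFree (hng k hk)).choose_spec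

/-- **The strong monodromy conjecture (global motivic version) for all polynomials with
algebraically independent coefficients, in any number of variables.** -/
theorem smc_global (hf : f ≠ 0) (h0 : (0 : Fin n →₀ ℕ) ∉ f.support)
    (halg : AlgebraicIndependent ℚ (cf f)) (s₀ : ℚ) :
    IsPole (Zmot f) s₀ → IsBernsteinSatoRoot f s₀ := by
  intro hp
  by_cases h1 : s₀ = -1
  · subst h1
    exact (roots_of_form (f := f) (s₀ := -1) fun b hb => neg_one_root hf h0 b hb).1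
  by_contra hnr
  have hnd : ∀ a : Fin n → ℕ, NondegAt f (face f a (nuf f a)) := by
    intro a
    refine nondegAt_of_algInd f halg _ (Finset.filter_subset _ _) ?_
    obtain ⟨-, v, hv, hvN⟩ := isMinWt_nuf hf a
    exact ⟨v, Finset.mem_filter.2 ⟨hv, hvN⟩⟩
  obtain ⟨K, hK⟩ := exists_nat_gt (max (-s₀) 1)
  have hK1 : 1 ≤ K := by
    have : (1 : ℚ) < K := lt_of_le_of_lt (le_max_right _ _) hK
    exact_mod_cast this.le
  have hKs : -s₀ < K := lt_of_le_of_lt (le_max_left _ _) hK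
  apply hp
  rw [Zmot_eq, ZE_zero_eq hf hK1 hnd]
  exact Subalgebra.sum_mem _ fun J _ =>
    ZJm_regular_of_noGood hf halg h1 hKs fun k hk ρ γ hg => hnr (hg.root hf halg hk)

end MPb07157
end
end
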