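import Pool.Agent.Lib.MP_b07157_ag.PS.Lab1

/-!
# The labels of the flags
-/

noncomputable section

namespace MPb07157

open MvPolynomial Finset

variable {n : ℕ} {f : MvPolynomial (Fin n) ℂ} {D : Finset (Fin n)} {s₀ : ℚ}

/-- The labels, by recursion on the flag. -/
private inductive Lab2 (f : MvPolynomial (Fin n) ℂ) (Jl : GG n → Finset (Fin n)) :
    Finset (GG n) → Finset (Fin n) → Prop
  | top {F : Finset (GG n)} {t : GG n} (ht : t ∈ F) (h : ∀ k ∈ F, k ∈ car f t) : Lab2 f Jl F (Jl t)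
  | core {F : Finset (GG n)} {t : GG n} {J : Finset (Fin n)} (ht : t ∈ F) (h : ∀ k ∈ F, k ∈ car f t)
      (hJ : Lab2 f Jl (F.erase t) J) : Lab2 f Jl F (Core (Gk f t) J)

private theorem lab2_ne {Jl : GG n → Finset (Fin n)} {F : Finset (GG n)} {J : Finset (Fin n)}
    (h : Lab2 f Jl F J) : F.Nonempty := by
  cases h with
  | top ht _ => exact ⟨_, ht⟩
  | core ht _ _ => exact ⟨_, ht⟩

private theorem lab2_uniq {F : Finset (GG n)} (hF : F ∈ Fl f D s₀) {t t' : GG n} (ht : t ∈ F)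
    (h : ∀ k ∈ F, k ∈ car f t) (ht' : t' ∈ F) (h' : ∀ k ∈ F, k ∈ car f t') : t' = t :=
  IsB.eq_of_car_eq (hF.1 t' ht') (hF.1 t ht)
    (Set.Subset.antisymm (car_subset (h t' ht')) (car_subset (h' t ht)))

private theorem lab2_Gk {F : Finset (GG n)} (hF : F ∈ Fl f D s₀) {t : GG n} (ht : t ∈ F)
    (h : ∀ k ∈ F, k ∈ car f t) : Gk f (∑ k ∈ F, k) = Gk f t := by
  ext u
  rw [mem_Gk_sum hF]
  unfold Gk
  rw [mem_filter]
  exact ⟨fun h1 => ⟨h1.1, h1.2 t ht⟩, fun h1 => ⟨h1.1, fun k hk => (h k hk).2.2.2 u h1.1 h1.2⟩⟩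

private theorem lab2_supp {F : Finset (GG n)} (hF : F ∈ Fl f D s₀) {t : GG n} (ht : t ∈ F)
    (h : ∀ k ∈ F, k ∈ car f t) : suppG (∑ k ∈ F, k) = suppG t := by
  ext i
  unfold suppG
  rw [mem_filter, mem_filter]
  have e1 : (∑ k ∈ F, k).1 i = ∑ k ∈ F, k.1 i := by
    rw [Prod.fst_sum, Finset.sum_apply]
  rw [e1]
  have h0 : ∀ k ∈ F, 0 ≤ k.1 i := fun k hk => (hF.1 k hk).mem.1 i
  constructor
  · rintro ⟨h1, h2⟩
    refine ⟨h1, fun h3 => h2 ?_⟩
    exact Finset.sum_eq_zero fun k hk => (h k hk).2.1 i h3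
  · rintro ⟨h1, h2⟩
    refine ⟨h1, fun h3 => h2 ?_⟩
    exact (Finset.sum_eq_zero_iff_of_nonneg h0).1 h3 t ht

private theorem lab2_mem_core {G : Finset (Fin n →₀ ℕ)} {J : Finset (Fin n)} {j : Fin n} :
    j ∈ Core G J ↔ j ∈ J ∧ ∃ J' ⊆ J, MinDfc G J' ∧ j ∈ J' := by
  classical
  exact Finset.mem_filter

private theorem lab2_core {G : Finset (Fin n →₀ ℕ)} {J J' : Finset (Fin n)} (h : J' ⊆ J) (hJ : MinDfc G J') :
    J' ⊆ Core G J := by
  intro j hj
  exact lab2_mem_core.2 ⟨h hj, J', h, hJ, hj⟩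

private theorem lab2_A {Jl : GG n → Finset (Fin n)}
    (hJl : ∀ k, IsB f D s₀ k → ConfFree (Gk f k) (suppG k) (Jl k)) {F : Finset (GG n)} {J : Finset (Fin n)}
    (hL : Lab2 f Jl F J) : F ∈ Fl f D s₀ → ∀ t ∈ F, (∀ k ∈ F, k ∈ car f t) →
    J ⊆ suppG t ∧ ∃ J' ⊆ J, MinDfc (Gk f t) J' := by
  induction hL with
  | top ht h =>
    intro hF t ht' h'
    have e := lab2_uniq hF ht h ht' h'
    rw [e]
    have h1 := hJl _ (hF.1 _ ht)
    exact ⟨h1.1, _, Subset.refl _, h1.2.1⟩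
  | @core F₁ t₁ J₁ ht h hJ ih =>
    intro hF t ht' h'
    have e := lab2_uniq hF ht h ht' h'
    rw [e]
    have hF2 := Fl.subset hF (erase_subset t₁ F₁)
    obtain ⟨t2, ht2, h2⟩ := Fl.exists_top hF2 (lab2_ne hJ)
    obtain ⟨i1, J1, i2, i3⟩ := ih hF2 t2 ht2 h2
    have hc := h t2 (mem_of_mem_erase ht2)
    have hs := suppG_mono hc
    refine ⟨(Core_subset _ _).trans (i1.trans hs), ?_⟩
    have hd : Dfc (Gk f _) J1 := Dfc.mono (Gk_mono hc) i3.1 fun j hj => IsB.col_ne (hF.1 _ ht) (hs (i1 (i2 hj)))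
    obtain ⟨J2, hJ2, hJ3⟩ := hd.exists_min
    exact ⟨J2, lab2_core (hJ2.trans i2) hJ3, hJ3⟩

private theorem lab2_B {Jl : GG n → Finset (Fin n)}
    (hJl : ∀ k, IsB f D s₀ k → ConfFree (Gk f k) (suppG k) (Jl k)) (m : ℕ) : ∀ F : Finset (GG n), F.card ≤ m →
    F ∈ Fl f D s₀ → ∀ t ∈ F, (∀ k ∈ F, k ∈ car f t) →
    ∃ U, U ⊆ suppG t ∧ Disj01 (Gk f t) U ∧ ∀ J, Lab2 f Jl F J → J ⊆ U := by
  induction m with
  | zero =>
    intro F hm _ t ht _
    rw [Nat.le_zero, card_eq_zero] at hm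
    rw [hm] at ht
    exact absurd ht (notMem_empty _)
  | succ m ih =>
    intro F hm hF t ht h
    have hcf := hJl t (hF.1 t ht)
    by_cases hne : (F.erase t).Nonempty
    · have hF2 := Fl.subset hF (erase_subset t F)
      obtain ⟨t2, ht2, h2⟩ := Fl.exists_top hF2 hne
      have hm2 : (F.erase t).card ≤ m := by
        rw [card_erase_of_mem ht]
        omega
      obtain ⟨U, u1, u2, u3⟩ := ih (F.erase t) hm2 hF2 t2 ht2 h2
      have hc := h t2 (mem_of_mem_erase ht2)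
      have hs := suppG_mono hc
      have hG := Gk_mono hc
      refine ⟨Jl t ∪ Core (Gk f t) U, union_subset hcf.1 ((Core_subset _ _).trans (u1.trans hs)), ?_, ?_⟩
      · have d1 := disj01_iff.1 hcf.2.1.1.2.1
        have d2 := disj01_iff.1 u2
        have hcore : ∀ j ∈ Core (Gk f t) U, j ∈ U ∧ ∃ J' ⊆ U, MinDfc (Gk f t) J' ∧ j ∈ J' := by
          intro j hj
          exact lab2_mem_core.1 hj
        have hmix : ∀ u ∈ Gk f t, ∀ i ∈ Jl t, ∀ j ∈ Core (Gk f t) U, i ≠ j → u i = 0 ∨ u j = 0 := by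
          intro u hu i hi j hj hij
          obtain ⟨_, J', hJ1, hJ2, hJ3⟩ := hcore j hj
          have h3 := disj01_iff.1 (hcf.2.2 J' (hJ1.trans (u1.trans hs)) hJ2)
          exact h3.2.1 u hu i (mem_union_left _ hi) j (mem_union_right _ hJ3) hij
        rw [disj01_iff]
        refine ⟨?_, ?_, ?_⟩
        · intro u hu i hi
          rcases mem_union.1 hi with hi | hi
          · exact d1.1 u hu i hi
          · exact d2.1 u (hG hu) i (hcore i hi).1
        · intro u hu i hi j hj hij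
          rcases mem_union.1 hi with hi | hi
          · rcases mem_union.1 hj with hj | hj
            · exact d1.2.1 u hu i hi j hj hij
            · exact hmix u hu i hi j hj hij
          · rcases mem_union.1 hj with hj | hj
            · exact (hmix u hu j hj i hi (Ne.symm hij)).symm
            · exact d2.2.1 u (hG hu) i (hcore i hi).1 j (hcore j hj).1 hij
        · intro j hj
          rcases mem_union.1 hj with hj | hj
          · exact d1.2.2 j hj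
          · obtain ⟨_, J', hJ1, hJ2, hJ3⟩ := hcore j hj
            exact (disj01_iff.1 hJ2.1.2.1).2.2 j hJ3
      · intro J hJ
        cases hJ with
        | top ht' h' =>
          rw [lab2_uniq hF ht h ht' h']
          exact subset_union_left
        | core ht' h' hJ' =>
          have e := lab2_uniq hF ht h ht' h'
          rw [e] at hJ' ⊢
          exact (Core_mono _ (u3 _ hJ')).trans subset_union_right
    · refine ⟨Jl t, hcf.1, hcf.2.1.1.2.1, ?_⟩
      intro J hJ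
      cases hJ with
      | top ht' h' =>
        rw [lab2_uniq hF ht h ht' h']
      | core ht' h' hJ' =>
        rw [lab2_uniq hF ht h ht' h'] at hJ'
        exact absurd (lab2_ne hJ') hne

private theorem lab2_D {Jl : GG n → Finset (Fin n)} (m : ℕ) : ∀ F : Finset (GG n), F.card ≤ m →
    F ∈ Fl f D s₀ → ∀ F' ⊆ F, ∀ J', Lab2 f Jl F' J' → ∃ J, Lab2 f Jl F J ∧ J ⊆ J' := by
  induction m with
  | zero =>
    intro F hm _ F' hF' J' hJ'
    rw [Nat.le_zero, card_eq_zero] at hm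
    rw [hm, subset_empty] at hF'
    have := lab2_ne hJ'
    rw [hF'] at this
    exact absurd this not_nonempty_empty
  | succ m ih =>
    intro F hm hF F' hF' J' hJ'
    obtain ⟨t, ht, h⟩ := Fl.exists_top hF ((lab2_ne hJ').mono hF')
    have hF2 := Fl.subset hF (erase_subset t F)
    have hm2 : (F.erase t).card ≤ m := by
      rw [card_erase_of_mem ht]
      omega
    by_cases htF : t ∈ F'
    · have hFl' := Fl.subset hF hF'
      have h' : ∀ k ∈ F', k ∈ car f t := fun k hk => h k (hF' hk)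
      cases hJ' with
      | top ht1 h1 =>
        rw [lab2_uniq hFl' htF h' ht1 h1]
        exact ⟨Jl t, Lab2.top ht h, Subset.refl _⟩
      | core ht1 h1 hJ1 =>
        have e := lab2_uniq hFl' htF h' ht1 h1
        rw [e] at hJ1 ⊢
        obtain ⟨J, i1, i2⟩ := ih (F.erase t) hm2 hF2 (F'.erase t) (erase_subset_erase t hF') _ hJ1
        exact ⟨_, Lab2.core ht h i1, Core_mono _ i2⟩
    · obtain ⟨J, i1, i2⟩ := ih (F.erase t) hm2 hF2 F'
        (fun k hk => mem_erase.2 ⟨fun e => htF (e ▸ hk), hF' hk⟩) _ hJ'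
      exact ⟨_, Lab2.core ht h i1, (Core_subset _ _).trans i2⟩

/-- **The labels of the flags.** -/
theorem exists_labels (Jl : GG n → Finset (Fin n))
    (hJl : ∀ k, IsB f D s₀ k → ConfFree (Gk f k) (suppG k) (Jl k)) :
    ∃ 𝓢 : Finset (GG n) → Set (Finset (Fin n)), ∀ F ∈ Fl f D s₀, F.Nonempty →
      (𝓢 F).Nonempty ∧
      (∃ U, U ⊆ suppG (∑ k ∈ F, k) ∧ Disj01 (Gk f (∑ k ∈ F, k)) U ∧ ∀ J ∈ 𝓢 F, J ⊆ U) ∧
      (∀ J ∈ 𝓢 F, ∃ J₀ ⊆ J, Dfc (Gk f (∑ k ∈ F, k)) J₀) ∧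
      ∀ F' ⊆ F, F'.Nonempty → ∀ J' ∈ 𝓢 F', ∃ J ∈ 𝓢 F, J ⊆ J' := by
  refine ⟨fun F => {J | Lab2 f Jl F J}, fun F hF hne => ?_⟩
  obtain ⟨t, ht, h⟩ := Fl.exists_top hF hne
  refine ⟨⟨Jl t, Lab2.top ht h⟩, ?_, ?_, ?_⟩
  · obtain ⟨U, u1, u2, u3⟩ := lab2_B hJl F.card F le_rfl hF t ht h
    rw [lab2_Gk hF ht h, lab2_supp hF ht h]
    exact ⟨U, u1, u2, u3⟩
  · intro J hJ
    obtain ⟨_, J', i2, i3⟩ := lab2_A hJl hJ hF t ht h
    rw [lab2_Gk hF ht h]
    exact ⟨J', i2, i3.1⟩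
  · intro F' hF' _ J' hJ'
    exact lab2_D F.card F le_rfl hF F' hF' J' hJ'

end MPb07157
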