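import Pool.Agent.Lib.MP_b07157_ag.PS.MainL
import Pool.Agent.Lib.MP_b07157_ag.NewtAllLoc

/-!
# The strong monodromy conjecture for very general polynomials: local version, when the noncompact
facets are compactly thick
-/

noncomputable section

namespace MPb07157

open MvPolynomial Finset

variable {n : ℕ} {f : MvPolynomial (Fin n) ℂ} {D : Finset (Fin n)} {s₀ : ℚ}

/-- The slacks. -/
def slk (f : MvPolynomial (Fin n) ℂ) : Fin n ⊕ {u // u ∈ f.support} → GG n → ℤ
  | .inl i, z => z.1 i
  | .inr u, z => dotH u.1 z - z.2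

theorem slk_comb (t : Fin n ⊕ {u // u ∈ f.support}) (a b : ℤ) (x y : GG n) :
    slk f t (a • x - b • y) = a * slk f t x - b * slk f t y := by
  rcases t with i | u
  · simp [slk]
  · simp only [slk, map_sub, map_zsmul, smul_eq_mul, Prod.snd_sub, Prod.smul_snd]
    ring

theorem mem_car_iff_slk {k z : GG n} :
    z ∈ car f k ↔ (∀ t, 0 ≤ slk f t z) ∧ ∀ t, slk f t k = 0 → slk f t z = 0 := by
  constructor
  · rintro ⟨h1, h2, h3, h4⟩
    refine ⟨?_, ?_⟩
    · rintro (i | u)
      · exact h1 i
      · have := h3 u.1 u.2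
        simp only [slk]
        omega
    · rintro (i | u) h
      · exact h2 i h
      · have := h4 u.1 u.2 (by simp only [slk] at h; omega)
        simp only [slk]
        omega
  · rintro ⟨h1, h2⟩
    refine ⟨fun i => h1 (.inl i), fun i hi => h2 (.inl i) hi, fun u hu => ?_, fun u hu h => ?_⟩
    · have := h1 (.inr ⟨u, hu⟩)
      simp only [slk] at this
      omega
    · have := h2 (.inr ⟨u, hu⟩) (by simp only [slk]; omega)
      simp only [slk] at this
      omega

/-- A chosen vector whose cone contributes the candidate pole `s₀` gives a facet that contributes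
this candidate pole. -/
theorem IsB.exists_facet (hf : f ≠ 0) {k : GG n} (hk : IsB f D s₀ k) :
    ∃ (w : Fin n → ℕ) (N : ℕ), IsFacetWt f w N ∧ (∀ i, k.1 i = 0 → w i = 0) ∧
      ((∑ j, w j : ℕ) : ℚ) = -s₀ * N := by
  classical
  -- the face of `k` is not empty
  obtain ⟨u₀, hu₀, hu₀k⟩ : ∃ u ∈ f.support, dotH u k = k.2 := by
    by_contra hcon
    push Not at hcon
    have h1 : ((0, -1) : GG n) ∈ car f k := by
      have hd : ∀ u, dotH u ((0, -1) : GG n) = 0 := fun u => by rw [dotH_apply]; simp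
      refine ⟨fun i => le_rfl, fun i _ => rfl, fun u hu => ?_, fun u hu h => absurd h (hcon u hu)⟩
      rw [hd]
      norm_num
    have h2 := hk.s0 _ h1
    have h3 := hk.s0 _ hk.mem
    have h4 : s₀ = 0 := by
      simp at h2
      exact h2.symm
    rw [h4] at h3
    have h5 : ∑ i, k.1 i = 0 := by
      have h6 : ((∑ i, k.1 i : ℤ) : ℚ) = 0 := by rw [h3]; simp
      exact_mod_cast h6
    have h7 := (Finset.sum_eq_zero_iff_of_nonneg fun i _ => hk.mem.1 i).1 h5
    obtain ⟨v, hv⟩ := MvPolynomial.support_nonempty.2 hf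
    have h8 := hk.mem.2.2.1 v hv
    rw [dotH_apply, Finset.sum_eq_zero fun i hi => by rw [h7 i hi, zero_mul]] at h8
    exact absurd hk.pos (not_lt.2 h8)
  have hpos : ∀ z ∈ car f k, z ≠ 0 → 0 < z.2 := by
    intro z hz hz0
    have h1 : dotH u₀ z = z.2 := hz.2.2.2 u₀ hu₀ hu₀k
    have h2 : 0 ≤ dotH u₀ z := by
      rw [dotH_apply]
      exact Finset.sum_nonneg fun j _ => mul_nonneg (hz.1 j) (by positivity)
    rw [h1] at h2
    refine lt_of_le_of_ne h2 fun h3 => hz0 ?_
    have h4 := hk.s0 z hz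
    rw [← h3] at h4
    have h5 : ∑ i, z.1 i = 0 := by
      have h6 : ((∑ i, z.1 i : ℤ) : ℚ) = 0 := by rw [h4]; simp
      exact_mod_cast h6
    have h7 := (Finset.sum_eq_zero_iff_of_nonneg fun i _ => hz.1 i).1 h5
    refine Prod.ext (funext fun i => h7 i (Finset.mem_univ _)) h3.symm
  -- a vector with the least number of nonzero slacks
  let cnt : GG n → ℕ := fun z => (Finset.univ.filter fun t => slk f t z ≠ 0).card
  have hex : ∃ m, ∃ z ∈ car f k, z ≠ 0 ∧ cnt z = m :=
    ⟨_, k, hk.mem, fun h => by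
      have := hk.pos
      rw [h] at this
      exact lt_irrefl _ this, rfl⟩
  obtain ⟨z, hz, hz0, hzm⟩ := Nat.find_spec hex
  have hmin : ∀ z' ∈ car f k, z' ≠ 0 → cnt z ≤ cnt z' := by
    intro z' h1 h2
    rw [hzm]
    exact Nat.find_min' hex ⟨z', h1, h2, rfl⟩
  have hz2 : 0 < z.2 := hpos z hz hz0
  have hzs := mem_car_iff_slk.1 hz
  have hw : ∀ j, ((z.1 j).toNat : ℤ) = z.1 j := fun j => Int.toNat_of_nonneg (hz.1 j)
  have hwt : ∀ v, (wt (fun j => (z.1 j).toNat) v : ℤ) = dotH v z := by
    intro v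
    rw [dotH_apply]
    unfold wt
    push_cast
    exact Finset.sum_congr rfl fun j _ => by rw [← hw j]; simp
  have hN : ((z.2.toNat : ℕ) : ℤ) = z.2 := Int.toNat_of_nonneg hz2.le
  refine ⟨fun j => (z.1 j).toNat, z.2.toNat, ⟨⟨fun v hv => ?_, u₀, hu₀, ?_⟩, by omega, ?_⟩,
    fun i hi => ?_, ?_⟩
  · have := hz.2.2.1 v hv
    have := hwt v
    omega
  · have := hz.2.2.2 u₀ hu₀ hu₀k
    have := hwt u₀
    omega
  · intro y hy0 hyv
    by_contra hy
    have hyd : ∀ v : Fin n →₀ ℕ, dotH v ((y, 0) : GG n) = ∑ j, y j * (v j : ℤ) := fun v => rfl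
    -- a slack that vanishes at `z` vanishes at `y`
    have hsy : ∀ t, slk f t z = 0 → slk f t ((y, 0) : GG n) = 0 := by
      rintro (i | u) h
      · simp only [slk] at h ⊢
        refine hy0 i ?_
        change (z.1 i).toNat = 0
        rw [h]
        rfl
      · simp only [slk] at h ⊢
        rw [hyd, hyv u.1 (Finset.mem_filter.2 ⟨u.2, ?_⟩)]
        · simp
        · have := hwt u.1
          omega
    -- the sum of the entries of `y` is zero
    have hsum : ∑ j, y j = 0 := by
      obtain ⟨M, hM⟩ : ∃ M : ℤ, ∀ t, |slk f t ((y, 0) : GG n)| ≤ M := by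
        refine ⟨∑ t, |slk f t ((y, 0) : GG n)|, fun t => ?_⟩
        exact Finset.single_le_sum (f := fun t => |slk f t ((y, 0) : GG n)|)
          (fun i _ => abs_nonneg _) (Finset.mem_univ t)
      have h1 : M • z - (-1 : ℤ) • ((y, 0) : GG n) ∈ car f k := by
        rw [mem_car_iff_slk]
        refine ⟨fun t => ?_, fun t ht => ?_⟩
        · rw [slk_comb]
          have h2 := hM t
          have h3 := abs_le.1 h2
          rcases eq_or_lt_of_le (hzs.1 t) with h4 | h4
          · rw [← h4, hsy t h4.symm]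
            simp
          · have h5 : 0 ≤ M := le_trans (abs_nonneg _) h2
            nlinarith
        · rw [slk_comb, hzs.2 t ht, hsy t (hzs.2 t ht)]
          simp
      have h2 := hk.s0 _ h1
      have h3 := hk.s0 _ hz
      have h4 : ∑ i, (M • z - (-1 : ℤ) • ((y, 0) : GG n)).1 i = M * ∑ i, z.1 i + ∑ i, y i := by
        rw [Finset.mul_sum, ← Finset.sum_add_distrib]
        refine Finset.sum_congr rfl fun i _ => ?_
        simp
      rw [h4] at h2
      have h5 : (M • z - (-1 : ℤ) • ((y, 0) : GG n)).2 = M * z.2 := by simp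
      rw [h5] at h2
      push_cast at h2 h3
      have h6 : ((∑ i, y i : ℤ) : ℚ) = 0 := by
        push_cast
        have h7 : (M : ℚ) * ∑ i, (z.1 i : ℚ) = M * (-s₀ * z.2) := by rw [h3]
        linarith
      exact_mod_cast h6
    -- a positive slack of `y`
    obtain ⟨i₀, hi₀⟩ : ∃ i, 0 < y i := by
      by_contra hcon
      push Not at hcon
      have h1 := (Finset.sum_eq_zero_iff_of_nonpos fun i _ => hcon i).1 hsum
      exact hy (funext fun i => h1 i (Finset.mem_univ _))
    have hzpos : ∀ t, 0 < slk f t ((y, 0) : GG n) → 0 < slk f t z := by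
      intro t ht
      refine lt_of_le_of_ne (hzs.1 t) fun h => ?_
      rw [hsy t h.symm] at ht
      exact lt_irrefl _ ht
    obtain ⟨t₀, ht₀, hmax⟩ := Finset.exists_max_image
      (Finset.univ.filter fun t => 0 < slk f t ((y, 0) : GG n))
      (fun t => (slk f t ((y, 0) : GG n) : ℚ) / (slk f t z : ℚ))
      ⟨.inl i₀, Finset.mem_filter.2 ⟨Finset.mem_univ _, hi₀⟩⟩
    have ha : 0 < slk f t₀ ((y, 0) : GG n) := (Finset.mem_filter.1 ht₀).2
    have hb : 0 < slk f t₀ z := hzpos t₀ ha
    set a := slk f t₀ ((y, 0) : GG n) with haa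
    set b := slk f t₀ z with hbb
    have hmem : a • z - b • ((y, 0) : GG n) ∈ car f k := by
      rw [mem_car_iff_slk]
      refine ⟨fun t => ?_, fun t ht => ?_⟩
      · rw [slk_comb]
        by_cases h1 : 0 < slk f t ((y, 0) : GG n)
        · have h2 := hmax t (Finset.mem_filter.2 ⟨Finset.mem_univ _, h1⟩)
          have h3 := hzpos t h1
          have h4 : (0 : ℚ) < (slk f t z : ℚ) := by exact_mod_cast h3
          have h5 : (0 : ℚ) < (b : ℚ) := by exact_mod_cast hb
          have h6 : (slk f t ((y, 0) : GG n) : ℚ) / (slk f t z : ℚ) ≤ (a : ℚ) / (b : ℚ) := h2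
          rw [div_le_div_iff₀ h4 h5] at h6
          have h7 : slk f t ((y, 0) : GG n) * b ≤ a * slk f t z := by exact_mod_cast h6
          linarith
        · have h2 : 0 ≤ a * slk f t z := mul_nonneg ha.le (hzs.1 t)
          have h3 : b * slk f t ((y, 0) : GG n) ≤ 0 :=
            mul_nonpos_of_nonneg_of_nonpos hb.le (not_lt.1 h1)
          linarith
      · rw [slk_comb, hzs.2 t ht, hsy t (hzs.2 t ht)]
        simp
    have hne : a • z - b • ((y, 0) : GG n) ≠ 0 := by
      intro h
      have h1 := congrArg Prod.snd h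
      simp only [Prod.snd_sub, Prod.smul_snd, smul_eq_mul, mul_zero, sub_zero, Prod.snd_zero] at h1
      have := mul_pos ha hz2
      omega
    have h1 := hmin _ hmem hne
    have h2 : cnt (a • z - b • ((y, 0) : GG n)) < cnt z := by
      refine Finset.card_lt_card ?_
      rw [Finset.ssubset_iff_of_subset]
      · refine ⟨t₀, Finset.mem_filter.2 ⟨Finset.mem_univ _, hb.ne'⟩, fun h => ?_⟩
        have h3 := (Finset.mem_filter.1 h).2
        rw [slk_comb, ← haa, ← hbb] at h3
        exact h3 (by ring)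
      · intro t ht
        refine Finset.mem_filter.2 ⟨Finset.mem_univ _, fun h => ?_⟩
        refine (Finset.mem_filter.1 ht).2 ?_
        rw [slk_comb, h, hsy t h]
        simp
    omega
  · have := hz.2.1 i hi
    simp only [this]
    rfl
  · have h1 := hk.s0 z hz
    have h2 : ((∑ j, (z.1 j).toNat : ℕ) : ℤ) = ∑ j, z.1 j := by
      push_cast
      exact Finset.sum_congr rfl fun j _ => by rw [← hw j]; simp
    have h3 : ((∑ j, (z.1 j).toNat : ℕ) : ℚ) = ((∑ j, z.1 j : ℤ) : ℚ) := by
      rw [← h2]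
      push_cast
      rfl
    rw [h3, h1]
    have h4 : ((z.2.toNat : ℕ) : ℚ) = (z.2 : ℚ) := by exact_mod_cast hN
    rw [h4]

/-- **The strong monodromy conjecture (local motivic version) for all polynomials with
algebraically independent coefficients whose noncompact facets are compactly thick**, in any number
of variables. There is no condition on the compact facets. -/
theorem smc_local_nc (hf : f ≠ 0) (h0 : (0 : Fin n →₀ ℕ) ∉ f.support)
    (halg : AlgebraicIndependent ℚ (cf f))
    (hnc : ∀ w N, IsFacetWt f w N → (∃ j, w j = 0) → ∑ j, w j ≠ N → ThickC f w N) (s₀ : ℚ) :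
    IsPole (Zmot0 f) s₀ → IsLocalBernsteinSatoRoot f s₀ := by
  intro hp
  by_cases h1 : s₀ = -1
  · subst h1
    exact (roots_of_form (f := f) (s₀ := -1) fun b hb => neg_one_root hf h0 b hb).2
  by_contra hnr
  have hnd : ∀ a : Fin n → ℕ, NondegAt f (face f a (nuf f a)) := by
    intro a
    refine nondegAt_of_algInd f halg _ (Finset.filter_subset _ _) ?_
    obtain ⟨-, v, hv, hvN⟩ := isMinWt_nuf hf a
    exact ⟨v, Finset.mem_filter.2 ⟨hv, hvN⟩⟩
  obtain ⟨K, hK⟩ := exists_nat_gt (max (-s₀) 1)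
  have hK1 : 1 ≤ K := by
    have : (1 : ℚ) < K := lt_of_le_of_lt (le_max_right _ _) hK
    exact_mod_cast this.le
  have hKs : -s₀ < K := lt_of_le_of_lt (le_max_left _ _) hK
  apply hp
  rw [Zmot0_eq, ZE_one_eq hf hK1 hnd]
  refine ZJm_regular_of_noGood hf halg h1 hKs fun k hk ρ γ hg => hnr ?_
  by_cases hkp : ∀ j, 0 < k.1 j
  · exact hg.root_local hf halg hk hkp
  · push Not at hkp
    obtain ⟨j, hj⟩ := hkp
    have hj0 : k.1 j = 0 := le_antisymm hj (hk.mem.1 j)
    obtain ⟨w, N, hfac, hw0, hs⟩ := hk.exists_facet hf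
    refine (ThickC.root hf halg hfac.2.1 hfac.1.1 (hnc w N hfac ⟨j, hw0 j hj0⟩ ?_) hs).2
    intro h2
    rw [h2] at hs
    apply h1
    have h3 : (0 : ℚ) < N := by exact_mod_cast hfac.2.1
    have h4 : (N : ℚ) * (1 + s₀) = 0 := by linarith
    rcases mul_eq_zero.1 h4 with h5 | h5
    · exact absurd h5 h3.ne'
    · linarith

end MPb07157
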