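import Pool.Agent.Lib.MP_b07157_ag.PS.EqCap
import Pool.Agent.Lib.MP_b07157_ag.PS.TwZ

/-!
# The functional equation of the zeta function, with deficits that depend on the weight
-/

noncomputable section

namespace MPb07157

open MvPolynomial Finset

variable {n : ℕ} {f : MvPolynomial (Fin n) ℂ}

/-- Every positive weight for which all columns in `J` attain the minimum has a deficit. -/
def LFE (G : Finset (Fin n →₀ ℕ)) (P J : Finset (Fin n)) : Prop :=
  ∀ (b : Fin n → ℤ) (m : ℤ), (∀ i, i ∉ P → 1 ≤ b i) →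
    (∀ u ∈ G, (∃ j ∈ J, u j ≠ 0) → m ≤ ∑ i, b i * (u i : ℤ)) →
    (∀ j ∈ J, ∃ u ∈ G, u j = 1 ∧ ∑ i, b i * (u i : ℤ) = m) →
    ∃ J₀ ⊆ J, J₀.Nonempty ∧
      Module.finrank ℚ (Submodule.span ℚ {x : Fin n → ℚ | ∃ u ∈ G, (∃ j ∈ J₀, u j ≠ 0) ∧
        ∑ i, b i * (u i : ℤ) = m ∧ x = fun i => (u i : ℚ)}) + 1 ≤ 2 * J₀.card

theorem LFE.nonempty {G : Finset (Fin n →₀ ℕ)} {P J : Finset (Fin n)} (h : LFE G P J) :
    J.Nonempty := by
  rcases J.eq_empty_or_nonempty with rfl | hJ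
  · obtain ⟨J₀, h1, h2, -⟩ := h (fun _ => 1) 0 (fun _ _ => le_rfl)
      (fun u _ ⟨j, hj, _⟩ => absurd hj (Finset.notMem_empty j))
      (fun j hj => absurd hj (Finset.notMem_empty j))
    exact absurd (Finset.Nonempty.mono h1 h2) Finset.not_nonempty_empty
  · exact hJ

private lemma eql_ev_gt (K : ℤ) : ∀ᶠ l : ℕ in Filter.atTop, K < (l : ℤ) :=
  tendsto_natCast_atTop_atTop.eventually_gt_atTop K

/-- The part of the dot product off `J`. -/
private def eql_rst (J : Finset (Fin n)) (c : Fin n → ℤ) (u : Fin n →₀ ℕ) : ℤ :=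
  ∑ i ∈ Jᶜ, c i * (u i : ℤ)

private lemma eql_rst_add (J : Finset (Fin n)) (c d : Fin n → ℤ) (l : ℕ) (u : Fin n →₀ ℕ) :
    eql_rst J (fun i => c i + l * d i) u = eql_rst J c u + l * eql_rst J d u := by
  unfold eql_rst
  rw [Finset.mul_sum, ← Finset.sum_add_distrib]
  exact Finset.sum_congr rfl fun i _ => by ring

private lemma eql_rst_congr (J : Finset (Fin n)) {c d : Fin n → ℤ} (h : ∀ i ∉ J, c i = d i)
    (u : Fin n →₀ ℕ) : eql_rst J c u = eql_rst J d u := by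
  unfold eql_rst
  refine Finset.sum_congr rfl fun i hi => ?_
  rw [h i (Finset.mem_compl.1 hi)]

private lemma eql_dot_split (J : Finset (Fin n)) (c : Fin n → ℤ) (u : Fin n →₀ ℕ) :
    ∑ i, c i * (u i : ℤ) = ∑ i ∈ J, c i * (u i : ℤ) + eql_rst J c u :=
  (Finset.sum_add_sum_compl J _).symm

private lemma eql_sum_J_of_P {J : Finset (Fin n)} (c : Fin n → ℤ) {u : Fin n →₀ ℕ} {j : Fin n}
    (hj : j ∈ J) (h1 : u j = 1) (h2 : ∀ i ∈ J, i ≠ j → u i = 0) :
    ∑ i ∈ J, c i * (u i : ℤ) = c j := by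
  rw [Finset.sum_eq_single_of_mem j hj]
  · rw [h1]; simp
  · intro i hi hij
    rw [h2 i hi hij]; simp

open Classical in
theorem eq_tail_loc {q : GG n} (hq0 : ∀ i, 0 ≤ q.1 i)
    (hqm : ∀ u ∈ f.support, q.2 ≤ dotH u q) {J : Finset (Fin n)} (hJ : J ⊆ suppG q)
    (hdis : Disj01 (Gk f q) J)
    (hncz : ∀ (b : Fin n → ℕ) (m : ℕ), (∀ i, 1 ≤ b i) →
      (∀ u ∈ Gk f q, (∃ j ∈ J, u j ≠ 0) → m ≤ wt b u) →
      (∀ j ∈ J, ∃ u ∈ Gk f q, u j = 1 ∧ wt b u = m) →
      (∀ j ∈ J, (Pjm f J b m j).Nonempty ∧ ∀ u ∈ Pjm f J b m j, u ∈ Gk f q ∧ u j = 1) →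
      ∀ x : Fin n → ℂ, (∀ i, x i ≠ 0) →
        ∃ j ∈ J, eval x (pderiv j (inForm f (Pjm f J b m j))) ≠ 0)
    (z : GG n) :
    ∃ l₀ : ℕ, ∀ l ≥ l₀, (∀ i ∉ J, 1 ≤ (z + l • q).1 i) → ∀ (a : Fin n → ℕ) (m : ℕ),
      (∀ i ∉ J, (a i : ℤ) = (z + l • q).1 i) → (m : ℤ) = (z + l • q).2 →
      ∃ α : Fin n → ℕ, (∀ j ∈ J, α j < m) ∧
        (∀ j ∈ J, ∃ u ∈ f.support, u j = 1 ∧ (∀ i ∈ J, i ≠ j → u i = 0) ∧
          ∑ i ∈ Jᶜ, a i * u i = α j) ∧
        (∀ u ∈ f.support, (∃ j ∈ J, u j ≠ 0) →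
          m < wt (fun i => if i ∈ J then m - α i else a i) u ∨
            ∃ j ∈ J, u ∈ Pjm f J (fun i => if i ∈ J then m - α i else a i) m j) ∧
        (∀ x : Fin n → ℂ, (∀ i, x i ≠ 0) →
          ∃ j ∈ J, eval x (pderiv j (inForm f
            (Pjm f J (fun i => if i ∈ J then m - α i else a i) m j))) ≠ 0) := by
  -- elements of `Gk` with `u j = 1` are zero on the rest of `J`
  have hG1 : ∀ u ∈ Gk f q, ∀ j ∈ J, u j = 1 → ∀ i ∈ J, i ≠ j → u i = 0 := by
    intro u hu j hj h1 i hi hij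
    have h2 := hdis.1 u hu
    have h3 : u i + u j ≤ ∑ k ∈ J, u k := by
      rw [← Finset.sum_pair hij]
      refine Finset.sum_le_sum_of_subset ?_
      intro k hk
      rcases Finset.mem_insert.1 hk with h | h
      · rw [h]; exact hi
      · rw [Finset.mem_singleton.1 h]; exact hj
    omega
  have hw : ∀ j ∈ J, ∃ w ∈ (Gk f q).filter (fun u => u j = 1),
      ∀ u ∈ (Gk f q).filter (fun u => u j = 1), eql_rst J z.1 w ≤ eql_rst J z.1 u := by
    intro j hj
    obtain ⟨u, hu, hu1⟩ := hdis.2 j hj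
    exact Finset.exists_min_image _ _ ⟨u, Finset.mem_filter.2 ⟨hu, hu1⟩⟩
  choose! w hw1 hw2 using hw
  set β : Fin n → ℤ := fun j => eql_rst J z.1 (w j) with hβ
  -- dot product with `q`
  have hdq : ∀ u, dotH u q = ∑ i ∈ J, q.1 i * (u i : ℤ) + eql_rst J q.1 u := by
    intro u
    rw [dotH_apply]
    exact eql_dot_split J q.1 u
  have hqJ : ∀ j ∈ J, 0 < q.1 j := by
    intro j hj
    have h1 := Finset.mem_filter.1 (hJ hj)
    exact lt_of_le_of_ne (hq0 j) (Ne.symm h1.2)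
  -- the three eventual bounds
  have e1 : ∀ᶠ l : ℕ in Filter.atTop, ∀ j ∈ J, ∀ u ∈ f.support, β j - eql_rst J z.1 u < (l : ℤ) := by
    refine (Finset.eventually_all _).2 fun j _ => (Finset.eventually_all _).2 fun u _ => eql_ev_gt _
  have e2 : ∀ᶠ l : ℕ in Filter.atTop, ∀ j ∈ J, β j - z.2 < (l : ℤ) :=
    (Finset.eventually_all _).2 fun j _ => eql_ev_gt _
  have e3 : ∀ᶠ l : ℕ in Filter.atTop, ∀ u ∈ f.support,
      z.2 - (∑ i ∈ J, (z.2 - β i) * (u i : ℤ) + eql_rst J z.1 u) < (l : ℤ) :=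
    (Finset.eventually_all _).2 fun u _ => eql_ev_gt _
  obtain ⟨l₀, hl₀⟩ := Filter.eventually_atTop.1 (e1.and (e2.and e3))
  refine ⟨l₀, fun l hl hz1 a m ha hm => ?_⟩
  obtain ⟨h1, h2, h3⟩ := hl₀ l hl
  have hm' : (m : ℤ) = z.2 + l * q.2 := by
    rw [hm]
    simp
  have ha' : ∀ i ∉ J, (a i : ℤ) = z.1 i + l * q.1 i := by
    intro i hi
    rw [ha i hi]
    simp
  have hS : ∀ u : Fin n →₀ ℕ, ((∑ i ∈ Jᶜ, a i * u i : ℕ) : ℤ) = eql_rst J z.1 u + l * eql_rst J q.1 u := by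
    intro u
    rw [← eql_rst_add, ← eql_rst_congr J ha']
    unfold eql_rst
    push_cast
    rfl
  set α : Fin n → ℕ := fun j => (β j + l * (q.2 - q.1 j)).toNat with hα
  have hwG : ∀ j ∈ J, w j ∈ Gk f q ∧ w j j = 1 := fun j hj => by
    have := Finset.mem_filter.1 (hw1 j hj)
    exact this
  have hwsupp : ∀ j ∈ J, w j ∈ f.support := fun j hj => (Finset.mem_filter.1 (hwG j hj).1).1
  have hrq : ∀ u : Fin n →₀ ℕ, ∀ j ∈ J, u j = 1 → (∀ i ∈ J, i ≠ j → u i = 0) →
      dotH u q = q.1 j + eql_rst J q.1 u := by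
    intro u j hj h4 h5
    rw [hdq u, eql_sum_J_of_P q.1 hj h4 h5]
  have hwS : ∀ j ∈ J, ((∑ i ∈ Jᶜ, a i * w j i : ℕ) : ℤ) = β j + l * (q.2 - q.1 j) := by
    intro j hj
    have h4 := hrq (w j) j hj (hwG j hj).2 (hG1 _ (hwG j hj).1 j hj (hwG j hj).2)
    have h5 : dotH (w j) q = q.2 := (Finset.mem_filter.1 (hwG j hj).1).2
    rw [hS]
    have h6 : eql_rst J q.1 (w j) = q.2 - q.1 j := by linarith
    rw [h6]
  have hαj : ∀ j ∈ J, (α j : ℤ) = β j + l * (q.2 - q.1 j) := by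
    intro j hj
    rw [hα]
    simp only
    rw [Int.toNat_of_nonneg]
    rw [← hwS j hj]
    exact Int.natCast_nonneg _
  have hαm : ∀ j ∈ J, α j < m := by
    intro j hj
    have h4 := hqJ j hj
    have h5 := h2 j hj
    have h6 : (l : ℤ) ≤ l * q.1 j := by nlinarith
    have h7 : (α j : ℤ) < m := by
      rw [hαj j hj, hm']
      linarith
    exact_mod_cast h7
  -- the weight
  have hwt : ∀ u : Fin n →₀ ℕ, (wt (fun i => if i ∈ J then m - α i else a i) u : ℤ) =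
      ∑ i ∈ J, ((m : ℤ) - α i) * (u i : ℤ) + (eql_rst J z.1 u + l * eql_rst J q.1 u) := by
    intro u
    unfold wt
    rw [← Finset.sum_add_sum_compl J, Nat.cast_add]
    congr 1
    · push_cast
      refine Finset.sum_congr rfl fun i hi => ?_
      rw [if_pos hi, Nat.cast_sub (hαm i hi).le]
    · rw [← hS u]
      push_cast
      refine Finset.sum_congr rfl fun i hi => ?_
      rw [if_neg (Finset.mem_compl.1 hi)]
  have hwtP : ∀ u ∈ f.support, ∀ j ∈ J, u j = 1 → (∀ i ∈ J, i ≠ j → u i = 0) →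
      m ≤ wt (fun i => if i ∈ J then m - α i else a i) u ∧
      (wt (fun i => if i ∈ J then m - α i else a i) u = m → u ∈ Gk f q) := by
    intro u hu j hj h4 h5
    have h6 := hwt u
    rw [eql_sum_J_of_P (fun i => (m : ℤ) - α i) hj h4 h5, hαj j hj] at h6
    have h7 := hrq u j hj h4 h5
    have h8 := hqm u hu
    by_cases hG : dotH u q = q.2
    · have hGk : u ∈ Gk f q := Finset.mem_filter.2 ⟨hu, hG⟩
      refine ⟨?_, fun _ => hGk⟩
      have h9 := hw2 j hj u (Finset.mem_filter.2 ⟨hGk, h4⟩)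
      have h10 : eql_rst J q.1 u = q.2 - q.1 j := by linarith
      rw [h10] at h6
      have : (m : ℤ) ≤ (wt (fun i => if i ∈ J then m - α i else a i) u : ℤ) := by
        rw [h6]
        simp only [hβ]
        linarith
      exact_mod_cast this
    · have h9 : q.2 + 1 ≤ dotH u q := by
        rcases lt_or_eq_of_le h8 with h | h
        · exact h
        · exact absurd h.symm hG
      have h10 := h1 j hj u hu
      have h11 : (m : ℤ) < (wt (fun i => if i ∈ J then m - α i else a i) u : ℤ) := by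
        rw [h6]
        have h12 : eql_rst J q.1 u = dotH u q - q.1 j := by linarith
        rw [h12]
        have h13 : (l : ℤ) * 1 ≤ l * (dotH u q - q.2) :=
          mul_le_mul_of_nonneg_left (by linarith) (Int.natCast_nonneg _)
        nlinarith [h13, h10]
      have h14 : m < wt (fun i => if i ∈ J then m - α i else a i) u := by exact_mod_cast h11
      exact ⟨h14.le, fun h => absurd h h14.ne'⟩
  refine ⟨α, hαm, ?_, ?_, ?_⟩
  · intro j hj
    refine ⟨w j, hwsupp j hj, (hwG j hj).2, hG1 _ (hwG j hj).1 j hj (hwG j hj).2, ?_⟩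
    have h4 := hwS j hj
    rw [← hαj j hj] at h4
    exact_mod_cast h4
  · intro u hu hne
    by_cases hP : ∃ j ∈ J, u j = 1 ∧ ∀ i ∈ J, i ≠ j → u i = 0
    · obtain ⟨j, hj, h4, h5⟩ := hP
      rcases lt_or_eq_of_le (hwtP u hu j hj h4 h5).1 with h | h
      · exact Or.inl h
      · exact Or.inr ⟨j, hj, Finset.mem_filter.2 ⟨hu, h.symm, h4, h5⟩⟩
    · left
      -- the sum over `J` is at least two
      have h4 : 2 ≤ ∑ j ∈ J, u j := by
        by_contra hlt
        push Not at hlt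
        obtain ⟨j, hj, hjne⟩ := hne
        have h5 : u j ≤ ∑ k ∈ J, u k := Finset.single_le_sum (fun _ _ => Nat.zero_le _) hj
        have h6 : u j = 1 := by omega
        refine hP ⟨j, hj, h6, fun i hi hij => ?_⟩
        have h7 : u i + u j ≤ ∑ k ∈ J, u k := by
          rw [← Finset.sum_pair hij]
          refine Finset.sum_le_sum_of_subset ?_
          intro k hk
          rcases Finset.mem_insert.1 hk with h | h
          · rw [h]; exact hi
          · rw [Finset.mem_singleton.1 h]; exact hj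
        omega
      have h5 : dotH u q ≠ q.2 := by
        intro h
        have := hdis.1 u (Finset.mem_filter.2 ⟨hu, h⟩)
        omega
      have h6 : q.2 + 1 ≤ dotH u q := by
        rcases lt_or_eq_of_le (hqm u hu) with h | h
        · exact h
        · exact absurd h.symm h5
      have h7 : (m : ℤ) < (wt (fun i => if i ∈ J then m - α i else a i) u : ℤ) := by
        rw [hwt u]
        have h8 : ∑ i ∈ J, ((m : ℤ) - α i) * (u i : ℤ) =
            ∑ i ∈ J, (z.2 - β i) * (u i : ℤ) + l * ∑ i ∈ J, q.1 i * (u i : ℤ) := by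
          rw [Finset.mul_sum, ← Finset.sum_add_distrib]
          refine Finset.sum_congr rfl fun i hi => ?_
          rw [hαj i hi, hm']
          ring
        have h9 := h3 u hu
        have h10 := hdq u
        rw [h8, hm']
        have h11 : (l : ℤ) * (q.2 + 1) ≤ l * dotH u q :=
          mul_le_mul_of_nonneg_left h6 (Int.natCast_nonneg _)
        rw [h10] at h11
        nlinarith [h11, h9]
      exact_mod_cast h7
  · refine fun x hx => hncz (fun i => if i ∈ J then m - α i else a i) m ?_ ?_ ?_ ?_ x hx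
    · intro i
      by_cases hi : i ∈ J
      · have h4 := hαm i hi
        simp only [hi, if_true]
        omega
      · have h4 := hz1 i hi
        rw [← ha i hi] at h4
        simp only [hi, if_false]
        omega
    · rintro u hu ⟨j, hj, hne⟩
      have h4 := hdis.1 u hu
      have h5 : u j ≤ ∑ k ∈ J, u k := Finset.single_le_sum (fun _ _ => Nat.zero_le _) hj
      have h6 : u j = 1 := by omega
      exact (hwtP u (Finset.mem_filter.1 hu).1 j hj h6 (hG1 u hu j hj h6)).1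
    · intro j hj
      refine ⟨w j, (hwG j hj).1, (hwG j hj).2, ?_⟩
      have h4 := hwt (w j)
      rw [eql_sum_J_of_P (fun i => (m : ℤ) - α i) hj (hwG j hj).2
        (hG1 _ (hwG j hj).1 j hj (hwG j hj).2), ← hS, hwS j hj, ← hαj j hj] at h4
      have h5 : (wt (fun i => if i ∈ J then m - α i else a i) (w j) : ℤ) = m := by
        rw [h4]; ring
      exact_mod_cast h5
    intro j hj
    constructor
    · refine ⟨w j, Finset.mem_filter.2 ⟨hwsupp j hj, ?_, (hwG j hj).2,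
        hG1 _ (hwG j hj).1 j hj (hwG j hj).2⟩⟩
      have h4 := hwt (w j)
      rw [eql_sum_J_of_P (fun i => (m : ℤ) - α i) hj (hwG j hj).2
        (hG1 _ (hwG j hj).1 j hj (hwG j hj).2), ← hS, hwS j hj, ← hαj j hj] at h4
      have h5 : (wt (fun i => if i ∈ J then m - α i else a i) (w j) : ℤ) = m := by
        rw [h4]; ring
      exact_mod_cast h5
    · intro u hu
      obtain ⟨h4, h5, h6, h7⟩ := Finset.mem_filter.1 hu
      exact ⟨(hwtP u h4 j hj h6 h7).2 h5, h6⟩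

open Classical in
private theorem eql_fib (N : ℕ) (J : Finset (Fin n)) (a : Fin n → ℕ) :
    fib N J a (fun _ => 1) =
      fib N J (fun i => if i ∈ J then 1 else a i) (fun i => if i ∈ J then 1 else a i) := by
  unfold fib
  congr 1
  funext i
  by_cases hi : i ∈ J
  · simp [hi]
  · simp [hi]

open Classical in
private theorem eql_cap (hf : f ≠ 0) (hnd : ∀ a : Fin n → ℕ, NondegAt f (face f a (nuf f a)))
    {N N' m : ℕ} (hm : m < N) (hm' : m < N') {J : Finset (Fin n)} {a : Fin n → ℕ}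
    (hb : ∀ i ∉ J, a i < N) (hb' : ∀ i ∉ J, a i < N') :
    ∑ a' ∈ fib N J a (fun _ => 1), Wc f N m a' =
      ∑ a' ∈ fib N' J a (fun _ => 1), Wc f N' m a' := by
  rw [eql_fib, eql_fib]
  refine sum_fib_eq hf hnd hm hm' (fun i hi => ?_) (fun i hi => ?_) (fun j hj => ?_)
    (fun j hj => ?_)
  · simp only [hi, if_false]; exact hb i hi
  · simp only [hi, if_false]; exact hb' i hi
  · simp only [hj, if_true]; omega
  · simp only [hj, if_true]; omega

private theorem eql_tw (J : Finset (Fin n)) (Z : PowerSeries (RX n)) (z : GG n) :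
    tw LU J (cfun (((fac (uX 0 1, 1) : Polynomial (RX n)) : PowerSeries (RX n)) * Z)) z =
      tw LU J (cfun Z) z - qpw LU (-1) * tw LU J (cfun Z) (z - (0, 1)) := by
  have h1 : cfun (((fac (uX 0 1, 1) : Polynomial (RX n)) : PowerSeries (RX n)) * Z) =
      fun z => cfun Z z + (-qpw LU (-1)) * (fun z => cfun Z (z - ((0, 1) : GG n))) z := by
    funext w
    rw [cfun_fac]
    simp only [Pi.zero_apply, Finset.sum_const_zero, zero_sub, Nat.cast_one]
    ring
  rw [h1, tw_add LU J (cfun_LF Z) (((cfun_LF Z).shift (0, 1)).const_mul (-qpw LU (-1))),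
    tw_const_mul LU J _ ((cfun_LF Z).shift (0, 1)), tw_shift]
  ring

/-- The linear coefficients in the columns of `J` have no common zeros in the torus. -/
private theorem eql_ncz (hnd : ∀ I ⊆ f.support, I.Nonempty → NondegAt f I)
    {G : Finset (Fin n →₀ ℕ)} {P J : Finset (Fin n)} (hdis : Disj01 G J)
    (hL : LFE G P J) (b : Fin n → ℕ) (m : ℕ) (hb1 : ∀ i, 1 ≤ b i)
    (hb2 : ∀ u ∈ G, (∃ j ∈ J, u j ≠ 0) → m ≤ wt b u)
    (hb3 : ∀ j ∈ J, ∃ u ∈ G, u j = 1 ∧ wt b u = m)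
    (hb4 : ∀ j ∈ J, (Pjm f J b m j).Nonempty ∧ ∀ u ∈ Pjm f J b m j, u ∈ G ∧ u j = 1)
    (x : Fin n → ℂ) (hx : ∀ i, x i ≠ 0) :
    ∃ j ∈ J, eval x (pderiv j (inForm f (Pjm f J b m j))) ≠ 0 := by
  classical
  have hw : ∀ u : Fin n →₀ ℕ, (wt b u : ℤ) = ∑ i, (b i : ℤ) * (u i : ℤ) := by
    intro u
    unfold wt
    push_cast
    rfl
  obtain ⟨J₀, hJ₀, hne, hrk⟩ := hL (fun i => (b i : ℤ)) (m : ℤ)
    (fun i _ => by exact_mod_cast hb1 i)
    (fun u hu h => by rw [← hw]; exact_mod_cast hb2 u hu h)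
    (fun j hj => by
      obtain ⟨u, h1, h2, h3⟩ := hb3 j hj
      exact ⟨u, h1, h2, by rw [← hw]; exact_mod_cast h3⟩)
  have hD : Dfc (J₀.biUnion fun j => Pjm f J b m j) J₀ := by
    refine ⟨hne, ⟨fun u hu => ?_, fun j hj => ?_⟩, ?_⟩
    · obtain ⟨j, hj, h⟩ := Finset.mem_biUnion.1 hu
      exact (Finset.sum_le_sum_of_subset hJ₀).trans (hdis.1 u ((hb4 j (hJ₀ hj)).2 u h).1)
    · obtain ⟨u, hu⟩ := (hb4 j (hJ₀ hj)).1
      exact ⟨u, Finset.mem_biUnion.2 ⟨j, hj, hu⟩, ((hb4 j (hJ₀ hj)).2 u hu).2⟩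
    · refine le_trans (Nat.add_le_add_right (Submodule.finrank_mono (Submodule.span_mono ?_)) 1)
        hrk
      rintro y ⟨u, hu, h, rfl⟩
      obtain ⟨j, hj, h1⟩ := Finset.mem_biUnion.1 hu
      refine ⟨u, ((hb4 j (hJ₀ hj)).2 u h1).1, h, ?_, rfl⟩
      rw [← hw, (Finset.mem_filter.1 h1).2.1]
  obtain ⟨j, hj, h⟩ := ncz hnd (G := J₀.biUnion fun j => Pjm f J b m j)
    (fun u hu => by
      obtain ⟨j, -, h⟩ := Finset.mem_biUnion.1 hu
      exact (Finset.mem_filter.1 h).1) hD (fun j => Pjm f J b m j)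
    (fun j hj => ⟨(hb4 j (hJ₀ hj)).1, fun u hu =>
      ⟨Finset.mem_biUnion.2 ⟨j, hj, hu⟩, ((hb4 j (hJ₀ hj)).2 u hu).2⟩⟩) x hx
  exact ⟨j, hJ₀ hj, h⟩

/-- **The functional equation.** -/
theorem eq_main' (hf : f ≠ 0) (hnd : ∀ I ⊆ f.support, I.Nonempty → NondegAt f I) {K : ℕ}
    {q : GG n} (hq2 : 0 < q.2) (hq0 : ∀ i, 0 ≤ q.1 i) (hqK : ∀ i, q.1 i < K * q.2)
    (hqm : ∀ u ∈ f.support, q.2 ≤ dotH u q) {J : Finset (Fin n)} (hJ : J ⊆ suppG q)
    (hdis : Disj01 (Gk f q) J) (hL : LFE (Gk f q) (suppG q) J) (z : GG n) :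
    ∃ l₀ : ℕ, ∀ l ≥ l₀, tw LU J (cfun (((fac (uX 0 1, 1) : Polynomial (RX n)) :
      PowerSeries (RX n)) * ZJx f K ∅ (AddMonoidHom.id _))) (z + l • q) = 0 := by
  classical
  have hJD : Disjoint J (∅ : Finset (Fin n)) := Finset.disjoint_empty_right _
  have hnd' : ∀ a : Fin n → ℕ, NondegAt f (face f a (nuf f a)) := by
    intro a
    refine hnd _ (Finset.filter_subset _ _) ?_
    obtain ⟨-, v, hv, h⟩ := isMinWt_nuf hf a
    exact ⟨v, Finset.mem_filter.2 ⟨hv, h⟩⟩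
  have h1 : ∀ l : ℕ, ∀ i, (z + l • q).1 i = z.1 i + l * q.1 i := by
    intro l i
    simp [nsmul_eq_mul]
  have h2 : ∀ l : ℕ, (z + l • q).2 = z.2 + l * q.2 := by
    intro l
    simp [nsmul_eq_mul]
  have hK1 : 1 ≤ K := by
    obtain ⟨j, hj⟩ := hL.nonempty
    have h3 := hqK j
    have h0 := hq0 j
    rcases Nat.eq_zero_or_pos K with hK | hK
    · rw [hK, Nat.cast_zero, zero_mul] at h3
      omega
    · exact hK
  obtain ⟨l₁, hl₁⟩ := eq_tail_loc hq0 hqm hJ hdis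
    (eql_ncz hnd hdis hL) (z - (0, 1))
  refine ⟨l₁ + (z.2.natAbs + 1) + ∑ i, ((z.1 i).natAbs + 1 + K * z.2.natAbs), fun l hl => ?_⟩
  have hll₁ : l₁ ≤ l := by omega
  have hl2 : z.2.natAbs + 1 ≤ l := by omega
  have hl3 : ∀ i, (z.1 i).natAbs + 1 + K * z.2.natAbs ≤ l := by
    intro i
    have := Finset.single_le_sum (f := fun i => (z.1 i).natAbs + 1 + K * z.2.natAbs)
      (fun _ _ => Nat.zero_le _) (Finset.mem_univ i)
    omega
  rw [eql_tw]
  by_cases hb : ∃ i, i ∉ J ∧ i ∉ (∅ : Finset (Fin n)) ∧ (z + l • q).1 i < 1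
  · rw [tw_ZJx_zero f K hJD (Or.inr hb), tw_ZJx_zero f K hJD (Or.inr (by simpa using hb))]
    simp
  push Not at hb
  have hM : 1 ≤ (z + l • q).2 := by
    rw [h2]
    have : (l : ℤ) ≤ l * q.2 := by nlinarith
    have h3 : -(z.2.natAbs : ℤ) ≤ z.2 := by omega
    have h4 : (z.2.natAbs : ℤ) + 1 ≤ l := by exact_mod_cast hl2
    linarith
  obtain ⟨m, hm⟩ : ∃ m : ℕ, (z + l • q).2 = m + 1 :=
    ⟨((z + l • q).2 - 1).toNat, by omega⟩
  have hbd : ∀ i, (z + l • q).1 i < K * (m + 1) := by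
    intro i
    have e1 : (m : ℤ) + 1 = z.2 + l * q.2 := by rw [← hm, h2]
    rw [h1, e1]
    have e2 : q.1 i + 1 ≤ K * q.2 := hqK i
    have e3 : ((z.1 i).natAbs : ℤ) + 1 + K * z.2.natAbs ≤ l := by exact_mod_cast hl3 i
    have e4 : z.1 i ≤ (z.1 i).natAbs := by omega
    have e5 : -(K * (z.2.natAbs : ℤ)) ≤ K * z.2 := by
      have : -(z.2.natAbs : ℤ) ≤ z.2 := by omega
      have hK0 : (0 : ℤ) ≤ K := by positivity
      nlinarith
    have e6 : (l : ℤ) * (q.1 i + 1) ≤ l * (K * q.2) := by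
      have hl0 : (0 : ℤ) ≤ l := by positivity
      nlinarith
    nlinarith
  have hpos1 : ∀ i ∉ J, 1 ≤ (z + l • q).1 i := fun i hi => hb i hi (Finset.notMem_empty i)
  have hpos : ∀ i ∉ J, 0 ≤ (z + l • q).1 i := fun i hi => by
    have := hpos1 i hi
    omega
  have hDz : ∀ i ∈ (∅ : Finset (Fin n)), (z + l • q).1 i = 0 := fun i hi =>
    absurd hi (Finset.notMem_empty i)
  set a : Fin n → ℕ := fun i => ((z + l • q).1 i).toNat with ha
  have haz : ∀ i ∉ J, (a i : ℤ) = (z + l • q).1 i := by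
    intro i hi
    simp only [ha]
    exact Int.toNat_of_nonneg (hpos i hi)
  have hsub1 : ∀ w : GG n, (w - (0, 1)).1 = w.1 := by intro w; simp
  have hsub : (z + l • q) - (0, 1) = (z - (0, 1)) + l • q := by abel
  -- the two twisted sums
  have hA : tw LU J (cfun (ZJx f K ∅ (AddMonoidHom.id _))) (z + l • q) =
      qpw LU (∑ i, (z + l • q).1 i) * ∑ a' ∈ fib (K * (m + 1 + 1)) J a (fun _ => 1),
        Wc f (K * (m + 1 + 1)) (m + 1) a' := by
    refine tw_ZJx f K hJD (by rw [hm]; push_cast; ring) hDz (fun i hi hiD => ⟨hb i hi hiD, ?_⟩)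
    have := hbd i
    have hK0 : (0 : ℤ) ≤ K := by positivity
    push_cast
    nlinarith
  have hB : tw LU J (cfun (ZJx f K ∅ (AddMonoidHom.id _))) (z + l • q - (0, 1)) =
      qpw LU (∑ i, (z + l • q).1 i) * ∑ a' ∈ fib (K * (m + 1)) J a (fun _ => 1),
        Wc f (K * (m + 1)) m a' := by
    have := tw_ZJx f K (J := J) (D := ∅) hJD (z := z + l • q - (0, 1)) (m := m)
      (by simp only [Prod.snd_sub, hm]; ring)
      (by intro i hi; rw [hsub1]; exact hDz i hi)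
      (fun i hi hiD => by
        rw [hsub1]
        exact ⟨hb i hi hiD, (hbd i).le⟩)
    rw [this, hsub1]
  rw [hA, hB]
  -- common cap
  have haN : ∀ i ∉ J, a i < K * (m + 1) := by
    intro i hi
    have e1 := haz i hi
    have e2 := hbd i
    rw [← e1] at e2
    exact_mod_cast e2
  have hKm : m + 1 ≤ K * (m + 1) := Nat.le_mul_of_pos_left _ hK1
  have hKm' : K * (m + 1) ≤ K * (m + 1 + 1) := Nat.mul_le_mul_left _ (by omega)
  have hKm2 : m + 2 ≤ K * (m + 1 + 1) := Nat.le_mul_of_pos_left _ hK1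
  have c1 := eql_cap hf hnd' (N := K * (m + 1 + 1)) (N' := K * (m + 1 + 1) + m + 3)
    (m := m + 1) (J := J) (a := a) (by omega) (by omega)
    (fun i hi => lt_of_lt_of_le (haN i hi) hKm')
    (fun i hi => by have := haN i hi; omega)
  have c2 := eql_cap hf hnd' (N := K * (m + 1)) (N' := K * (m + 1 + 1) + m + 3)
    (m := m) (J := J) (a := a) (by omega) (by omega) haN
    (fun i hi => by have := haN i hi; omega)
  rw [c1, c2]
  obtain ⟨α, hα1, hα2, hα3, hα4⟩ := hl₁ l hll₁ (by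
      intro i hi; rw [← hsub, hsub1]; exact hpos1 i hi) a m
    (by intro i hi; rw [← hsub, hsub1]; exact haz i hi)
    (by rw [← hsub, Prod.snd_sub, hm]; ring)
  have key := eq_cap hf hnd' (N := K * (m + 1 + 1) + m + 3) (m := m) (by omega) (J := J) (a := a)
    (α := α) (fun i hi => by have := haN i hi; omega) hα1 hα2 hα3 hα4
  rw [key]
  unfold qpw
  ring

end MPb07157
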