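import Pool.Agent.Lib.MP_b07157_ag.N3.AsmDefs

/-!
# The pole side in all dimensions: definitions
-/

noncomputable section

namespace MPb07157

open MvPolynomial Finset

variable {n : ℕ}

section Patch

variable {R : Type} [CommRing R] (q : Rˣ)

/-- The power `q^k`. -/
def qpw (k : ℤ) : R := ((q ^ k : Rˣ) : R)

/-- The vectors supported on `J`. -/
def ejS (J : Finset (Fin n)) : Set (Fin n → ℤ) := {e | ∀ i ∉ J, e i = 0}

/-- The twisted sum of `φ` over the vectors supported on `J`. -/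
def tw (J : Finset (Fin n)) (φ : GG n → R) (z : GG n) : R :=
  ∑ᶠ e ∈ ejS J, qpw q (-∑ i, e i) * φ (z + (e, 0))

/-- Functions that vanish below some level and have finite support on each level. -/
def LF (φ : GG n → R) : Prop :=
  (∃ M : ℤ, ∀ z : GG n, z.2 < M → φ z = 0) ∧ ∀ m : ℤ, {z : GG n | z.2 = m ∧ φ z ≠ 0}.Finite

/-- The shift by `k`: `(shG k A) y = A (y - k)`. -/
def shG (k : GG n) (A : GG n →₀ R) : GG n →₀ R := A.mapDomain (fun y => y + k)

open Classical in
/-- The generating function: the convolution of `A` with the monoid generated by `F`. -/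
def GF (F : Finset (GG n)) (A : GG n →₀ R) (z : GG n) : R :=
  A.sum fun y a => if z - y ∈ AddSubmonoid.closure (F : Set (GG n)) then a else 0

open Classical in
/-- The sums of `A` over the cosets of the group generated by `F`. -/
def csum (F : Finset (GG n)) (A : GG n →₀ R) (z : GG n) : R :=
  A.sum fun y a => if y - z ∈ AddSubgroup.closure (F : Set (GG n)) then a else 0

/-- `F` is independent, also modulo the vectors supported on `J`. -/
def Ind (F : Finset (GG n)) (J : Finset (Fin n)) : Prop :=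
  ∀ (c : GG n → ℤ) (e : Fin n → ℤ), e ∈ ejS J → ∑ k ∈ F, c k • k = ((e, 0) : GG n) →
    e = 0 ∧ ∀ k ∈ F, c k = 0

end Patch

/-- The normalized coefficients of a power series. -/
def cfun (Y : PowerSeries (RX n)) (z : GG n) : Mot :=
  if 0 ≤ z.2 then qpw LU (∑ i, z.1 i) * (PowerSeries.coeff z.2.toNat Y).coeff z.1 else 0

/-- The smallest cone of the normal fan that contains `k`. -/
def car (f : MvPolynomial (Fin n) ℂ) (k : GG n) : Set (GG n) :=
  {z | (∀ i, 0 ≤ z.1 i) ∧ (∀ i, k.1 i = 0 → z.1 i = 0) ∧ (∀ u ∈ f.support, z.2 ≤ dotH u z) ∧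
    ∀ u ∈ f.support, dotH u k = k.2 → dotH u z = z.2}

/-- The face of `k`. -/
def Gk (f : MvPolynomial (Fin n) ℂ) (k : GG n) : Finset (Fin n →₀ ℕ) :=
  f.support.filter fun u => dotH u k = k.2

/-- The support of the first component. -/
def suppG (k : GG n) : Finset (Fin n) := Finset.univ.filter fun i => k.1 i ≠ 0

open Classical in
/-- A chosen element in the relative interior of a cone. -/
def bvec (C : Set (GG n)) : GG n :=
  if h : ∃ b ∈ C, ∀ z ∈ C, ∃ M : ℕ, M • b - z ∈ C then h.choose else 0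

/-- The chosen vectors of the cones that contribute the candidate pole `s₀`. -/
structure IsB (f : MvPolynomial (Fin n) ℂ) (D : Finset (Fin n)) (s₀ : ℚ) (k : GG n) : Prop where
  pos : 0 < k.2
  mem : k ∈ car f k
  bv : bvec (car f k) = k
  s0 : ∀ z ∈ car f k, ((∑ i, z.1 i : ℤ) : ℚ) = -s₀ * z.2
  zero : ∀ i ∈ D, k.1 i = 0

/-- The flags of chosen vectors. -/
def Fl (f : MvPolynomial (Fin n) ℂ) (D : Finset (Fin n)) (s₀ : ℚ) : Set (Finset (GG n)) :=
  {F | (∀ k ∈ F, IsB f D s₀ k) ∧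
    ∀ k ∈ F, ∀ k' ∈ F, car f k ⊆ car f k' ∨ car f k' ⊆ car f k}

/-- Decomposable series: after multiplication by factors that do not contribute the candidate pole
`s₀`, the series is a sum of generating functions of flags in `𝓕`. -/
def FDec (s₀ : ℚ) (𝓕 : Set (Finset (GG n))) (Y : PowerSeries (RX n)) : Prop :=
  ∃ (s : Multiset ((RX n)ˣ × ℕ)) (K : Finset (Finset (GG n)))
    (A : Finset (GG n) → (GG n →₀ Mot)), (∀ w ∈ s, w ∈ OH n s₀ ∧ 0 < w.2) ∧ (∀ F ∈ K, F ∈ 𝓕) ∧
    ∀ z, cfun ((((s.map fac).prod : Polynomial (RX n)) : PowerSeries (RX n)) * Y) z =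
      ∑ F ∈ K, GF F (A F) z

/-- The columns `J` are pairwise disjoint 0/1-columns on `G`, and not zero. -/
def Disj01 (G : Finset (Fin n →₀ ℕ)) (J : Finset (Fin n)) : Prop :=
  (∀ u ∈ G, ∑ j ∈ J, u j ≤ 1) ∧ ∀ j ∈ J, ∃ u ∈ G, u j = 1

/-- The exponents of `G` that are not zero on `J`, as rational vectors. -/
def onJ (G : Finset (Fin n →₀ ℕ)) (J : Finset (Fin n)) : Set (Fin n → ℚ) :=
  {x | ∃ u ∈ G, (∃ j ∈ J, u j ≠ 0) ∧ x = fun i => (u i : ℚ)}

/-- A deficit. -/
def Dfc (G : Finset (Fin n →₀ ℕ)) (J : Finset (Fin n)) : Prop :=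
  J.Nonempty ∧ Disj01 G J ∧ Module.finrank ℚ (Submodule.span ℚ (onJ G J)) + 1 ≤ 2 * J.card

/-- A minimal deficit. -/
def MinDfc (G : Finset (Fin n →₀ ℕ)) (J : Finset (Fin n)) : Prop :=
  Dfc G J ∧ ∀ J' ⊂ J, ¬ Dfc G J'

/-- A minimal deficit that is compatible with all minimal deficits. -/
def ConfFree (G : Finset (Fin n →₀ ℕ)) (P J : Finset (Fin n)) : Prop :=
  J ⊆ P ∧ MinDfc G J ∧ ∀ J' ⊆ P, MinDfc G J' → Disj01 G (J ∪ J')

open Classical in
/-- The union of the minimal deficits inside `J`. -/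
def Core (G : Finset (Fin n →₀ ℕ)) (J : Finset (Fin n)) : Finset (Fin n) :=
  J.filter fun j => ∃ J' ⊆ J, MinDfc G J' ∧ j ∈ J'

/-- The part of `f` without the variables in `J`. -/
def fOff (f : MvPolynomial (Fin n) ℂ) (J : Finset (Fin n)) : MvPolynomial (Fin n) ℂ :=
  inForm f (f.support.filter fun u => ∀ j ∈ J, u j = 0)

/-- The rest of `f`. -/
def fOn (f : MvPolynomial (Fin n) ℂ) (J : Finset (Fin n)) : MvPolynomial (Fin n) ℂ :=
  inForm f (f.support.filter fun u => ∃ j ∈ J, u j ≠ 0)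

/-- The exponents of weight `m` with `u_j = 1` and `u_i = 0` for the other `i ∈ J`. -/
def Pjm (f : MvPolynomial (Fin n) ℂ) (J : Finset (Fin n)) (b : Fin n → ℕ) (m : ℕ) (j : Fin n) :
    Finset (Fin n →₀ ℕ) :=
  f.support.filter fun u => wt b u = m ∧ u j = 1 ∧ ∀ i ∈ J, i ≠ j → u i = 0

/-- Truncated arcs that vanish to order at least `b`, with order exactly `b` outside `J`. -/
def QS (N : ℕ) (J : Finset (Fin n)) (b : Fin n → ℕ) : Set (Fin n × Fin N → ℂ) :=
  {γ | Vn b γ ∧ ∀ i ∉ J, lead0 b γ i ≠ 0}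

open Classical in
/-- The order vectors that agree with `a` outside `J`, with orders between `b` and `N` in `J`. -/
def fib (N : ℕ) (J : Finset (Fin n)) (a b : Fin n → ℕ) : Finset (Fin n → ℕ) :=
  Fintype.piFinset fun i => if i ∈ J then Finset.Icc (b i) N else {a i}

end MPb07157
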